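import Pool.Agent.Helper92.HA.PSpace

set_option autoImplicit false

/-!
# Fibrations whose general fibre is compared with a log canonical hyperplane arrangement
-/

namespace Pool.Agent.Helper92.HA

open Module Pool.Agent.Helper92.Weak

section

variable {k : Type*} (K : Type*) {K' M L' : Type*} [Field k] [Field K] [Field K'] [Field M]
  [Field L'] [Algebra k K] [Algebra k L'] [Algebra K L'] [Algebra K' M] [Algebra K' L']
  [Algebra M L'] {d : ℕ} {t : Fin d → M} {ι : Type*} [Fintype ι] [DecidableEq ι]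

/-- `ℓ` is the log discrepancy of the pair `(ℙᵈ, ∑ δ_i H_i)` along the valuation `v` of `L'`, trivial on `K'`:
`ℓ = 1 + o - c`, where `o` is the order along `v` of the form `dy ∧ dt₁ ∧ ... ∧ dt_d` (`y` is any
transcendence basis of the function field `K` of the base, `v` is trivial on `K`) and `c` is the
value along `v` of the divisor of `dt₁ ∧ ... ∧ dt_d` on `ℙᵈ`, which is `-(d + 1)` times the
hyperplane at infinity, plus `∑ δ_i H_i`; the value of the hyperplane `H_i` is `v (l i) - m`, where
`m` is the smallest of the `v (l i)`, and `l o = 1` is the function of the hyperplane at infinity. -/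
def Arr.IsLogDisc (A : Arr K' L' t ι) (v : DVal k L') (ℓ : ℚ) : Prop :=
  ∃ (n : ℕ) (y : Fin n → K) (o m : ℤ), IsTranscendenceBasis k y ∧
    v.HasOrd (wedge k (Fin.append (fun i => algebraMap K L' (y i)) (tL L' t))) o ∧ IsMin A v m ∧
    ℓ = 1 + o - ((d + 1) * m + ∑ i, A.δ i * (v (A.l i) - m))

end

section

variable {k K L K' M L' : Type*} [Field k] [Field K] [Field L] [Field K'] [Field M] [Field L']
  [Algebra k K] [Algebra k L] [Algebra k L'] [Algebra K L] [Algebra K K'] [Algebra K L']
  [Algebra L L'] [Algebra K' L'] [Algebra K' M] [Algebra M L'] [IsScalarTower K L L']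
  [IsScalarTower K K' L'] {d : ℕ} {t : Fin d → M} {ι : Type*} [Fintype ι] [DecidableEq ι]

/-- The valuation `v` of `L'` lies over the prime divisor `D` of `ℙᵈ` (over `K'`). -/
def Arr.Over (A : Arr K' L' t ι) (v : DVal k L') (D : DVal K' M) : Prop :=
  D ∈ (projSpace A.torus).primeDivisors ∧
    ∃ e : ℕ, 0 < e ∧ ∀ x : M, v (algebraMap M L' x) = e * D x

variable (K) in
/-- The log pull-backs of `(X, Δ)` and of `(ℙᵈ, ∑ δ_i H_i)` to `L'` agree along `v`: if `v` lies over the
prime divisor `P` of `X` with ramification `ε`, then `ε (1 - Δ P)` is the log discrepancy of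
`(ℙᵈ, ∑ δ_i H_i)` along `v`. -/
def Arr.EqAt (A : Arr K' L' t ι) {X : ProjVar k L} (Δ : X.Div) (v : DVal k L') : Prop :=
  ∀ (P : X.primeDivisors) (ε : ℕ), LiesOver v P.1 ε → ∀ ℓ, A.IsLogDisc K v ℓ → ε * (1 - Δ P) = ℓ

/-- `X → Z` is a morphism with connected general fibre (the function field `K` of `Z` is
algebraically closed in the function field `L` of `X`) which maps every prime divisor of `X` onto
`Z` or onto a prime divisor of `Z`.
`above`: every valuation of `L'` over a prime divisor of `ℙᵈ` lies over a prime divisor `P` of `X` which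
maps onto `Z`.
`disc`: on the general fibre the log pull-back of `(X, Δ)` to `L'` is at least the log pull-back of
`(ℙᵈ, ∑ δ_i H_i)`: for `v` over such a `P` with ramification `ε`, `ε (1 - Δ P)` is at most the log
discrepancy of `(ℙᵈ, ∑ δ_i H_i)` along `v`.
`eq`: either the two log pull-backs agree along all `v` over prime divisors of `ℙᵈ`; or
`K_(ℙᵈ) + ∑ δ_i H_i` is ample, `L' = L ⊗ K'`, and for each prime divisor `D` of `ℙᵈ` they agree along all
`v` over `D` or along none of them. -/
structure IsArrangement (X : ProjVar k L) (Δ : X.Div) (Z : ProjVar k K) (A : Arr K' L' t ι) :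
    Prop where
  mor : IsMorphism X Z
  equi : ∀ P ∈ X.primeDivisors, (∃ a : K, P (algebraMap K L a) ≠ 0) →
    ∃ Q ∈ Z.primeDivisors, ∃ e, LiesOver P Q e
  conn : ∀ x : L, IsAlgebraic K x → x ∈ Set.range (algebraMap K L)
  finK : FiniteDimensional K K'
  finL : FiniteDimensional L L'
  above : ∀ (v : DVal k L') (D : DVal K' M), A.Over v D →
    ∃ P : X.primeDivisors, (∀ x : K, P.1 (algebraMap K L x) = 0) ∧ ∃ ε, LiesOver v P.1 ε
  disc : ∀ P : X.primeDivisors, (∀ x : K, P.1 (algebraMap K L x) = 0) →
    ∀ (v : DVal k L') (ε : ℕ), LiesOver v P.1 ε → ∀ ℓ, A.IsLogDisc K v ℓ → ε * (1 - Δ P) ≤ ℓ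
  eq : (∀ (v : DVal k L') (D : DVal K' M), A.Over v D → A.EqAt K Δ v) ∨
    (0 < A.h ∧ Algebra.IsPushout K K' L L' ∧ ∀ (v v' : DVal k L') (D : DVal K' M),
      A.Over v D → A.Over v' D → A.EqAt K Δ v → A.EqAt K Δ v')

end

end Pool.Agent.Helper92.HA
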