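import Pool.Agent.Helper63.PB.Hurwitz
import Pool.Agent.Helper63.PB.Under
import Pool.Agent.Helper60.MA.LogGe
import Pool.Agent.Helper60.MA.Defs
import Pool.Agent.Helper92.Ga.Forms

set_option autoImplicit false

/-!
# HA-25 OmDet: the form `dy ∧ dg₁ ∧ ... ∧ dg_d` and the logarithmic inequality

`y` a transcendence basis of `K / k`, `s` a transcendence basis of `M / K`, `D i` the derivations of `M / K` with
`D i (s j) = δ_ij`.

`append_basisD`. As `append_basis` (private) of `Helper63/PB/MkFrame.lean`: `hy.sumElim_comp hs`, reindexed by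
`Fin (n + d) ≃ Fin d ⊕ Fin n`.

`omD_base`: as `om_base` there.

`exists_derivations`. `Ω[M⁄K]` has the basis `D s_j` (`Forms.exists_kaehler_basis hs`, `CharZero K`), take
`D i = (b.coord i).compDer (KaehlerDifferential.D K M)`.

`der_unique`. A `K`-derivation of `M` is determined by the values on `s`: the difference `D₁ - D₂` kills `K(s)`
and so everything (`Helper60.MA.constField`, `Helper60.MA.der_eq_zero_of_isAlgebraic`), or: `Derivation.ext` via the
basis of `Ω[M⁄K]`.

`omD_eq`. `B` the basis of `Ω[M⁄k]` of the `D y_i, D s_j` (`append_basisD`, `exists_kaehler_basis`). For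
`x ∈ M` the coordinate of `D x` at `Fin.natAdd n i` is `D i x`: both sides are `k`-derivations of `M` with the same
values on the members of the transcendence basis (`0` on `y`: `D i` is `K`-linear; `δ_ij` on `s_j`); `der_unique` over `k`.
`Forms.dform_eq_det`: the matrix of `D y_1, ..., D y_n, D g_1, ..., D g_d` in the basis `B` is block triangular with
diagonal blocks `1` and `(D i (g j))` (`Matrix.det_submatrix_equiv_self` with `finSumFinEquiv`, as in
`Helper92.Weak.dform_append`, `Matrix.det_fromBlocks_zero₂₁`).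

`omD_change`. `dy = g₀ dz` in `K` gives `dy ∧ dg = g₀ dz ∧ dg`. By `omD_eq` for `y` and for `z` (same `D`, same
determinant) we may assume `g = s`: this is `Helper92.Weak.dform_append` (`b'` the basis `D z_i` of `Ω[K⁄k]`, `B'` the
basis `D z_i, D s_j` of `Ω[M⁄k]`; its hypotheses: `D f = ∑ b'.repr (D f) i • D z_i` in `Ω[K⁄k]`, apply
`KaehlerDifferential.map k k K M`), and `smul_dform_inj`.

`log_ineqD`. Coordinates at `v₀`: `Helper92.Ga.exists_coord_unif hy v₀ hc`: `z, i₀, p, g₀` with `dy = g₀ dz`,
`v₀ g₀ = c`, `v₀ (z i) ≥ 0`, `v₀ (z i₀) = 1`; `z i ≠ 0` because `D z_i` is in a basis. `z` is a transcendence basis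
(`Forms.isTranscendenceBasis_of_basis`). `dz ∧ dg ≠ 0` (`omD_change` and `not_isOrd_zero`), so
`(z, g)` is a transcendence basis of `M` (`exists_basis_of_ne_zero`, `isTranscendenceBasis_of_basis`).
`Helper60.MA.log_ge` with `S = univ`, `f = g₀`: `v g₀ + ∑ v (z i) + ∑ v (g j) - 1 ≤ o`, and
`v (z i) = e v₀ (z i)` is `≥ 0`, and is `e` for `i = i₀`, `v g₀ = e c`.

`log_ineqH`. `log_ge` with `S = univ`, `f = 1`, `(y, g)` and `v (y i) = 0`.
-/

namespace Pool.Agent.Helper92.HA

open Pool.Agent.Helper92.Weak Module
open scoped KaehlerDifferential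
open Pool.Agent.Helper50.Forms Pool.Agent.Helper92.Ga

variable {k K M : Type*} [Field k] [Field K] [Field M] [Algebra k K] [Algebra k M] [Algebra K M]

variable (k) in
/-- The form `dy ∧ dg₁ ∧ ... ∧ dg_d`, `y` functions in `K`, `g` functions in `M`. -/
noncomputable def OmD {n d : ℕ} (y : Fin n → K) (g : Fin d → M) : ⋀[M]^(n + d) Ω[M⁄k] :=
  dform k (Fin.append (fun i => algebraMap K M (y i)) g)

theorem append_basisD [IsScalarTower k K M] {n d : ℕ} {y : Fin n → K}
    (hy : IsTranscendenceBasis k y) {s : Fin d → M} (hs : IsTranscendenceBasis K s) :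
    IsTranscendenceBasis k (Fin.append (fun i => algebraMap K M (y i)) s) := by
  have h1 := hy.sumElim_comp hs
  let ε : Fin (n + d) ≃ Fin d ⊕ Fin n := finSumFinEquiv.symm.trans (Equiv.sumComm _ _)
  have h2 := h1.comp_equiv ε
  have h3 : (Sum.elim s (algebraMap K M ∘ y)) ∘ ε =
      Fin.append (fun i => algebraMap K M (y i)) s := by
    funext i
    induction i using Fin.addCases with
    | left i => rw [Fin.append_left]; simp [ε]
    | right l => rw [Fin.append_right]; simp [ε]
  rw [← h3]
  exact h2

theorem omD_base {K' : Type*} [Field K'] [Algebra k K'] [Algebra K K'] [Algebra K' M]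
    [IsScalarTower K K' M] {n d : ℕ} (y : Fin n → K) (g : Fin d → M) :
    OmD k (fun i => algebraMap K K' (y i)) g = OmD k y g := by
  unfold OmD
  congr 1
  funext i
  induction i using Fin.addCases with
  | left i => rw [Fin.append_left, Fin.append_left, ← IsScalarTower.algebraMap_apply]
  | right l => rw [Fin.append_right, Fin.append_right]

theorem exists_derivations [CharZero K] {d : ℕ} {s : Fin d → M} (hs : IsTranscendenceBasis K s) :
    ∃ D : Fin d → Derivation K M M, ∀ i j, D i (s j) = if i = j then 1 else 0 := by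
  obtain ⟨b, hb⟩ := exists_kaehler_basis hs
  refine ⟨fun i => (b.coord i).compDer (KaehlerDifferential.D K M), fun i j => ?_⟩
  change b.repr (KaehlerDifferential.D K M (s j)) i = _
  rw [← hb, b.repr_self, Finsupp.single_apply]
  by_cases hij : j = i
  · rw [if_pos hij, if_pos hij.symm]
  · rw [if_neg hij, if_neg fun h => hij h.symm]

theorem der_unique {d : ℕ} {s : Fin d → M} [CharZero K]
    (hs : IsTranscendenceBasis K s) (D₁ D₂ : Derivation K M M) (h : ∀ j, D₁ (s j) = D₂ (s j)) :
    D₁ = D₂ := by
  obtain ⟨b, hb⟩ := exists_kaehler_basis hs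
  have h1 : D₁.liftKaehlerDifferential = D₂.liftKaehlerDifferential := b.ext fun j => by
    rw [hb, Derivation.liftKaehlerDifferential_comp_D, Derivation.liftKaehlerDifferential_comp_D, h]
  ext x
  rw [← D₁.liftKaehlerDifferential_comp_D x, h1, D₂.liftKaehlerDifferential_comp_D x]

variable [IsScalarTower k K M] [CharZero k]

private theorem omd_tower {n d : ℕ} {y : Fin n → K}
    (hy : IsTranscendenceBasis k y) {s : Fin d → M} (hs : IsTranscendenceBasis K s)
    (z : Fin n → K) (b : Basis (Fin n) K Ω[K⁄k])
    (hb : ∀ i, b i = KaehlerDifferential.D k K (z i)) :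
    ∃ B : Basis (Fin (n + d)) M Ω[M⁄k],
      (∀ i, B i = KaehlerDifferential.D k M
        (Fin.append (fun i => algebraMap K M (z i)) s i)) ∧
      (∀ (f : K) (i : Fin n), B.repr (KaehlerDifferential.D k M (algebraMap K M f))
        (Fin.castAdd d i) = algebraMap K M (b.repr (KaehlerDifferential.D k K f) i)) ∧
      (∀ (f : K) (j : Fin d),
        B.repr (KaehlerDifferential.D k M (algebraMap K M f)) (Fin.natAdd n j) = 0) := by
  classical
  have hz := isTranscendenceBasis_of_basis hy z b hb
  obtain ⟨B₀, hB₀⟩ := exists_kaehler_basis_aux (hz.sumElim_comp hs)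
  let e : Fin d ⊕ Fin n ≃ Fin (n + d) := (Equiv.sumComm _ _).trans finSumFinEquiv
  have he1 : ∀ i, e.symm (Fin.castAdd d i) = Sum.inr i := by
    intro i
    rw [Equiv.symm_apply_eq]
    simp [e]
  have he2 : ∀ j, e.symm (Fin.natAdd n j) = Sum.inl j := by
    intro j
    rw [Equiv.symm_apply_eq]
    simp [e]
  have hB : ∀ i, (B₀.reindex e) i =
      KaehlerDifferential.D k M (Fin.append (fun i => algebraMap K M (z i)) s i) := by
    intro i
    rw [Basis.reindex_apply, hB₀]
    refine Fin.addCases (fun i => ?_) (fun j => ?_) i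
    · rw [he1, Fin.append_left]
      rfl
    · rw [he2, Fin.append_right]
      rfl
  have hD : ∀ f : K, KaehlerDifferential.D k M (algebraMap K M f) =
      ∑ i, algebraMap K M (b.repr (KaehlerDifferential.D k K f) i) •
        (B₀.reindex e) (Fin.castAdd d i) := by
    intro f
    have h1 : KaehlerDifferential.D k M (algebraMap K M f) =
        KaehlerDifferential.map k k K M (KaehlerDifferential.D k K f) :=
      (KaehlerDifferential.map_D k k K M f).symm
    rw [h1]
    conv_lhs => rw [← b.sum_repr (KaehlerDifferential.D k K f)]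
    rw [map_sum]
    refine Finset.sum_congr rfl fun i _ => ?_
    rw [map_smul, hb, KaehlerDifferential.map_D, hB, Fin.append_left, algebraMap_smul]
  refine ⟨B₀.reindex e, hB, fun f i => ?_, fun f j => ?_⟩
  · rw [hD]
    simp only [map_sum, map_smul, Basis.repr_self, Finsupp.finsetSum_apply, Finsupp.smul_apply,
      smul_eq_mul, Finsupp.single_apply, mul_ite, mul_one, mul_zero]
    rw [Finset.sum_eq_single i]
    · simp
    · intro j _ hj
      rw [if_neg]
      intro h
      exact hj (Fin.castAdd_injective n d h)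
    · simp
  · rw [hD]
    simp only [map_sum, map_smul, Basis.repr_self, Finsupp.finsetSum_apply, Finsupp.smul_apply,
      smul_eq_mul, Finsupp.single_apply, mul_ite, mul_one, mul_zero]
    refine Finset.sum_eq_zero fun i _ => ?_
    rw [if_neg]
    intro h
    have := congrArg Fin.val h
    simp at this
    have := i.2
    omega


omit [CharZero k] in
/-- The coefficient of `ds_i` is the value of the derivation. -/
private theorem omd_repr {n d : ℕ} {s : Fin d → M} (D : Fin d → Derivation K M M)
    (hD : ∀ i j, D i (s j) = if i = j then 1 else 0) {z : Fin n → K}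
    {B : Basis (Fin (n + d)) M Ω[M⁄k]} (hB : ∀ i, B i = KaehlerDifferential.D k M
      (Fin.append (fun i => algebraMap K M (z i)) s i)) (i : Fin d) (g : M) :
    B.repr (KaehlerDifferential.D k M g) (Fin.natAdd n i) = D i g := by
  let δ : Derivation k M M := (D i).restrictScalars k
  have hδ : ∀ x, δ x = D i x := fun _ => rfl
  have h1 : B.coord (Fin.natAdd n i) = δ.liftKaehlerDifferential := by
    refine B.ext fun j => ?_
    rw [B.coord_apply, B.repr_self, hB, Derivation.liftKaehlerDifferential_comp_D, hδ,
      Finsupp.single_apply]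
    induction j using Fin.addCases with
    | left j =>
      rw [Fin.append_left, (D i).map_algebraMap, if_neg (castAdd_ne_natAdd j i)]
    | right l =>
      rw [Fin.append_right, hD]
      by_cases hl : l = i
      · subst hl
        rw [if_pos rfl, if_pos rfl]
      · rw [if_neg fun h => hl (Fin.natAdd_injective d n h), if_neg fun h => hl h.symm]
  have h2 := congrArg (fun l : Ω[M⁄k] →ₗ[M] M => l (KaehlerDifferential.D k M g)) h1
  simp only [B.coord_apply, Derivation.liftKaehlerDifferential_comp_D, hδ] at h2
  exact h2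

omit [CharZero k] in
private theorem omd_eq {n d : ℕ} {s : Fin d → M} (D : Fin d → Derivation K M M)
    (hD : ∀ i j, D i (s j) = if i = j then 1 else 0) {z : Fin n → K}
    {B : Basis (Fin (n + d)) M Ω[M⁄k]} (hB : ∀ i, B i = KaehlerDifferential.D k M
      (Fin.append (fun i => algebraMap K M (z i)) s i)) (g : Fin d → M) :
    OmD k z g = (Matrix.of fun i j => D i (g j)).det • OmD k z s := by
  unfold OmD
  rw [dform_eq_det _ B hB]
  congr 1
  rw [Basis.det_apply, ← Matrix.det_submatrix_equiv_self
    (finSumFinEquiv : Fin n ⊕ Fin d ≃ Fin (n + d))]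
  have h3 : (B.toMatrix fun j => KaehlerDifferential.D k M
      (Fin.append (fun i => algebraMap K M (z i)) g j)).submatrix finSumFinEquiv finSumFinEquiv =
      Matrix.fromBlocks 1 (Matrix.of fun i j => B.repr (KaehlerDifferential.D k M (g j))
        (Fin.castAdd d i)) 0 (Matrix.of fun i j => D i (g j)) := by
    ext i j
    rw [Matrix.submatrix_apply, Basis.toMatrix_apply]
    rcases j with j | j
    · have h4 : KaehlerDifferential.D k M (Fin.append (fun i => algebraMap K M (z i)) g
          (finSumFinEquiv (Sum.inl j))) = B (Fin.castAdd d j) := by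
        rw [finSumFinEquiv_apply_left, Fin.append_left, hB, Fin.append_left]
      rw [h4, B.repr_self, Finsupp.single_apply]
      rcases i with i | i
      · rw [finSumFinEquiv_apply_left, Matrix.fromBlocks_apply₁₁, Matrix.one_apply]
        by_cases hij : j = i
        · subst hij
          rw [if_pos rfl, if_pos rfl]
        · rw [if_neg fun h => hij (Fin.castAdd_injective n d h), if_neg fun h => hij h.symm]
      · rw [finSumFinEquiv_apply_right, Matrix.fromBlocks_apply₂₁,
          if_neg (castAdd_ne_natAdd j i)]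
        rfl
    · rcases i with i | i
      · rw [finSumFinEquiv_apply_left, finSumFinEquiv_apply_right, Fin.append_right,
          Matrix.fromBlocks_apply₁₂]
        rfl
      · rw [finSumFinEquiv_apply_right, finSumFinEquiv_apply_right, Fin.append_right,
          Matrix.fromBlocks_apply₂₂, omd_repr D hD hB]
        rfl
  rw [h3, Matrix.det_fromBlocks_zero₂₁, Matrix.det_one, one_mul]

theorem omD_eq {n d : ℕ} {y : Fin n → K} (hy : IsTranscendenceBasis k y) {s : Fin d → M}
    (hs : IsTranscendenceBasis K s) (D : Fin d → Derivation K M M)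
    (hD : ∀ i j, D i (s j) = if i = j then 1 else 0) (g : Fin d → M) :
    OmD k y g = (Matrix.of fun i j => D i (g j)).det • OmD k y s := by
  obtain ⟨B, hB⟩ := exists_kaehler_basis (append_basisD hy hs)
  exact omd_eq D hD hB g

theorem omD_ne {n d : ℕ} {y : Fin n → K} (hy : IsTranscendenceBasis k y) {s : Fin d → M}
    (hs : IsTranscendenceBasis K s) : OmD k y s ≠ 0 := by
  obtain ⟨B, hB⟩ := exists_kaehler_basis (append_basisD hy hs)
  exact dform_ne_zero _ B hB

theorem omD_change {n d : ℕ} {y z : Fin n → K} (hy : IsTranscendenceBasis k y)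
    (hz : IsTranscendenceBasis k z) {s : Fin d → M} (hs : IsTranscendenceBasis K s) {g₀ : K}
    (h : dform k y = g₀ • dform k z) (g : Fin d → M) :
    OmD k y g = algebraMap K M g₀ • OmD k z g := by
  have : CharZero K := charZero_of_injective_algebraMap (algebraMap k K).injective
  obtain ⟨D, hD⟩ := exists_derivations hs
  obtain ⟨b', hb'⟩ := exists_kaehler_basis hz
  obtain ⟨B', hB', hB1', hB2'⟩ := omd_tower hz hs z b' hb'
  have hom : OmD k y s = algebraMap K M g₀ • OmD k z s := by
    unfold OmD
    rw [dform_append _ y z b' B' hB' hB1' hB2']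
    congr 2
    have h1 : (1 : K) • dform k y = (b'.det fun j => KaehlerDifferential.D k K (y j)) • dform k z := by
      rw [dform_eq_det z b' hb' y, one_smul]
    rw [one_smul, h] at h1
    exact (smul_dform_inj z b' hb' h1).symm
  rw [omD_eq hy hs D hD g, omD_eq hz hs D hD g, hom, smul_comm]

theorem log_ineqD {n d : ℕ} {y : Fin n → K} (hy : IsTranscendenceBasis k y) {s : Fin d → M}
    (hs : IsTranscendenceBasis K s) {v : DVal k M} {v₀ : DVal k K} {e : ℕ}
    (he : LiesOver v v₀ e) {g : Fin d → M} (hg : ∀ j, g j ≠ 0) {o c : ℤ}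
    (ho : v.IsOrd (OmD k y g) o) (hc : v₀.IsOrd (dform k y) c) :
    e * (c + 1) + ∑ j, v (g j) - 1 ≤ o := by
  classical
  obtain ⟨z, b, i₀, p, g₀, hb, hz0, -, hp, hzp, hg₀, hg₀c, heq⟩ := exists_coord_unif hy v₀ hc
  have hz := isTranscendenceBasis_of_basis hy z b hb
  have hch := omD_change hy hz hs heq g
  rw [hch] at ho
  have hne : dform k (Fin.append (fun i => algebraMap K M (z i)) g) ≠ 0 := by
    intro h0
    have h1 : OmD k z g = 0 := h0
    rw [h1, smul_zero] at ho
    exact not_isOrd_zero v o ho
  obtain ⟨B₀, -⟩ := exists_kaehler_basis (append_basisD hy hs)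
  obtain ⟨B, hB⟩ := exists_basis_of_ne_zero B₀ _ hne
  have htr := isTranscendenceBasis_of_basis (append_basisD hy hs) _ B hB
  have h0 : ∀ i, Fin.append (fun i => algebraMap K M (z i)) g i ≠ 0 := by
    intro i hi
    have h1 := hB i
    rw [hi, map_zero] at h1
    exact B.ne_zero i h1
  have hgM : algebraMap K M g₀ ≠ 0 := by simpa using hg₀
  have h2 := Pool.Agent.Helper60.MA.log_ge htr B hB v Finset.univ h0
    (fun i hi => absurd (Finset.mem_univ i) hi) hgM ho
  rw [Fin.sum_univ_add] at h2
  simp only [Fin.append_left, Fin.append_right] at h2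
  have h3 : (e : ℤ) ≤ ∑ i, v (algebraMap K M (z i)) := by
    have h4 : v (algebraMap K M (z i₀)) ≤ ∑ i, v (algebraMap K M (z i)) :=
      Finset.single_le_sum (f := fun i => v (algebraMap K M (z i)))
        (fun i _ => by
          rw [he.2]
          exact mul_nonneg (by positivity) (hz0 i)) (Finset.mem_univ i₀)
    rw [he.2, hzp, hp, mul_one] at h4
    exact h4
  rw [he.2, hg₀c] at h2
  linarith

theorem log_ineqH {n d : ℕ} {y : Fin n → K} (hy : IsTranscendenceBasis k y) {s : Fin d → M}
    (hs : IsTranscendenceBasis K s) {v : DVal k M} (hv : ∀ x : K, v (algebraMap K M x) = 0)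
    {g : Fin d → M} (hg : ∀ j, g j ≠ 0) {o : ℤ} (ho : v.IsOrd (OmD k y g) o) :
    ∑ j, v (g j) - 1 ≤ o := by
  classical
  have hne : dform k (Fin.append (fun i => algebraMap K M (y i)) g) ≠ 0 := by
    intro h0
    have h1 : OmD k y g = 0 := h0
    rw [h1] at ho
    exact not_isOrd_zero v o ho
  obtain ⟨B₀, -⟩ := exists_kaehler_basis (append_basisD hy hs)
  obtain ⟨B, hB⟩ := exists_basis_of_ne_zero B₀ _ hne
  have htr := isTranscendenceBasis_of_basis (append_basisD hy hs) _ B hB
  have h0 : ∀ i, Fin.append (fun i => algebraMap K M (y i)) g i ≠ 0 := by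
    intro i hi
    have h1 := hB i
    rw [hi, map_zero] at h1
    exact B.ne_zero i h1
  have ho' : v.IsOrd ((1 : M) • dform k (Fin.append (fun i => algebraMap K M (y i)) g)) o := by
    rw [one_smul]
    exact ho
  have h2 := Pool.Agent.Helper60.MA.log_ge htr B hB v Finset.univ h0
    (fun i hi => absurd (Finset.mem_univ i) hi) one_ne_zero ho'
  rw [Fin.sum_univ_add, v.map_one] at h2
  simp only [Fin.append_left, Fin.append_right, hv, Finset.sum_const_zero, zero_add] at h2
  exact h2

end Pool.Agent.Helper92.HA
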