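import Pool.Agent.Helper92.HA.Defs
import Pool.Agent.Helper92.HA.OmDet
import Pool.Agent.Helper63.PB.VertPrimes
import Pool.Agent.Helper92.Weak.Final
import Pool.Agent.Helper60.MA.Pairs
import Pool.Agent.Helper60.MA.Ops

set_option autoImplicit false

/-!
# HA-26 MkDFrame: the frame of a fibration

`exists_vertD`: this is `Helper63.PB.exists_vert` (VertPrimes) for a transcendence basis `s : Fin d → L` of `L / K`
instead of one function. PROOF: copy the file `Helper63/PB/VertPrimes.lean`; the private lemmas `vrp_findim`, `vrp_torus`,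
`vrp_over` for `IntermediateField.adjoin K (Set.range s)` and `fun j => ⟨s j, _⟩`
(`Helper92.Ga.gaussVal` is available for every `IsTorus K t`, `t : Fin r → _`); the rest is unchanged.

`exists_dframe`. `y : Fin n → K` a transcendence basis of `K / k` (`exists_basis_of_trdeg`). `trdeg_K L = d`:
`trdeg_K L + trdeg_L L' = trdeg_K L' = trdeg_K K' + trdeg_K' L'` (`lift_trdeg_add_eq`, as in `exists_s` of
`Helper63/PB/MkFrame.lean`), so there is a transcendence basis `s : Fin d → L` of `L / K`; `s' = algebraMap L L' ∘ s` is a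
transcendence basis of `L' / K` (`IsTranscendenceBasis.algebraMap_comp`), and so is `t` (`K' / K` is algebraic: e.g.
`ht` restricted to `K`, cardinality `d = trdeg`: `isTranscendenceBasis_of_lift_trdeg_le_of_finite`).
`D` from `exists_derivations ht` (over `K'`), `u = det (D i (s' j))`. `D₀ i = (D i).restrictScalars K`.
`omD_eq hy t D₀ (g)`: `OmD k y g = det (D i (g j)) • OmD k y t`. So `OmD k y s' = u • OmD k y t` and `u ≠ 0` since
`OmD k y s' ≠ 0` (`omD_ne`).
`a, c, g, h`: `Helper60.MA.exists_psi` for `append_basisD hy hs` and for `y`, exactly as in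
`Helper63.PB.exists_frame` (copy that part of the proof).
ORDERS: by `Helper63.PB.hurwitz` the form `OmD k y s'` (`= dform k (algebraMap L L' ∘ Fin.append ..)`, `om_map` there) has
order `ε (a P + 1) - 1` along every `v` over `P`; so `OmD k y t` has order `ε (a P + 1) - 1 - v u`
(`isOrd_smul`).
`star`: if the determinant is `0`, `Ge` is trivial (`Or.inl`). Otherwise `OmD k y g = det • OmD k y t` has order
`o = v det + ε (a P + 1) - 1 - v u` (`isOrd_smul`), and `log_ineqD` for `v` over `Q` (`under_trans`, multiplicity `ε e`)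
gives `ε e (c Q + 1) + ∑ v (g j) - 1 ≤ o`.
`starh`: the same with `log_ineqH`, since `v` is trivial on `K`.
-/

namespace Pool.Agent.Helper92.HA

open Pool.Agent.Helper92.Weak Module
open scoped KaehlerDifferential

section Aux

variable {k K L : Type*} [Field k] [Field K] [Field L] [Algebra k K] [Algebra k L] [Algebra K L]
  [IsScalarTower k K L]

private theorem h45_findim {X : ProjVar k L} {d : ℕ} {s : Fin d → L}
    (hs' : ∀ x : L, IsAlgebraic (IntermediateField.adjoin K (Set.range s)) x) :
    FiniteDimensional (IntermediateField.adjoin K (Set.range s)) L := by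
  set F := IntermediateField.adjoin K (Set.range s) with hF
  have hst : IsScalarTower k F L :=
    IsScalarTower.of_algebraMap_eq fun _ => rfl
  have h1 : IntermediateField.adjoin F (Set.range fun j => X.x j / X.x 0) = ⊤ := by
    rw [eq_top_iff]
    intro z _
    have hz : z ∈ IntermediateField.adjoin k (Set.range fun j => X.x j / X.x 0) := by
      rw [X.gen 0]
      trivial
    have h2 : IntermediateField.adjoin k (Set.range fun j => X.x j / X.x 0) ≤
        (IntermediateField.adjoin F (Set.range fun j => X.x j / X.x 0)).restrictScalars k := by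
      rw [IntermediateField.adjoin_le_iff]
      exact IntermediateField.subset_adjoin F _
    exact h2 hz
  have h3 : FiniteDimensional F (IntermediateField.adjoin F (Set.range fun j => X.x j / X.x 0)) :=
    IntermediateField.finiteDimensional_adjoin fun x _ => (hs' x).isIntegral
  rw [h1] at h3
  exact LinearEquiv.finiteDimensional
    (IntermediateField.topEquiv (F := F) (E := L)).toLinearEquiv

private theorem h45_torus {K L : Type*} [Field K] [Field L] [Algebra K L] {d : ℕ} {s : Fin d → L}
    (hs : AlgebraicIndependent K s) :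
    IsTorus K (fun j : Fin d => (⟨s j, IntermediateField.subset_adjoin K _ ⟨j, rfl⟩⟩ :
      IntermediateField.adjoin K (Set.range s))) := by
  constructor
  · exact AlgebraicIndependent.of_comp (IntermediateField.adjoin K (Set.range s)).val hs
  · apply IntermediateField.lift_injective
    rw [IntermediateField.lift_adjoin, IntermediateField.lift_top]
    congr 1
    ext x
    constructor
    · rintro ⟨_, ⟨j, rfl⟩, rfl⟩
      exact ⟨j, rfl⟩
    · rintro ⟨j, rfl⟩
      exact ⟨_, ⟨j, rfl⟩, rfl⟩

private theorem h45_over [CharZero k] {X : ProjVar k L} {d : ℕ} {s : Fin d → L}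
    (hs : IsTranscendenceBasis K s) (Q : DVal k K) : ∃ (w : DVal k L) (n : ℕ), LiesOver w Q n := by
  have hs' : ∀ x : L, IsAlgebraic (IntermediateField.adjoin K (Set.range s)) x := fun x =>
    hs.isAlgebraic_field.isAlgebraic x
  have hfd := h45_findim (X := X) hs'
  have hst : IsScalarTower k (IntermediateField.adjoin K (Set.range s)) L :=
    IsScalarTower.of_algebraMap_eq fun _ => rfl
  have h1 : LiesOver (Pool.Agent.Helper92.Ga.gaussVal (h45_torus hs.1) Q) Q 1 :=
    ⟨one_pos, fun a => by rw [Pool.Agent.Helper92.Ga.gaussVal_algebraMap]; simp⟩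
  obtain ⟨w, e, hw⟩ := Pool.Agent.Helper47.PQ.exists_over L
    (Pool.Agent.Helper92.Ga.gaussVal (h45_torus hs.1) Q)
  exact ⟨w, _, Pool.Agent.Helper63.PB.under_trans hw h1⟩

/-- A transcendence basis of `L / K` with `d` elements. -/
private theorem h45_exists_s {K L K' L' : Type*} [Field K] [Field L] [Field K'] [Field L']
    [Algebra K L] [Algebra K K'] [Algebra K L'] [Algebra L L'] [Algebra K' L']
    [IsScalarTower K L L'] [IsScalarTower K K' L'] [FiniteDimensional K K']
    [FiniteDimensional L L'] {d : ℕ} {t : Fin d → L'} (ht : IsTranscendenceBasis K' t) :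
    Algebra.trdeg K L' = d ∧ Algebra.trdeg K L = d := by
  have h1 : Algebra.trdeg K' L' = d := by
    have h := ht.lift_cardinalMk_eq_trdeg
    rw [Cardinal.mk_fin, Cardinal.lift_natCast] at h
    have h' : Cardinal.lift.{0} (Algebra.trdeg K' L') = d := by
      rw [← h]
    simpa using h'
  have h2 : Algebra.trdeg K L' = d := by
    have h := lift_trdeg_add_eq K K' L'
    rw [trdeg_eq_zero (R := K) (A := K'), h1] at h
    simp only [Cardinal.lift_zero, zero_add, Cardinal.lift_natCast] at h
    rw [eq_comm, Cardinal.lift_eq_nat_iff] at h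
    exact h
  refine ⟨h2, ?_⟩
  have h := lift_trdeg_add_eq K L L'
  rw [trdeg_eq_zero (R := L) (A := L'), h2] at h
  simp only [Cardinal.lift_zero, add_zero, Cardinal.lift_natCast] at h
  rw [Cardinal.lift_eq_nat_iff] at h
  exact h

/-- The image of `dy ∧ ds` in a larger field. -/
private theorem h45_om_map {k K L M : Type*} [Field k] [Field K] [Field L] [Field M] [Algebra k K]
    [Algebra k L] [Algebra k M] [Algebra K L] [Algebra K M] [Algebra L M] [IsScalarTower K L M]
    {n d : ℕ} (y : Fin n → K) (s : Fin d → L) :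
    dform k (fun i => algebraMap L M (Fin.append (fun i => algebraMap K L (y i)) s i)) =
      OmD k y (fun j => algebraMap L M (s j)) := by
  unfold OmD
  congr 1
  funext i
  induction i using Fin.addCases with
  | left i => rw [Fin.append_left, Fin.append_left, ← IsScalarTower.algebraMap_apply]
  | right l => rw [Fin.append_right, Fin.append_right]

end Aux

theorem exists_vertD {k K L : Type*} [Field k] [Field K] [Field L] [Algebra k K] [Algebra k L]
    [Algebra K L] [IsScalarTower k K L] [CharZero k] {X : ProjVar k L} {Z : ProjVar k K}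
    (hmor : IsMorphism X Z) {d : ℕ} {s : Fin d → L} (hs : IsTranscendenceBasis K s)
    {Q : DVal k K} (hQ : Q ∈ Z.primeDivisors) : ∃ P ∈ X.primeDivisors, ∃ e, LiesOver P Q e := by
  classical
  obtain ⟨w, n, hn0, hw⟩ := h45_over (X := X) hs Q
  have hn : (0 : ℤ) < n := by exact_mod_cast hn0
  obtain ⟨R, hR, hRw⟩ := X.exists_center w
  obtain ⟨S, hS, hab⟩ := hmor R hR
  have hnn : ∀ a : K, 0 ≤ w (algebraMap K L a) ↔ 0 ≤ Q a := by
    intro a
    rw [hw a]
    constructor
    · intro h
      by_contra hcon
      push Not at hcon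
      nlinarith
    · intro h
      positivity
  have hSQ : S = Q.ring := by
    refine Z.separated hS hQ (V := Q.ring) ⟨?_, ?_⟩ ⟨le_rfl, fun z _ h => h⟩
    · intro a ha
      have h1 := hRw.1 (hab.1 a ha)
      rw [DVal.mem_ring] at h1 ⊢
      exact (hnn a).1 h1
    · intro a ha ha'
      apply hab.2 a ha
      apply hRw.2 _ (hab.1 a ha)
      rw [DVal.mem_ring] at ha' ⊢
      rw [← map_inv₀]
      exact (hnn _).2 ha'
  subst hSQ
  obtain ⟨p, hp0, hp⟩ := Q.exists_uniformizer
  have hpR : (algebraMap K L p)⁻¹ ∉ R := by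
    intro h
    have h1 := hab.2 p (by rw [DVal.mem_ring, hp]; norm_num) h
    rw [DVal.mem_ring, DVal.map_inv, hp] at h1
    norm_num at h1
  obtain ⟨P, hP, hRP, hpP⟩ : ∃ P ∈ X.primeDivisors, R ≤ P.ring ∧ (algebraMap K L p)⁻¹ ∉ P.ring := by
    by_contra hcon
    push Not at hcon
    exact hpR (X.hartogs hR hcon)
  rw [DVal.mem_ring, DVal.map_inv] at hpP
  have hge : ∀ a : K, 0 ≤ Q a → 0 ≤ P (algebraMap K L a) := fun a ha => hRP (hab.1 a ha)
  have h0 : ∀ a : K, Q a = 0 → P (algebraMap K L a) = 0 := by
    intro a ha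
    have h1 := hge a ha.ge
    have h2 := hge a⁻¹ (by rw [DVal.map_inv, ha, neg_zero])
    rw [map_inv₀, DVal.map_inv] at h2
    omega
  refine ⟨P, hP, (P (algebraMap K L p)).toNat, by omega, fun a => ?_⟩
  have hcast : ((P (algebraMap K L p)).toNat : ℤ) = P (algebraMap K L p) := by omega
  rw [hcast]
  by_cases ha : a = 0
  · rw [ha]; simp
  have hpL : algebraMap K L p ≠ 0 := by rwa [Ne, map_eq_zero]
  have haL : algebraMap K L a ≠ 0 := by rwa [Ne, map_eq_zero]
  have h3 := h0 (a * p ^ (-(Q a))) (by
    rw [Q.map_mul ha (zpow_ne_zero _ hp0), Q.map_zpow, hp]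
    ring)
  rw [_root_.map_mul, map_zpow₀, P.map_mul haL (zpow_ne_zero _ hpL), P.map_zpow] at h3
  linarith

theorem exists_dframe {k K L K' L' : Type*} [Field k] [Field K] [Field L] [Field K'] [Field L']
    [Algebra k K] [Algebra k L] [Algebra k K'] [Algebra k L'] [Algebra K L] [Algebra K K']
    [Algebra K L'] [Algebra L L'] [Algebra K' L'] [IsScalarTower k K L] [IsScalarTower k K K']
    [IsScalarTower k K L'] [IsScalarTower k L L'] [IsScalarTower k K' L'] [IsScalarTower K L L']
    [IsScalarTower K K' L'] [FiniteDimensional K K'] [FiniteDimensional L L'] [CharZero k]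
    {n d : ℕ} (hn : Algebra.trdeg k K = n) {X : ProjVar k L} {Z : ProjVar k K}
    (hmor : IsMorphism X Z)
    (hequi : ∀ P ∈ X.primeDivisors, (∃ a : K, P (algebraMap K L a) ≠ 0) →
      ∃ Q ∈ Z.primeDivisors, ∃ e, LiesOver P Q e)
    {t : Fin d → L'} (ht : IsTranscendenceBasis K' t) (p : X.Pair (n + d)) (q : Z.Pair n) :
    ∃ (y : Fin n → K) (F : DFrame X Z K' t) (g : L) (h : K), IsTranscendenceBasis k y ∧
      g ≠ 0 ∧ h ≠ 0 ∧ (∀ P, p.can P = P.1 g + F.a P) ∧ (∀ Q, q.can Q = Q.1 h + F.c Q) ∧
      ∀ (P : X.primeDivisors) (v : DVal k L') (ε : ℕ), LiesOver v P.1 ε →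
        v.IsOrd (OmD k y t) (ε * (F.a P + 1) - 1 - v F.u) := by
  classical
  have hK0 : CharZero K := charZero_of_injective_algebraMap (algebraMap k K).injective
  have hK'0 : CharZero K' := charZero_of_injective_algebraMap (algebraMap k K').injective
  obtain ⟨y, hy⟩ := exists_basis_of_trdeg hn
  obtain ⟨htr1, htr2⟩ := h45_exists_s (K := K) (L := L) ht
  obtain ⟨s, hs⟩ := exists_basis_of_trdeg htr2
  set s' : Fin d → L' := fun j => algebraMap L L' (s j) with hs'def
  have hs' : IsTranscendenceBasis K s' := hs.algebraMap_comp (A := L')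
  have htK : IsTranscendenceBasis K t := by
    have h1 : AlgebraicIndependent K t :=
      ht.1.restrictScalars (R := K) (algebraMap K K').injective
    refine h1.isTranscendenceBasis_of_lift_trdeg_le_of_finite ?_
    rw [htr1, Cardinal.mk_fin, Cardinal.lift_natCast, Cardinal.lift_natCast]
  -- the derivations
  obtain ⟨D, hD⟩ := exists_derivations ht
  let D₀ : Fin d → Derivation K L' L' := fun i => (D i).restrictScalars K
  have hD₀ : ∀ i j, D₀ i (t j) = if i = j then 1 else 0 := hD
  have heq : ∀ g : Fin d → L', OmD k y g = (Matrix.of fun i j => D i (g j)).det • OmD k y t :=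
    fun g => omD_eq hy htK D₀ hD₀ g
  set u : L' := (Matrix.of fun i j => D i (s' j)).det with hudef
  have hu : u ≠ 0 := by
    intro h0
    apply omD_ne hy hs'
    rw [heq s', ← hudef, h0, zero_smul]
  -- the forms
  obtain ⟨g, hg, hgP⟩ := Pool.Agent.Helper60.MA.exists_psi X p (append_basisD hy hs)
    (one_ne_zero (α := L))
  obtain ⟨h, hh, hhQ⟩ := Pool.Agent.Helper60.MA.exists_psi Z q hy (one_ne_zero (α := K))
  choose a haO haC using hgP
  choose c hcO hcC using hhQ
  simp only [one_smul] at haO hcO
  have hfa : ∀ P : X.primeDivisors, a P ≠ 0 → P ∈ p.can.support ∪ (X.finite_prin g).toFinset := by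
    intro P hP
    rw [Finset.mem_union, Finsupp.mem_support_iff, Set.Finite.mem_toFinset]
    by_contra hcon
    push Not at hcon
    have h1 := haC P
    have h2 : (P.1 g : ℚ) = 0 := by
      by_contra h3
      exact hcon.2 h3
    rw [hcon.1, h2, add_zero] at h1
    exact hP (by exact_mod_cast h1.symm)
  have hfc : ∀ Q : Z.primeDivisors, c Q ≠ 0 → Q ∈ q.can.support ∪ (Z.finite_prin h).toFinset := by
    intro Q hQ
    rw [Finset.mem_union, Finsupp.mem_support_iff, Set.Finite.mem_toFinset]
    by_contra hcon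
    push Not at hcon
    have h1 := hcC Q
    have h2 : (Q.1 h : ℚ) = 0 := by
      by_contra h3
      exact hcon.2 h3
    rw [hcon.1, h2, add_zero] at h1
    exact hQ (by exact_mod_cast h1.symm)
  let aF : X.primeDivisors →₀ ℤ := Finsupp.onFinset _ a hfa
  let cF : Z.primeDivisors →₀ ℤ := Finsupp.onFinset _ c hfc
  have haF : ∀ P, aF P = a P := fun _ => rfl
  have hcF : ∀ Q, cF Q = c Q := fun _ => rfl
  -- the forms on `L'`
  have hord : ∀ (P : X.primeDivisors) (v : DVal k L') (ε : ℕ), LiesOver v P.1 ε →
      v.IsOrd (OmD k y t) (ε * (a P + 1) - 1 - v u) := by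
    intro P v ε hv
    have h1 := Pool.Agent.Helper63.PB.hurwitz (append_basisD hy hs) hv (haO P)
    rw [h45_om_map, ← hs'def, heq s', ← hudef] at h1
    rw [← isOrd_smul v hu]
    have h2 : v u + (ε * (a P + 1) - 1 - v u) = ε * (a P + 1) - 1 := by ring
    rw [h2]
    exact h1
  have hordg : ∀ (P : X.primeDivisors) (v : DVal k L') (ε : ℕ), LiesOver v P.1 ε →
      ∀ g : Fin d → L', (Matrix.of fun i j => D i (g j)).det ≠ 0 →
        v.IsOrd (OmD k y g) (v (Matrix.of fun i j => D i (g j)).det +
          (ε * (a P + 1) - 1 - v u)) := by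
    intro P v ε hv g hg0
    rw [heq g]
    exact (isOrd_smul v hg0).2 (hord P v ε hv)
  have star : ∀ (P : X.primeDivisors) (Q : Z.primeDivisors) (e : ℕ), LiesOver P.1 Q.1 e →
      ∀ (v : DVal k L') (ε : ℕ), LiesOver v P.1 ε → ∀ g : Fin d → L', (∀ j, g j ≠ 0) →
        v.Ge ((∑ j, v (g j) - (ε * (aF P + 1 - e * (cF Q + 1)) - v u) : ℤ) : ℚ)
          (Matrix.of fun i j => D i (g j)).det := by
    intro P Q e hPQ v ε hv g hg
    by_cases hg0 : (Matrix.of fun i j => D i (g j)).det = 0
    · exact Or.inl hg0
    right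
    have h1 := log_ineqD hy htK (Pool.Agent.Helper63.PB.under_trans hv hPQ) hg
      (hordg P v ε hv g hg0) (hcO Q)
    rw [haF, hcF]
    have h2 : ∑ j, v (g j) - (ε * (a P + 1 - e * (c Q + 1)) - v u) ≤
        v (Matrix.of fun i j => D i (g j)).det := by
      push_cast at h1
      linarith
    exact_mod_cast h2
  have starh : ∀ P : X.primeDivisors, (∀ x : K, P.1 (algebraMap K L x) = 0) →
      ∀ (v : DVal k L') (ε : ℕ), LiesOver v P.1 ε → ∀ g : Fin d → L', (∀ j, g j ≠ 0) →
        v.Ge ((∑ j, v (g j) - (ε * (aF P + 1) - v u) : ℤ) : ℚ)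
          (Matrix.of fun i j => D i (g j)).det := by
    intro P hP v ε hv g hg
    by_cases hg0 : (Matrix.of fun i j => D i (g j)).det = 0
    · exact Or.inl hg0
    right
    have hvK : ∀ x : K, v (algebraMap K L' x) = 0 := by
      intro x
      rw [IsScalarTower.algebraMap_apply K L L', hv.2, hP, mul_zero]
    have h1 := log_ineqH hy htK hvK hg (hordg P v ε hv g hg0)
    rw [haF]
    have h2 : ∑ j, v (g j) - (ε * (a P + 1) - v u) ≤
        v (Matrix.of fun i j => D i (g j)).det := by
      linarith
    exact_mod_cast h2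
  refine ⟨y, { equi := hequi, surj := fun Q hQ => exists_vertD hmor hs hQ, indep := ht.1,
               alg := ht.isAlgebraic_field, D := D, D_t := hD, u := u, u_ne := hu, a := aF,
               c := cF, star := star, starh := starh },
    g, h, hy, hg, hh, ?_, ?_, hord⟩
  · intro P
    rw [haC P]
    change (a P : ℚ) + _ = _ + (a P : ℚ)
    ring
  · intro Q
    rw [hcC Q]
    change (c Q : ℚ) + _ = _ + (c Q : ℚ)
    ring

end Pool.Agent.Helper92.HA
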