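import Pool.Agent.Helper92.HA.Gauss

set_option autoImplicit false

/-!
# HA-21 Wronsk: generalised Wronskians

`word D w x`: apply the derivations `D i`, `i ∈ w`, to `x` (last one first).
`exists_wronskian`. Let `S ⊆ Eⁿ` be the `E`-span of the vectors `(word D w (y j))_j` over all words `w`. If `S` is
not everything there is a nonzero `a ∈ Eⁿ` with `∑_j a_j word D w (y_j) = 0` for all `w` (a linear form
vanishing on `S`); take one with the smallest number of nonzero entries, normalised with some entry
`a_l = 1`. Applying `D i` and subtracting the relation for `i :: w`: `∑_j D i (a_j) word D w (y_j) = 0` for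
all `w`, with fewer nonzero entries (`D i 1 = 0`), so all `D i (a_j) = 0`, `a_j ∈ K'` (`hconst`), and `w = []`
gives a linear relation of the `y_j` over `K'`: contradiction. So `n` of the vectors form a basis of
`Eⁿ` (`exists` a linearly independent subfamily of cardinality `n` of a spanning family), and the
determinant is nonzero.
`wronsk_coeff`. Let `x = ∑ a_j y_j`, `a_j ∈ K'`. `word D (w i) x = ∑_j a_j word D (w i) (y_j)` (the derivations are
`K'`-linear). Cramer's rule: `a_j det = ∑_i (cofactor) word D (w i) x`; `v.Ge (m - ℓ C₀) (word D (w i) x)` for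
words of length `≤ ℓ`, cofactors are sums of products of `n - 1` entries of value `≥ -C₁`.
-/

namespace Pool.Agent.Helper92.HA

open Module Pool.Agent.Helper92.Weak


/-- Iterated derivatives. -/
def word {K' E : Type*} [Field K'] [Field E] [Algebra K' E] {d : ℕ}
    (D : Fin d → Derivation K' E E) : List (Fin d) → E → E
  | [], x => x
  | i :: w, x => D i (word D w x)

lemma word_sum {K' E : Type*} [Field K'] [Field E] [Algebra K' E] {d : ℕ}
    (D : Fin d → Derivation K' E E) {n : ℕ} (a : Fin n → K') (y : Fin n → E)
    (w : List (Fin d)) :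
    word D w (∑ j, algebraMap K' E (a j) * y j) = ∑ j, algebraMap K' E (a j) * word D w (y j) := by
  induction w with
  | nil => rfl
  | cons i w ih =>
    change D i (word D w _) = ∑ j, algebraMap K' E (a j) * D i (word D w (y j))
    rw [ih, map_sum]
    refine Finset.sum_congr rfl fun j _ => ?_
    rw [← Algebra.smul_def, ← Algebra.smul_def, (D i).map_smul]

open Classical in
/-- No relation with coefficients in `E` between the vectors of words. -/
lemma word_no_rel {K' E : Type*} [Field K'] [Field E] [Algebra K' E] {d : ℕ}
    (D : Fin d → Derivation K' E E)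
    (hconst : ∀ x : E, (∀ i, D i x = 0) → x ∈ Set.range (algebraMap K' E)) {n : ℕ}
    (y : Fin n → E) (hy : LinearIndependent K' y) (N : ℕ) :
    ∀ a : Fin n → E, (Finset.univ.filter fun j => a j ≠ 0).card ≤ N →
      (∀ w : List (Fin d), ∑ j, a j * word D w (y j) = 0) → a = 0 := by
  classical
  induction N with
  | zero =>
    intro a ha _
    have h1 := Finset.card_eq_zero.1 (Nat.le_zero.1 ha)
    funext j
    by_contra hj
    have : j ∈ Finset.univ.filter fun j => a j ≠ 0 := by simpa using hj
    rw [h1] at this
    exact absurd this (Finset.notMem_empty j)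
  | succ N ih =>
    intro a ha hrel
    by_contra hne
    obtain ⟨l, hl⟩ : ∃ l, a l ≠ 0 := by
      by_contra h
      push Not at h
      exact hne (funext h)
    set b : Fin n → E := fun j => a j / a l with hb
    have hbl : b l = 1 := div_self hl
    have hbrel : ∀ w : List (Fin d), ∑ j, b j * word D w (y j) = 0 := by
      intro w
      have : ∑ j, b j * word D w (y j) = (∑ j, a j * word D w (y j)) / a l := by
        rw [Finset.sum_div]
        refine Finset.sum_congr rfl fun j _ => ?_
        simp only [hb]
        ring
      rw [this, hrel w, zero_div]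
    have hD0 : ∀ i, (fun j => D i (b j)) = 0 := by
      intro i
      apply ih
      · have hsub : (Finset.univ.filter fun j => D i (b j) ≠ 0) ⊆
            (Finset.univ.filter fun j => a j ≠ 0).erase l := by
          intro j hj
          rw [Finset.mem_filter] at hj
          rw [Finset.mem_erase, Finset.mem_filter]
          refine ⟨?_, Finset.mem_univ j, ?_⟩
          · rintro rfl
            apply hj.2
            rw [hbl]
            exact (D i).map_one_eq_zero
          · intro h0
            apply hj.2
            simp [hb, h0]
        have h1 := Finset.card_le_card hsub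
        rw [Finset.card_erase_of_mem (by simpa using hl)] at h1
        omega
      · intro w
        have h1 := congrArg (D i) (hbrel w)
        rw [map_sum, map_zero] at h1
        have h2 := hbrel (i :: w)
        change ∑ j, b j * D i (word D w (y j)) = 0 at h2
        have h3 : ∑ j, D i (b j * word D w (y j)) =
            ∑ j, b j * D i (word D w (y j)) + ∑ j, D i (b j) * word D w (y j) := by
          rw [← Finset.sum_add_distrib]
          refine Finset.sum_congr rfl fun j _ => ?_
          rw [Derivation.leibniz, smul_eq_mul, smul_eq_mul]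
          ring
        rw [h3, h2, zero_add] at h1
        exact h1
    have hc : ∀ j, ∃ c : K', algebraMap K' E c = b j := fun j =>
      hconst (b j) fun i => congrFun (hD0 i) j
    choose c hc using hc
    have h0 := hbrel []
    change ∑ j, b j * y j = 0 at h0
    have h1 : ∑ j, c j • y j = 0 := by
      rw [← h0]
      refine Finset.sum_congr rfl fun j _ => ?_
      rw [Algebra.smul_def, hc j]
    have h2 := Fintype.linearIndependent_iff.1 hy c h1 l
    have h3 := hc l
    rw [h2, map_zero, hbl] at h3
    exact zero_ne_one h3

theorem exists_wronskian {K' E : Type*} [Field K'] [Field E] [Algebra K' E] {d : ℕ}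
    (D : Fin d → Derivation K' E E)
    (hconst : ∀ x : E, (∀ i, D i x = 0) → x ∈ Set.range (algebraMap K' E)) {n : ℕ}
    (y : Fin n → E) (hy : LinearIndependent K' y) :
    ∃ w : Fin n → List (Fin d), (Matrix.of fun i j => word D (w i) (y j)).det ≠ 0 := by
  classical
  set u : List (Fin d) → (Fin n → E) := fun w j => word D w (y j) with hu
  have hspan : Submodule.span E (Set.range u) = ⊤ := by
    by_contra hne
    obtain ⟨f, hf0, hf⟩ := Submodule.exists_le_ker_of_lt_top _ (lt_top_iff_ne_top.2 hne)
    apply hf0
    have ha : (fun j => f (Pi.single j 1)) = (0 : Fin n → E) := by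
      apply word_no_rel D hconst y hy n _ ?_ ?_
      · exact (Finset.card_le_univ _).trans (by rw [Fintype.card_fin])
      · intro w
        have h1 : f (u w) = 0 := hf (Submodule.subset_span ⟨w, rfl⟩)
        have h2 : u w = ∑ j, (word D w (y j)) • (Pi.single j 1 : Fin n → E) := by
          funext i
          simp [hu, Finset.sum_apply, Pi.single_apply]
        rw [h2, map_sum] at h1
        rw [← h1]
        refine Finset.sum_congr rfl fun j _ => ?_
        rw [map_smul, smul_eq_mul, mul_comm]
    apply LinearMap.pi_ext
    intro j x
    have h3 : (Pi.single j x : Fin n → E) = x • (Pi.single j 1 : Fin n → E) := by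
      funext i
      simp [Pi.single_apply]
    rw [h3, map_smul, congrFun ha j]
    simp
  obtain ⟨b, hbsub, hbspan, hbli⟩ := exists_linearIndependent E (Set.range u)
  rw [hspan] at hbspan
  have hbasis : Basis b E (Fin n → E) := Basis.mk hbli (by rw [Subtype.range_coe, hbspan])
  have : Fintype b := FiniteDimensional.fintypeBasisIndex hbasis
  have hcard : Fintype.card b = n := by
    rw [← Module.finrank_eq_card_basis hbasis, Module.finrank_fin_fun]
  let e : Fin n ≃ b := (Fintype.equivFinOfCardEq hcard).symm
  have hw : ∀ i : Fin n, ∃ w, u w = (e i : Fin n → E) := fun i => hbsub (e i).2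
  choose w hw using hw
  refine ⟨w, ?_⟩
  have hli : LinearIndependent E (fun i : Fin n => ((e i : b) : Fin n → E)) :=
    hbli.comp e e.injective
  have hrow : (Matrix.of fun i j => word D (w i) (y j)).row =
      fun i : Fin n => ((e i : b) : Fin n → E) := by
    funext i
    rw [← hw i]
    rfl
  rw [← hrow, Matrix.linearIndependent_rows_iff_isUnit, Matrix.isUnit_iff_isUnit_det] at hli
  exact hli.ne_zero

theorem wronsk_coeff {k K' E : Type*} [Field k] [Field K'] [Field E] [Algebra k K']
    [Algebra k E] [Algebra K' E] [IsScalarTower k K' E] {d : ℕ}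
    (D : Fin d → Derivation K' E E) (v : DVal k E) {n : ℕ} {y : Fin n → E}
    {w : Fin n → List (Fin d)} (hdet : (Matrix.of fun i j => word D (w i) (y j)).det ≠ 0)
    {C₀ C₁ : ℚ} (hC₀ : 0 ≤ C₀) (hC₁ : 0 ≤ C₁) {ℓ : ℕ} (hℓ : ∀ i, (w i).length ≤ ℓ)
    (hD : ∀ (i : Fin d) (m : ℚ) (g : E), v.Ge m g → v.Ge (m - C₀) (D i g))
    (h1 : ∀ i j, v.Ge (-C₁) (word D (w i) (y j))) (a : Fin n → K') (m : ℚ)
    (hm : v.Ge m (∑ j, algebraMap K' E (a j) * y j)) (j : Fin n) :
    v.Ge (m - ℓ * C₀ - n * C₁ - v (Matrix.of fun i j => word D (w i) (y j)).det)
      (algebraMap K' E (a j)) := by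
  classical
  set W : Matrix (Fin n) (Fin n) E := Matrix.of fun i j => word D (w i) (y j) with hW
  set x : E := ∑ j, algebraMap K' E (a j) * y j with hx
  -- bound of the derivatives of `x`
  have hword : ∀ l : List (Fin d), v.Ge (m - l.length * C₀) (word D l x) := by
    intro l
    induction l with
    | nil => simpa [word] using hm
    | cons i l ih =>
      change v.Ge _ (D i (word D l x))
      refine (hD i _ _ ih).mono ?_
      rw [List.length_cons]
      push_cast
      linarith
  have hword' : ∀ i, v.Ge (m - ℓ * C₀) (word D (w i) x) := by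
    intro i
    refine (hword (w i)).mono ?_
    have : ((w i).length : ℚ) ≤ ℓ := by exact_mod_cast hℓ i
    nlinarith
  -- Cramer
  have hmul : W.mulVec (fun j => algebraMap K' E (a j)) = fun i => word D (w i) x := by
    funext i
    rw [hx, word_sum, Matrix.mulVec, dotProduct]
    refine Finset.sum_congr rfl fun j _ => ?_
    rw [hW, Matrix.of_apply, mul_comm]
  have hcr : W.det * algebraMap K' E (a j) = ∑ i, W.adjugate j i * word D (w i) x := by
    have h2 : W.adjugate.mulVec (W.mulVec fun j => algebraMap K' E (a j)) =
        W.det • fun j => algebraMap K' E (a j) := by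
      rw [Matrix.mulVec_mulVec, Matrix.adjugate_mul, Matrix.smul_mulVec, Matrix.one_mulVec]
    rw [hmul] at h2
    have h3 := congrFun h2 j
    rw [Pi.smul_apply, smul_eq_mul] at h3
    rw [← h3, Matrix.mulVec, dotProduct]
  have hadj : ∀ i, v.Ge (-(n * C₁)) (W.adjugate j i) := by
    intro i
    rw [Matrix.adjugate_apply, Matrix.det_apply]
    apply DVal.Ge.sum
    intro σ _
    have hprod : v.Ge (∑ _r : Fin n, (-C₁)) (∏ r, (W.updateRow i (Pi.single j 1)) (σ r) r) := by
      apply Ge.prod
      intro r _
      by_cases hr : σ r = i
      · rw [hr, Matrix.updateRow_self, Pi.single_apply]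
        split_ifs
        · right
          rw [v.map_one]
          simpa using hC₁
        · exact DVal.Ge.zero
      · rw [Matrix.updateRow_ne hr]
        exact h1 _ _
    rw [Finset.sum_const, Finset.card_univ, Fintype.card_fin, nsmul_eq_mul, mul_neg] at hprod
    rcases Int.units_eq_one_or (Equiv.Perm.sign σ) with hs | hs
    · rw [hs, one_smul]; exact hprod
    · rw [hs, Units.neg_smul, one_smul]; exact hprod.neg
  have hfin : v.Ge (-(n * C₁) + (m - ℓ * C₀)) (W.det * algebraMap K' E (a j)) := by
    rw [hcr]
    exact DVal.Ge.sum fun i _ => (hadj i).mul (hword' i)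
  by_cases ha : algebraMap K' E (a j) = 0
  · rw [ha]; exact DVal.Ge.zero
  · right
    rw [DVal.ge_iff (mul_ne_zero hdet ha), v.map_mul hdet ha] at hfin
    push_cast at hfin
    linarith

end Pool.Agent.Helper92.HA
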