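import Pool.Agent.Helper92.HA.Defs

set_option autoImplicit false

/-!
# HA-01 Det: the determinant of the partial derivatives of quotients of affine functions

`det_quot`. `g_i = affine t (c i)`, `i = 0, ..., d`. `D i (affine t a) = a (i + 1)`, so
`D i (g_j / g_0) = (g_0 c_{j, i+1} - g_j c_{0, i+1}) / g_0^2`. Let `G` be the `(d+1) × (d+1)` matrix with rows
`(g_r, c_{r,1}, ..., c_{r,d})`. `G = C U` with `U` the lower unitriangular matrix with first column
`(1, t_1, ..., t_d)` and identity block, so `det G = det C`. Subtracting `g_r / g_0` times row `0` from row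
`r` (`Matrix.det_eq_of_forall_row_eq_smul_add_const`) gives first column `(g_0, 0, ..., 0)` and the
block `c_{r,i} - (g_r / g_0) c_{0,i} = g_0 D i (g_r / g_0)`, so
`det C = g_0 · g_0^d · det (D i (g_r / g_0))` (`Matrix.det_succ_column_zero`, `Matrix.det_smul`,
`Matrix.det_transpose`).
-/

namespace Pool.Agent.Helper92.HA

open Module Pool.Agent.Helper92.Weak Pool.Agent.Helper63.PB


theorem deriv_affine {K' E : Type*} [Field K'] [Field E] [Algebra K' E] {d : ℕ} (t : Fin d → E)
    (D : Fin d → Derivation K' E E) (hD : ∀ i j, D i (t j) = if i = j then 1 else 0)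
    (a : Fin (d + 1) → K') (i : Fin d) : D i (affine t a) = algebraMap K' E (a i.succ) := by
  unfold affine
  rw [map_add, map_sum, Derivation.map_algebraMap, zero_add]
  have h : ∀ j : Fin d, D i (algebraMap K' E (a j.succ) * t j) =
      if i = j then algebraMap K' E (a j.succ) else 0 := by
    intro j
    rw [Derivation.leibniz, Derivation.map_algebraMap, smul_zero, add_zero, hD, smul_eq_mul]
    split_ifs <;> simp
  rw [Finset.sum_congr rfl fun j _ => h j]
  simp

theorem det_quot {K' E : Type*} [Field K'] [Field E] [Algebra K' E] {d : ℕ} (t : Fin d → E)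
    (D : Fin d → Derivation K' E E) (hD : ∀ i j, D i (t j) = if i = j then 1 else 0)
    (c : Fin (d + 1) → Fin (d + 1) → K') (h0 : affine t (c 0) ≠ 0) :
    (Matrix.of fun i j : Fin d => D i (affine t (c j.succ) / affine t (c 0))).det *
      affine t (c 0) ^ (d + 1) = algebraMap K' E (Matrix.of c).det := by
  classical
  set l : Fin (d + 1) → E := fun r => affine t (c r) with hl
  have hl0 : l 0 ≠ 0 := h0
  -- the matrix G
  let G : Matrix (Fin (d + 1)) (Fin (d + 1)) E :=
    Matrix.of fun r j => Fin.cases (l r) (fun i => algebraMap K' E (c r i.succ)) j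
  let U : Matrix (Fin (d + 1)) (Fin (d + 1)) E :=
    Matrix.of fun k j => Fin.cases (Fin.cases 1 t k) (fun i => if k = i.succ then 1 else 0) j
  have hU : U.det = 1 := by
    rw [Matrix.det_of_lowerTriangular]
    · refine Finset.prod_eq_one fun k _ => ?_
      refine Fin.cases ?_ (fun i => ?_) k
      · simp [U]
      · simp [U]
    · intro i j hij
      have hij' : i < j := hij
      revert hij'
      refine Fin.cases ?_ (fun j' => ?_) j
      · intro h
        exact absurd h (Fin.not_lt_zero _)
      · intro h
        simp [U, h.ne]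
  have hG : G = ((Matrix.of c).map (algebraMap K' E)) * U := by
    ext r j
    rw [Matrix.mul_apply]
    refine Fin.cases ?_ (fun i => ?_) j
    · rw [Fin.sum_univ_succ]
      simp [G, U, hl, affine]
    · simp [G, U]
  have hdetG : G.det = algebraMap K' E (Matrix.of c).det := by
    rw [hG, Matrix.det_mul, hU, mul_one, RingHom.map_det]
    rfl
  -- row operations
  let A : Matrix (Fin (d + 1)) (Fin (d + 1)) E :=
    Matrix.of fun r j => G r j + (if r = 0 then 0 else -(l r / l 0)) * G 0 j
  have hA : A.det = G.det :=
    Matrix.det_eq_of_forall_row_eq_smul_add_const (fun r => if r = 0 then 0 else -(l r / l 0)) 0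
      (by simp) fun i j => rfl
  have hA0 : ∀ r : Fin d, A r.succ 0 = 0 := by
    intro r
    simp only [A, G, Matrix.of_apply, Fin.cases_zero, Fin.succ_ne_zero, if_false]
    field_simp
    ring
  have hA00 : A 0 0 = l 0 := by
    simp [A, G]
  have hAs : ∀ r i : Fin d, A r.succ i.succ = l 0 * D i (l r.succ / l 0) := by
    intro r i
    have h1 : D i (l r.succ / l 0) =
        (l 0 * algebraMap K' E (c r.succ i.succ) - l r.succ * algebraMap K' E (c 0 i.succ)) /
          (l 0) ^ 2 := by
      rw [Derivation.leibniz_div, deriv_affine t D hD, deriv_affine t D hD, smul_eq_mul,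
        smul_eq_mul, smul_eq_mul]
      field_simp
    rw [h1]
    simp only [A, G, Matrix.of_apply, Fin.cases_succ, Fin.succ_ne_zero, if_false]
    field_simp
    ring
  have hdetA : A.det = l 0 * (l 0 ^ d *
      (Matrix.of fun i j : Fin d => D i (affine t (c j.succ) / affine t (c 0))).det) := by
    rw [Matrix.det_succ_column_zero, Fin.sum_univ_succ]
    have hz : ∑ i : Fin d, (-1) ^ ((i.succ : Fin (d + 1)) : ℕ) * A i.succ 0 *
        (A.submatrix i.succ.succAbove Fin.succ).det = 0 :=
      Finset.sum_eq_zero fun i _ => by rw [hA0]; ring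
    rw [hz, add_zero, hA00]
    have hsub : A.submatrix (Fin.succAbove 0) Fin.succ =
        l 0 • (Matrix.of fun i j : Fin d =>
          D i (affine t (c j.succ) / affine t (c 0))).transpose := by
      ext r i
      rw [Matrix.submatrix_apply, Fin.succAbove_zero, hAs, Matrix.smul_apply,
        Matrix.transpose_apply, Matrix.of_apply, smul_eq_mul]
    rw [hsub, Matrix.det_smul, Matrix.det_transpose, Fintype.card_fin]
    simp
  rw [← hdetG, ← hA, hdetA]
  change _ * l 0 ^ (d + 1) = _
  ring

end Pool.Agent.Helper92.HA
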