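import Pool.Agent.Helper92.HA.Defs
import Pool.Agent.Helper92.HA.Det

set_option autoImplicit false

/-!
# HA-02 Theta: the logarithmic forms attached to the bases of an arrangement

`affine_map`: `A.l i = affine (tL L' t) (A.co i)` (unfold, `map_add`, `map_sum`, tower).
`affine_ne`: if `1, t_1, ..., t_d` are linearly independent over `K'` (algebraic independence), an affine
function with nonzero coefficient vector is nonzero. `l_ne`: `algebraMap M L'` is injective.
`card_base`: `rk_eq_card` and `full` (`finrank (Fin (d+1) → K') = d + 1`). `cdet_ne`: the rows are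
linearly independent (`Matrix.linearIndependent_rows_iff_isUnit`, `LinearIndepOn` reindexed by
`b.equivFinOfCardEq`).
`theta_val`: `map_div`, `map_prod`.
`theta_vert`: let `g_0, ..., g_d` be the `l_i`, `i ∈ b`, in the order of `cdet`. `det_quot` (for
`F.D`, `tL L' t`) and `F.star` for `g_j / g_0`:
`v (cdet) - (d + 1) v g_0 ≥ ∑_{j ≥ 1} (v g_j - v g_0) - μ`, i.e. `v (cdet) - ∑_{j ≥ 0} v g_j + μ ≥ 0`.
`theta_hor`: the same with `F.starh`.
-/

namespace Pool.Agent.Helper92.HA

open Module Pool.Agent.Helper92.Weak Pool.Agent.Helper63.PB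

variable {k K L K' M L' : Type*} [Field k] [Field K] [Field L] [Field K'] [Field M] [Field L']
  [Algebra k K] [Algebra k L] [Algebra k K'] [Algebra k M] [Algebra k L'] [Algebra K L]
  [Algebra K K'] [Algebra K L'] [Algebra L L'] [Algebra K' M] [Algebra K' L'] [Algebra M L']
  [IsScalarTower k K L] [IsScalarTower k K K'] [IsScalarTower k K L'] [IsScalarTower k L L']
  [IsScalarTower k K' M] [IsScalarTower k K' L'] [IsScalarTower k M L'] [IsScalarTower K L L']
  [IsScalarTower K K' L'] [IsScalarTower K' M L'] [FiniteDimensional K K']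
  [FiniteDimensional L L'] [FiniteDimensional M L'] [CharZero k] {d : ℕ}
  {X : ProjVar k L} {Z : ProjVar k K} {t : Fin d → M} {ι : Type*} [Fintype ι] [DecidableEq ι]

private lemma affine_ne {K' E : Type*} [Field K'] [Field E] [Algebra K' E] {d : ℕ} {t : Fin d → E}
    (ht : AlgebraicIndependent K' t) {a : Fin (d + 1) → K'} (ha : a ≠ 0) : affine t a ≠ 0 := by
  classical
  intro h
  apply ha
  have h1 : MvPolynomial.aeval t (MvPolynomial.C (a 0) +
      ∑ j : Fin d, MvPolynomial.C (a j.succ) * MvPolynomial.X j : MvPolynomial (Fin d) K') = 0 := by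
    rw [← h]
    unfold affine
    simp [map_add, map_sum, map_mul]
  have h2 : (MvPolynomial.C (a 0) +
      ∑ j : Fin d, MvPolynomial.C (a j.succ) * MvPolynomial.X j : MvPolynomial (Fin d) K') = 0 := by
    apply ht
    rw [h1, map_zero]
  have h3 : a 0 = 0 := by
    have := congrArg (MvPolynomial.coeff 0) h2
    simpa [MvPolynomial.coeff_add, MvPolynomial.coeff_sum, MvPolynomial.coeff_C_mul] using this
  have h4 : ∀ j : Fin d, a j.succ = 0 := by
    intro j
    have := congrArg (MvPolynomial.coeff (Finsupp.single j 1)) h2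
    rw [MvPolynomial.coeff_add, MvPolynomial.coeff_sum, MvPolynomial.coeff_zero,
      MvPolynomial.coeff_C, if_neg (by
        intro h5
        have := DFunLike.congr_fun h5 j
        simp at this), zero_add, Finset.sum_eq_single j] at this
    · simpa [MvPolynomial.coeff_C_mul, MvPolynomial.coeff_X] using this
    · intro i _ hi
      rw [MvPolynomial.coeff_C_mul, MvPolynomial.coeff_X, if_neg, mul_zero]
      intro h5
      exact hi (Finsupp.single_left_injective one_ne_zero h5)
    · intro h5
      exact absurd (Finset.mem_univ j) h5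
  funext j
  refine Fin.cases ?_ (fun j => ?_) j
  · exact h3
  · exact h4 j

omit [FiniteDimensional K K'] [FiniteDimensional L L'] [FiniteDimensional M L'] in
theorem affine_map (A : Arr K' L' t ι) (i : ι) : A.l i = affine (tL L' t) (A.co i) := by
  unfold Arr.l affine tL
  rw [map_add, map_sum, ← IsScalarTower.algebraMap_apply K' M L']
  congr 1
  refine Finset.sum_congr rfl fun j _ => ?_
  rw [map_mul, ← IsScalarTower.algebraMap_apply K' M L']

theorem l_ne (A : Arr K' L' t ι) (i : ι) : A.l i ≠ 0 := by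
  unfold Arr.l
  rw [Ne, map_eq_zero]
  exact affine_ne A.torus.indep (A.co_ne i)

theorem card_base (A : Arr K' L' t ι) {b : Finset ι} (hb : IsBase K' A.co b) :
    b.card = d + 1 := by
  have h1 := rk_eq_card (A := Finset.univ) hb.1 (by
    rw [hb.2, Finset.coe_univ, Set.image_univ])
  rw [← h1, rk, Finset.coe_univ, Set.image_univ, A.full, finrank_top, finrank_fin_fun]

/-- The index of the `j`-th affine function of the base. -/
private noncomputable def idx {b : Finset ι} (h : b.card = d + 1) (j : Fin (d + 1)) : ι :=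
  ((b.equivFinOfCardEq h).symm j : ι)

private lemma cdet_eq (A : Arr K' L' t ι) {b : Finset ι} (h : b.card = d + 1) :
    A.cdet b = (Matrix.of fun i : Fin (d + 1) => A.co (idx h i)).det := by
  unfold Arr.cdet
  rw [dif_pos h]
  rfl

private lemma sum_idx {b : Finset ι} (h : b.card = d + 1) (f : ι → ℤ) :
    ∑ i ∈ b, f i = ∑ j : Fin (d + 1), f (idx h j) := by
  rw [← Finset.sum_coe_sort b f]
  exact (Equiv.sum_comp (b.equivFinOfCardEq h).symm (fun i : b => f i)).symm

theorem cdet_ne (A : Arr K' L' t ι) {b : Finset ι} (hb : IsBase K' A.co b) : A.cdet b ≠ 0 := by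
  have h := card_base A hb
  rw [cdet_eq A h]
  have h1 : LinearIndependent K' (fun i : (b : Set ι) => A.co i) := hb.1
  have h2 : LinearIndependent K' (fun i : Fin (d + 1) => A.co (idx h i)) :=
    h1.comp (fun j => (⟨idx h j, ((b.equivFinOfCardEq h).symm j).2⟩ : (b : Set ι))) (by
      intro i j hij
      have h3 : idx h i = idx h j := congrArg Subtype.val hij
      exact (b.equivFinOfCardEq h).symm.injective (Subtype.ext h3))
  have h3 : IsUnit (Matrix.of fun i : Fin (d + 1) => A.co (idx h i)) :=
    Matrix.linearIndependent_rows_iff_isUnit.1 h2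
  exact ((Matrix.isUnit_iff_isUnit_det _).1 h3).ne_zero

theorem theta_ne (A : Arr K' L' t ι) {b : Finset ι} (hb : IsBase K' A.co b) : A.theta b ≠ 0 := by
  unfold Arr.theta
  refine div_ne_zero ?_ (Finset.prod_ne_zero_iff.2 fun i _ => l_ne A i)
  rw [Ne, map_eq_zero]
  exact cdet_ne A hb

theorem theta_val (A : Arr K' L' t ι) (v : DVal k L') {b : Finset ι} (hb : IsBase K' A.co b) :
    v (A.theta b) = v (algebraMap K' L' (A.cdet b)) - ∑ i ∈ b, v (A.l i) := by
  unfold Arr.theta
  rw [v.map_div ?_ (Finset.prod_ne_zero_iff.2 fun i _ => l_ne A i),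
    v.map_prod _ _ fun i _ => l_ne A i]
  rw [Ne, map_eq_zero]
  exact cdet_ne A hb

private lemma key (A : Arr K' L' t ι) (D : Fin d → Derivation K' L' L')
    (hD : ∀ i j, D i (tL L' t j) = if i = j then 1 else 0) (v : DVal k L') {b : Finset ι}
    (hb : IsBase K' A.co b) (μ : ℤ)
    (hst : ∀ g : Fin d → L', (∀ j, g j ≠ 0) →
      v.Ge ((∑ j, v (g j) - μ : ℤ) : ℚ) (Matrix.of fun i j => D i (g j)).det) :
    0 ≤ v (A.theta b) + μ := by
  have h := card_base A hb
  set c : Fin (d + 1) → Fin (d + 1) → K' := fun i => A.co (idx h i) with hc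
  have hl : ∀ j, affine (tL L' t) (c j) = A.l (idx h j) := fun j => (affine_map A _).symm
  have hne : ∀ j, affine (tL L' t) (c j) ≠ 0 := fun j => by
    rw [hl]
    exact l_ne A _
  have hq := det_quot (tL L' t) D hD c (hne 0)
  have hcd : algebraMap K' L' (Matrix.of c).det ≠ 0 := by
    rw [Ne, map_eq_zero, ← cdet_eq A h]
    exact cdet_ne A hb
  set Δ : L' := (Matrix.of fun i j : Fin d =>
    D i (affine (tL L' t) (c j.succ) / affine (tL L' t) (c 0))).det with hΔ
  have hΔ0 : Δ ≠ 0 := by
    intro h0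
    rw [h0, zero_mul] at hq
    exact hcd hq.symm
  have h1 : v Δ + (d + 1 : ℕ) * v (affine (tL L' t) (c 0)) = v (algebraMap K' L' (A.cdet b)) := by
    rw [cdet_eq A h, ← hq, v.map_mul hΔ0 (pow_ne_zero _ (hne 0)), v.map_pow]
  have h2 := hst (fun j => affine (tL L' t) (c j.succ) / affine (tL L' t) (c 0))
    (fun j => div_ne_zero (hne _) (hne 0))
  rw [DVal.ge_iff hΔ0] at h2
  have h3 : ∑ j : Fin d, v (affine (tL L' t) (c j.succ) / affine (tL L' t) (c 0)) - μ ≤ v Δ := by
    exact_mod_cast h2
  have h4 : ∑ j : Fin d, v (affine (tL L' t) (c j.succ) / affine (tL L' t) (c 0)) =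
      ∑ j : Fin d, v (affine (tL L' t) (c j.succ)) - d * v (affine (tL L' t) (c 0)) := by
    rw [Finset.sum_congr rfl fun j _ => v.map_div (hne (Fin.succ j)) (hne 0),
      Finset.sum_sub_distrib, Finset.sum_const, Finset.card_univ, Fintype.card_fin, nsmul_eq_mul]
  have h5 : ∑ i ∈ b, v (A.l i) = v (affine (tL L' t) (c 0)) +
      ∑ j : Fin d, v (affine (tL L' t) (c j.succ)) := by
    rw [sum_idx h, Fin.sum_univ_succ]
    simp only [hl]
  rw [theta_val A v hb, ← h1, h5]
  push_cast
  linarith

theorem theta_vert (F : DFrame X Z K' (tL L' t)) (A : Arr K' L' t ι) {P : X.primeDivisors}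
    {Q : Z.primeDivisors} {e : ℕ} (hP : LiesOver P.1 Q.1 e) {v : DVal k L'} {ε : ℕ}
    (hv : LiesOver v P.1 ε) {b : Finset ι} (hb : IsBase K' A.co b) :
    0 ≤ v (A.theta b) + F.mu P Q e v ε :=
  key A F.D F.D_t v hb _ fun g hg => F.star P Q e hP v ε hv g hg

theorem theta_hor (F : DFrame X Z K' (tL L' t)) (A : Arr K' L' t ι) {P : X.primeDivisors}
    (hP : ∀ x : K, P.1 (algebraMap K L x) = 0) {v : DVal k L'} {ε : ℕ}
    (hv : LiesOver v P.1 ε) {b : Finset ι} (hb : IsBase K' A.co b) :
    0 ≤ v (A.theta b) + (ε * (F.a P + 1) - v F.u) :=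
  key A F.D F.D_t v hb _ fun g hg => F.starh P hP v ε hv g hg

end Pool.Agent.Helper92.HA
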