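import Pool.Agent.Helper92.HA.Defs
import Pool.Agent.Helper92.HA.Theta

set_option autoImplicit false

/-!
# HA-04 Rho: algebraic independence of the quotients of the products

There is a base `b` which contains `o` (extend `{co o}` to a base: `exists_greedy` of Edmonds with the
weight `1` at `o` and `0` elsewhere and `co o ≠ 0`, or `exchange`), `e : Fin d → ι` enumerates `b \ {o}`.
`phi (x j) = κ_j ∏_i l_i^(-use (x j) i)`, `κ_j ∈ K'` nonzero (`theta`; `∏_b ∏_{i ∈ b} l_i^(x b) =
∏_i l_i^(use x i)`, `Finset.prod_comm`), so for `j ≠ o` the quotient is `κ l_j^(-r)`, `κ ∈ K'` nonzero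
(`l_o = 1`).
The `l_(e j)` are algebraically independent over `K'`: `1, l_(e 1), ..., l_(e d)` span the same
`K'`-space as `1, t_1, ..., t_d`, so the `t_j` are in `K'(l_(e 1), ..., l_(e d))` and the transcendence
degree of this field is `d` (a family of `d` elements over which everything is algebraic, in a field
of transcendence degree `d`, is a transcendence basis: e.g. `IsTranscendenceBasis` from cardinality:
`AlgebraicIndependent` of a subfamily which is a transcendence basis has `d` elements; see
`isTranscendenceBasis_of_le_trdeg` or similar in Mathlib). The same argument for the `κ_j l_j^(-r)`: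
`l_j` is algebraic over `K'(κ_j l_j^(-r))`.
-/

namespace Pool.Agent.Helper92.HA

open Module Pool.Agent.Helper92.Weak Pool.Agent.Helper63.PB

open scoped IntermediateField.algebraAdjoinAdjoin in
/-- A family of `d` elements over which the coordinates are algebraic is algebraically
independent. -/
lemma indep_of_isAlgebraic {F M E : Type*} [Field F] [Field M] [Field E] [Algebra F M] [Algebra F E]
    [Algebra M E] [IsScalarTower F M E] [Algebra.IsAlgebraic M E] {d : ℕ} {t : Fin d → M}
    (ht : IsTorus F t) (y : Fin d → E)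
    (h : ∀ j, IsAlgebraic (IntermediateField.adjoin F (Set.range y)) (algebraMap M E (t j))) :
    AlgebraicIndependent F y := by
  set S := IntermediateField.adjoin F (Set.range y) with hS
  -- every element of `M` is algebraic over `S`
  have h1 : ∀ m : M, IsAlgebraic S (algebraMap M E m) := by
    intro m
    have hm : m ∈ IntermediateField.adjoin F (Set.range t) := by rw [ht.gen]; trivial
    induction hm using IntermediateField.adjoin_induction with
    | mem x hx =>
      obtain ⟨j, rfl⟩ := hx
      exact h j
    | algebraMap x =>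
      rw [← IsScalarTower.algebraMap_apply F M E, IsScalarTower.algebraMap_apply F S E]
      exact isAlgebraic_algebraMap _
    | add x y _ _ hx hy => rw [map_add]; exact hx.add hy
    | inv x _ hx => rw [map_inv₀]; exact hx.inv
    | mul x y _ _ hx hy => rw [map_mul]; exact hx.mul hy
  -- everything is algebraic over `S`
  have h2 : Algebra.IsAlgebraic S E := by
    refine ⟨fun z => ?_⟩
    let C := algebraicClosure S E
    let φ : M →+* C := (algebraMap M E).codRestrict C.toSubring fun m => by
      show algebraMap M E m ∈ C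
      exact mem_algebraicClosure_iff.2 (h1 m)
    have hφ : (algebraMap C E).comp φ = algebraMap M E := rfl
    obtain ⟨p, hp, hz⟩ := Algebra.IsAlgebraic.isAlgebraic (R := M) z
    have h3 : IsAlgebraic C z := by
      refine ⟨p.map φ, ?_, ?_⟩
      · rwa [Ne, Polynomial.map_eq_zero_iff φ.injective]
      · rw [Polynomial.aeval_def, Polynomial.eval₂_map, hφ, ← Polynomial.aeval_def, hz]
    exact h3.restrictScalars S
  have h4 : Algebra.IsAlgebraic (Algebra.adjoin F (Set.range y)) E :=
    (IsFractionRing.comap_isAlgebraic_iff (K := S)).2 h2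
  have h5 : AlgebraicIndependent F (fun j => algebraMap M E (t j)) :=
    (ht.indep.map' (f := IsScalarTower.toAlgHom F M E)
      (FaithfulSMul.algebraMap_injective M E) :)
  have h6 := h5.lift_cardinalMk_le_trdeg
  exact (Algebra.IsAlgebraic.isTranscendenceBasis_of_lift_le_trdeg_of_finite F y h6).1

/-- A nonzero vector of a family is in a base. -/
lemma exists_base_mem {F V ι : Type*} [Field F] [AddCommGroup V] [Module F V] [Fintype ι]
    (l : ι → V) (o : ι) (ho : l o ≠ 0) : ∃ b : Finset ι, IsBase F l b ∧ o ∈ b := by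
  classical
  have h0 : LinearIndepOn F l {o} := (linearIndepOn_singleton_iff F).2 ho
  obtain ⟨b, -, hob, hspan, hb⟩ := exists_linearIndepOn_extension h0 (Set.subset_univ _)
  refine ⟨b.toFinset, ⟨by rwa [Set.coe_toFinset], ?_⟩, ?_⟩
  · rw [Set.coe_toFinset]
    refine le_antisymm (Submodule.span_mono (Set.image_subset_range _ _)) ?_
    rw [Submodule.span_le, ← Set.image_univ]
    exact hspan
  · rw [Set.mem_toFinset]
    exact hob rfl

variable {k K L K' M L' : Type*} [Field k] [Field K] [Field L] [Field K'] [Field M] [Field L']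
  [Algebra k K] [Algebra k L] [Algebra k K'] [Algebra k M] [Algebra k L'] [Algebra K L]
  [Algebra K K'] [Algebra K L'] [Algebra L L'] [Algebra K' M] [Algebra K' L'] [Algebra M L']
  [IsScalarTower k K L] [IsScalarTower k K K'] [IsScalarTower k K L'] [IsScalarTower k L L']
  [IsScalarTower k K' M] [IsScalarTower k K' L'] [IsScalarTower k M L'] [IsScalarTower K L L']
  [IsScalarTower K K' L'] [IsScalarTower K' M L'] [FiniteDimensional K K']
  [FiniteDimensional L L'] [FiniteDimensional M L'] [CharZero k] {d : ℕ}
  {X : ProjVar k L} {Z : ProjVar k K} {t : Fin d → M} {ι : Type*} [Fintype ι] [DecidableEq ι]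

theorem phi_eq (A : Arr K' L' t ι) {x : Finset ι → ℕ} (hb : ∀ b, x b ≠ 0 → IsBase K' A.co b) :
    ∃ κ : K', κ ≠ 0 ∧ A.phi x = algebraMap K' L' κ / ∏ i, A.l i ^ A.use x i := by
  refine ⟨∏ b, A.cdet b ^ x b, ?_, ?_⟩
  · rw [Finset.prod_ne_zero_iff]
    intro b _
    by_cases h : x b = 0
    · rw [h, pow_zero]; exact one_ne_zero
    · exact pow_ne_zero _ (cdet_ne A (hb b h))
  · have h1 : ∏ i, A.l i ^ A.use x i = ∏ b : Finset ι, (∏ i ∈ b, A.l i) ^ x b := by
      have h2 : ∀ b : Finset ι, (∏ i ∈ b, A.l i) ^ x b =
          ∏ i, A.l i ^ (if i ∈ b then x b else 0) := by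
        intro b
        rw [← Finset.prod_pow]
        simp_rw [pow_ite, pow_zero]
        rw [Finset.prod_ite_mem, Finset.univ_inter]
      simp_rw [h2]
      rw [Finset.prod_comm]
      refine Finset.prod_congr rfl fun i _ => ?_
      rw [Finset.prod_pow_eq_pow_sum]
      rfl
    rw [h1, map_prod, Arr.phi, ← Finset.prod_div_distrib]
    refine Finset.prod_congr rfl fun b _ => ?_
    rw [Arr.theta, div_pow, map_pow]

private theorem l_o (A : Arr K' L' t ι) : A.l A.o = 1 := by
  rw [Arr.l, A.co_o, affine]
  simp [Fin.succ_ne_zero]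

private theorem phi_div (A : Arr K' L' t ι) {r : ℕ} (x : ι → Finset ι → ℕ)
    (hb : ∀ j b, x j b ≠ 0 → IsBase K' A.co b)
    (hx : ∀ j i, A.use (x j) i + (if i = A.o then r else 0) =
      A.use (x A.o) i + (if i = j then r else 0)) (j : ι) :
    ∃ κ : K', κ ≠ 0 ∧ A.phi (x j) / A.phi (x A.o) = algebraMap K' L' κ / A.l j ^ r := by
  obtain ⟨κ, hκ, h1⟩ := phi_eq A (hb j)
  obtain ⟨κ', hκ', h2⟩ := phi_eq A (hb A.o)
  have h3 : (∏ i, A.l i ^ A.use (x j) i) * A.l A.o ^ r =
      (∏ i, A.l i ^ A.use (x A.o) i) * A.l j ^ r := by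
    have h4 : ∀ m : ι, A.l m ^ r = ∏ i, A.l i ^ (if i = m then r else 0) := by
      intro m
      simp_rw [pow_ite, pow_zero]
      rw [Finset.prod_ite_eq' Finset.univ m, if_pos (Finset.mem_univ m)]
    rw [h4, h4, ← Finset.prod_mul_distrib, ← Finset.prod_mul_distrib]
    refine Finset.prod_congr rfl fun i _ => ?_
    rw [← pow_add, ← pow_add, hx j i]
  rw [l_o A, one_pow, mul_one] at h3
  refine ⟨κ / κ', div_ne_zero hκ hκ', ?_⟩
  have h5 : ∏ i, A.l i ^ A.use (x A.o) i ≠ 0 :=
    Finset.prod_ne_zero_iff.2 fun i _ => pow_ne_zero _ (l_ne A i)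
  have h6 : A.l j ^ r ≠ 0 := pow_ne_zero _ (l_ne A j)
  have h7 : algebraMap K' L' κ' ≠ 0 := by rwa [map_ne_zero]
  rw [h1, h2, h3, map_div₀]
  field_simp

theorem rho_indep (A : Arr K' L' t ι) {r : ℕ} (hr : 0 < r) (x : ι → Finset ι → ℕ)
    (hb : ∀ j b, x j b ≠ 0 → IsBase K' A.co b)
    (hx : ∀ j i, A.use (x j) i + (if i = A.o then r else 0) =
      A.use (x A.o) i + (if i = j then r else 0)) :
    ∃ e : Fin d → ι, AlgebraicIndependent K' fun j => A.phi (x (e j)) / A.phi (x A.o) := by
  obtain ⟨b, hbb, hob⟩ := exists_base_mem (F := K') A.co A.o (A.co_ne A.o)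
  have hcard : (b.erase A.o).card = d := by
    rw [Finset.card_erase_of_mem hob, card_base A hbb, Nat.add_sub_cancel]
  let φ := (b.erase A.o).equivFinOfCardEq hcard
  refine ⟨fun j => (φ.symm j : ι), ?_⟩
  choose κ hκ hdiv using fun j => phi_div A x hb hx j
  refine indep_of_isAlgebraic A.torus _ ?_
  set y : Fin d → L' := fun j => A.phi (x (φ.symm j)) / A.phi (x A.o) with hy
  set S := IntermediateField.adjoin K' (Set.range y) with hS
  -- the affine functions of the base
  have h1 : ∀ i ∈ b, IsAlgebraic S (A.l i) := by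
    intro i hi
    by_cases hio : i = A.o
    · rw [hio, l_o A]
      exact isAlgebraic_one
    · have hi' : i ∈ b.erase A.o := Finset.mem_erase.2 ⟨hio, hi⟩
      have hyi : y (φ ⟨i, hi'⟩) = algebraMap K' L' (κ i) / A.l i ^ r := by
        rw [← hdiv i, hy]
        simp only [Equiv.symm_apply_apply]
      have h2 : A.l i ^ r ≠ 0 := pow_ne_zero _ (l_ne A i)
      have h3 : algebraMap K' L' (κ i) ≠ 0 := by rw [map_ne_zero]; exact hκ i
      have h4 : A.l i ^ r = algebraMap K' L' (κ i) / y (φ ⟨i, hi'⟩) := by
        rw [hyi]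
        field_simp
      have h5 : A.l i ^ r ∈ S := by
        rw [h4]
        exact div_mem (S.algebraMap_mem _)
          (IntermediateField.subset_adjoin K' _ (Set.mem_range_self _))
      exact IsAlgebraic.of_pow hr (isAlgebraic_algebraMap (R := S) (A := L') ⟨A.l i ^ r, h5⟩)
  -- all affine functions
  have h2 : ∀ a ∈ Submodule.span K' (A.co '' (b : Set ι)),
      IsAlgebraic S (algebraMap M L' (affine t a)) := by
    intro a ha
    induction ha using Submodule.span_induction with
    | mem a ha =>
      obtain ⟨i, hi, rfl⟩ := ha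
      exact h1 i hi
    | zero =>
      have : affine t (0 : Fin (d + 1) → K') = 0 := by simp [affine]
      rw [this, map_zero]
      exact isAlgebraic_zero
    | add a a' _ _ ha ha' =>
      have : affine t (a + a') = affine t a + affine t a' := by
        simp only [affine, Pi.add_apply, map_add, add_mul, Finset.sum_add_distrib]
        ring
      rw [this, map_add]
      exact ha.add ha'
    | smul c a _ ha =>
      have : affine t (c • a) = algebraMap K' M c * affine t a := by
        simp only [affine, Pi.smul_apply, smul_eq_mul, map_mul, mul_add, Finset.mul_sum, mul_assoc]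
      rw [this, map_mul, ← IsScalarTower.algebraMap_apply K' M L',
        IsScalarTower.algebraMap_apply K' S L']
      exact (isAlgebraic_algebraMap _).mul ha
  intro j
  have h3 : affine t (Pi.single j.succ 1 : Fin (d + 1) → K') = t j := by
    rw [affine, Pi.single_eq_of_ne (Fin.succ_ne_zero j).symm, map_zero, zero_add,
      Finset.sum_eq_single j]
    · rw [Pi.single_eq_same, map_one, one_mul]
    · intro i _ hij
      rw [Pi.single_eq_of_ne (fun h => hij (Fin.succ_injective _ h)), map_zero, zero_mul]
    · intro h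
      exact absurd (Finset.mem_univ j) h
  rw [← h3]
  refine h2 _ ?_
  rw [hbb.2, A.full]
  trivial

end Pool.Agent.Helper92.HA
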