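import Pool.Agent.Helper92.HA.Defs
import Pool.Agent.Helper92.HA.Theta
import Pool.Agent.Helper92.HA.Rho

set_option autoImplicit false

/-!
# HA-10 Coord: normalised coordinates

`γ i ≠ 0`, `γ o = 1`. Let `b₀ ∋ o` be a base, `e : Fin d → ι` an enumeration of `b₀ \ {o}`,
`t' j = affine t (co (e j)) / γ (e j) ∈ M`. The matrix `P` of `(1, t')` in terms of `(1, t)` is invertible
over `K'` (first row `(1, 0, ..., 0)`), of determinant `± cdet b₀ / ∏ γ (e j)`.
* `IsTorus K' t'`: `K'(t') = K'(t) = M`, so `t'` is a transcendence basis (`d` generators of a field of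
  transcendence degree `d`; as in `rho_indep`).
* `c' i` = coefficients of `affine t (co i)` in terms of `(1, t')`.
* `D' i = ∑_j q_(i j) F.D j` with `(q)` the inverse of the matrix `(∂ t'_i / ∂ t_j)`, entries in `K'`.
* polynomials: substitute `t_j = affine t' (q_j)`: `G' = bind₁ (fun j => C (q_j 0) + ∑ C (q_j i) X i) G`
  (`aeval_bind₁`), `totalDegree G' ≤ totalDegree G` (`totalDegree_bind₁_le`-like: each substituted
  polynomial has degree `≤ 1`).
* Let `v, μ` be as in the last statement. `v (t' j) = 0`. `μ = ∑_(i ∈ b₀) v (γ i) - v (cdet b₀) = -v δ₀`,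
  `δ₀ = det (∂ t'_i / ∂ t_j) = ± cdet b₀ / ∏ γ (e j)` (`theta_val` for `b₀`). For `g ≠ 0` and `i`, the hypothesis
  for the family `t'` with the `i`-th member replaced by `g` reads (the determinant is
  `± δ₀ D' i g`, since `(F.D j g_l) = (D' j g_l) ·` change of basis)
  `v (D' i g) + v δ₀ ≥ v g + ∑_(l ≠ i) v (t' l) - μ = v g - μ`, i.e. `v (D' i g) ≥ v g` (or `D' i g = 0`).
  Hence `v.Ge m g → v.Ge m (D' i g)`.
* independence: for a base `b` the matrix `P_b` of the coefficients of the `l i / γ i`, `i ∈ b`, in terms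
  of `(1, t')` has entries of value `≥ 0` (`coeff_bound` with `c = c' = 0` for the affine polynomial:
  the coefficients of an affine function of `t'` of value `≥ 0` have value `≥ 0`) and determinant
  `± cdet b / (δ₀ ∏_(i ∈ b) γ i)`-like of value `0`: `v (cdet b) - ∑_b v (γ i) = -μ = v (cdet b₀) - ∑_(b₀) v (γ i)`
  by `theta_val` for `b` and `b₀`. If `v.Ge m (∑_(i ∈ b) a i * (l i / γ i))` then the coefficients
  `a · P_b` of this affine function have value `≥ m` (`coeff_bound`), so `a = (a P_b) P_b⁻¹`
  (`P_b⁻¹ = adj / det`) has entries of value `≥ m`.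
-/

namespace Pool.Agent.Helper92.HA

open Module Pool.Agent.Helper92.Weak Pool.Agent.Helper63.PB


/-! ### Auxiliary lemmas -/

section Aux

variable {F E : Type*} [Field F] [Field E] [Algebra F E] {d : ℕ}

/-- The affine polynomial with the given coefficients. -/
private noncomputable def coP (a : Fin (d + 1) → F) : MvPolynomial (Fin d) F :=
  MvPolynomial.C (a 0) + ∑ j : Fin d, MvPolynomial.C (a j.succ) * MvPolynomial.X j

private theorem co_aeval (T : Fin d → E) (a : Fin (d + 1) → F) :
    MvPolynomial.aeval T (coP a) = affine T a := by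
  unfold coP affine
  rw [map_add, MvPolynomial.aeval_C, map_sum]
  congr 1
  refine Finset.sum_congr rfl fun j _ => ?_
  rw [map_mul, MvPolynomial.aeval_C, MvPolynomial.aeval_X]

private theorem co_td (a : Fin (d + 1) → F) : (coP a).totalDegree ≤ 1 := by
  unfold coP
  refine (MvPolynomial.totalDegree_add _ _).trans (max_le ?_ ?_)
  · rw [MvPolynomial.totalDegree_C]
    exact Nat.zero_le _
  · refine MvPolynomial.totalDegree_finsetSum_le fun j _ => ?_
    refine (MvPolynomial.totalDegree_mul _ _).trans ?_
    rw [MvPolynomial.totalDegree_C, MvPolynomial.totalDegree_X]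

private theorem co_coeff_zero (a : Fin (d + 1) → F) : (coP a).coeff 0 = a 0 := by
  unfold coP
  simp [MvPolynomial.coeff_add, MvPolynomial.coeff_sum, MvPolynomial.coeff_C_mul]

private theorem co_coeff_single (a : Fin (d + 1) → F) (j : Fin d) :
    (coP a).coeff (Finsupp.single j 1) = a j.succ := by
  unfold coP
  rw [MvPolynomial.coeff_add, MvPolynomial.coeff_sum, MvPolynomial.coeff_C, if_neg (by
      intro h5
      have := DFunLike.congr_fun h5 j
      simp at this), zero_add, Finset.sum_eq_single j]
  · simp [MvPolynomial.coeff_C_mul, MvPolynomial.coeff_X]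
  · intro i _ hi
    rw [MvPolynomial.coeff_C_mul, MvPolynomial.coeff_X, if_neg, mul_zero]
    intro h5
    exact hi (Finsupp.single_left_injective one_ne_zero h5)
  · intro h5
    exact absurd (Finset.mem_univ j) h5

private theorem co_bind_td (f : Fin d → MvPolynomial (Fin d) F) (hf : ∀ j, (f j).totalDegree ≤ 1)
    (G : MvPolynomial (Fin d) F) : (MvPolynomial.bind₁ f G).totalDegree ≤ G.totalDegree := by
  have h1 : MvPolynomial.bind₁ f G =
      ∑ α ∈ G.support, MvPolynomial.C (G.coeff α) * ∏ j, f j ^ α j := by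
    change MvPolynomial.aeval f G = _
    rw [MvPolynomial.aeval_eq_eval₂Hom, MvPolynomial.coe_eval₂Hom, MvPolynomial.eval₂_eq']
    rfl
  rw [h1]
  refine MvPolynomial.totalDegree_finsetSum_le fun α hα => ?_
  refine (MvPolynomial.totalDegree_mul _ _).trans ?_
  rw [MvPolynomial.totalDegree_C, zero_add]
  refine (MvPolynomial.totalDegree_finsetProd _ _).trans ?_
  refine le_trans (Finset.sum_le_sum fun j _ => (MvPolynomial.totalDegree_pow _ _).trans
    (Nat.mul_le_mul_left (α j) (hf j))) ?_
  have h2 := MvPolynomial.le_totalDegree hα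
  rw [Finsupp.sum_fintype _ _ (fun _ => rfl)] at h2
  simpa using h2

/-- Composition of affine functions. -/
private theorem co_comp (t : Fin d → E) (w : Matrix (Fin (d + 1)) (Fin (d + 1)) F)
    (hw : w 0 = Pi.single 0 1) (a : Fin (d + 1) → F) :
    affine (fun j => affine t (w j.succ)) a = affine t (Matrix.vecMul a w) := by
  have hadd : ∀ a b : Fin (d + 1) → F, affine t (a + b) = affine t a + affine t b := by
    intro a b
    simp only [affine, Pi.add_apply, map_add, add_mul, Finset.sum_add_distrib]
    ring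
  have hsmul : ∀ (c : F) (b : Fin (d + 1) → F),
      affine t (c • b) = algebraMap F E c * affine t b := by
    intro c b
    simp only [affine, Pi.smul_apply, smul_eq_mul, map_mul, mul_add, Finset.mul_sum, mul_assoc]
  have hsum : ∀ (s : Finset (Fin (d + 1))) (f : Fin (d + 1) → Fin (d + 1) → F),
      affine t (∑ i ∈ s, f i) = ∑ i ∈ s, affine t (f i) := by
    intro s f
    induction s using Finset.induction_on with
    | empty =>
      rw [Finset.sum_empty, Finset.sum_empty]
      simp [affine]
    | insert i s hi ih => rw [Finset.sum_insert hi, Finset.sum_insert hi, hadd, ih]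
  have h1 : Matrix.vecMul a w = ∑ i, a i • w i := by
    ext j
    simp [Matrix.vecMul, dotProduct]
  rw [h1, hsum, Fin.sum_univ_succ, hsmul, hw]
  have h2 : affine t (Pi.single 0 1 : Fin (d + 1) → F) = 1 := by
    simp [affine, Fin.succ_ne_zero]
  rw [h2, mul_one]
  conv_lhs => unfold affine
  congr 1
  exact Finset.sum_congr rfl fun j _ => (hsmul _ _).symm

private theorem co_single (t : Fin d → E) (j : Fin d) :
    affine t (Pi.single j.succ 1 : Fin (d + 1) → F) = t j := by
  rw [affine, Pi.single_eq_of_ne (Fin.succ_ne_zero j).symm, map_zero, zero_add,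
    Finset.sum_eq_single j]
  · rw [Pi.single_eq_same, map_one, one_mul]
  · intro i _ hij
    rw [Pi.single_eq_of_ne (fun h => hij (Fin.succ_injective _ h)), map_zero, zero_mul]
  · intro h
    exact absurd (Finset.mem_univ j) h

end Aux

section Vals

variable {k F E : Type*} [Field k] [Field F] [Field E] [Algebra k F] [Algebra k E] [Algebra F E]
  [IsScalarTower k F E] {n : ℕ}

omit [Algebra k F] [Algebra F E] [IsScalarTower k F E] in
private theorem co_ge_of_mul {v : DVal k E} {x y : E} (hx : x ≠ 0) (hv : v x = 0) {m : ℚ}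
    (h : v.Ge m (x * y)) : v.Ge m y := by
  have h1 : v.Ge 0 x⁻¹ := by
    right
    rw [v.map_inv, hv]
    simp
  have h2 := h1.mul h
  rwa [zero_add, inv_mul_cancel_left₀ hx] at h2

omit [Algebra k F] [IsScalarTower k F E] in
private theorem co_det_ge (v : DVal k E) (P : Matrix (Fin n) (Fin n) F)
    (hP : ∀ i j, v.Ge 0 (algebraMap F E (P i j))) : v.Ge 0 (algebraMap F E P.det) := by
  rw [Matrix.det_apply', map_sum]
  refine DVal.Ge.sum fun σ _ => ?_
  rw [map_mul, map_prod]
  have h1 : v.Ge 0 (algebraMap F E ((Equiv.Perm.sign σ : ℤ) : F)) := by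
    rcases Int.units_eq_one_or (Equiv.Perm.sign σ) with h | h
    · rw [h]
      right
      simp
    · rw [h]
      right
      simp
  have h2 : v.Ge (∑ i : Fin n, (0 : ℚ)) (∏ i, algebraMap F E (P (σ i) i)) :=
    Ge.prod fun i _ => hP _ _
  have h3 := h1.mul h2
  simpa using h3

omit [Algebra k F] [IsScalarTower k F E] in
private theorem co_adj_ge (v : DVal k E) (P : Matrix (Fin n) (Fin n) F)
    (hP : ∀ i j, v.Ge 0 (algebraMap F E (P i j))) (i j : Fin n) :
    v.Ge 0 (algebraMap F E (P.adjugate i j)) := by
  rw [Matrix.adjugate_apply]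
  refine co_det_ge v _ fun r s => ?_
  rw [Matrix.updateRow_apply]
  split_ifs
  · by_cases h : s = i
    · subst h
      rw [Pi.single_eq_same, map_one]
      right
      simp
    · rw [Pi.single_eq_of_ne h, map_zero]
      exact DVal.Ge.zero
  · exact hP r s

omit [Algebra k F] [IsScalarTower k F E] in
/-- Solving for the coefficients. -/
private theorem co_solve (v : DVal k E) (P : Matrix (Fin n) (Fin n) F)
    (hP : ∀ i j, v.Ge 0 (algebraMap F E (P i j))) (h0 : P.det ≠ 0)
    (hdet : v (algebraMap F E P.det) = 0) (a : Fin n → F) {m : ℚ}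
    (ha : ∀ j, v.Ge m (algebraMap F E ((Matrix.vecMul a P) j))) (j : Fin n) :
    v.Ge m (algebraMap F E (a j)) := by
  have h1 : P.det * a j = ∑ s, (Matrix.vecMul a P) s * P.adjugate s j := by
    have h2 : Matrix.vecMul (Matrix.vecMul a P) P.adjugate = P.det • a := by
      rw [Matrix.vecMul_vecMul, Matrix.mul_adjugate, Matrix.vecMul_smul, Matrix.vecMul_one]
    have h3 := congrFun h2 j
    rw [Pi.smul_apply, smul_eq_mul] at h3
    rw [← h3]
    rfl
  have h4 : v.Ge m (algebraMap F E P.det * algebraMap F E (a j)) := by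
    rw [← map_mul, h1, map_sum]
    refine DVal.Ge.sum fun s _ => ?_
    rw [map_mul]
    have h5 := (ha s).mul (co_adj_ge v P hP s j)
    rwa [add_zero] at h5
  exact co_ge_of_mul (by rwa [Ne, map_eq_zero]) hdet h4

end Vals

section Perm

variable {K' M L' : Type*} [Field K'] [Field M] [Field L'] [Algebra K' M] [Algebra K' L']
  [Algebra M L'] {d : ℕ} {t : Fin d → M} {ι : Type*} [Fintype ι] [DecidableEq ι]

/-- The determinant of the coefficients for another order. -/
private theorem co_cdet_perm (A : Arr K' L' t ι) {b : Finset ι} (h : b.card = d + 1)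
    (ψ : Fin (d + 1) ≃ b) : ∃ s : ℤˣ,
      (Matrix.of fun i : Fin (d + 1) => A.co (ψ i)).det = ((s : ℤ) : K') * A.cdet b := by
  let σ : Equiv.Perm (Fin (d + 1)) := ψ.trans (b.equivFinOfCardEq h)
  refine ⟨Equiv.Perm.sign σ, ?_⟩
  unfold Arr.cdet
  rw [dif_pos h, ← Matrix.det_permute]
  congr 1
  ext i j
  simp only [Matrix.submatrix_apply, Matrix.of_apply, σ, id_eq, Equiv.trans_apply,
    Equiv.symm_apply_apply]

end Perm

variable {k K L K' M L' : Type*} [Field k] [Field K] [Field L] [Field K'] [Field M] [Field L']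
  [Algebra k K] [Algebra k L] [Algebra k K'] [Algebra k M] [Algebra k L'] [Algebra K L]
  [Algebra K K'] [Algebra K L'] [Algebra L L'] [Algebra K' M] [Algebra K' L'] [Algebra M L']
  [IsScalarTower k K L] [IsScalarTower k K K'] [IsScalarTower k K L'] [IsScalarTower k L L']
  [IsScalarTower k K' M] [IsScalarTower k K' L'] [IsScalarTower k M L'] [IsScalarTower K L L']
  [IsScalarTower K K' L'] [IsScalarTower K' M L'] [FiniteDimensional K K']
  [FiniteDimensional L L'] [FiniteDimensional M L'] [CharZero k] {d : ℕ}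
  {X : ProjVar k L} {Z : ProjVar k K} {t : Fin d → M} {ι : Type*} [Fintype ι] [DecidableEq ι]

theorem exists_coord (F : DFrame X Z K' (tL L' t)) (A : Arr K' L' t ι) (γ : ι → K')
    (hγ : ∀ i, γ i ≠ 0) (hγo : γ A.o = 1) :
    ∃ (t' : Fin d → M) (c' : ι → Fin (d + 1) → K') (D' : Fin d → Derivation K' L' L'),
      IsTorus K' t' ∧ (∀ i, affine t' (c' i) = affine t (A.co i)) ∧
      (∀ i j, D' i (tL L' t' j) = if i = j then 1 else 0) ∧
      (∀ G : MvPolynomial (Fin d) K', ∃ G' : MvPolynomial (Fin d) K',
        MvPolynomial.aeval (tL L' t') G' = MvPolynomial.aeval (tL L' t) G ∧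
        G'.totalDegree ≤ G.totalDegree) ∧
      ∀ (v : DVal k L') (μ : ℤ), (∀ i, v (A.l i) = v (algebraMap K' L' (γ i))) →
        (∀ b, IsBase K' A.co b → v (A.theta b) + μ = 0) →
        (∀ g : Fin d → L', (∀ j, g j ≠ 0) → v.Ge ((∑ j, v (g j) - μ : ℤ) : ℚ)
          (Matrix.of fun i j => F.D i (g j)).det) →
        (∀ j, v (tL L' t' j) = 0) ∧ (∀ (i : Fin d) (m : ℚ) (g : L'), v.Ge m g → v.Ge m (D' i g)) ∧
        ∀ b, IsBase K' A.co b → ∀ (a : ι → K') (m : ℚ),
          v.Ge m (∑ i ∈ b, algebraMap K' L' (a i) * (A.l i / algebraMap K' L' (γ i))) →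
          ∀ i ∈ b, v.Ge m (algebraMap K' L' (a i)) := by
  classical
  obtain ⟨b₀, hb₀, hob₀⟩ := exists_base_mem (F := K') A.co A.o (A.co_ne A.o)
  have hcard₀ := card_base A hb₀
  have hcard : (b₀.erase A.o).card = d := by
    rw [Finset.card_erase_of_mem hob₀, hcard₀, Nat.add_sub_cancel]
  let φ := (b₀.erase A.o).equivFinOfCardEq hcard
  -- the order of the base `b₀`
  let f₀ : Fin (d + 1) → ι := fun r => Fin.cases A.o (fun j => (φ.symm j : ι)) r
  have hf₀0 : f₀ 0 = A.o := rfl
  have hf₀s : ∀ j : Fin d, f₀ j.succ = (φ.symm j : ι) := fun j => rfl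
  have hf₀mem : ∀ r, f₀ r ∈ b₀ := by
    intro r
    refine Fin.cases hob₀ (fun j => ?_) r
    exact Finset.mem_of_mem_erase (φ.symm j).2
  have hf₀inj : Function.Injective f₀ := by
    intro r s
    refine Fin.cases ?_ (fun i => ?_) r
    · refine Fin.cases (fun _ => rfl) (fun j => ?_) s
      intro h
      exact absurd h.symm (Finset.ne_of_mem_erase (φ.symm j).2)
    · refine Fin.cases ?_ (fun j => ?_) s
      · intro h
        exact absurd h (Finset.ne_of_mem_erase (φ.symm i).2)
      · intro h
        rw [hf₀s, hf₀s] at h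
        rw [φ.symm.injective (Subtype.ext h)]
  let ψ₀ : Fin (d + 1) ≃ b₀ := Equiv.ofBijective (fun r => ⟨f₀ r, hf₀mem r⟩) (by
    rw [Fintype.bijective_iff_injective_and_card]
    refine ⟨fun r s h => hf₀inj (congrArg Subtype.val h), ?_⟩
    rw [Fintype.card_fin, Fintype.card_coe, hcard₀])
  obtain ⟨s₀, hs₀⟩ := co_cdet_perm A hcard₀ ψ₀
  have hs₀' : (Matrix.of fun i : Fin (d + 1) => A.co (f₀ i)).det =
      ((s₀ : ℤ) : K') * A.cdet b₀ := hs₀
  -- the matrix of `(1, t')`
  let w : Matrix (Fin (d + 1)) (Fin (d + 1)) K' := Matrix.of fun r => (γ (f₀ r))⁻¹ • A.co (f₀ r)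
  have hw0 : w 0 = Pi.single 0 1 := by
    change (γ (f₀ 0))⁻¹ • A.co (f₀ 0) = _
    rw [hf₀0, hγo, inv_one, one_smul, A.co_o]
    ext j
    simp [Pi.single_apply]
  have hwdet : w.det = (∏ r, (γ (f₀ r))⁻¹) * (((s₀ : ℤ) : K') * A.cdet b₀) := by
    rw [← hs₀', ← Matrix.det_mul_column]
    rfl
  have hsne : ∀ s : ℤˣ, ((s : ℤ) : K') ≠ 0 := by
    intro s
    rcases Int.units_eq_one_or s with h | h <;> rw [h] <;> simp
  have hwne : w.det ≠ 0 := by
    rw [hwdet]
    exact mul_ne_zero (Finset.prod_ne_zero_iff.2 fun r _ => inv_ne_zero (hγ _))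
      (mul_ne_zero (hsne _) (cdet_ne A hb₀))
  have hwunit : IsUnit w.det := hwne.isUnit
  let t' : Fin d → M := fun j => affine t (w j.succ)
  have hcomp : ∀ a : Fin (d + 1) → K', affine t' a = affine t (Matrix.vecMul a w) :=
    fun a => co_comp t w hw0 a
  have hback : ∀ a : Fin (d + 1) → K', affine t' (Matrix.vecMul a w⁻¹) = affine t a := by
    intro a
    rw [hcomp, Matrix.vecMul_vecMul, Matrix.nonsing_inv_mul w hwunit, Matrix.vecMul_one]
  let q : Fin d → Fin (d + 1) → K' := fun j => Matrix.vecMul (Pi.single j.succ 1) w⁻¹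
  have hq : ∀ j, affine t' (q j) = t j := fun j => by rw [hback, co_single]
  -- the block
  let V : Matrix (Fin d) (Fin d) K' := w.submatrix Fin.succ Fin.succ
  have hV : V.det = w.det := by
    rw [Matrix.det_succ_row_zero w, Finset.sum_eq_single 0]
    · rw [hw0, Pi.single_eq_same, Fin.succAbove_zero]
      simp [V]
    · intro j _ hj
      rw [hw0, Pi.single_eq_of_ne hj]
      simp
    · intro h
      exact absurd (Finset.mem_univ _) h
  have hVunit : IsUnit V.det := by rw [hV]; exact hwunit
  let D' : Fin d → Derivation K' L' L' := fun i =>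
    ∑ l, algebraMap K' L' (V⁻¹ l i) • F.D l
  have hD'app : ∀ i x, D' i x = ∑ l, algebraMap K' L' (V⁻¹ l i) * F.D l x := by
    intro i x
    change (∑ l, algebraMap K' L' (V⁻¹ l i) • F.D l) x = _
    change (Derivation.coeFnAddMonoidHom (∑ l, algebraMap K' L' (V⁻¹ l i) • F.D l)) x = _
    rw [map_sum, Finset.sum_apply]
    rfl
  have htL : ∀ j, tL L' t' j = affine (tL L' t) (w j.succ) := by
    intro j
    change algebraMap M L' (affine t (w j.succ)) = _
    unfold affine tL
    rw [map_add, map_sum, ← IsScalarTower.algebraMap_apply K' M L']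
    congr 1
    refine Finset.sum_congr rfl fun j _ => ?_
    rw [map_mul, ← IsScalarTower.algebraMap_apply K' M L']
  have hFD : ∀ l j, F.D l (tL L' t' j) = algebraMap K' L' (V j l) := by
    intro l j
    rw [htL, deriv_affine (tL L' t) F.D F.D_t]
    rfl
  have hD't : ∀ i j, D' i (tL L' t' j) = if i = j then 1 else 0 := by
    intro i j
    rw [hD'app]
    have h1 : ∀ l, algebraMap K' L' (V⁻¹ l i) * F.D l (tL L' t' j) =
        algebraMap K' L' (V j l * V⁻¹ l i) := by
      intro l
      rw [hFD, ← map_mul, mul_comm]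
    rw [Finset.sum_congr rfl fun l _ => h1 l, ← map_sum, ← Matrix.mul_apply,
      Matrix.mul_nonsing_inv V hVunit, Matrix.one_apply]
    by_cases h : i = j
    · subst h; simp
    · rw [if_neg (Ne.symm h), if_neg h, map_zero]
  have hDD' : ∀ r x, F.D r x = ∑ i, algebraMap K' L' (V i r) * D' i x := by
    intro r x
    have h1 : ∀ i, algebraMap K' L' (V i r) * D' i x =
        ∑ l, algebraMap K' L' (V⁻¹ l i * V i r) * F.D l x := by
      intro i
      rw [hD'app, Finset.mul_sum]
      refine Finset.sum_congr rfl fun l _ => ?_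
      rw [map_mul]
      ring
    rw [Finset.sum_congr rfl fun i _ => h1 i, Finset.sum_comm]
    have h2 : ∀ l, ∑ i, algebraMap K' L' (V⁻¹ l i * V i r) * F.D l x =
        (if l = r then F.D l x else 0) := by
      intro l
      rw [← Finset.sum_mul, ← map_sum, ← Matrix.mul_apply, Matrix.nonsing_inv_mul V hVunit,
        Matrix.one_apply]
      split_ifs <;> simp
    rw [Finset.sum_congr rfl fun l _ => h2 l]
    simp
  refine ⟨t', fun i => Matrix.vecMul (A.co i) w⁻¹, D', ?_, fun i => hback _, hD't, ?_, ?_⟩
  · -- torus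
    have hmem : ∀ j, t j ∈ IntermediateField.adjoin K' (Set.range t') := by
      intro j
      rw [← hq j]
      unfold affine
      refine add_mem (IntermediateField.algebraMap_mem _ _) (sum_mem fun l _ => ?_)
      exact mul_mem (IntermediateField.algebraMap_mem _ _)
        (IntermediateField.subset_adjoin K' _ (Set.mem_range_self _))
    refine ⟨indep_of_isAlgebraic (E := M) A.torus t' fun j => ?_, ?_⟩
    · exact isAlgebraic_algebraMap (R := IntermediateField.adjoin K' (Set.range t')) (A := M)
        ⟨t j, hmem j⟩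
    · rw [eq_top_iff, ← A.torus.gen, IntermediateField.adjoin_le_iff]
      rintro _ ⟨j, rfl⟩
      exact hmem j
  · -- polynomials
    intro G
    refine ⟨MvPolynomial.bind₁ (fun j => coP (q j)) G, ?_, co_bind_td _ (fun j => co_td _) G⟩
    rw [MvPolynomial.aeval_bind₁]
    have h1 : (fun j => MvPolynomial.aeval (tL L' t') (coP (q j))) = tL L' t := by
      funext j
      rw [co_aeval]
      have h2 := congrArg (algebraMap M L') (hq j)
      rw [← show algebraMap M L' (t j) = tL L' t j from rfl, ← h2]
      unfold affine tL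
      rw [map_add, map_sum, ← IsScalarTower.algebraMap_apply K' M L']
      congr 1
      refine Finset.sum_congr rfl fun j _ => ?_
      rw [map_mul, ← IsScalarTower.algebraMap_apply K' M L']
    rw [h1]
  · intro v μ hvl hvθ hdet
    have hγL : ∀ i, algebraMap K' L' (γ i) ≠ 0 := fun i => by
      rw [Ne, map_eq_zero]; exact hγ i
    have hlne : ∀ i, A.l i ≠ 0 := l_ne A
    have hq0 : ∀ i, v (A.l i / algebraMap K' L' (γ i)) = 0 := by
      intro i
      rw [v.map_div (hlne i) (hγL i), hvl i, sub_self]
    have hsval : ∀ s : ℤˣ, v (algebraMap K' L' ((s : ℤ) : K')) = 0 := by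
      intro s
      rcases Int.units_eq_one_or s with h | h <;> rw [h] <;> simp
    -- the value of `cdet`
    have hcd : ∀ b, IsBase K' A.co b →
        v (algebraMap K' L' (A.cdet b)) = ∑ i ∈ b, v (algebraMap K' L' (γ i)) - μ := by
      intro b hb
      have h1 := theta_val A v hb
      have h2 := hvθ b hb
      rw [h1] at h2
      rw [Finset.sum_congr rfl fun i _ => (hvl i).symm]
      linarith
    -- the quotients
    have hlw : ∀ j : Fin d, tL L' t' j = A.l (f₀ j.succ) / algebraMap K' L' (γ (f₀ j.succ)) := by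
      intro j
      rw [htL, affine_map A]
      change affine (tL L' t) ((γ (f₀ j.succ))⁻¹ • A.co (f₀ j.succ)) = _
      unfold affine
      simp only [Pi.smul_apply, smul_eq_mul, map_mul, mul_assoc]
      rw [← Finset.mul_sum, ← mul_add, map_inv₀, div_eq_inv_mul]
    have ht'0 : ∀ j, v (tL L' t' j) = 0 := fun j => by rw [hlw, hq0]
    have ht'ne : ∀ j, tL L' t' j ≠ 0 := fun j => by
      rw [hlw]
      exact div_ne_zero (hlne _) (hγL _)
    -- the value of the determinant of `w`
    have hwv : v (algebraMap K' L' w.det) = -μ := by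
      have h0 : ∀ r, algebraMap K' L' ((γ (f₀ r))⁻¹) ≠ 0 := fun r => by
        rw [Ne, map_eq_zero]; exact inv_ne_zero (hγ _)
      rw [hwdet, map_mul, map_mul, map_prod, v.map_mul (Finset.prod_ne_zero_iff.2 fun r _ => h0 r)
        (mul_ne_zero (by rw [Ne, map_eq_zero]; exact hsne _)
          (by rw [Ne, map_eq_zero]; exact cdet_ne A hb₀)),
        v.map_mul (by rw [Ne, map_eq_zero]; exact hsne _)
          (by rw [Ne, map_eq_zero]; exact cdet_ne A hb₀), hsval, zero_add, hcd b₀ hb₀,
        v.map_prod _ _ fun r _ => h0 r]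
      have h1 : ∑ i ∈ b₀, v (algebraMap K' L' (γ i)) = ∑ r, v (algebraMap K' L' (γ (f₀ r))) := by
        rw [← Finset.sum_coe_sort b₀ fun i => v (algebraMap K' L' (γ i))]
        exact (Equiv.sum_comp ψ₀ (fun i : b₀ => v (algebraMap K' L' (γ i)))).symm
      rw [h1, Finset.sum_congr rfl fun r _ => by rw [map_inv₀, v.map_inv],
        Finset.sum_neg_distrib]
      ring
    have hD'ge : ∀ (i : Fin d) (m : ℚ) (g : L'), v.Ge m g → v.Ge m (D' i g) := by
      intro i m g hg
      by_cases hg0 : g = 0
      · rw [hg0, map_zero]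
        exact DVal.Ge.zero
      rw [DVal.ge_iff hg0] at hg
      let G : Fin d → L' := Function.update (tL L' t') i g
      have hG : ∀ j, G j ≠ 0 := by
        intro j
        by_cases h : j = i
        · subst h
          simp only [G, Function.update_self]
          exact hg0
        · simp only [G, Function.update_of_ne h]
          exact ht'ne j
      have h1 := hdet G hG
      have h2 : ∑ j, v (G j) = v g := by
        rw [Finset.sum_eq_single i]
        · simp only [G, Function.update_self]
        · intro j _ hj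
          simp only [G, Function.update_of_ne hj]
          exact ht'0 j
        · intro h
          exact absurd (Finset.mem_univ _) h
      have h3 : (Matrix.of fun a j => F.D a (G j)) =
          (V.map (algebraMap K' L')).transpose * (Matrix.of fun a j => D' a (G j)) := by
        ext a j
        rw [Matrix.mul_apply, Matrix.of_apply, hDD']
        rfl
      have h4 : (Matrix.of fun a j => D' a (G j)) =
          (1 : Matrix (Fin d) (Fin d) L').updateCol i (fun a => D' a g) := by
        ext a j
        rw [Matrix.of_apply, Matrix.updateCol_apply]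
        split_ifs with h
        · rw [h]
          simp only [G, Function.update_self]
        · simp only [G, Function.update_of_ne h]
          rw [hD't, Matrix.one_apply]
      have h5 : ((1 : Matrix (Fin d) (Fin d) L').updateCol i (fun a => D' a g)).det = D' i g := by
        rw [← Matrix.cramer_apply, Matrix.cramer_one]
        rfl
      have h6 : (V.map (algebraMap K' L')).det = algebraMap K' L' w.det := by
        rw [← hV, RingHom.map_det]
        rfl
      rw [h3, Matrix.det_mul, Matrix.det_transpose, h6, h4, h5, h2] at h1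
      have h7 : algebraMap K' L' w.det ≠ 0 := by rwa [Ne, map_eq_zero]
      have h8 : v.Ge ((μ : ℤ) : ℚ) (algebraMap K' L' w.det)⁻¹ := by
        right
        rw [v.map_inv, hwv, neg_neg]
      have h9 := h8.mul h1
      rw [inv_mul_cancel_left₀ h7] at h9
      refine h9.mono ?_
      push_cast
      linarith
    refine ⟨ht'0, hD'ge, ?_⟩
    intro b hb a m hsum
    have hcb := card_base A hb
    let ψ : Fin (d + 1) ≃ b := (b.equivFinOfCardEq hcb).symm
    let f : Fin (d + 1) → ι := fun r => (ψ r : ι)
    -- bounds for coefficients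
    have hcoef : ∀ (x : Fin (d + 1) → K') (m : ℚ), v.Ge m (affine (tL L' t') x) →
        ∀ j, v.Ge m (algebraMap K' L' (x j)) := by
      intro x m hx j
      have h1 := coeff_bound v (tL L' t') D' hD't 0 0 le_rfl le_rfl
        (fun i g m hg => by rw [sub_zero]; exact hD'ge i m g hg)
        (fun j => by
          right
          rw [ht'0 j]
          simp) 1 (coP x) (co_td x) m (by rw [co_aeval]; exact hx)
      refine Fin.cases ?_ (fun j => ?_) j
      · have h2 := h1 0
        rw [co_coeff_zero] at h2
        simpa using h2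
      · have h2 := h1 (Finsupp.single j 1)
        rw [co_coeff_single] at h2
        simpa using h2
    let P : Matrix (Fin (d + 1)) (Fin (d + 1)) K' :=
      Matrix.of fun r => (γ (f r))⁻¹ • Matrix.vecMul (A.co (f r)) w⁻¹
    have hlin : ∀ (x : Fin (d + 1) → K'), affine (tL L' t') x = algebraMap M L' (affine t' x) := by
      intro x
      unfold affine tL
      rw [map_add, map_sum, ← IsScalarTower.algebraMap_apply K' M L']
      congr 1
      refine Finset.sum_congr rfl fun j _ => ?_
      rw [map_mul, ← IsScalarTower.algebraMap_apply K' M L']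
    have hPaff : ∀ r, affine (tL L' t') (P r) = A.l (f r) / algebraMap K' L' (γ (f r)) := by
      intro r
      have h1 : affine (tL L' t') (P r) =
          algebraMap K' L' ((γ (f r))⁻¹) * affine (tL L' t') (Matrix.vecMul (A.co (f r)) w⁻¹) := by
        change affine (tL L' t') ((γ (f r))⁻¹ • Matrix.vecMul (A.co (f r)) w⁻¹) = _
        unfold affine
        simp only [Pi.smul_apply, smul_eq_mul, map_mul, mul_assoc]
        rw [← Finset.mul_sum, ← mul_add]
      rw [h1, hlin, hback, map_inv₀, div_eq_inv_mul]
      rfl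
    have hPge : ∀ r s, v.Ge 0 (algebraMap K' L' (P r s)) := by
      intro r s
      refine hcoef (P r) 0 ?_ s
      rw [hPaff]
      right
      rw [hq0]
      simp
    have hPdet : P.det = (∏ r, (γ (f r))⁻¹) * (A.cdet b * (w.det)⁻¹) := by
      have h1 : P = Matrix.of fun r s => (γ (f r))⁻¹ *
          ((Matrix.of fun i : Fin (d + 1) => A.co (f i)) * w⁻¹) r s := by
        ext r s
        rfl
      have h2 : (Matrix.of fun i : Fin (d + 1) => A.co (f i)).det = A.cdet b := by
        unfold Arr.cdet
        rw [dif_pos hcb]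
      rw [h1, Matrix.det_mul_column, Matrix.det_mul, h2, Matrix.det_nonsing_inv,
        Ring.inverse_eq_inv']
    have hPne : P.det ≠ 0 := by
      rw [hPdet]
      exact mul_ne_zero (Finset.prod_ne_zero_iff.2 fun r _ => inv_ne_zero (hγ _))
        (mul_ne_zero (cdet_ne A hb) (inv_ne_zero hwne))
    have hPv : v (algebraMap K' L' P.det) = 0 := by
      have h0 : ∀ r, algebraMap K' L' ((γ (f r))⁻¹) ≠ 0 := fun r => by
        rw [Ne, map_eq_zero]; exact inv_ne_zero (hγ _)
      have h7 : algebraMap K' L' w.det ≠ 0 := by rwa [Ne, map_eq_zero]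
      have h8 : algebraMap K' L' (A.cdet b) ≠ 0 := by rw [Ne, map_eq_zero]; exact cdet_ne A hb
      rw [hPdet, map_mul, map_mul, map_prod, map_inv₀, v.map_mul
        (Finset.prod_ne_zero_iff.2 fun r _ => h0 r) (mul_ne_zero h8 (inv_ne_zero h7)),
        v.map_mul h8 (inv_ne_zero h7), v.map_inv, hwv, hcd b hb,
        v.map_prod _ _ fun r _ => h0 r]
      have h1 : ∑ i ∈ b, v (algebraMap K' L' (γ i)) = ∑ r, v (algebraMap K' L' (γ (f r))) := by
        rw [← Finset.sum_coe_sort b fun i => v (algebraMap K' L' (γ i))]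
        exact (Equiv.sum_comp ψ (fun i : b => v (algebraMap K' L' (γ i)))).symm
      rw [h1, Finset.sum_congr rfl fun r _ => by rw [map_inv₀, v.map_inv],
        Finset.sum_neg_distrib]
      ring
    -- the sum as an affine function
    have hsum' : ∑ i ∈ b, algebraMap K' L' (a i) * (A.l i / algebraMap K' L' (γ i)) =
        affine (tL L' t') (Matrix.vecMul (fun r => a (f r)) P) := by
      have h1 : ∑ i ∈ b, algebraMap K' L' (a i) * (A.l i / algebraMap K' L' (γ i)) =
          ∑ r, algebraMap K' L' (a (f r)) * affine (tL L' t') (P r) := by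
        rw [← Finset.sum_coe_sort b fun i =>
          algebraMap K' L' (a i) * (A.l i / algebraMap K' L' (γ i))]
        rw [← Equiv.sum_comp ψ (fun i : b =>
          algebraMap K' L' (a i) * (A.l i / algebraMap K' L' (γ i)))]
        exact Finset.sum_congr rfl fun r _ => by rw [hPaff]
      rw [h1]
      unfold affine
      simp only [Matrix.vecMul, dotProduct, map_sum, map_mul]
      simp only [mul_add, Finset.sum_add_distrib, Finset.mul_sum, Finset.sum_mul]
      congr 1
      rw [Finset.sum_comm]
      refine Finset.sum_congr rfl fun r _ => Finset.sum_congr rfl fun j _ => ?_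
      ring
    rw [hsum'] at hsum
    have hfin := co_solve v P hPge hPne hPv (fun r => a (f r)) (hcoef _ m hsum)
    intro i hi
    have h1 := hfin (ψ.symm ⟨i, hi⟩)
    have h2 : f (ψ.symm ⟨i, hi⟩) = i := by
      change ((ψ (ψ.symm ⟨i, hi⟩) : b) : ι) = i
      rw [Equiv.apply_symm_apply]
    simp only [h2] at h1
    exact h1

end Pool.Agent.Helper92.HA
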