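import Pool.Agent.Helper92.HA.PSpaceCl
import Pool.Agent.Helper92.Weak.Torus4

set_option autoImplicit false

/-!
# HA-30 PSpaceEx: existence of the prime divisors of projective space

`M = K'(t₁, ..., t_d)` (`IsTorus K' t`).
`exists_fin`. For an irreducible `g₀` the multiplicity of `g₀` gives a valuation of `M = Frac K'[t]` (as `Helper92.Ga.pVal` in
`Helper92/Ga/Line.lean` for one variable: the file may be a model; `multiplicity`/`emultiplicity` of a prime element of the
UFD `MvPolynomial (Fin d) K'`; `ht.isFractionRing_poly`), its ring is the localisation of the chart `0`, `K'[t]`, at the prime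
ideal `(g₀)`: `a/b` in lowest terms has value `≥ 0` iff `g₀ ∤ b`. Constants have value `0`.
`exists_inf`. `d ≥ 1`. The elements `s_1 = 1/t_1`, `s_l = t_l/t_1` are a torus coordinate system (`IsTorus K' s`: they generate
`M`, and algebraic independence by the cardinality of a transcendence basis). `exists_fin` for `s` and the irreducible
polynomial `X_1`: a valuation `D` of `M`, whose ring is a localisation of the chart `0` for `s`, that is `K'[s]`; the chart
`1` for `t` is the same subalgebra `K'[1/t_1, t_l/t_1]`. So `D ∈ (projSpace ht).primeDivisors`, and `D (t_1) = -1`; `proj_inf`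
gives the formula (so also all `D (t j) = -1 < 0`).
`poly_of_fin`: `z ∈ M`, `D z ≥ 0` for all `D` with all `D (t j) ≥ 0`, is a polynomial in `t`: `z = a(t)/b(t)` without common
factor (`exists_aeval_div`, `MvPolynomial` is a UFD: `IsFractionRing.exists_reduced_fraction`); if `b` is not a unit an
irreducible factor `g₀` of `b` gives a `D` (`exists_fin`) with `D z < 0`; a unit of `MvPolynomial` over a field is a constant.
-/

namespace Pool.Agent.Helper92.HA

open Pool.Agent.Helper92.Weak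

variable {K' M : Type*} [Field K'] [Field M] [Algebra K' M] {d : ℕ} {t : Fin d → M}

private theorem isLocalizationOf_ring (A : Subalgebra K' M) (D : DVal K' M) (hA : A ≤ D.ring)
    (h : ∀ z ∈ D.ring, ∃ a b : A, (b : M) ≠ 0 ∧ D b = 0 ∧ z * b = a) :
    IsLocalizationOf A D.ring := by
  let p : Ideal A :=
    { carrier := {c | D.Ge 1 (c : M)}
      zero_mem' := DVal.Ge.zero
      add_mem' := fun ha hb => ha.add hb
      smul_mem' := fun c x hx => by
        have h1 : D.Ge 0 (c : M) := D.mem_ring_iff_ge.1 (hA c.2)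
        have h2 := h1.mul hx
        rw [zero_add] at h2
        exact h2 }
  have hp : ∀ c : A, c ∈ p ↔ D.Ge 1 (c : M) := fun c => Iff.rfl
  have hp0 : ∀ c : A, c ∉ p → (c : M) ≠ 0 ∧ D c = 0 := by
    intro c hc
    rw [hp] at hc
    unfold DVal.Ge at hc
    push Not at hc
    refine ⟨hc.1, ?_⟩
    have h1 : 0 ≤ D c := hA c.2
    have h2 : D c < 1 := by exact_mod_cast hc.2
    omega
  refine ⟨p, ⟨?_, ?_⟩, ?_⟩
  · rw [Ideal.ne_top_iff_one, hp]
    rintro (h1 | h1)
    · exact one_ne_zero h1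
    · rw [OneMemClass.coe_one, D.map_one] at h1
      norm_num at h1
  · intro x y hxy
    by_contra hcon
    push Not at hcon
    obtain ⟨hx0, hx⟩ := hp0 x hcon.1
    obtain ⟨hy0, hy⟩ := hp0 y hcon.2
    rw [hp] at hxy
    have h1 : ((x * y : A) : M) = x * y := rfl
    rw [h1, DVal.ge_iff (mul_ne_zero hx0 hy0), D.map_mul hx0 hy0, hx, hy] at hxy
    norm_num at hxy
  · intro z
    constructor
    · intro hz
      obtain ⟨a, b, hb0, hb, hab⟩ := h z hz
      refine ⟨a, b, ?_, hab⟩
      rw [hp, DVal.ge_iff hb0, hb]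
      norm_num
    · rintro ⟨a, b, hb, hab⟩
      obtain ⟨hb0, hb1⟩ := hp0 b hb
      by_cases hz : z = 0
      · rw [hz]; exact D.ring.zero_mem
      have h1 : 0 ≤ D a := hA a.2
      rw [← hab, D.map_mul hz hb0, hb1, add_zero] at h1
      exact h1

private theorem chart_zero (t : Fin d → M) :
    chart K' (hom1 t) 0 = Algebra.adjoin K' (Set.range t) := by
  unfold chart
  apply le_antisymm
  · rw [Algebra.adjoin_le_iff]
    rintro _ ⟨j, rfl⟩
    refine Fin.cases ?_ (fun l => ?_) j
    · simp [hom1, one_mem]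
    · simp only [hom1, Fin.cons_succ, Fin.cons_zero, div_one]
      exact Algebra.subset_adjoin ⟨l, rfl⟩
  · rw [Algebra.adjoin_le_iff]
    rintro _ ⟨l, rfl⟩
    apply Algebra.subset_adjoin
    refine ⟨l.succ, ?_⟩
    simp [hom1]

private theorem exists_fin_zero (ht : IsTorus K' t) {g₀ : MvPolynomial (Fin d) K'}
    (hg : Irreducible g₀) :
    ∃ D : DVal K' M, IsLocalizationOf (chart K' (hom1 t) 0) D.ring ∧ (∀ j, 0 ≤ D (t j)) ∧
      D (MvPolynomial.aeval t g₀) = 1 ∧
      ∀ g, ¬ g₀ ∣ g → D (MvPolynomial.aeval t g) = 0 := by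
  have hp : Prime g₀ := hg.prime
  have hnn : ∀ j, 0 ≤ polyVal K' ht g₀ hp (t j) := by
    intro j
    have h := polyVal_nonneg K' ht hp (MvPolynomial.X j)
    rwa [MvPolynomial.aeval_X] at h
  refine ⟨polyVal K' ht g₀ hp, ?_, hnn, polyVal_self K' ht hp,
    fun g hg => polyVal_eq_zero K' ht hp hg⟩
  have hmem : ∀ g : MvPolynomial (Fin d) K',
      MvPolynomial.aeval t g ∈ chart K' (hom1 t) 0 := by
    intro g
    rw [chart_zero, Algebra.adjoin_range_eq_range_aeval]
    exact ⟨g, rfl⟩
  apply isLocalizationOf_ring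
  · rw [chart_zero, Algebra.adjoin_range_eq_range_aeval]
    rintro _ ⟨g, rfl⟩
    exact polyVal_nonneg K' ht hp g
  · intro z hz
    obtain ⟨a, b, hb, hab⟩ := (mem_polyVal_ring K' ht hp).1 hz
    have hb0 : b ≠ 0 := by rintro rfl; exact hb (dvd_zero _)
    have hb1 : MvPolynomial.aeval t b ≠ 0 := fun h0 => hb0 (ht.indep (by rw [h0, map_zero]))
    refine ⟨⟨_, hmem a⟩, ⟨_, hmem b⟩, hb1, polyVal_eq_zero K' ht hp hb, ?_⟩
    rw [hab]
    exact div_mul_cancel₀ _ hb1

theorem exists_fin (ht : IsTorus K' t) {g₀ : MvPolynomial (Fin d) K'} (hg : Irreducible g₀) :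
    ∃ D ∈ (projSpace ht).primeDivisors, (∀ j, 0 ≤ D (t j)) ∧
      D (MvPolynomial.aeval t g₀) = 1 ∧
      ∀ g, ¬ g₀ ∣ g → D (MvPolynomial.aeval t g) = 0 := by
  obtain ⟨D, h1, h2⟩ := exists_fin_zero ht hg
  exact ⟨D, ⟨0, h1⟩, h2⟩

private theorem isAlgebraic_adjoin {s : Fin d → M}
    (hs : IntermediateField.adjoin K' (Set.range s) = ⊤) :
    Algebra.IsAlgebraic (Algebra.adjoin K' (Set.range s)) M := by
  refine ⟨fun z => ?_⟩
  have hz : z ∈ IntermediateField.adjoin K' (Set.range s) := by rw [hs]; trivial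
  rw [IntermediateField.mem_adjoin_iff_div] at hz
  obtain ⟨a, ha, b, hb, h⟩ := hz
  rw [h, div_eq_mul_inv]
  have h1 : IsAlgebraic (Algebra.adjoin K' (Set.range s)) a :=
    isAlgebraic_algebraMap (⟨a, ha⟩ : Algebra.adjoin K' (Set.range s))
  have h2 : IsAlgebraic (Algebra.adjoin K' (Set.range s)) b :=
    isAlgebraic_algebraMap (⟨b, hb⟩ : Algebra.adjoin K' (Set.range s))
  exact h1.mul h2.inv

private theorem isTorus_of_gen (ht : IsTorus K' t) {s : Fin d → M}
    (hs : IntermediateField.adjoin K' (Set.range s) = ⊤) : IsTorus K' s := by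
  refine ⟨?_, hs⟩
  have := isAlgebraic_adjoin hs
  have htb : IsTranscendenceBasis K' t :=
    ht.indep.isTranscendenceBasis_iff_isAlgebraic.2 (isAlgebraic_adjoin ht.gen)
  exact (Algebra.IsAlgebraic.isTranscendenceBasis_of_lift_le_trdeg_of_finite K' s
    htb.lift_cardinalMk_eq_trdeg.le).1

theorem exists_inf (ht : IsTorus K' t) (hd : 0 < d) :
    ∃ D ∈ (projSpace ht).primeDivisors, (∀ j, D (t j) < 0) ∧
      ∀ g : MvPolynomial (Fin d) K', g ≠ 0 →
        D (MvPolynomial.aeval t g) = -(g.totalDegree : ℤ) := by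
  obtain ⟨n, rfl⟩ : ∃ n, d = n + 1 := ⟨d - 1, by omega⟩
  let s : Fin (n + 1) → M := Fin.cons (t 0)⁻¹ fun l => t l.succ / t 0
  have hs0 : s 0 = (t 0)⁻¹ := rfl
  have hsl : ∀ l : Fin n, s l.succ = t l.succ / t 0 := fun l => rfl
  have ht0 : t 0 ≠ 0 := ht.ne_zero 0
  have hgen : IntermediateField.adjoin K' (Set.range s) = ⊤ := by
    rw [eq_top_iff, ← ht.gen, IntermediateField.adjoin_le_iff]
    have h0 : t 0 ∈ IntermediateField.adjoin K' (Set.range s) := by
      have h1 : s 0 ∈ IntermediateField.adjoin K' (Set.range s) :=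
        IntermediateField.subset_adjoin K' _ ⟨0, rfl⟩
      have h2 := inv_mem h1
      rwa [hs0, inv_inv] at h2
    rintro _ ⟨j, rfl⟩
    refine Fin.cases h0 (fun l => ?_) j
    have h1 : s l.succ ∈ IntermediateField.adjoin K' (Set.range s) :=
      IntermediateField.subset_adjoin K' _ ⟨l.succ, rfl⟩
    have h2 := mul_mem h1 h0
    rwa [hsl, div_mul_cancel₀ _ ht0] at h2
  have hs : IsTorus K' s := isTorus_of_gen ht hgen
  obtain ⟨D, hD, -, h3, -⟩ := exists_fin_zero hs
    (MvPolynomial.X_prime (R := K') (i := (0 : Fin (n + 1)))).irreducible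
  rw [MvPolynomial.aeval_X, hs0, D.map_inv] at h3
  have hchart : chart K' (hom1 s) 0 = chart K' (hom1 t) 1 := by
    rw [chart_zero]
    unfold chart
    have h10 : hom1 t 1 = t 0 := rfl
    apply le_antisymm
    · rw [Algebra.adjoin_le_iff]
      rintro _ ⟨j, rfl⟩
      apply Algebra.subset_adjoin
      refine Fin.cases ⟨0, ?_⟩ (fun l => ⟨l.succ.succ, ?_⟩) j
      · change hom1 t 0 / hom1 t 1 = s 0
        rw [h10, hs0]
        simp [hom1]
      · change hom1 t l.succ.succ / hom1 t 1 = s l.succ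
        rw [h10, hsl]
        simp [hom1]
    · rw [Algebra.adjoin_le_iff]
      rintro _ ⟨j, rfl⟩
      change hom1 t j / hom1 t 1 ∈ Algebra.adjoin K' (Set.range s)
      rw [h10]
      refine Fin.cases ?_ (fun j => ?_) j
      · have h1 : hom1 t 0 / t 0 = s 0 := by rw [hs0]; simp [hom1]
        rw [h1]
        exact Algebra.subset_adjoin ⟨0, rfl⟩
      · refine Fin.cases ?_ (fun l => ?_) j
        · have h1 : hom1 t (Fin.succ 0) / t 0 = 1 := by
            simp [hom1, ht0]
          rw [h1]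
          exact one_mem _
        · have h1 : hom1 t l.succ.succ / t 0 = s l.succ := by rw [hsl]; simp [hom1]
          rw [h1]
          exact Algebra.subset_adjoin ⟨l.succ, rfl⟩
  have hmem : D ∈ (projSpace ht).primeDivisors := ⟨1, by
    change IsLocalizationOf (chart K' (hom1 t) 1) D.ring
    rw [← hchart]
    exact hD⟩
  have hneg : ¬ ∀ j, 0 ≤ D (t j) := by
    intro h
    have := h 0
    omega
  have hform := proj_inf ht hmem hneg
  refine ⟨D, hmem, fun j => ?_, hform⟩
  have h1 := hform (MvPolynomial.X j) (MvPolynomial.X_ne_zero j)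
  rw [MvPolynomial.aeval_X, MvPolynomial.totalDegree_X] at h1
  rw [h1]
  norm_num

theorem poly_of_fin (ht : IsTorus K' t) {z : M}
    (h : ∀ D ∈ (projSpace ht).primeDivisors, (∀ j, 0 ≤ D (t j)) → D.Ge 0 z) :
    ∃ g : MvPolynomial (Fin d) K', MvPolynomial.aeval t g = z := by
  obtain ⟨a, b, hb, hz⟩ := exists_aeval_div ht z
  obtain ⟨b', a', c, hrel, hcb, hca⟩ := UniqueFactorizationMonoid.exists_reduced_factors b hb a
  have hne : ∀ g : MvPolynomial (Fin d) K', g ≠ 0 → MvPolynomial.aeval t g ≠ 0 :=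
    fun g hg h0 => hg (ht.indep (by rw [h0, map_zero]))
  have hc0 : c ≠ 0 := by rintro rfl; exact hb (by rw [← hcb, zero_mul])
  have hb0 : b' ≠ 0 := by rintro rfl; exact hb (by rw [← hcb, mul_zero])
  have hz' : z = MvPolynomial.aeval t a' / MvPolynomial.aeval t b' := by
    rw [hz, ← hcb, ← hca, map_mul, map_mul, mul_div_mul_left _ _ (hne c hc0)]
  by_cases hu : IsUnit b'
  · obtain ⟨u, hu⟩ := hu.exists_right_inv
    refine ⟨a' * u, ?_⟩
    have h1 : MvPolynomial.aeval t b' * MvPolynomial.aeval t u = 1 := by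
      rw [← map_mul, hu, map_one]
    rw [hz', map_mul, eq_div_iff (hne b' hb0), mul_assoc, mul_comm (MvPolynomial.aeval t u), h1,
      mul_one]
  · exfalso
    obtain ⟨g₀, hg₀, e, he⟩ := WfDvdMonoid.exists_irreducible_factor hu hb0
    have hna : ¬ g₀ ∣ a' := fun h1 => hg₀.not_isUnit (hrel ⟨e, he⟩ h1)
    have ha0 : a' ≠ 0 := by rintro rfl; exact hna (dvd_zero _)
    have he0 : e ≠ 0 := by rintro rfl; exact hb0 (by rw [he, mul_zero])
    obtain ⟨D, hD, hD0, hD1, hD2⟩ := exists_fin ht hg₀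
    have hnn : 0 ≤ D (MvPolynomial.aeval t e) := by
      have h1 : Algebra.adjoin K' (Set.range t) ≤ D.ring := by
        rw [Algebra.adjoin_le_iff]
        rintro _ ⟨j, rfl⟩
        exact hD0 j
      rw [Algebra.adjoin_range_eq_range_aeval] at h1
      exact h1 ⟨e, rfl⟩
    have h2 := h D hD hD0
    rw [hz', DVal.ge_iff (div_ne_zero (hne a' ha0) (hne b' hb0)),
      D.map_div (hne a' ha0) (hne b' hb0), hD2 a' hna, he, map_mul,
      D.map_mul (hne g₀ hg₀.ne_zero) (hne e he0), hD1] at h2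
    have h3 : (0 : ℤ) ≤ 0 - (1 + D (MvPolynomial.aeval t e)) := by exact_mod_cast h2
    omega

end Pool.Agent.Helper92.HA
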