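import Pool.Agent.Helper92.HA.Comb

set_option autoImplicit false

/-!
# HA-11 KumUFD: unique factorisation

`affP x = C (x 0) + ∑ C (x (j+1)) X j`. If some `x (j + 1) ≠ 0` it has total degree one over a field, so
it is irreducible (`MvPolynomial.irreducible_of_totalDegree_eq_one`, the content condition is
trivial over a field: some coefficient is a unit). Associated ones are proportional (units of
`MvPolynomial` over a field are constants).
`ufd_exponents`. Compare the multiplicity of the prime `p i` (`i ≠ o`) on both sides (`emultiplicity` or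
`UniqueFactorizationMonoid`; irreducible = prime in a UFD; `p j`, `j ≠ i`, has multiplicity `0`, being
an irreducible not associated to `p i`, or `1`): `N α + χ i = N β + χ' i`, both `χ i, χ' i < N`, so they are
equal.
-/

namespace Pool.Agent.Helper92.HA

open Module Pool.Agent.Helper92.Weak


/-- The affine polynomial with the given coefficients. -/
noncomputable def affP {κ : Type*} [Field κ] {d : ℕ} (x : Fin (d + 1) → κ) :
    MvPolynomial (Fin d) κ :=
  MvPolynomial.C (x 0) + ∑ j : Fin d, MvPolynomial.C (x j.succ) * MvPolynomial.X j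

section aux

variable {κ : Type*} [Field κ] {d : ℕ}

private theorem coeff_zero_affP (x : Fin (d + 1) → κ) : (affP x).coeff 0 = x 0 := by
  classical
  unfold affP
  rw [MvPolynomial.coeff_add, MvPolynomial.coeff_C, if_pos rfl, MvPolynomial.coeff_sum,
    Finset.sum_eq_zero, add_zero]
  intro j _
  rw [MvPolynomial.coeff_C_mul, MvPolynomial.coeff_X, if_neg, mul_zero]
  intro h
  have h1 := DFunLike.congr_fun h j
  simp at h1

private theorem coeff_single_affP (x : Fin (d + 1) → κ) (j : Fin d) :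
    (affP x).coeff (Finsupp.single j 1) = x j.succ := by
  classical
  unfold affP
  rw [MvPolynomial.coeff_add, MvPolynomial.coeff_C, if_neg, zero_add, MvPolynomial.coeff_sum,
    Finset.sum_eq_single j]
  · rw [MvPolynomial.coeff_C_mul, MvPolynomial.coeff_X, if_pos rfl, mul_one]
  · intro i _ hi
    rw [MvPolynomial.coeff_C_mul, MvPolynomial.coeff_X, if_neg, mul_zero]
    rw [Finsupp.single_left_inj one_ne_zero]
    exact hi
  · intro h
    exact absurd (Finset.mem_univ j) h
  · intro h
    have h1 := DFunLike.congr_fun h j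
    simp at h1

private theorem totalDegree_affP_le (x : Fin (d + 1) → κ) : (affP x).totalDegree ≤ 1 := by
  unfold affP
  refine (MvPolynomial.totalDegree_add _ _).trans (max_le ?_ ?_)
  · rw [MvPolynomial.totalDegree_C]
    exact zero_le_one
  · refine MvPolynomial.totalDegree_finsetSum_le fun j _ => ?_
    refine (MvPolynomial.totalDegree_mul _ _).trans ?_
    rw [MvPolynomial.totalDegree_C, MvPolynomial.totalDegree_X]

private theorem pow_cancel {π U U' : MvPolynomial (Fin d) κ} (hπ : Prime π) {x y : ℕ}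
    (hU : ¬ π ∣ U) (h : π ^ x * U = π ^ y * U') : y ≤ x := by
  by_contra hlt
  push Not at hlt
  obtain ⟨z, rfl⟩ := Nat.exists_eq_add_of_lt hlt
  have h1 : π ^ x * U = π ^ x * (π * (π ^ z * U')) := by
    rw [h]
    ring
  have h2 := mul_left_cancel₀ (pow_ne_zero x hπ.ne_zero) h1
  exact hU ⟨_, h2⟩

private theorem pderiv_eq_zero_of_dvd {a : MvPolynomial (Fin d) κ} {j : Fin d}
    (h : a ∣ MvPolynomial.pderiv j a) : MvPolynomial.pderiv j a = 0 := by
  classical
  by_contra hne
  have h1 := MvPolynomial.totalDegree_le_of_dvd_of_isDomain h hne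
  obtain ⟨m, hm, hdeg⟩ : ∃ m ∈ (MvPolynomial.pderiv j a).support,
      (MvPolynomial.pderiv j a).totalDegree = m.sum fun _ e => e := by
    have hs : (MvPolynomial.pderiv j a).support.Nonempty := by
      rw [Finset.nonempty_iff_ne_empty, Ne, MvPolynomial.support_eq_empty]
      exact hne
    exact Finset.exists_mem_eq_sup _ hs _
  rw [MvPolynomial.mem_support_iff, MvPolynomial.coeff_pderiv] at hm
  have h2 : m + Finsupp.single j 1 ∈ a.support := by
    rw [MvPolynomial.mem_support_iff]
    exact left_ne_zero_of_mul hm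
  have h3 := MvPolynomial.le_totalDegree h2
  rw [Finsupp.sum_add_index' (fun _ => rfl) (fun _ _ _ => rfl), Finsupp.sum_single_index rfl] at h3
  omega

private theorem eq_C_of_pderiv [CharZero κ] {a : MvPolynomial (Fin d) κ}
    (h : ∀ j, MvPolynomial.pderiv j a = 0) : a = MvPolynomial.C (a.coeff 0) := by
  classical
  ext m
  rw [MvPolynomial.coeff_C]
  split_ifs with hm
  · rw [hm]
  · obtain ⟨j, hj⟩ : ∃ j, m j ≠ 0 := by
      by_contra hcon
      push Not at hcon
      exact hm (Finsupp.ext fun j => (hcon j).symm)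
    have h1 := congrArg (MvPolynomial.coeff (m - Finsupp.single j 1)) (h j)
    rw [MvPolynomial.coeff_pderiv, MvPolynomial.coeff_zero] at h1
    have h2 : m - Finsupp.single j 1 + Finsupp.single j 1 = m := by
      apply tsub_add_cancel_of_le
      rw [Finsupp.single_le_iff]
      omega
    rw [h2] at h1
    rcases mul_eq_zero.1 h1 with h3 | h3
    · exact h3
    · exfalso
      have h4 : ((((m - Finsupp.single j 1 : Fin d →₀ ℕ)) j + 1 : ℕ) : κ) = 0 := by
        push_cast
        exact h3
      exact absurd (Nat.cast_eq_zero.1 h4) (by omega)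

end aux

theorem irreducible_affP {κ : Type*} [Field κ] {d : ℕ} {x : Fin (d + 1) → κ}
    (hx : ∃ j : Fin d, x j.succ ≠ 0) : Irreducible (affP x) := by
  obtain ⟨j, hj⟩ := hx
  have hmem : Finsupp.single j 1 ∈ (affP x).support := by
    rw [MvPolynomial.mem_support_iff, coeff_single_affP]
    exact hj
  apply MvPolynomial.irreducible_of_totalDegree_eq_one
  · refine le_antisymm (totalDegree_affP_le x) ?_
    have h1 := MvPolynomial.le_totalDegree hmem
    rwa [Finsupp.sum_single_index rfl] at h1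
  · intro r hr
    have h1 := hr (Finsupp.single j 1)
    rw [coeff_single_affP] at h1
    refine isUnit_iff_ne_zero.2 fun h0 => hj ?_
    rw [h0] at h1
    exact zero_dvd_iff.1 h1

theorem smul_of_associated_affP {κ : Type*} [Field κ] {d : ℕ} {x y : Fin (d + 1) → κ}
    (h : Associated (affP x) (affP y)) : ∃ c : κ, y = c • x := by
  obtain ⟨u, hu⟩ := h
  obtain ⟨r, -, hr⟩ := MvPolynomial.isUnit_iff_eq_C_of_isReduced.1 u.isUnit
  rw [hr, mul_comm] at hu
  refine ⟨r, funext fun i => ?_⟩
  rw [Pi.smul_apply, smul_eq_mul]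
  refine Fin.cases ?_ (fun j => ?_) i
  · rw [← coeff_zero_affP y, ← coeff_zero_affP x, ← hu, MvPolynomial.coeff_C_mul]
  · rw [← coeff_single_affP y, ← coeff_single_affP x, ← hu, MvPolynomial.coeff_C_mul]

theorem ufd_exponents {κ : Type*} [Field κ] {d : ℕ} {ι : Type*} [Fintype ι] [DecidableEq ι]
    (o : ι) (p : ι → MvPolynomial (Fin d) κ) (hirr : ∀ i, i ≠ o → Irreducible (p i))
    (hass : ∀ i j, i ≠ o → j ≠ o → i ≠ j → ¬ Associated (p i) (p j)) (ho : p o = 1) {N : ℕ}
    {a b : MvPolynomial (Fin d) κ} (ha : a ≠ 0) (hb : b ≠ 0) {χ χ' : ι → Fin N}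
    (hχ : (χ o : ℕ) = 0) (hχ' : (χ' o : ℕ) = 0) {c : κ} (hc : c ≠ 0)
    (h : MvPolynomial.C c * a ^ N * ∏ i, p i ^ (χ i : ℕ) = b ^ N * ∏ i, p i ^ (χ' i : ℕ)) :
    χ = χ' := by
  funext i
  apply Fin.ext
  by_cases hi : i = o
  · rw [hi, hχ, hχ']
  have hπ : Prime (p i) := (hirr i hi).prime
  -- the rest of the product is not divisible
  have hrest : ∀ ψ : ι → Fin N, ¬ p i ∣ ∏ j ∈ Finset.univ.erase i, p j ^ (ψ j : ℕ) := by
    intro ψ hdvd
    obtain ⟨j, hj, hdvd⟩ := (Prime.dvd_finsetProd_iff hπ _).1 hdvd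
    have hji : j ≠ i := (Finset.mem_erase.1 hj).1
    have h1 := hπ.dvd_of_dvd_pow hdvd
    by_cases hjo : j = o
    · rw [hjo, ho] at h1
      exact hπ.not_isUnit (isUnit_of_dvd_one h1)
    · exact hass i j hi hjo (Ne.symm hji) (((hirr i hi).dvd_irreducible_iff_associated
        (hirr j hjo)).1 h1)
  obtain ⟨s, a', ha', has⟩ := WfDvdMonoid.max_power_factor ha (hirr i hi)
  obtain ⟨t, b', hb', hbt⟩ := WfDvdMonoid.max_power_factor hb (hirr i hi)
  have hUC : ¬ p i ∣ MvPolynomial.C c := by
    intro hdvd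
    exact hπ.not_isUnit (isUnit_of_dvd_unit hdvd ((isUnit_iff_ne_zero.2 hc).map MvPolynomial.C))
  have hU : ¬ p i ∣ MvPolynomial.C c * a' ^ N * ∏ j ∈ Finset.univ.erase i, p j ^ (χ j : ℕ) := by
    intro hdvd
    rcases hπ.dvd_or_dvd hdvd with h1 | h1
    · rcases hπ.dvd_or_dvd h1 with h2 | h2
      · exact hUC h2
      · exact ha' (hπ.dvd_of_dvd_pow h2)
    · exact hrest χ h1
  have hU' : ¬ p i ∣ b' ^ N * ∏ j ∈ Finset.univ.erase i, p j ^ (χ' j : ℕ) := by
    intro hdvd
    rcases hπ.dvd_or_dvd hdvd with h1 | h1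
    · exact hb' (hπ.dvd_of_dvd_pow h1)
    · exact hrest χ' h1
  have hkey : p i ^ (s * N + χ i) *
      (MvPolynomial.C c * a' ^ N * ∏ j ∈ Finset.univ.erase i, p j ^ (χ j : ℕ)) =
      p i ^ (t * N + χ' i) * (b' ^ N * ∏ j ∈ Finset.univ.erase i, p j ^ (χ' j : ℕ)) := by
    rw [has, hbt, ← Finset.mul_prod_erase _ _ (Finset.mem_univ i),
      ← Finset.mul_prod_erase _ (fun j => p j ^ (χ' j : ℕ)) (Finset.mem_univ i)] at h
    rw [pow_add, pow_mul, pow_add, pow_mul]
    rw [mul_pow, mul_pow] at h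
    linear_combination h
  have h1 := pow_cancel hπ hU hkey
  have h2 := pow_cancel hπ hU' hkey.symm
  have h3 : s * N + (χ i : ℕ) = t * N + (χ' i : ℕ) := le_antisymm h2 h1
  have h4 : (χ i : ℕ) < N := (χ i).2
  have h5 : (χ' i : ℕ) < N := (χ' i).2
  have h6 := congrArg (fun z => z % N) h3
  simp only [Nat.mul_add_mod_self_right, Nat.mod_eq_of_lt h4, Nat.mod_eq_of_lt h5] at h6
  exact h6

/-- A polynomial quotient with vanishing partial derivatives is constant (characteristic zero). -/
theorem eq_const_mul {κ : Type*} [Field κ] [CharZero κ] {d : ℕ}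
    {a b : MvPolynomial (Fin d) κ} (ha : a ≠ 0) (hb : b ≠ 0)
    (h : ∀ j, b * MvPolynomial.pderiv j a = a * MvPolynomial.pderiv j b) :
    ∃ c : κ, c ≠ 0 ∧ MvPolynomial.C c * b = a := by
  obtain ⟨a', b', g, hrel, hga, hgb⟩ := UniqueFactorizationMonoid.exists_reduced_factors' a b hb
  have hg : g ≠ 0 := by
    rintro rfl
    rw [zero_mul] at hga
    exact ha hga.symm
  have ha' : a' ≠ 0 := by
    rintro rfl
    rw [mul_zero] at hga
    exact ha hga.symm
  have hb' : b' ≠ 0 := by
    rintro rfl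
    rw [mul_zero] at hgb
    exact hb hgb.symm
  have h1 : ∀ j, b' * MvPolynomial.pderiv j a' = a' * MvPolynomial.pderiv j b' := by
    intro j
    have h2 := h j
    rw [← hga, ← hgb, MvPolynomial.pderiv_mul, MvPolynomial.pderiv_mul] at h2
    have h3 : (g * g) * (b' * MvPolynomial.pderiv j a') =
        (g * g) * (a' * MvPolynomial.pderiv j b') := by
      linear_combination h2
    exact mul_left_cancel₀ (mul_ne_zero hg hg) h3
  have h2 : a' = MvPolynomial.C (a'.coeff 0) := by
    refine eq_C_of_pderiv fun j => pderiv_eq_zero_of_dvd ?_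
    exact hrel.dvd_of_dvd_mul_left ⟨_, h1 j⟩
  have h3 : b' = MvPolynomial.C (b'.coeff 0) := by
    refine eq_C_of_pderiv fun j => pderiv_eq_zero_of_dvd ?_
    exact hrel.symm.dvd_of_dvd_mul_left ⟨_, (h1 j).symm⟩
  have h4 : a'.coeff 0 ≠ 0 := by
    intro h0
    rw [h0, map_zero] at h2
    exact ha' h2
  have h5 : b'.coeff 0 ≠ 0 := by
    intro h0
    rw [h0, map_zero] at h3
    exact hb' h3
  refine ⟨a'.coeff 0 / b'.coeff 0, div_ne_zero h4 h5, ?_⟩
  rw [← hga, ← hgb]
  conv_lhs => rw [h3]
  conv_rhs => rw [h2]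
  rw [mul_left_comm, ← MvPolynomial.C_mul, MvPolynomial.coeff_C, if_pos rfl,
    div_mul_cancel₀ _ h5]

end Pool.Agent.Helper92.HA
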