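import Pool.Agent.Helper92.HA.Defs
import Pool.Agent.Helper92.HA.Theta
import Pool.Agent.Helper92.HA.KumUFD

set_option autoImplicit false

/-!
# HA-15 TraceMono: the monomials in the roots are a basis of `L' / M`, traces

`mono_indep`. The `mono χ`, `χ o = 0`, are linearly independent over `M`. `D j`: derivations of `L' / K'` with
`D i (t j) = δ` (hypothesis; they map `M` to `M`). A relation `∑_(χ ∈ s) c χ mono χ = 0` with a minimal
set `s` of nonzero coefficients, `χ₀ ∈ s`: subtract `D j (c χ₀ mono χ₀) / (c χ₀ mono χ₀)` times the relation from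
its derivative: all logarithmic derivatives of the `c χ mono χ`, `χ ∈ s`, agree (as in `indep_mod` of
Wind, with `v.Ge` replaced by equality to zero). If `χ ≠ χ'` are in `s`, `w = c mono χ / (c' mono χ')` has
`D j w = 0` for all `j`, so `w^N ∈ M` and `D j (w^N) = 0`; `w^N = A(t)/B(t)` with polynomials
`A = a^N ∏ l_i^χ_i`, `B = b^N ∏ l_i^χ'_i` (`c = a/b`), and `B ∂_j A = A ∂_j B` (`t` is algebraically independent), so
`eq_const_mul` and `ufd_exponents` (for `p i = affP (co i)`; `nprop` for `(i, j)` and `(i, o)` gives irreducible and not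
associated) give `χ = χ'`, a contradiction.
`mono_span`. `L' = M[r]` (`gen`) and `r i ^ N ∈ M`, `r o = 1`: every monomial in the `r i` is in `M mono χ` for the
exponents modulo `N` (with `χ o = 0`).
`trace_mono`. In the basis `mono χ'` (`χ' o = 0`) multiplication by `mono χ / mono χ₀`, `χ ≠ χ₀`, maps `mono χ'` to
an element of `M mono χ''` with `χ'' = χ' + χ - χ₀ mod N ≠ χ'`, so its trace is `0`; the trace of `1` is
`[L' : M] = N^(|ι| - 1)`; the trace is `M`-linear.
-/

namespace Pool.Agent.Helper92.HA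

open Module Pool.Agent.Helper92.Weak Pool.Agent.Helper63.PB

section Aux

variable {K' M L' : Type*} [Field K'] [Field M] [Field L'] [Algebra K' M] [Algebra K' L']
  [Algebra M L'] [IsScalarTower K' M L'] {d : ℕ} {t : Fin d → M} {ι : Type*} [Fintype ι]
  [DecidableEq ι]

private lemma tm_deriv (D : Derivation K' L' L') (s : Fin d → L') (i : Fin d)
    (hD : ∀ j, D (s j) = if i = j then 1 else 0) (g : MvPolynomial (Fin d) K') :
    D (MvPolynomial.aeval s g) = MvPolynomial.aeval s (MvPolynomial.pderiv i g) := by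
  induction g using MvPolynomial.induction_on with
  | C a => rw [MvPolynomial.aeval_C, MvPolynomial.pderiv_C, map_zero, Derivation.map_algebraMap]
  | add p q hp hq => rw [map_add, map_add, map_add, map_add, hp, hq]
  | mul_X p j hp =>
    rw [map_mul, MvPolynomial.aeval_X, Derivation.leibniz, hp, hD, MvPolynomial.pderiv_mul,
      MvPolynomial.pderiv_X, map_add, map_mul, map_mul, MvPolynomial.aeval_X, smul_eq_mul,
      smul_eq_mul]
    by_cases hij : i = j
    · subst hij
      rw [if_pos rfl, Pi.single_eq_same, map_one]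
      ring
    · rw [if_neg hij, Pi.single_eq_of_ne (Ne.symm hij), map_zero]
      ring

private lemma tm_aeval (t : Fin d → M) (g : MvPolynomial (Fin d) K') :
    MvPolynomial.aeval (tL L' t) g = algebraMap M L' (MvPolynomial.aeval t g) :=
  MvPolynomial.aeval_algebraMap_apply L' t g

private lemma tm_zero (ht : IsTorus K' t) {g : MvPolynomial (Fin d) K'}
    (hg : MvPolynomial.aeval (tL L' t) g = 0) : g = 0 := by
  rw [tm_aeval, map_eq_zero_iff _ (algebraMap M L').injective] at hg
  exact (injective_iff_map_eq_zero _).1 ht.indep g hg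

private lemma tm_frac (L' : Type*) [Field L'] [Algebra K' L'] [Algebra M L']
    [IsScalarTower K' M L'] (ht : IsTorus K' t) (m : M) :
    ∃ a b : MvPolynomial (Fin d) K', b ≠ 0 ∧
      algebraMap M L' m * MvPolynomial.aeval (tL L' t) b = MvPolynomial.aeval (tL L' t) a := by
  have h1 : m ∈ IntermediateField.adjoin K' (Set.range t) := by
    rw [ht.gen]
    exact IntermediateField.mem_top
  rw [IntermediateField.mem_adjoin_range_iff] at h1
  obtain ⟨a, b, hab⟩ := h1
  by_cases hb : MvPolynomial.aeval t b = 0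
  · rw [hb, div_zero] at hab
    refine ⟨0, 1, one_ne_zero, ?_⟩
    rw [hab, map_zero, zero_mul, map_zero]
  · refine ⟨a, b, fun h => hb (by rw [h, map_zero]), ?_⟩
    rw [tm_aeval, tm_aeval, ← map_mul, hab, div_mul_cancel₀ _ hb]

private lemma tm_DM (ht : IsTorus K' t) {D : Derivation K' L' L'} {i : Fin d}
    (hD : ∀ j, D (tL L' t j) = if i = j then 1 else 0) (m : M) :
    ∃ m' : M, D (algebraMap M L' m) = algebraMap M L' m' := by
  obtain ⟨a, b, hb, hab⟩ := tm_frac L' ht m
  have hb' : MvPolynomial.aeval (tL L' t) b ≠ 0 := fun h => hb (tm_zero ht h)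
  have h1 := congrArg D hab
  rw [Derivation.leibniz, tm_deriv D _ i hD, tm_deriv D _ i hD, smul_eq_mul, smul_eq_mul] at h1
  refine ⟨(MvPolynomial.aeval t (MvPolynomial.pderiv i a) -
    m * MvPolynomial.aeval t (MvPolynomial.pderiv i b)) / MvPolynomial.aeval t b, ?_⟩
  rw [map_div₀, map_sub, map_mul, ← tm_aeval, ← tm_aeval, ← tm_aeval, eq_div_iff hb']
  linear_combination h1

/-- the logarithmic derivative is in `M` -/
private def TLS (M : Type*) {L' K' : Type*} [Field K'] [Field M] [Field L'] [Algebra K' L']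
    [Algebra M L'] (D : Derivation K' L' L') (y : L') : Prop :=
  ∃ e : M, D y = algebraMap M L' e * y

omit [Algebra K' M] [IsScalarTower K' M L'] in
private lemma tl_one (D : Derivation K' L' L') : TLS M D 1 :=
  ⟨0, by rw [Derivation.map_one_eq_zero, map_zero, zero_mul]⟩

omit [Algebra K' M] [IsScalarTower K' M L'] in
private lemma tl_mul (D : Derivation K' L' L') {y z : L'} (hy : TLS M D y) (hz : TLS M D z) :
    TLS M D (y * z) := by
  obtain ⟨e, he⟩ := hy
  obtain ⟨f, hf⟩ := hz
  refine ⟨e + f, ?_⟩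
  rw [Derivation.leibniz, he, hf, map_add, smul_eq_mul, smul_eq_mul]
  ring

omit [Algebra K' M] [IsScalarTower K' M L'] in
private lemma tl_pow (D : Derivation K' L' L') {y : L'} (hy : TLS M D y) (n : ℕ) :
    TLS M D (y ^ n) := by
  induction n with
  | zero => rw [pow_zero]; exact tl_one D
  | succ n ih => rw [pow_succ]; exact tl_mul D ih hy

private lemma tm_aff (t : Fin d → M) (x : Fin (d + 1) → K') :
    MvPolynomial.aeval t (affP x) = affine t x := by
  unfold affP affine
  rw [map_add, MvPolynomial.aeval_C, map_sum]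
  congr 1
  refine Finset.sum_congr rfl fun j _ => ?_
  rw [map_mul, MvPolynomial.aeval_C, MvPolynomial.aeval_X]

private lemma tm_aff_ne {x : Fin (d + 1) → K'} (hx : x ≠ 0) : affP x ≠ 0 := by
  intro h
  by_cases hj : ∃ j : Fin d, x j.succ ≠ 0
  · exact (irreducible_affP hj).ne_zero h
  · push Not at hj
    apply hx
    unfold affP at h
    have h2 : ∑ j : Fin d, MvPolynomial.C (x j.succ) * MvPolynomial.X j =
        (0 : MvPolynomial (Fin d) K') := by
      refine Finset.sum_eq_zero fun j _ => ?_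
      rw [hj j, map_zero, zero_mul]
    rw [h2, add_zero] at h
    have h3 : x 0 = 0 := by
      rw [← MvPolynomial.C_0] at h
      exact MvPolynomial.C_injective _ _ h
    funext j
    refine Fin.cases h3 (fun i => ?_) j
    exact hj i

private lemma tl_r [CharZero K'] (A : Arr K' L' t ι) {D : Derivation K' L' L'} {i : Fin d}
    (hD : ∀ j, D (tL L' t j) = if i = j then 1 else 0) (l : ι) : TLS M D (A.r l) := by
  have h1 := congrArg D (A.r_pow l)
  obtain ⟨m', hm'⟩ := tm_DM A.torus hD (affine t (A.co l))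
  have : CharZero L' := charZero_of_injective_algebraMap (algebraMap K' L').injective
  have : CharZero M := charZero_of_injective_algebraMap (algebraMap K' M).injective
  have hN : (A.N : L') ≠ 0 := by exact_mod_cast A.N_pos.ne'
  have haff : affine t (A.co l) ≠ 0 := by
    rw [← tm_aff]
    intro h
    exact tm_aff_ne (A.co_ne l) ((injective_iff_map_eq_zero _).1 A.torus.indep _ h)
  have haff' : algebraMap M L' (affine t (A.co l)) ≠ 0 := by
    intro h
    exact haff ((map_eq_zero_iff _ (algebraMap M L').injective).1 h)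
  have hr : A.r l ≠ 0 := by
    intro h
    have h2 := A.r_pow l
    rw [h, zero_pow A.N_pos.ne'] at h2
    exact haff' h2.symm
  rw [Derivation.leibniz_pow, hm', smul_eq_mul, nsmul_eq_mul] at h1
  refine ⟨m' / ((A.N : M) * affine t (A.co l)), ?_⟩
  rw [map_div₀, map_mul, map_natCast]
  have h3 : A.r l ^ A.N = A.r l ^ (A.N - 1) * A.r l := by
    rw [← pow_succ, Nat.sub_add_cancel A.N_pos]
  have h4 : A.r l ^ (A.N - 1) ≠ 0 := pow_ne_zero _ hr
  have h5 : algebraMap M L' (affine t (A.co l)) = A.r l ^ (A.N - 1) * A.r l := by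
    rw [← h3]
    exact (A.r_pow l).symm
  rw [h5, ← h1]
  field_simp

private lemma tl_mono [CharZero K'] (A : Arr K' L' t ι) {D : Derivation K' L' L'} {i : Fin d}
    (hD : ∀ j, D (tL L' t j) = if i = j then 1 else 0) (χ : ι → Fin A.N) :
    TLS M D (A.mono χ) := by
  unfold Arr.mono
  exact Finset.prod_induction _ (TLS M D) (fun _ _ => tl_mul D) (tl_one D)
    fun l _ => tl_pow D (tl_r A hD l) _

private lemma tm_ratio [CharZero K'] (ht : IsTorus K' t) {D : Fin d → Derivation K' L' L'}
    (hD : ∀ i j, D i (tL L' t j) = if i = j then 1 else 0) {w : L'} (hw : ∀ i, D i w = 0)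
    {a b : MvPolynomial (Fin d) K'} (ha : a ≠ 0) (hb : b ≠ 0)
    (h : w * MvPolynomial.aeval (tL L' t) b = MvPolynomial.aeval (tL L' t) a) :
    ∃ c : K', c ≠ 0 ∧ MvPolynomial.C c * b = a := by
  refine eq_const_mul ha hb fun j => ?_
  have h1 := congrArg (D j) h
  rw [Derivation.leibniz, tm_deriv (D j) _ j (hD j), tm_deriv (D j) _ j (hD j), hw j, smul_zero,
    add_zero, smul_eq_mul] at h1
  have h2 : MvPolynomial.aeval (tL L' t) (b * MvPolynomial.pderiv j a -
      a * MvPolynomial.pderiv j b) = 0 := by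
    rw [map_sub, map_mul, map_mul, ← h1, ← h]
    ring
  have h3 := tm_zero ht h2
  exact sub_eq_zero.1 h3


omit [IsScalarTower K' M L'] in
private lemma tm_prod_ne (A : Arr K' L' t ι) (χ : ι → Fin A.N) :
    ∏ i, affP (A.co i) ^ (χ i : ℕ) ≠ 0 :=
  Finset.prod_ne_zero_iff.2 fun i _ => pow_ne_zero _ (tm_aff_ne (A.co_ne i))

private lemma tm_mono_pow (A : Arr K' L' t ι) (χ : ι → Fin A.N) :
    A.mono χ ^ A.N = MvPolynomial.aeval (tL L' t) (∏ i, affP (A.co i) ^ (χ i : ℕ)) := by
  unfold Arr.mono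
  rw [← Finset.prod_pow, map_prod]
  refine Finset.prod_congr rfl fun i _ => ?_
  rw [map_pow, tm_aeval, tm_aff, ← A.r_pow i, ← pow_mul, ← pow_mul, mul_comm]

omit [IsScalarTower K' M L'] in
private lemma tm_r_ne (A : Arr K' L' t ι) (i : ι) : A.r i ≠ 0 := by
  intro h
  have h2 := A.r_pow i
  rw [h, zero_pow A.N_pos.ne'] at h2
  have h3 : affine t (A.co i) = 0 := (map_eq_zero_iff _ (algebraMap M L').injective).1 h2.symm
  rw [← tm_aff] at h3
  exact tm_aff_ne (A.co_ne i) ((injective_iff_map_eq_zero _).1 A.torus.indep _ h3)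

omit [IsScalarTower K' M L'] in
private lemma tm_mono_ne (A : Arr K' L' t ι) (χ : ι → Fin A.N) : A.mono χ ≠ 0 :=
  Finset.prod_ne_zero_iff.2 fun i _ => pow_ne_zero _ (tm_r_ne A i)

/-- two different monomials are not proportional up to constants of the derivations -/
private lemma tm_key [CharZero K'] (A : Arr K' L' t ι) {D : Fin d → Derivation K' L' L'}
    (hD : ∀ i j, D i (tL L' t j) = if i = j then 1 else 0) {χ χ' : ι → Fin A.N}
    (hχ : (χ A.o : ℕ) = 0) (hχ' : (χ' A.o : ℕ) = 0) {c : M} (hc : c ≠ 0)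
    (hw : ∀ i, D i (algebraMap M L' c * A.mono χ / A.mono χ') = 0) : χ = χ' := by
  obtain ⟨a, b, hb, hab⟩ := tm_frac L' A.torus c
  have hc' : algebraMap M L' c ≠ 0 := fun h =>
    hc ((map_eq_zero_iff _ (algebraMap M L').injective).1 h)
  have hb' : MvPolynomial.aeval (tL L' t) b ≠ 0 := fun h => hb (tm_zero A.torus h)
  have ha : a ≠ 0 := by
    intro h
    rw [h, map_zero] at hab
    exact mul_ne_zero hc' hb' hab
  obtain ⟨c1, hc1, h1⟩ := tm_ratio (a := a ^ A.N * ∏ i, affP (A.co i) ^ (χ i : ℕ))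
    (b := b ^ A.N * ∏ i, affP (A.co i) ^ (χ' i : ℕ)) A.torus hD
    (w := (algebraMap M L' c * A.mono χ / A.mono χ') ^ A.N) (by
      intro i
      rw [Derivation.leibniz_pow, hw i, smul_zero, smul_zero])
      (mul_ne_zero (pow_ne_zero _ ha) (tm_prod_ne A χ))
      (mul_ne_zero (pow_ne_zero _ hb) (tm_prod_ne A χ')) (by
        have h2 : A.mono χ' ^ A.N ≠ 0 := pow_ne_zero _ (tm_mono_ne A χ')
        rw [map_mul, map_mul, ← tm_mono_pow, ← tm_mono_pow, map_pow, map_pow, ← hab, div_pow,
          mul_pow, mul_pow]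
        field_simp)
  have ho : affP (A.co A.o) = 1 := by
    rw [A.co_o]
    unfold affP
    rw [Finset.sum_eq_zero, add_zero]
    · simp
    · intro j _
      simp [Fin.succ_ne_zero]
  have hirr : ∀ i, i ≠ A.o → Irreducible (affP (A.co i)) := by
    intro i hi
    apply irreducible_affP
    by_contra hcon
    push Not at hcon
    apply A.nprop i A.o hi (A.co i 0)
    rw [A.co_o]
    funext j
    refine Fin.cases ?_ (fun l => ?_) j
    · simp
    · rw [hcon l]
      simp [Fin.succ_ne_zero]
  have h2 := ufd_exponents A.o (fun i => affP (A.co i)) hirr (by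
    intro i j _ _ hij hass
    obtain ⟨e, he⟩ := smul_of_associated_affP hass
    exact A.nprop j i hij.symm e he) ho (N := A.N) hb ha
    (χ := χ') (χ' := χ) hχ' hχ hc1 (by
      rw [← h1]
      ring)
  exact h2.symm

omit [Algebra K' M] [IsScalarTower K' M L'] in
/-- linear independence through derivations -/
private lemma tm_indep {J κ : Type*} (D : J → Derivation K' L' L')
    (hM : ∀ j, ∀ c : M, ∃ c' : M, D j (algebraMap M L' c) = algebraMap M L' c')
    (y : κ → L') (hy : ∀ i, y i ≠ 0) (hyM : ∀ j i, TLS M (D j) (y i))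
    (hne : ∀ i i', i ≠ i' → ∀ c : M, c ≠ 0 → ¬ ∀ j, D j (algebraMap M L' c * y i / y i') = 0) :
    ∀ (s : Finset κ) (c : κ → M), ∑ i ∈ s, algebraMap M L' (c i) * y i = 0 →
      ∀ i ∈ s, c i = 0 := by
  classical
  intro s
  induction s using Finset.strongInduction with
  | H s ih =>
    intro c hm i hi
    by_cases hz : ∃ i₀ ∈ s, c i₀ = 0
    · obtain ⟨i₀, hi₀, hci₀⟩ := hz
      by_cases hii : i = i₀
      · rw [hii, hci₀]
      · refine ih (s.erase i₀) (Finset.erase_ssubset hi₀) c ?_ i (Finset.mem_erase.2 ⟨hii, hi⟩)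
        rwa [← Finset.add_sum_erase _ _ hi₀, hci₀, map_zero, zero_mul, zero_add] at hm
    push Not at hz
    exfalso
    have hinj : ∀ x : M, algebraMap M L' x = 0 → x = 0 := fun x hx =>
      (map_eq_zero_iff _ (algebraMap M L').injective).1 hx
    have hz' : ∀ i ∈ s, algebraMap M L' (c i) ≠ 0 := fun i hi h => hz i hi (hinj _ h)
    -- another index
    obtain ⟨i₁, hi₁, hi₁₀⟩ : ∃ i₁ ∈ s, i₁ ≠ i := by
      by_contra h
      push Not at h
      have h1 : s = {i} := Finset.eq_singleton_iff_unique_mem.2 ⟨hi, h⟩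
      rw [h1, Finset.sum_singleton] at hm
      exact mul_ne_zero (hz' i hi) (hy i) hm
    -- logarithmic derivatives
    have hlog : ∀ j, ∀ i ∈ s, ∃ e : M, D j (algebraMap M L' (c i) * y i) =
        algebraMap M L' e * (algebraMap M L' (c i) * y i) := by
      intro j i hi
      obtain ⟨c', hc'⟩ := hM j (c i)
      obtain ⟨e, he⟩ := hyM j i
      refine ⟨c' / c i + e, ?_⟩
      rw [Derivation.leibniz, smul_eq_mul, smul_eq_mul, hc', he, map_add, map_div₀]
      have := hz' i hi
      field_simp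
      ring
    apply hne i₁ i hi₁₀ (c i₁ / c i) (div_ne_zero (hz _ hi₁) (hz _ hi))
    intro j
    have hlj := hlog j
    choose! e he using hlj
    have h1 : ∑ i' ∈ s.erase i, algebraMap M L' ((e i' - e i) * c i') * y i' = 0 := by
      have h3 : ∑ i' ∈ s.erase i, algebraMap M L' ((e i' - e i) * c i') * y i' =
          ∑ i' ∈ s, algebraMap M L' ((e i' - e i) * c i') * y i' := by
        rw [← Finset.add_sum_erase _ _ hi]
        simp
      have h4 : ∑ i' ∈ s, algebraMap M L' ((e i' - e i) * c i') * y i' =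
          D j (∑ i' ∈ s, algebraMap M L' (c i') * y i') -
            algebraMap M L' (e i) * ∑ i' ∈ s, algebraMap M L' (c i') * y i' := by
        rw [map_sum, Finset.mul_sum, ← Finset.sum_sub_distrib]
        refine Finset.sum_congr rfl fun i' hi' => ?_
        rw [he i' hi', map_mul, map_sub]
        ring
      rw [h3, h4, hm, map_zero, mul_zero, sub_zero]
    have h2 := ih (s.erase i) (Finset.erase_ssubset hi) (fun i' => (e i' - e i) * c i') h1 i₁
      (Finset.mem_erase.2 ⟨hi₁₀, hi₁⟩)
    have h3 : e i₁ = e i := by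
      rcases mul_eq_zero.1 h2 with h | h
      · exact sub_eq_zero.1 h
      · exact absurd h (hz i₁ hi₁)
    have h4 := he i₁ hi₁
    have h5 := he i hi
    rw [h3] at h4
    have hcc : algebraMap M L' (c i₁ / c i) * y i₁ / y i =
        (algebraMap M L' (c i₁) * y i₁) / (algebraMap M L' (c i) * y i) := by
      rw [map_div₀]
      have := hz' i hi
      have := hy i
      field_simp
    rw [hcc, Derivation.leibniz_div, h4, h5]
    simp only [smul_eq_mul]
    ring

omit [IsScalarTower K' M L'] in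
/-- reduction of exponents -/
private lemma tm_red (A : Arr K' L' t ι) (e : ι → ℤ) : ∃ (m : M) (χ : ι → Fin A.N),
    (χ A.o : ℕ) = 0 ∧ (∀ i, i ≠ A.o → ((χ i : ℕ) : ℤ) = e i % A.N) ∧
    ∏ i, A.r i ^ e i = algebraMap M L' m * A.mono χ := by
  have hN : (0 : ℤ) < A.N := by exact_mod_cast A.N_pos
  have hlt : ∀ i, (e i % A.N).toNat < A.N := by
    intro i
    have h1 := Int.emod_lt_of_pos (e i) hN
    have h2 := Int.emod_nonneg (e i) hN.ne'
    omega
  refine ⟨∏ i, affine t (A.co i) ^ (e i / A.N),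
    fun i => if i = A.o then ⟨0, A.N_pos⟩ else ⟨(e i % A.N).toNat, hlt i⟩, by simp, ?_, ?_⟩
  · intro i hi
    simp only
    rw [if_neg hi]
    exact Int.toNat_of_nonneg (Int.emod_nonneg _ hN.ne')
  · unfold Arr.mono
    rw [map_prod, ← Finset.prod_mul_distrib]
    refine Finset.prod_congr rfl fun i _ => ?_
    rw [map_zpow₀, ← A.r_pow i]
    by_cases hi : i = A.o
    · subst hi
      rw [A.r_o]
      simp
    · simp only
      rw [if_neg hi, ← zpow_natCast (A.r i) A.N, ← zpow_mul, ← zpow_natCast (A.r i),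
        ← zpow_add₀ (tm_r_ne A i)]
      congr 1
      rw [Int.toNat_of_nonneg (Int.emod_nonneg _ hN.ne')]
      exact (Int.mul_ediv_add_emod _ _).symm

end Aux

variable {k K L K' M L' : Type*} [Field k] [Field K] [Field L] [Field K'] [Field M] [Field L']
  [Algebra k K] [Algebra k L] [Algebra k K'] [Algebra k M] [Algebra k L'] [Algebra K L]
  [Algebra K K'] [Algebra K L'] [Algebra L L'] [Algebra K' M] [Algebra K' L'] [Algebra M L']
  [IsScalarTower k K L] [IsScalarTower k K K'] [IsScalarTower k K L'] [IsScalarTower k L L']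
  [IsScalarTower k K' M] [IsScalarTower k K' L'] [IsScalarTower k M L'] [IsScalarTower K L L']
  [IsScalarTower K K' L'] [IsScalarTower K' M L'] [FiniteDimensional K K']
  [FiniteDimensional L L'] [FiniteDimensional M L'] [CharZero k] {d : ℕ}
  {X : ProjVar k L} {Z : ProjVar k K} {t : Fin d → M} {ι : Type*} [Fintype ι] [DecidableEq ι]

omit [FiniteDimensional M L'] in
theorem mono_indep [CharZero K'] (A : Arr K' L' t ι) (D : Fin d → Derivation K' L' L')
    (hD : ∀ i j, D i (tL L' t j) = if i = j then 1 else 0) :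
    LinearIndependent M fun χ : {χ : ι → Fin A.N // (χ A.o : ℕ) = 0} => A.mono χ.1 := by
  rw [Fintype.linearIndependent_iff]
  intro c hc χ
  refine tm_indep D (fun j m => tm_DM A.torus (hD j) m)
    (fun χ : {χ : ι → Fin A.N // (χ A.o : ℕ) = 0} => A.mono χ.1) (fun χ => tm_mono_ne A _)
    (fun j χ => tl_mono A (hD j) _) ?_ Finset.univ c ?_ χ (Finset.mem_univ _)
  · intro χ χ' hne c hc hw
    exact hne (Subtype.ext (tm_key A hD χ.2 χ'.2 hc hw))
  · rw [← hc]
    exact Finset.sum_congr rfl fun χ _ => (Algebra.smul_def _ _).symm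

omit [FiniteDimensional M L'] [IsScalarTower K' M L'] in
theorem mono_span (A : Arr K' L' t ι) :
    Submodule.span M (Set.range fun χ : {χ : ι → Fin A.N // (χ A.o : ℕ) = 0} => A.mono χ.1) =
      ⊤ := by
  rw [eq_top_iff, ← Algebra.top_toSubmodule, ← A.gen, Algebra.adjoin_eq_span,
    Submodule.span_le]
  intro x hx
  have h1 : ∃ e : ι → ℤ, x = ∏ i, A.r i ^ e i := by
    induction hx using Submonoid.closure_induction with
    | mem x hx =>
      obtain ⟨i, rfl⟩ := hx
      refine ⟨Pi.single i 1, ?_⟩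
      rw [Finset.prod_eq_single i]
      · simp
      · intro j _ hj
        rw [Pi.single_eq_of_ne hj, zpow_zero]
      · simp
    | one => exact ⟨0, by simp⟩
    | mul x y _ _ hx hy =>
      obtain ⟨e, rfl⟩ := hx
      obtain ⟨f, rfl⟩ := hy
      refine ⟨e + f, ?_⟩
      rw [← Finset.prod_mul_distrib]
      exact Finset.prod_congr rfl fun i _ => (zpow_add₀ (tm_r_ne A i) _ _).symm
  obtain ⟨e, rfl⟩ := h1
  obtain ⟨m, χ, hχ, -, h2⟩ := tm_red A e
  rw [h2, ← Algebra.smul_def]
  exact Submodule.smul_mem _ _ (Submodule.subset_span ⟨⟨χ, hχ⟩, rfl⟩)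

omit [FiniteDimensional M L'] [IsScalarTower K' M L'] in
private lemma card_chi (A : Arr K' L' t ι) :
    Fintype.card {χ : ι → Fin A.N // (χ A.o : ℕ) = 0} = A.N ^ (Fintype.card ι - 1) := by
  have : NeZero A.N := ⟨A.N_pos.ne'⟩
  have h1 : Fintype.card {χ : ι → Fin A.N // (χ A.o : ℕ) = 0} =
      (Fintype.piFinset fun i : ι => if i = A.o then ({0} : Finset (Fin A.N))
        else Finset.univ).card := by
    rw [Fintype.card_subtype]
    congr 1
    ext χ
    rw [Finset.mem_filter, Fintype.mem_piFinset]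
    constructor
    · rintro ⟨-, h⟩ i
      by_cases hi : i = A.o
      · subst hi
        rw [if_pos rfl, Finset.mem_singleton]
        exact Fin.ext h
      · rw [if_neg hi]
        exact Finset.mem_univ _
    · intro h
      refine ⟨Finset.mem_univ _, ?_⟩
      have h2 := h A.o
      rw [if_pos rfl, Finset.mem_singleton] at h2
      rw [h2]
      rfl
  rw [h1, Fintype.card_piFinset]
  have h2 : ∀ i : ι, (if i = A.o then ({0} : Finset (Fin A.N)) else Finset.univ).card =
      if i = A.o then 1 else A.N := by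
    intro i
    split_ifs <;> simp
  rw [Finset.prod_congr rfl fun i _ => h2 i, Finset.prod_ite, Finset.prod_const_one, one_mul,
    Finset.prod_const]
  congr 1
  rw [Finset.filter_ne' , Finset.card_erase_of_mem (Finset.mem_univ _), Finset.card_univ]

theorem trace_mono [CharZero K'] (A : Arr K' L' t ι) (D : Fin d → Derivation K' L' L')
    (hD : ∀ i j, D i (tL L' t j) = if i = j then 1 else 0)
    (G : (ι → Fin A.N) → M) (hG : ∀ χ, G χ ≠ 0 → (χ A.o : ℕ) = 0) (χ₀ : ι → Fin A.N)
    (hχ₀ : (χ₀ A.o : ℕ) = 0) :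
    Algebra.trace M L' ((∑ χ, algebraMap M L' (G χ) * A.mono χ) / A.mono χ₀) =
      (A.N ^ (Fintype.card ι - 1) : ℕ) * G χ₀ := by
  have hsp := mono_span (K' := K') (L' := L') A
  obtain ⟨b, hb⟩ : ∃ b : Basis {χ : ι → Fin A.N // (χ A.o : ℕ) = 0} M L', ∀ χ, b χ = A.mono χ.1 :=
    ⟨Basis.mk (mono_indep A D hD) hsp.ge, fun χ => by rw [Basis.mk_apply]⟩
  have hone : Algebra.trace M L' (1 : L') = (A.N ^ (Fintype.card ι - 1) : ℕ) := by
    have h1 := Algebra.trace_algebraMap (R := M) (S := L') (1 : M)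
    rw [map_one, Module.finrank_eq_card_basis b, card_chi A] at h1
    rw [h1, nsmul_eq_mul, mul_one]
  have hzero : ∀ χ : ι → Fin A.N, (χ A.o : ℕ) = 0 → χ ≠ χ₀ →
      Algebra.trace M L' (A.mono χ / A.mono χ₀) = 0 := by
    intro χ hχ hne
    rw [Algebra.trace_eq_matrix_trace b, Matrix.trace]
    refine Finset.sum_eq_zero fun χ' _ => ?_
    rw [Matrix.diag_apply, Algebra.leftMulMatrix_eq_repr_mul]
    obtain ⟨m, χ'', h0, h1, h2⟩ := tm_red A
      (fun i => ((χ i : ℕ) : ℤ) + ((χ'.1 i : ℕ) : ℤ) - ((χ₀ i : ℕ) : ℤ))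
    have h3 : A.mono χ / A.mono χ₀ * b χ' = m • b ⟨χ'', h0⟩ := by
      rw [hb, hb, Algebra.smul_def]
      simp only
      rw [← h2]
      unfold Arr.mono
      rw [← Finset.prod_div_distrib, ← Finset.prod_mul_distrib]
      refine Finset.prod_congr rfl fun i _ => ?_
      rw [zpow_sub₀ (tm_r_ne A i), zpow_add₀ (tm_r_ne A i), zpow_natCast, zpow_natCast,
        zpow_natCast]
      ring
    have h4 : (⟨χ'', h0⟩ : {χ : ι → Fin A.N // (χ A.o : ℕ) = 0}) ≠ χ' := by
      intro h
      apply hne
      funext i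
      by_cases hi : i = A.o
      · rw [hi]
        exact Fin.ext (by rw [hχ, hχ₀])
      · have h5 := h1 i hi
        have h6 : χ'' = χ'.1 := congrArg Subtype.val h
        rw [h6] at h5
        have h7 : ((χ i : ℕ) : ℤ) < A.N := by exact_mod_cast (χ i).2
        have h8 : ((χ₀ i : ℕ) : ℤ) < A.N := by exact_mod_cast (χ₀ i).2
        have h9 : ((A.N : ℤ)) ∣ ((χ i : ℕ) : ℤ) - ((χ₀ i : ℕ) : ℤ) := by
          have h10 : (((χ i : ℕ) : ℤ) + ((χ'.1 i : ℕ) : ℤ) - ((χ₀ i : ℕ) : ℤ)) % A.N =
              ((χ'.1 i : ℕ) : ℤ) % A.N := by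
            conv_rhs => rw [h5]
            rw [Int.emod_emod_of_dvd _ (dvd_refl _)]
          have h11 := Int.ModEq.dvd (show _ ≡ _ [ZMOD (A.N : ℤ)] from h10.symm)
          have h12 : ((χ i : ℕ) : ℤ) - ((χ₀ i : ℕ) : ℤ) =
              ((χ i : ℕ) : ℤ) + ((χ'.1 i : ℕ) : ℤ) - ((χ₀ i : ℕ) : ℤ) - ((χ'.1 i : ℕ) : ℤ) := by
            ring
          rw [h12]
          exact h11
        have h13 : ((χ i : ℕ) : ℤ) - ((χ₀ i : ℕ) : ℤ) = 0 := by
          apply Int.eq_zero_of_abs_lt_dvd h9
          rw [abs_lt]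
          constructor <;> omega
        exact Fin.ext (by omega)
    rw [h3, map_smul, Finsupp.smul_apply, Basis.repr_self, Finsupp.single_apply, if_neg h4,
      smul_zero]
  rw [Finset.sum_div, map_sum, Finset.sum_eq_single χ₀]
  · rw [mul_div_assoc, div_self (tm_mono_ne A _), ← Algebra.smul_def, map_smul, hone, smul_eq_mul,
      mul_comm]
  · intro χ _ hne
    rw [mul_div_assoc, ← Algebra.smul_def, map_smul]
    by_cases h : G χ = 0
    · rw [h, zero_smul]
    · rw [hzero χ (hG χ h) hne, smul_zero]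
  · intro h
    exact absurd (Finset.mem_univ _) h

end Pool.Agent.Helper92.HA
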