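import Pool.Agent.Helper63.PB.Under
import Pool.Agent.Helper47.PQ.R1
import Mathlib.RingTheory.Trace.Basic

set_option autoImplicit false

/-!
# HA-27 TraceRat: valuations and the trace

`E' / E` finite, `v` a valuation of `E`, `x ∈ E'` with `w x ≥ ε r` for all `w` over `v` (with ramification `ε`). Then
`v (Tr x) ≥ r` (`r` rational).
PROOF. `N` = the normal closure of `E' / E`, or any finite extension of `E` such that
`Algebra.trace E E' x = ∑_σ σ x` in `N`, the sum over all `E`-embeddings `σ : E' → N`: e.g.
`N = normalClosure E E' (AlgebraicClosure E')` (an `IntermediateField`, finite over `E`) with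
`trace_eq_sum_embeddings_gen` / `Algebra.trace_eq_sum_embeddings` composed (that lemma is stated for an algebraically
closed field `Ω`; it is enough to find `N ⊆ Ω` finite over `E` which contains the images of all embeddings
`σ : E' →ₐ[E] Ω`: the finitely many images of a finite generating set).
`W` a valuation of `N` over `v`, ramification `n` (`Helper47.PQ.exists_over`). For an embedding `σ : E' → N` over
`E` make `N` an `E'`-algebra by `σ` (`σ.toRingHom.toAlgebra`, towers by `σ.commutes`): `exists_under` gives
`w` on `E'` and `ε'` with `W (σ z) = ε' w z`, and by `under_factor` `w` lies over `v` with some `ε`, `n = ε' ε`. So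
`w x ≥ ε r` (or `x = 0`) and `W (σ x) = ε' w x ≥ n r`. The sum has `W ≥ n r` (`DVal.Ge.sum`), and
`W (Tr x) = n v (Tr x)`.
(An alternative: with a uniformizer `π` of `v` and `r = a / b`, `y = x ^ b / π ^ a` has `w y ≥ 0` for all `w` over `v`
and is integral over `v.ring` (`Helper47.PQ.isIntegral_of_ge`), so each conjugate `x_σ` satisfies
`x_σ ^ b = π ^ a y_σ` with `W (y_σ) ≥ 0`.)
-/

namespace Pool.Agent.Helper92.HA

open Pool.Agent.Helper92.Weak Pool.Agent.Helper63.PB

private theorem h45_emb {k E E' N : Type*} [Field k] [Field E] [Field E'] [Field N] [Algebra k E]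
    [Algebra k E'] [Algebra k N] [Algebra E E'] [Algebra E N] [IsScalarTower k E E']
    [IsScalarTower k E N] [Algebra.IsAlgebraic E N] (v : DVal k E) {x : E'} {r : ℚ}
    (h : ∀ (w : DVal k E') (ε : ℕ), LiesOver w v ε → w.Ge (ε * r) x)
    {W : DVal k N} {n : ℕ} (hW : LiesOver W v n) (σ : E' →ₐ[E] N) : W.Ge (n * r) (σ x) := by
  let _ : Algebra E' N := σ.toRingHom.toAlgebra
  have h1 : IsScalarTower E E' N := IsScalarTower.of_algebraMap_eq fun a => (σ.commutes a).symm
  have h2 : IsScalarTower k E' N := IsScalarTower.of_algebraMap_eq fun a => by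
    rw [IsScalarTower.algebraMap_apply k E E' a, ← IsScalarTower.algebraMap_apply E E' N,
      IsScalarTower.algebraMap_apply k E N]
  have h3 : Algebra.IsAlgebraic E' N := Algebra.IsAlgebraic.tower_top (K := E) E'
  obtain ⟨w, ε', hw⟩ := exists_under (E := E') W
  obtain ⟨e, he, hne⟩ := under_factor hw hW
  rcases h w e he with h4 | h4
  · left
    rw [h4, _root_.map_zero]
  · right
    have h5 : W (σ x) = ε' * w x := hw.2 x
    have h6 : (0 : ℚ) ≤ ε' := by positivity
    have h7 := mul_le_mul_of_nonneg_left h4 h6
    rw [h5, hne]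
    push_cast
    linarith

theorem trace_ge_rat {k E E' : Type*} [Field k] [Field E] [Field E'] [Algebra k E] [Algebra k E']
    [Algebra E E'] [IsScalarTower k E E'] [FiniteDimensional E E'] [CharZero k] (v : DVal k E)
    {x : E'} {r : ℚ} (h : ∀ (w : DVal k E') (ε : ℕ), LiesOver w v ε → w.Ge (ε * r) x) :
    v.Ge r (Algebra.trace E E' x) := by
  set Ω := AlgebraicClosure E' with hΩ
  set N : IntermediateField E Ω := IntermediateField.normalClosure E E' Ω with hN
  have hfin : FiniteDimensional E N := normalClosure.is_finiteDimensional E E' Ω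
  obtain ⟨W, n, hW⟩ := Pool.Agent.Helper47.PQ.exists_over N v
  have hcz : CharZero E := charZero_of_injective_algebraMap (algebraMap k E).injective
  have htr := trace_eq_sum_embeddings (K := E) (L := E') Ω (x := x)
  have hr : ∀ σ : E' →ₐ[E] Ω, ∀ z : E', σ z ∈ N := fun σ z =>
    σ.fieldRange_le_normalClosure ⟨z, rfl⟩
  let τ : (E' →ₐ[E] Ω) → (E' →ₐ[E] N) := fun σ => σ.codRestrict N.toSubalgebra (hr σ)
  have h1 : algebraMap E N (Algebra.trace E E' x) = ∑ σ : E' →ₐ[E] Ω, τ σ x := by
    apply Subtype.ext
    rw [AddSubmonoidClass.coe_finsetSum]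
    exact htr
  have h2 : W.Ge (n * r) (algebraMap E N (Algebra.trace E E' x)) := by
    rw [h1]
    exact DVal.Ge.sum fun σ _ => h45_emb v h hW (τ σ)
  rcases h2 with h2 | h2
  · left
    exact (map_eq_zero _).1 h2
  · right
    rw [hW.2] at h2
    have hn : (0 : ℚ) < n := by exact_mod_cast hW.1
    push_cast at h2
    exact le_of_mul_le_mul_left h2 hn

end Pool.Agent.Helper92.HA
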