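import Pool.Agent.Helper92.HA.Cover
import Pool.Agent.Helper92.HA.OmDet
import Pool.Agent.Helper92.HA.TraceMono
import Pool.Agent.Helper92.HA.TraceRat
import Pool.Agent.Helper92.HA.PSpaceEx

set_option autoImplicit false

/-!
# HA-31 MkHorA: the horizontal data of a log cover

`hasOrd_wedge`: `Helper92.Weak.smul_wedge_eq_iff` (with `one_smul`): the definitions of `HasOrd` (for `wedge k z`) and `IsOrd`
(for `dform k z`) agree.

`exists_horArr`. `T = {v | ∃ D ∈ (projSpace A.torus).primeDivisors, ∃ e > 0, ∀ x : M, v x = e (D x)}`.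
By `hF` and `hasOrd_wedge` (a basis of `Ω[L'⁄k]`: `(y, t)` is a transcendence basis, `append_basisD`;
`tL L' t` is a transcendence basis of `L' / K'` and `L' / K`) `IsLogDisc K v ℓ` holds for
`ℓ = 1 + (ε (a P + 1) - 1 - v u) - ((d + 1) m + ∑ δ_i (v (l i) - m))` for all `v` over `P` and `m` with `IsMin A v m`.
`up`: the equality in `H.above` for this `ℓ`: `ε (a P + Δ P) = v u + (d + 1) m + ∑ δ_i (v (l_i) - m)`.
`low`: `H.disc`: `v u + (d + 1) m + ∑ δ_i (v (l_i) - m) ≤ ε (a P + Δ P)` (the minimum `m` exists, `ι` is finite nonempty); with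
`x_i = use x i ≤ m₀ δ_i` (`m₀` the `m` in `low`), `∑ x_i = (d + 1) m₀` (every base has `d + 1` elements: `card_base`,
`Theta`) and `v (l i) - m ≥ 0`: `m₀ v u + ∑ x_i v (l_i) = m₀ v u + (d + 1) m₀ m + ∑ x_i (v (l_i) - m) ≤
m₀ (v u + (d + 1) m + ∑ δ_i (v (l_i) - m))`.
VALUES. `l i = affP (co i)(t)` (`KumUFD`), irreducible for `i ≠ o` (`nprop` for `(i, o)` and `co_o` give a nonzero
coefficient `co i j.succ`), `l o = 1`. Let `D` be a prime divisor of `ℙᵈ`.
FINITE: all `D (t j) ≥ 0`, `g₀` from `proj_fin`: `D (l i) = 1` if `g₀` and `affP (co i)` are associated, otherwise `0`: at most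
one `i` has value `1` (`smul_of_associated_affP`, `nprop`). For `v` over `D` (`e`) the minimum is `0` (`l o = 1`).
INFINITE (`proj_inf`): `D (l i) = -1` for `i ≠ o`, `D (l o) = 0`; there is an `i ≠ o` (`full`, `d ≥ 1`): the minimum is `-e`.
`poly`: finite: `D (g(t)) ≥ 0` for all `g`. Infinite: `v (g(t)) = -e deg g ≥ -e n`.
`kill`: finite: `g = g₀`, `n = deg g₀`: `v (g₀(t)) = e ≥ 1`. Infinite: `g = 1`, `n = 1`: `1 - e ≤ 0`.
`sec`. By `mono_span` `f = ∑_χ f_χ mono χ`, `f_χ ∈ M`, `f_χ = 0` unless `χ o = 0`. `trace_mono` (the derivations `F.D`; the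
hypothesis on them is `F.D_t`): `Tr (f / mono χ₀) = N^(|ι| - 1) f_(χ₀)`. `N v (mono χ) = ∑ χ_i v (l i)` (`r_pow`).
Finite `D`, all `v` over `D` (these are in `T`, `m = 0`): `v (f / mono χ₀) ≥ -(1/N) ∑ χ_i e D (l i) ≥ -e (N-1)/N`, so
`D (f_(χ₀)) ≥ -(N-1)/N` (`trace_ge_rat` for `D` as a valuation over `k`: `DVal.down`), an integer, so `≥ 0`: `f_(χ₀) = G(t)` by
`poly_of_fin`. Infinite `D` (`exists_inf`): `v (f / mono χ₀) ≥ -e c + (e/N) ∑_(i ≠ o) χ_i`, so if `G ≠ 0`
`-deg G = D (f_(χ₀)) ≥ -c + |χ₀| / N`.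
-/

namespace Pool.Agent.Helper92.HA

open Module Pool.Agent.Helper92.Weak Pool.Agent.Helper63.PB

/-- A valuation over `K'` as a valuation over `k`. -/
def down (k : Type*) {K' M : Type*} [Field k] [Field K'] [Field M] [Algebra k K'] [Algebra k M]
    [Algebra K' M] [IsScalarTower k K' M] (D : DVal K' M) : DVal k M where
  toFun := D
  map_zero' := D.map_zero'
  map_mul' := D.map_mul'
  map_add' := D.map_add'
  map_const' := fun a => by
    rw [IsScalarTower.algebraMap_apply k K' M]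
    exact D.map_const' _
  surj' := D.surj'

open scoped KaehlerDifferential in
theorem hasOrd_wedge {k E : Type*} [Field k] [Field E] [Algebra k E] {n : ℕ}
    (b : Basis (Fin n) E Ω[E⁄k]) (y : Fin n → E)
    (hb : ∀ i, b i = KaehlerDifferential.D k E (y i)) (v : DVal k E) (z : Fin n → E) (a : ℤ) :
    v.HasOrd (wedge k z) a ↔ v.IsOrd (dform k z) a := by
  have h : ∀ (f : E) (z' : Fin n → E), wedge k z = f • wedge k z' ↔
      dform k z = f • dform k z' := by
    intro f z'
    have h1 := smul_wedge_eq_iff b y hb (f := (1 : E)) (g := f) (z := z) (z' := z')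
    simpa only [one_smul] using h1
  unfold DVal.HasOrd DVal.IsOrd
  simp only [h]

section MhAux

variable {K' M L' : Type*} [Field K'] [Field M] [Field L'] [Algebra K' M] [Algebra K' L']
  [Algebra M L'] [IsScalarTower K' M L'] [FiniteDimensional M L'] {d : ℕ} {t : Fin d → M}
  {ι : Type*} [Fintype ι] [DecidableEq ι]

private theorem mh_affP (t : Fin d → M) (x : Fin (d + 1) → K') :
    affine t x = MvPolynomial.aeval t (affP x) := by
  unfold affP affine
  rw [map_add, map_sum, MvPolynomial.aeval_C]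
  congr 1
  refine Finset.sum_congr rfl fun j _ => ?_
  rw [map_mul, MvPolynomial.aeval_C, MvPolynomial.aeval_X]

private theorem mh_coeff (x : Fin (d + 1) → K') (j : Fin d) :
    (affP x).coeff (Finsupp.single j 1) = x j.succ := by
  classical
  unfold affP
  rw [MvPolynomial.coeff_add, MvPolynomial.coeff_C, if_neg, zero_add, MvPolynomial.coeff_sum,
    Finset.sum_eq_single j]
  · rw [MvPolynomial.coeff_C_mul, MvPolynomial.coeff_X, if_pos rfl, mul_one]
  · intro i _ hi
    rw [MvPolynomial.coeff_C_mul, MvPolynomial.coeff_X, if_neg, mul_zero]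
    rw [Finsupp.single_left_inj one_ne_zero]
    exact hi
  · intro h
    exact absurd (Finset.mem_univ j) h
  · intro h
    have h1 := DFunLike.congr_fun h j
    simp at h1

private theorem mh_deg {x : Fin (d + 1) → K'} (hx : ∃ j : Fin d, x j.succ ≠ 0) :
    (affP x).totalDegree = 1 := by
  apply le_antisymm
  · unfold affP
    refine (MvPolynomial.totalDegree_add _ _).trans (max_le ?_ ?_)
    · rw [MvPolynomial.totalDegree_C]
      exact zero_le_one
    · refine MvPolynomial.totalDegree_finsetSum_le fun j _ => ?_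
      refine (MvPolynomial.totalDegree_mul _ _).trans ?_
      rw [MvPolynomial.totalDegree_C, MvPolynomial.totalDegree_X]
  · obtain ⟨j, hj⟩ := hx
    have h1 : Finsupp.single j 1 ∈ (affP x).support := by
      rw [MvPolynomial.mem_support_iff, mh_coeff]
      exact hj
    have h2 := MvPolynomial.le_totalDegree h1
    rwa [Finsupp.sum_single_index rfl] at h2

private theorem mh_exists (A : Arr K' L' t ι) {i : ι} (hi : i ≠ A.o) :
    ∃ j : Fin d, A.co i j.succ ≠ 0 := by
  by_contra hcon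
  push Not at hcon
  apply A.nprop i A.o hi (A.co i 0)
  funext j
  rw [A.co_o, Pi.smul_apply, smul_eq_mul]
  refine Fin.cases ?_ (fun l => ?_) j
  · rw [if_pos rfl, mul_one]
  · rw [if_neg (Fin.succ_ne_zero l), mul_zero]
    exact hcon l

private theorem mh_o (A : Arr K' L' t ι) : affine t (A.co A.o) = 1 := by
  unfold affine
  rw [A.co_o]
  simp

private theorem mh_ne (A : Arr K' L' t ι) (hd : 0 < d) : ∃ i, i ≠ A.o := by
  by_contra hcon
  push Not at hcon
  have h1 : Submodule.span K' (Set.range A.co) ≤ Submodule.span K' {A.co A.o} := by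
    rw [Submodule.span_le]
    rintro _ ⟨i, rfl⟩
    rw [hcon i]
    exact Submodule.mem_span_singleton_self _
  rw [A.full] at h1
  have h2 := Submodule.finrank_mono h1
  rw [finrank_top, Module.finrank_fin_fun] at h2
  have h3 := finrank_span_singleton (K := K') (A.co_ne A.o)
  omega

private theorem mh_ne0 (A : Arr K' L' t ι) (i : ι) : affine t (A.co i) ≠ 0 := by
  intro h
  have h1 : A.l i = 0 := by
    unfold Arr.l
    rw [h, map_zero]
  exact l_ne A i h1

/-- finite divisors -/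
private theorem mh_fin (A : Arr K' L' t ι) {D : DVal K' M}
    (hD : D ∈ (projSpace A.torus).primeDivisors) (h : ∀ j, 0 ≤ D (t j)) :
    (∀ i, 0 ≤ D (affine t (A.co i))) ∧ (∀ i, D (affine t (A.co i)) ≤ 1) ∧
      ∀ i j, D (affine t (A.co i)) ≠ 0 → D (affine t (A.co j)) ≠ 0 → i = j := by
  obtain ⟨g₀, hg₀, h1, h2⟩ := proj_fin A.torus hD h
  have key : ∀ i, D (affine t (A.co i)) ≠ 0 → i ≠ A.o ∧ Associated g₀ (affP (A.co i)) ∧
      D (affine t (A.co i)) = 1 := by
    intro i hi
    have hio : i ≠ A.o := by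
      rintro rfl
      rw [mh_o, D.map_one] at hi
      exact hi rfl
    rw [mh_affP] at hi ⊢
    have hdvd : g₀ ∣ affP (A.co i) := by
      by_contra hcon
      exact hi (h2 _ hcon)
    have hass : Associated g₀ (affP (A.co i)) :=
      hg₀.associated_of_dvd (irreducible_affP (mh_exists A hio)) hdvd
    refine ⟨hio, hass, ?_⟩
    obtain ⟨u, hu⟩ := hass
    obtain ⟨u', hu'⟩ := u.isUnit.exists_right_inv
    have hne : ∀ g : MvPolynomial (Fin d) K', g ≠ 0 → MvPolynomial.aeval t g ≠ 0 := by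
      intro g hg h0
      exact hg (A.torus.indep (by rw [h0, map_zero]))
    have hnd : ¬ g₀ ∣ (u : MvPolynomial (Fin d) K') := fun h3 =>
      hg₀.not_isUnit (isUnit_of_dvd_unit h3 u.isUnit)
    rw [← hu, map_mul, D.map_mul (hne _ hg₀.ne_zero) (hne _ u.ne_zero), h1, h2 _ hnd]
    norm_num
  refine ⟨fun i => ?_, fun i => ?_, fun i j hi hj => ?_⟩
  · by_cases h3 : D (affine t (A.co i)) = 0
    · rw [h3]
    · rw [(key i h3).2.2]
      norm_num
  · by_cases h3 : D (affine t (A.co i)) = 0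
    · rw [h3]
      norm_num
    · rw [(key i h3).2.2]
  · by_contra hij
    obtain ⟨-, ha, -⟩ := key i hi
    obtain ⟨-, hb, -⟩ := key j hj
    obtain ⟨c, hc⟩ := smul_of_associated_affP (ha.symm.trans hb)
    exact A.nprop j i (Ne.symm hij) c hc

/-- infinite divisors -/
private theorem mh_inf (A : Arr K' L' t ι) {D : DVal K' M}
    (hD : ∀ g : MvPolynomial (Fin d) K', g ≠ 0 →
      D (MvPolynomial.aeval t g) = -(g.totalDegree : ℤ)) {i : ι} (hi : i ≠ A.o) :
    D (affine t (A.co i)) = -1 := by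
  have hx := mh_exists A hi
  rw [mh_affP, hD _ (irreducible_affP hx).ne_zero, mh_deg hx]
  norm_num

end MhAux

section MhVal

variable {k K' M L' : Type*} [Field k] [Field K'] [Field M] [Field L'] [Algebra k L']
  [Algebra K' M] [Algebra K' L'] [Algebra M L'] [IsScalarTower K' M L'] [FiniteDimensional M L']
  {d : ℕ} {t : Fin d → M} {ι : Type*} [Fintype ι] [DecidableEq ι]

private theorem mh_vl (A : Arr K' L' t ι) {D : DVal K' M} {v : DVal k L'} {e : ℕ}
    (hv : ∀ x : M, v (algebraMap M L' x) = e * D x) (i : ι) :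
    v (A.l i) = e * D (affine t (A.co i)) := hv _

private theorem mh_lo (A : Arr K' L' t ι) (v : DVal k L') : v (A.l A.o) = 0 := by
  unfold Arr.l
  rw [mh_o, map_one, v.map_one]

private theorem mh_min_fin (A : Arr K' L' t ι) {D : DVal K' M}
    (hD : D ∈ (projSpace A.torus).primeDivisors) (h : ∀ j, 0 ≤ D (t j)) {v : DVal k L'} {e : ℕ}
    (hv : ∀ x : M, v (algebraMap M L' x) = e * D x) {m : ℤ} (hm : IsMin A v m) : m = 0 := by
  have h1 := hm.1 A.o
  rw [mh_lo] at h1
  obtain ⟨i, hi⟩ := hm.2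
  rw [mh_vl A hv] at hi
  have h2 : 0 ≤ (e : ℤ) * D (affine t (A.co i)) :=
    mul_nonneg (Nat.cast_nonneg _) ((mh_fin A hD h).1 i)
  omega

private theorem mh_min_fin' (A : Arr K' L' t ι) {D : DVal K' M}
    (hD : D ∈ (projSpace A.torus).primeDivisors) (h : ∀ j, 0 ≤ D (t j)) {v : DVal k L'} {e : ℕ}
    (hv : ∀ x : M, v (algebraMap M L' x) = e * D x) : IsMin A v 0 := by
  refine ⟨fun i => ?_, A.o, mh_lo A v⟩
  rw [mh_vl A hv]
  exact mul_nonneg (Nat.cast_nonneg _) ((mh_fin A hD h).1 i)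

private theorem mh_min_inf' (A : Arr K' L' t ι) (hd : 0 < d) {D : DVal K' M}
    (hD : ∀ g : MvPolynomial (Fin d) K', g ≠ 0 →
      D (MvPolynomial.aeval t g) = -(g.totalDegree : ℤ)) {v : DVal k L'} {e : ℕ}
    (hv : ∀ x : M, v (algebraMap M L' x) = e * D x) : IsMin A v (-(e : ℤ)) := by
  obtain ⟨i, hi⟩ := mh_ne A hd
  refine ⟨fun j => ?_, i, ?_⟩
  · by_cases hj : j = A.o
    · rw [hj, mh_lo]
      have := Int.natCast_nonneg e
      omega
    · rw [mh_vl A hv, mh_inf A hD hj]
      ring_nf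
      exact le_rfl
  · rw [mh_vl A hv, mh_inf A hD hi]
    ring

private theorem mh_min_inf (A : Arr K' L' t ι) (hd : 0 < d) {D : DVal K' M}
    (hD : ∀ g : MvPolynomial (Fin d) K', g ≠ 0 →
      D (MvPolynomial.aeval t g) = -(g.totalDegree : ℤ)) {v : DVal k L'} {e : ℕ}
    (hv : ∀ x : M, v (algebraMap M L' x) = e * D x) {m : ℤ} (hm : IsMin A v m) :
    m = -(e : ℤ) := by
  have h1 := mh_min_inf' A hd hD hv
  obtain ⟨i, hi⟩ := hm.2
  obtain ⟨j, hj⟩ := h1.2
  have h2 := hm.1 j
  have h3 := h1.1 i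
  omega

/-- the value of the monomials -/
private theorem mh_mono (A : Arr K' L' t ι) (v : DVal k L') (χ : ι → Fin A.N) :
    A.mono χ ≠ 0 ∧ (A.N : ℤ) * v (A.mono χ) = ∑ i, (χ i : ℤ) * v (A.l i) := by
  have hr : ∀ i, A.r i ≠ 0 := by
    intro i h
    have h1 := A.r_pow i
    rw [h, zero_pow A.N_pos.ne'] at h1
    exact l_ne A i h1.symm
  refine ⟨Finset.prod_ne_zero_iff.2 fun i _ => pow_ne_zero _ (hr i), ?_⟩
  unfold Arr.mono
  rw [v.map_prod _ _ (fun i _ => pow_ne_zero _ (hr i)), Finset.mul_sum]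
  refine Finset.sum_congr rfl fun i _ => ?_
  have h1 : v (A.l i) = A.N * v (A.r i) := by
    have h2 : A.l i = A.r i ^ A.N := (A.r_pow i).symm
    rw [h2, v.map_pow]
  rw [v.map_pow, h1]
  ring

private theorem mh_exists_min (A : Arr K' L' t ι) (v : DVal k L') : ∃ m, IsMin A v m := by
  obtain ⟨i, -, hi⟩ := Finset.exists_min_image Finset.univ (fun i => v (A.l i))
    ⟨A.o, Finset.mem_univ _⟩
  exact ⟨_, fun j => hi j (Finset.mem_univ j), i, rfl⟩

end MhVal

section HorT

variable {k K' M L' : Type*} [Field k] [Field K'] [Field M] [Field L'] [Algebra k L']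
  [Algebra K' M] [Algebra K' L'] [Algebra M L'] [IsScalarTower K' M L'] [FiniteDimensional M L']
  {d : ℕ} {t : Fin d → M} {ι : Type*} [Fintype ι] [DecidableEq ι]

/-- The valuations over the prime divisors of `ℙᵈ`. -/
def horT (A : Arr K' L' t ι) : Set (DVal k L') :=
  {v | ∃ D ∈ (projSpace A.torus).primeDivisors, ∃ e : ℕ, 0 < e ∧
    ∀ x : M, v (algebraMap M L' x) = e * D x}

private theorem mh_aev (g : MvPolynomial (Fin d) K') : MvPolynomial.aeval (tL L' t) g =
    algebraMap M L' (MvPolynomial.aeval t g) :=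
  MvPolynomial.aeval_algebraMap_apply L' t g

theorem horT_kill (A : Arr K' L' t ι) (hd : 0 < d) {v : DVal k L'} (hv : v ∈ horT A) :
    ∃ (g : MvPolynomial (Fin d) K') (n : ℕ), g ≠ 0 ∧ g.totalDegree ≤ n ∧
      ∀ m, IsMin A v m → n * m + 1 ≤ v (MvPolynomial.aeval (tL L' t) g) := by
  obtain ⟨D, hD, e, he, hve⟩ := hv
  by_cases hDt : ∀ j, 0 ≤ D (t j)
  · obtain ⟨g₀, hg₀, h1, h2⟩ := proj_fin A.torus hD hDt
    refine ⟨g₀, g₀.totalDegree, hg₀.ne_zero, le_rfl, fun m hm => ?_⟩
    rw [mh_min_fin A hD hDt hve hm, mh_aev, hve, h1]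
    have : (0 : ℤ) < e := by exact_mod_cast he
    omega
  · refine ⟨1, 1, one_ne_zero, ?_, fun m hm => ?_⟩
    · rw [MvPolynomial.totalDegree_one]
      exact zero_le_one
    · rw [mh_min_inf A hd (fun g hg => proj_inf A.torus hD hDt g hg) hve hm, map_one,
        v.map_one]
      have : (0 : ℤ) < e := by exact_mod_cast he
      push_cast
      omega

theorem horT_poly (A : Arr K' L' t ι) (hd : 0 < d) {v : DVal k L'} (hv : v ∈ horT A)
    {g : MvPolynomial (Fin d) K'} {n' : ℕ} (hg : g.totalDegree ≤ n') {m : ℤ} (hm : IsMin A v m) :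
    v.Ge (n' * m) (MvPolynomial.aeval (tL L' t) g) := by
  obtain ⟨D, hD, e, he, hve⟩ := hv
  by_cases hg0 : g = 0
  · left
    rw [hg0, map_zero]
  right
  rw [mh_aev, hve]
  by_cases hDt : ∀ j, 0 ≤ D (t j)
  · rw [mh_min_fin A hD hDt hve hm]
    have h1 : MvPolynomial.aeval t g ∈ D.ring := by
      have h2 : MvPolynomial.aeval t g ∈ Algebra.adjoin K' (Set.range t) := by
        rw [Algebra.adjoin_range_eq_range_aeval]
        exact ⟨g, rfl⟩
      have h3 : Algebra.adjoin K' (Set.range t) ≤ D.ring := by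
        apply Algebra.adjoin_le
        rintro _ ⟨j, rfl⟩
        exact hDt j
      exact h3 h2
    have h2 : 0 ≤ D (MvPolynomial.aeval t g) := h1
    have h3 : 0 ≤ (e : ℤ) * D (MvPolynomial.aeval t g) := mul_nonneg (Nat.cast_nonneg _) h2
    have h4 : (0 : ℚ) ≤ ((e : ℤ) * D (MvPolynomial.aeval t g) : ℤ) := by exact_mod_cast h3
    simpa using h4
  · have hDg := fun g hg => proj_inf A.torus hD hDt g hg
    rw [mh_min_inf A hd hDg hve hm, hDg g hg0]
    have h1 : (g.totalDegree : ℚ) ≤ n' := by exact_mod_cast hg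
    have h2 : (0 : ℚ) ≤ e := Nat.cast_nonneg _
    push_cast
    nlinarith


/-- The valuations of `horT A` over a finite divisor and over the hyperplane at infinity. -/
theorem horT_cases (A : Arr K' L' t ι) (hd : 0 < d) {v : DVal k L'} {D : DVal K' M} {e : ℕ}
    (hD : D ∈ (projSpace A.torus).primeDivisors)
    (hve : ∀ x : M, v (algebraMap M L' x) = e * D x) :
    (IsMin A v 0 ∧ (∀ j, 0 ≤ v (tL L' t j)) ∧ (∀ j, 0 ≤ D (t j)) ∧
      ∃ g₀ : MvPolynomial (Fin d) K', Irreducible g₀ ∧ v (MvPolynomial.aeval (tL L' t) g₀) = e ∧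
        ∀ g : MvPolynomial (Fin d) K', ¬ g₀ ∣ g → v (MvPolynomial.aeval (tL L' t) g) = 0) ∨
    (IsMin A v (-(e : ℤ)) ∧ (¬ ∀ j, 0 ≤ D (t j)) ∧ ∀ g : MvPolynomial (Fin d) K', g ≠ 0 →
      v (MvPolynomial.aeval (tL L' t) g) = -(e * g.totalDegree : ℤ)) := by
  by_cases hDt : ∀ j, 0 ≤ D (t j)
  · left
    obtain ⟨g₀, hg₀, h1, h2⟩ := proj_fin A.torus hD hDt
    refine ⟨mh_min_fin' A hD hDt hve, fun j => ?_, hDt, g₀, hg₀, ?_, fun g hg => ?_⟩
    · have h3 : v (tL L' t j) = e * D (t j) := hve _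
      rw [h3]
      exact mul_nonneg (Nat.cast_nonneg _) (hDt j)
    · rw [mh_aev, hve, h1, mul_one]
    · rw [mh_aev, hve, h2 g hg, mul_zero]
  · right
    have hDg := fun g hg => proj_inf A.torus hD hDt g hg
    refine ⟨mh_min_inf' A hd hDg hve, hDt, fun g hg => ?_⟩
    rw [mh_aev, hve, hDg g hg]
    ring

theorem horT_sec [Algebra k K'] [Algebra k M] [IsScalarTower k K' M] [IsScalarTower k M L']
    [CharZero k] (A : Arr K' L' t ι) (hd : 0 < d) (Dd : Fin d → Derivation K' L' L')
    (hDd : ∀ i j, Dd i (tL L' t j) = if i = j then 1 else 0) {f : L'} {c : ℤ}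
    (hf : ∀ v ∈ (horT A : Set (DVal k L')), ∀ m, IsMin A v m → v.Ge (c * m) f) :
    ∃ G : (ι → Fin A.N) → MvPolynomial (Fin d) K',
      f = ∑ χ, MvPolynomial.aeval (tL L' t) (G χ) * A.mono χ ∧
      ∀ χ, G χ ≠ 0 → (χ A.o : ℕ) = 0 ∧
        A.N * (G χ).totalDegree + ∑ i, (χ i : ℕ) ≤ A.N * c := by
  classical
  have hK'0 : CharZero K' := charZero_of_injective_algebraMap (algebraMap k K').injective
  have haev := mh_aev (K' := K') (L' := L') (t := t)
  have hne : ∀ g : MvPolynomial (Fin d) K', g ≠ 0 → MvPolynomial.aeval t g ≠ 0 := by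
    intro g hg h0
    exact hg (A.torus.indep (by rw [h0, map_zero]))
  -- the components of `f`
  have hspan : f ∈ Submodule.span M
      (Set.range fun χ : {χ : ι → Fin A.N // (χ A.o : ℕ) = 0} => A.mono χ.1) := by
    rw [mono_span A]
    trivial
  rw [Submodule.mem_span_range_iff_exists_fun] at hspan
  obtain ⟨cf, hcf⟩ := hspan
  let Gm : (ι → Fin A.N) → M := fun χ => if h : (χ A.o : ℕ) = 0 then cf ⟨χ, h⟩ else 0
  have hGm : ∀ χ, Gm χ ≠ 0 → (χ A.o : ℕ) = 0 := by
    intro χ h
    by_contra hcon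
    exact h (dif_neg hcon)
  have hfG : f = ∑ χ, algebraMap M L' (Gm χ) * A.mono χ := by
    rw [← hcf]
    symm
    rw [← Finset.sum_subset (Finset.subset_univ
      (Finset.univ.filter fun χ : ι → Fin A.N => (χ A.o : ℕ) = 0)) (by
        intro χ _ hχ
        have h1 : Gm χ = 0 := dif_neg (by simpa using hχ)
        rw [h1, map_zero, zero_mul])]
    rw [Finset.sum_subtype (p := fun χ : ι → Fin A.N => (χ A.o : ℕ) = 0) _
      (fun χ => by simp)]
    refine Finset.sum_congr rfl fun χ _ => ?_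
    have h1 : Gm χ.1 = cf χ := dif_pos χ.2
    rw [h1, Algebra.smul_def]
  have htr : ∀ χ₀ : ι → Fin A.N, (χ₀ A.o : ℕ) = 0 → Algebra.trace M L' (f / A.mono χ₀) =
      (A.N ^ (Fintype.card ι - 1) : ℕ) * Gm χ₀ := by
    intro χ₀ hχ₀
    rw [hfG]
    exact trace_mono A Dd hDd Gm hGm χ₀ hχ₀
  have hconst : ∀ (D : DVal K' M) (r : ℚ) (χ₀ : ι → Fin A.N),
      D.Ge r ((A.N ^ (Fintype.card ι - 1) : ℕ) * Gm χ₀) → D.Ge r (Gm χ₀) := by
    intro D r χ₀ h
    by_cases h0 : Gm χ₀ = 0
    · left
      exact h0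
    have hN : ((A.N ^ (Fintype.card ι - 1) : ℕ) : M) =
        algebraMap K' M ((A.N ^ (Fintype.card ι - 1) : ℕ) : K') := by
      rw [map_natCast]
    have hN0 : ((A.N ^ (Fintype.card ι - 1) : ℕ) : M) ≠ 0 := by
      rw [hN]
      intro h1
      have h2 := (map_eq_zero _).1 h1
      have h3 : A.N ^ (Fintype.card ι - 1) ≠ 0 := pow_ne_zero _ A.N_pos.ne'
      exact h3 (by exact_mod_cast h2)
    rcases h with h | h
    · exact absurd h (mul_ne_zero hN0 h0)
    · right
      rw [D.map_mul hN0 h0, hN, D.map_const, zero_add] at h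
      exact h
  have hNpos : (0 : ℚ) < A.N := by exact_mod_cast A.N_pos
  -- the value of `f / mono χ₀`
  have hval : ∀ (D : DVal K' M) (χ₀ : ι → Fin A.N) (r : ℚ), (χ₀ A.o : ℕ) = 0 →
      (∀ (w : DVal k L') (e : ℕ), 0 < e → (∀ x : M, w (algebraMap M L' x) = e * D x) →
        w.Ge (e * r) (f / A.mono χ₀)) → D.Ge r (Gm χ₀) := by
    intro D χ₀ r hχ₀ h
    apply hconst
    rw [← htr χ₀ hχ₀]
    have h1 : (down k D).Ge r (Algebra.trace M L' (f / A.mono χ₀)) :=
      trace_ge_rat (down k D) fun w e hw => h w e hw.1 hw.2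
    exact h1
  have hmono : ∀ (w : DVal k L') (χ₀ : ι → Fin A.N), f ≠ 0 →
      (w (f / A.mono χ₀) : ℚ) = w f - (∑ i, ((χ₀ i : ℕ) : ℚ) * w (A.l i)) / A.N := by
    intro w χ₀ hf0
    obtain ⟨h1, h2⟩ := mh_mono A w χ₀
    rw [w.map_div hf0 h1]
    have h3 : (A.N : ℚ) * w (A.mono χ₀) = ∑ i, ((χ₀ i : ℕ) : ℚ) * w (A.l i) := by
      exact_mod_cast h2
    rw [← h3]
    push_cast
    field_simp
  -- finite divisors
  have hfinite : ∀ χ₀ : ι → Fin A.N, (χ₀ A.o : ℕ) = 0 →
      ∃ g : MvPolynomial (Fin d) K', MvPolynomial.aeval t g = Gm χ₀ := by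
    intro χ₀ hχ₀
    apply poly_of_fin A.torus
    intro D hD hDt
    have h1 : D.Ge (-((A.N - 1 : ℚ) / A.N)) (Gm χ₀) := by
      apply hval D χ₀ _ hχ₀
      intro w e he hw
      by_cases hf0 : f = 0
      · left
        rw [hf0, zero_div]
      have h2 : w.Ge (c * (0 : ℤ)) f :=
        hf w (⟨D, hD, e, he, hw⟩) 0 (mh_min_fin' A hD hDt hw)
      rw [DVal.ge_iff hf0] at h2
      right
      rw [hmono w χ₀ hf0]
      have h3 : ∑ i, ((χ₀ i : ℕ) : ℚ) * w (A.l i) ≤ e * (A.N - 1) := by
        obtain ⟨k1, k2, k3⟩ := mh_fin A hD hDt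
        by_cases hex : ∃ i, D (affine t (A.co i)) ≠ 0
        · obtain ⟨i, hi⟩ := hex
          rw [Finset.sum_eq_single i]
          · rw [mh_vl A hw]
            have h4 : D (affine t (A.co i)) = 1 := by
              have := k1 i
              have := k2 i
              omega
            rw [h4]
            have h5 : ((χ₀ i : ℕ) : ℚ) ≤ A.N - 1 := by
              have h6 := (χ₀ i).2
              have h7 : ((χ₀ i : ℕ) : ℚ) + 1 ≤ A.N := by exact_mod_cast h6
              linarith
            have he' : (0 : ℚ) ≤ e := Nat.cast_nonneg _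
            push_cast
            nlinarith
          · intro j _ hj
            have h4 : D (affine t (A.co j)) = 0 := by
              by_contra hcon
              exact hj (k3 j i hcon hi)
            rw [mh_vl A hw, h4]
            simp
          · intro h4
            exact absurd (Finset.mem_univ i) h4
        · push Not at hex
          rw [Finset.sum_eq_zero]
          · have he' : (0 : ℚ) ≤ e := Nat.cast_nonneg _
            have h5 : (1 : ℚ) ≤ A.N := by exact_mod_cast A.N_pos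
            nlinarith
          · intro j _
            rw [mh_vl A hw, hex j]
            simp
      have h4 : (∑ i, ((χ₀ i : ℕ) : ℚ) * w (A.l i)) / A.N ≤ e * (A.N - 1) / A.N :=
        div_le_div_of_nonneg_right h3 hNpos.le
      have h5 : (e : ℚ) * -((A.N - 1 : ℚ) / A.N) = -(e * (A.N - 1) / A.N) := by ring
      rw [h5]
      push_cast at h2
      linarith
    by_cases h0 : Gm χ₀ = 0
    · left
      exact h0
    rw [DVal.ge_iff h0] at h1 ⊢
    have h2 : (-1 : ℚ) < D (Gm χ₀) := by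
      have h3 : (A.N - 1 : ℚ) / A.N < 1 := by
        rw [div_lt_one hNpos]
        linarith
      linarith
    have h3 : (-1 : ℤ) < D (Gm χ₀) := by exact_mod_cast h2
    have h4 : (0 : ℤ) ≤ D (Gm χ₀) := by omega
    exact_mod_cast h4
  choose! G hG using hfinite
  refine ⟨fun χ => if (χ A.o : ℕ) = 0 then G χ else 0, ?_, ?_⟩
  · conv_lhs => rw [hfG]
    refine Finset.sum_congr rfl fun χ _ => ?_
    congr 1
    beta_reduce
    by_cases hχ : (χ A.o : ℕ) = 0
    · rw [if_pos hχ, haev, hG χ hχ]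
    · have h1 : Gm χ = 0 := dif_neg hχ
      rw [if_neg hχ, h1, map_zero, map_zero]
  · intro χ hχne
    beta_reduce at hχne ⊢
    by_cases hχ : (χ A.o : ℕ) = 0
    · rw [if_pos hχ] at hχne ⊢
      refine ⟨hχ, ?_⟩
      obtain ⟨D, hD, hDt, hDg⟩ := exists_inf A.torus hd
      have hGm0 : Gm χ ≠ 0 := by
        rw [← hG χ hχ]
        exact hne _ hχne
      have h1 : D.Ge (-c + (∑ i, ((χ i : ℕ) : ℚ)) / A.N) (Gm χ) := by
        apply hval D χ _ hχ
        intro w e he hw
        by_cases hf0 : f = 0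
        · left
          rw [hf0, zero_div]
        have h2 : w.Ge (c * (-(e : ℤ) : ℤ)) f := by
          have h3 := hf w (⟨D, hD, e, he, hw⟩) _ (mh_min_inf' A hd hDg hw)
          exact h3
        rw [DVal.ge_iff hf0] at h2
        right
        rw [hmono w χ hf0]
        have h3 : ∑ i, ((χ i : ℕ) : ℚ) * w (A.l i) = -(e * ∑ i, ((χ i : ℕ) : ℚ)) := by
          rw [Finset.mul_sum, ← Finset.sum_neg_distrib]
          refine Finset.sum_congr rfl fun i _ => ?_
          by_cases hi : i = A.o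
          · rw [hi, hχ]
            simp
          · rw [mh_vl A hw, mh_inf A hDg hi]
            push_cast
            ring
        rw [h3]
        push_cast at h2
        have h4 : (e : ℚ) * (-c + (∑ i, ((χ i : ℕ) : ℚ)) / A.N) =
            c * -e - (-(e * ∑ i, ((χ i : ℕ) : ℚ))) / A.N := by ring
        rw [h4]
        linarith
      rw [DVal.ge_iff hGm0, ← hG χ hχ, hDg _ hχne] at h1
      have h2 : (∑ i, ((χ i : ℕ) : ℚ)) / A.N * A.N = ∑ i, ((χ i : ℕ) : ℚ) :=
        div_mul_cancel₀ _ hNpos.ne'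
      have h3 := mul_le_mul_of_nonneg_right h1 hNpos.le
      rw [add_mul, h2] at h3
      push_cast at h3
      have h4 : (A.N : ℚ) * (G χ).totalDegree + ∑ i, ((χ i : ℕ) : ℚ) ≤ A.N * c := by
        linarith
      exact_mod_cast h4
    · rw [if_neg hχ] at hχne
      exact absurd rfl hχne

end HorT

variable {k K L K' M L' : Type*} [Field k] [Field K] [Field L] [Field K'] [Field M] [Field L']
  [Algebra k K] [Algebra k L] [Algebra k K'] [Algebra k M] [Algebra k L'] [Algebra K L]
  [Algebra K K'] [Algebra K L'] [Algebra L L'] [Algebra K' M] [Algebra K' L'] [Algebra M L']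
  [IsScalarTower k K L] [IsScalarTower k K K'] [IsScalarTower k K L'] [IsScalarTower k L L']
  [IsScalarTower k K' M] [IsScalarTower k K' L'] [IsScalarTower k M L'] [IsScalarTower K L L']
  [IsScalarTower K K' L'] [IsScalarTower K' M L'] [FiniteDimensional K K']
  [FiniteDimensional L L'] [FiniteDimensional M L'] [CharZero k] {d : ℕ}
  {X : ProjVar k L} {Z : ProjVar k K} {t : Fin d → M} {ι : Type*} [Fintype ι] [DecidableEq ι]

theorem exists_horArr (hd : 0 < d) {n : ℕ} {y : Fin n → K} (hy : IsTranscendenceBasis k y)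
    {F : DFrame X Z K' (tL L' t)}
    (hF : ∀ (P : X.primeDivisors) (v : DVal k L') (ε : ℕ), LiesOver v P.1 ε →
      v.IsOrd (OmD k y (tL L' t)) (ε * (F.a P + 1) - 1 - v F.u))
    {A : Arr K' L' t ι} {Δ : X.Div} (H : IsLogCover (K := K) X Δ A) :
    Nonempty (HorArr F A Δ) := by
  classical
  have htb' : IsTranscendenceBasis K' t := by
    rw [A.torus.indep.isTranscendenceBasis_iff_isAlgebraic]
    constructor
    intro a
    have ha : a ∈ IntermediateField.adjoin K' (Set.range t) := by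
      rw [A.torus.gen]
      trivial
    rw [IntermediateField.mem_adjoin_iff_div] at ha
    obtain ⟨r, hr, s, hs, rfl⟩ := ha
    have h1 : IsAlgebraic (Algebra.adjoin K' (Set.range t)) r :=
      isAlgebraic_algebraMap (⟨r, hr⟩ : Algebra.adjoin K' (Set.range t))
    have h2 : IsAlgebraic (Algebra.adjoin K' (Set.range t)) s :=
      isAlgebraic_algebraMap (⟨s, hs⟩ : Algebra.adjoin K' (Set.range t))
    rw [div_eq_mul_inv]
    exact h1.mul h2.inv
  have htb : IsTranscendenceBasis K' (tL L' t) := htb'.algebraMap_comp (A := L')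
  have htK : IsTranscendenceBasis K (tL L' t) := by
    have h1 : AlgebraicIndependent K (tL L' t) :=
      htb.1.restrictScalars (R := K) (algebraMap K K').injective
    have h3 : Algebra.trdeg K' L' = d := by
      have h := htb.lift_cardinalMk_eq_trdeg
      rw [Cardinal.mk_fin, Cardinal.lift_natCast] at h
      have h' : Cardinal.lift.{0} (Algebra.trdeg K' L') = d := by
        rw [← h]
      simpa using h'
    have h2 : Algebra.trdeg K L' = d := by
      have h := lift_trdeg_add_eq K K' L'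
      rw [trdeg_eq_zero (R := K) (A := K'), h3] at h
      simp only [Cardinal.lift_zero, zero_add, Cardinal.lift_natCast] at h
      rw [eq_comm, Cardinal.lift_eq_nat_iff] at h
      exact h
    refine h1.isTranscendenceBasis_of_lift_trdeg_le_of_finite ?_
    rw [h2, Cardinal.mk_fin, Cardinal.lift_natCast, Cardinal.lift_natCast]
  have hK'0 : CharZero K' := charZero_of_injective_algebraMap (algebraMap k K').injective
  -- the form
  have hap := append_basisD (M := L') hy htK
  obtain ⟨bb, hbb⟩ := Pool.Agent.Helper50.Forms.exists_kaehler_basis hap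
  have hLD : ∀ (P : X.primeDivisors) (v : DVal k L') (ε : ℕ), LiesOver v P.1 ε →
      ∀ m, IsMin A v m → A.IsLogDisc K v
        (1 + ((ε * (F.a P + 1) - 1 - v F.u : ℤ) : ℚ) -
          ((d + 1) * m + ∑ i, A.δ i * (v (A.l i) - m))) := by
    intro P v ε hv m hm
    refine ⟨n, y, ε * (F.a P + 1) - 1 - v F.u, m, hy, ?_, hm, rfl⟩
    rw [hasOrd_wedge bb _ hbb]
    exact hF P v ε hv
  refine ⟨⟨horT A, ?_, ?_, fun f c hf => horT_sec A hd F.D F.D_t hf,
    fun v hv => horT_kill A hd hv, fun v hv g n' hg m hm => horT_poly A hd hv hg hm⟩⟩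
  · -- low
    intro P hP v ε hv m x hx hsum huse
    obtain ⟨m', hm'⟩ := mh_exists_min A v
    have h1 := H.disc P hP v ε hv _ (hLD P v ε hv m' hm')
    have h2 : (v F.u : ℚ) + (d + 1) * m' + ∑ i, A.δ i * (v (A.l i) - m') ≤
        ε * (F.a P + Δ P) := by
      push_cast at h1
      linarith
    have h3 : ∑ i, A.use x i = (d + 1) * m := by
      unfold Arr.use
      rw [Finset.sum_comm, ← hsum, Finset.mul_sum]
      refine Finset.sum_congr rfl fun b _ => ?_
      rw [← Finset.sum_filter, Finset.sum_const, smul_eq_mul]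
      by_cases hxb : x b = 0
      · rw [hxb]
        simp
      · have h4 := card_base A (hx b hxb)
        have h5 : (Finset.univ.filter fun i => i ∈ b) = b := by
          ext i
          simp
        rw [h5, h4]
    have h3' : ∑ i, (A.use x i : ℚ) = (d + 1) * m := by exact_mod_cast h3
    have h6 : ∑ i, (A.use x i : ℚ) * (v (A.l i) - m') ≤
        ∑ i, (m : ℚ) * (A.δ i * (v (A.l i) - m')) := by
      refine Finset.sum_le_sum fun i _ => ?_
      have h7 : (0 : ℚ) ≤ (v (A.l i) : ℚ) - m' := by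
        have := hm'.1 i
        have h8 : (m' : ℚ) ≤ v (A.l i) := by exact_mod_cast this
        linarith
      calc (A.use x i : ℚ) * (v (A.l i) - m') ≤ m * A.δ i * (v (A.l i) - m') :=
            mul_le_mul_of_nonneg_right (huse i) h7
        _ = _ := by ring
    rw [← Finset.mul_sum] at h6
    have h9 : ∑ i, (A.use x i : ℚ) * (v (A.l i) - m') =
        ∑ i, (A.use x i : ℚ) * v (A.l i) - (d + 1) * m * m' := by
      rw [← h3', Finset.sum_mul, ← Finset.sum_sub_distrib]
      refine Finset.sum_congr rfl fun i _ => ?_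
      ring
    have h10 : (m : ℚ) * ((v F.u : ℚ) + (d + 1) * m' + ∑ i, A.δ i * (v (A.l i) - m')) ≤
        m * (ε * (F.a P + Δ P)) := mul_le_mul_of_nonneg_left h2 (Nat.cast_nonneg _)
    push_cast
    rw [h9] at h6
    linarith
  · -- up
    intro v hv
    obtain ⟨D, hD, e, he, hve⟩ := hv
    obtain ⟨P, hP, ε, hvP, h1⟩ := H.above D hD v e he hve
    refine ⟨P, hP, ε, hvP, fun m hm => ?_⟩
    have h2 := h1 _ (hLD P v ε hvP m hm)
    push_cast at h2
    linarith

end Pool.Agent.Helper92.HA
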