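import Mathlib.LinearAlgebra.FiniteDimensional.Basic

set_option autoImplicit false

/-!
# The rank function of a family of vectors
-/

namespace Pool.Agent.Helper92.HA

open Module

/-- Rank of the subfamily `A` of the family of vectors `l`. -/
noncomputable def rk (F : Type*) {V ι : Type*} [Field F] [AddCommGroup V] [Module F V]
    (l : ι → V) (A : Finset ι) : ℕ :=
  finrank F (Submodule.span F (l '' (A : Set ι)))

end Pool.Agent.Helper92.HA
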