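import Pool.Agent.Helper92.Weak.Torus1
import Pool.Agent.Helper92.HA.Rk

set_option autoImplicit false

/-!
# Log canonical hyperplane arrangements and their Kummer covers
-/

namespace Pool.Agent.Helper92.HA

open Module Pool.Agent.Helper92.Weak

variable {K' M L' : Type*} [Field K'] [Field M] [Field L'] [Algebra K' M] [Algebra K' L']
  [Algebra M L'] {d : ℕ}

/-- The affine function with the given coefficients. -/
def affine (t : Fin d → M) (a : Fin (d + 1) → K') : M :=
  algebraMap K' M (a 0) + ∑ j : Fin d, algebraMap K' M (a j.succ) * t j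

variable (L') in
/-- The coordinates as elements of `L'`. -/
def tL (t : Fin d → M) (j : Fin d) : L' := algebraMap M L' (t j)

/-- `M = K'(t₁, ..., t_d)` is the function field of `ℙᵈ` over `K'`.  The `l i` are nonzero affine
functions in `t₁, ..., t_d` over `K'`, with coefficients `co i` (the linear forms of hyperplanes of
`ℙᵈ`, divided by the one of the hyperplane at infinity, `l o = 1`), pairwise not proportional, and
spanning all affine functions; `r i` is an `N`-th root of `l i`, and `L'` is generated over `M` by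
the `r i`; the weights `δ i > 0` satisfy the log canonical condition. -/
structure Arr (K' : Type*) {M : Type*} (L' : Type*) [Field K'] [Field M] [Field L'] [Algebra K' M]
    [Algebra K' L'] [Algebra M L'] {d : ℕ} (t : Fin d → M) (ι : Type*) [Fintype ι]
    [DecidableEq ι] where
  torus : IsTorus K' t
  N : ℕ
  N_pos : 0 < N
  o : ι
  co : ι → Fin (d + 1) → K'
  r : ι → L'
  co_ne : ∀ i, co i ≠ 0
  co_o : co o = fun j => if j = 0 then 1 else 0
  r_o : r o = 1
  r_pow : ∀ i, r i ^ N = algebraMap M L' (affine t (co i))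
  nprop : ∀ i j, i ≠ j → ∀ c : K', co i ≠ c • co j
  full : Submodule.span K' (Set.range co) = ⊤
  gen : Algebra.adjoin M (Set.range r) = ⊤
  δ : ι → ℚ
  δ_pos : ∀ i, 0 < δ i
  lc : ∀ A : Finset ι, rk K' co A < d + 1 → ∑ i ∈ A, δ i ≤ rk K' co A

variable {t : Fin d → M} {ι : Type*} [Fintype ι] [DecidableEq ι]

/-- The affine function `l i`. -/
def Arr.l (A : Arr K' L' t ι) (i : ι) : L' := algebraMap M L' (affine t (A.co i))

/-- The degree of `K + Δ` on `ℙᵈ`. -/
def Arr.h (A : Arr K' L' t ι) : ℚ := ∑ i, A.δ i - (d + 1)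

/-- `m` is the smallest value of the `l i`. -/
def IsMin {k : Type*} [Field k] [Algebra k L'] (A : Arr K' L' t ι) (v : DVal k L') (m : ℤ) : Prop :=
  (∀ i, m ≤ v (A.l i)) ∧ ∃ i, v (A.l i) = m

variable (t) in
/-- The homogeneous coordinates `(1 : t₁ : ... : t_d)`. -/
def hom1 : Fin (d + 1) → M := Fin.cons 1 t

end Pool.Agent.Helper92.HA
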