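import Mathlib
import Pool.Agent.Helper92.Weak.Farkas
import Pool.Agent.Helper92.HA.Rk

/-!
# Rational points of the base polytope of a linear matroid (Edmonds)
-/

set_option autoImplicit false

open Module

namespace Pool.Agent.Helper92.HA

variable (F : Type*) {V ι : Type*} [Field F] [AddCommGroup V] [Module F V]

/-- `b` is a base of the family `l`. -/
def IsBase (l : ι → V) (b : Finset ι) : Prop :=
  LinearIndepOn F l (b : Set ι) ∧
    Submodule.span F (l '' (b : Set ι)) = Submodule.span F (Set.range l)

variable {F}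

lemma rk_eq_card {l : ι → V} {A b : Finset ι} (hb : LinearIndepOn F l (b : Set ι))
    (h : Submodule.span F (l '' (b : Set ι)) = Submodule.span F (l '' (A : Set ι))) :
    rk F l A = b.card := by
  classical
  rw [rk, ← h]
  have h1 : LinearIndependent F (fun i : (b : Set ι) => l i) := hb
  have h2 := finrank_span_eq_card h1
  have h3 : Set.range (fun i : (b : Set ι) => l i) = l '' (b : Set ι) := by
    ext v; simp
  rw [h3] at h2
  rw [h2]
  simp

/-- The greedy base. -/
theorem exists_greedy [DecidableEq ι] (l : ι → V) (c : ι → ℚ) (s : Finset ι) :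
    ∃ b ⊆ s, LinearIndepOn F l (b : Set ι) ∧
      Submodule.span F (l '' (b : Set ι)) = Submodule.span F (l '' (s : Set ι)) ∧
      ∀ x : ι → ℚ, (∀ A : Finset ι, A ⊆ s → ∑ i ∈ A, x i ≤ rk F l A) →
        ∀ t : ℚ, (∀ i ∈ s, t ≤ c i) →
          ∑ i ∈ s, (c i - t) * x i ≤ ∑ i ∈ b, (c i - t) := by
  induction s using Finset.induction_on_min_value c with
  | empty =>
    refine ⟨∅, by simp, by simp, by simp, ?_⟩
    intro x _ t _
    simp
  | insert a s ha hmin ih =>
    obtain ⟨b, hbs, hb, hspan, hx⟩ := ih
    have key : ∃ b' ⊆ insert a s, b ⊆ b' ∧ b' ⊆ insert a b ∧ LinearIndepOn F l (b' : Set ι) ∧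
        Submodule.span F (l '' (b' : Set ι)) =
          Submodule.span F (l '' ((insert a s : Finset ι) : Set ι)) := by
      by_cases h : l a ∈ Submodule.span F (l '' (b : Set ι))
      · refine ⟨b, hbs.trans (Finset.subset_insert _ _), Finset.Subset.refl _,
          Finset.subset_insert _ _, hb, ?_⟩
        rw [Finset.coe_insert, Set.image_insert_eq, Submodule.span_insert, hspan]
        rw [hspan] at h
        rw [eq_comm, sup_eq_right, Submodule.span_singleton_le_iff_mem]
        exact h
      · have hab : a ∉ (b : Set ι) := fun h' => h (Submodule.subset_span ⟨a, h', rfl⟩)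
        refine ⟨insert a b, Finset.insert_subset_insert _ hbs, Finset.subset_insert _ _,
          Finset.Subset.refl _, ?_, ?_⟩
        · rw [Finset.coe_insert, linearIndepOn_insert hab]
          exact ⟨hb, h⟩
        · rw [Finset.coe_insert, Finset.coe_insert, Set.image_insert_eq, Set.image_insert_eq,
            Submodule.span_insert, Submodule.span_insert, hspan]
    obtain ⟨b', hb's, hbb', hb'b, hb', hspan'⟩ := key
    refine ⟨b', hb's, hb', hspan', ?_⟩
    intro x hA t ht
    have h1 := hx x (fun A hAs => hA A (hAs.trans (Finset.subset_insert _ _))) (c a)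
      (fun i hi => hmin i hi)
    have h2 := hA (insert a s) (Finset.Subset.refl _)
    rw [rk_eq_card hb' hspan'] at h2
    have hta : 0 ≤ c a - t := sub_nonneg.2 (ht a (Finset.mem_insert_self _ _))
    have h3 : ∑ i ∈ insert a s, (c i - t) * x i =
        ∑ i ∈ s, (c i - c a) * x i + (c a - t) * ∑ i ∈ insert a s, x i := by
      rw [Finset.mul_sum, Finset.sum_insert ha, Finset.sum_insert ha]
      have : ∑ i ∈ s, (c i - t) * x i =
          ∑ i ∈ s, (c i - c a) * x i + ∑ i ∈ s, (c a - t) * x i := by
        rw [← Finset.sum_add_distrib]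
        exact Finset.sum_congr rfl fun i _ => by ring
      rw [this]
      ring
    have h4 : ∑ i ∈ b, (c i - c a) = ∑ i ∈ b', (c i - c a) := by
      apply Finset.sum_subset hbb'
      intro i hi hib
      rcases Finset.mem_insert.1 (hb'b hi) with rfl | h
      · ring
      · exact absurd h hib
    have h5 : ∑ i ∈ b', (c i - t) = ∑ i ∈ b', (c i - c a) + (c a - t) * b'.card := by
      have : ∀ i ∈ b', (c i - t) = (c i - c a) + (c a - t) := fun i _ => by ring
      rw [Finset.sum_congr rfl this, Finset.sum_add_distrib, Finset.sum_const, nsmul_eq_mul]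
      ring
    rw [h3, h5, ← h4]
    have := mul_le_mul_of_nonneg_left h2 hta
    linarith

/-- **Edmonds, rational form.** A point `x ≥ 0` of total mass the rank, with `x(A) ≤ rk A` for
all `A`, is a nonnegative rational combination of bases. -/
theorem edmonds [Fintype ι] [DecidableEq ι] (l : ι → V) (x : ι → ℚ)
    (hA : ∀ A : Finset ι, ∑ i ∈ A, x i ≤ rk F l A)
    (hx : ∑ i, x i = rk F l Finset.univ) :
    ∃ y : Finset ι → ℚ, (∀ b, 0 ≤ y b) ∧ (∀ b, y b ≠ 0 → IsBase F l b) ∧
      ∀ i, x i = ∑ b : Finset ι, if i ∈ b then y b else 0 := by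
  classical
  let s : Finset (Finset ι) := Finset.univ.filter (fun b => IsBase F l b)
  let a : Finset ι → (ι → ℚ) := fun b i => if i ∈ b then 1 else 0
  rcases Pool.Agent.Helper92.Weak.farkas s a x with ⟨y, hy, hxy⟩ | ⟨φ, hφ, hφx⟩
  · refine ⟨fun b => if IsBase F l b then y b else 0, ?_, ?_, ?_⟩
    · intro b
      dsimp only
      split_ifs with h
      · exact hy b (by simp [s, h])
      · exact le_rfl
    · intro b hb
      by_contra h
      simp [h] at hb
    · intro i
      rw [hxy, Finset.sum_apply, Finset.sum_filter]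
      refine Finset.sum_congr rfl fun b _ => ?_
      by_cases h : IsBase F l b <;> by_cases hi : i ∈ b <;> simp [h, hi, a]
  · exfalso
    let c : ι → ℚ := fun i => -φ (Pi.single i 1)
    have hφc : ∀ z : ι → ℚ, φ z = -∑ i, c i * z i := by
      intro z
      conv_lhs => rw [pi_eq_sum_univ' z]
      rw [map_sum, ← Finset.sum_neg_distrib]
      refine Finset.sum_congr rfl fun i _ => ?_
      have : (fun j => if i = j then (1 : ℚ) else 0) = Pi.single i 1 := by
        ext j
        by_cases h : i = j
        · subst h; simp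
        · simp [h, Pi.single_apply, Ne.symm h]
      rw [map_smul, smul_eq_mul]
      simp only [c]
      ring_nf
      try rw [this]
      try ring
    obtain ⟨b, -, hb, hspan, hmain⟩ := exists_greedy (F := F) l c Finset.univ
    have hbase : IsBase F l b := ⟨hb, by rw [hspan]; simp⟩
    obtain ⟨t, ht⟩ : ∃ t : ℚ, ∀ i ∈ (Finset.univ : Finset ι), t ≤ c i := by
      refine ⟨-∑ i, |c i|, fun i _ => ?_⟩
      have h1 : |c i| ≤ ∑ i, |c i| :=
        Finset.single_le_sum (f := fun i => |c i|) (fun i _ => abs_nonneg _) (Finset.mem_univ i)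
      have h2 := neg_abs_le (c i)
      linarith
    have h1 := hmain x (fun A _ => hA A) t ht
    have h2 := hφ b (by simp [s, hbase])
    have hcard : rk F l Finset.univ = b.card := rk_eq_card hb hspan
    rw [hcard] at hx
    rw [hφc] at h2 hφx
    have h3 : ∑ i, c i * a b i = ∑ i ∈ b, c i := by
      simp [a, Finset.sum_ite_mem]
    rw [h3] at h2
    have h4 : ∑ i, (c i - t) * x i = ∑ i, c i * x i - t * b.card := by
      rw [← hx, Finset.mul_sum, ← Finset.sum_sub_distrib]
      exact Finset.sum_congr rfl fun i _ => by ring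
    have h5 : ∑ i ∈ b, (c i - t) = ∑ i ∈ b, c i - t * b.card := by
      rw [Finset.sum_sub_distrib, Finset.sum_const, nsmul_eq_mul]
      ring
    rw [h4, h5] at h1
    linarith

end Pool.Agent.Helper92.HA
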