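import Mathlib
import Pool.Agent.Helper92.HA.Edmonds

/-!
# Exponents for log canonical hyperplane arrangements
-/

set_option autoImplicit false

open Module

namespace Pool.Agent.Helper92.HA

variable {F V ι : Type*} [Field F] [AddCommGroup V] [Module F V]

lemma rk_mono [Fintype ι] {l : ι → V} {A B : Finset ι} (h : A ⊆ B) : rk F l A ≤ rk F l B := by
  have : FiniteDimensional F (Submodule.span F (l '' (B : Set ι))) :=
    FiniteDimensional.span_of_finite F (Set.toFinite _)
  exact Submodule.finrank_mono (Submodule.span_mono (Set.image_mono (by exact_mod_cast h)))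

/-- Common denominators. -/
lemma exists_nat_multiple {κ : Type*} [Fintype κ] (y : κ → ℚ) (hy : ∀ b, 0 ≤ y b) :
    ∃ (M : ℕ) (x : κ → ℕ), 0 < M ∧ ∀ b, (x b : ℚ) = M * y b := by
  classical
  refine ⟨∏ b, (y b).den, fun b => ((y b).num.toNat) * ∏ b' ∈ Finset.univ.erase b, (y b').den,
    Finset.prod_pos fun b _ => (y b).den_pos, fun b => ?_⟩
  have h1 : ((y b).num.toNat : ℚ) = (y b).num := by
    have : 0 ≤ (y b).num := Rat.num_nonneg.2 (hy b)
    have h := Int.toNat_of_nonneg this
    exact_mod_cast congrArg (fun z : ℤ => (z : ℚ)) h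
  have h2 : (∏ b, (y b).den) = (y b).den * ∏ b' ∈ Finset.univ.erase b, (y b').den :=
    (Finset.mul_prod_erase _ _ (Finset.mem_univ b)).symm
  rw [h2]
  push_cast
  rw [h1]
  have h3 : ((y b).den : ℚ) * y b = (y b).num := by
    rw [mul_comm]
    exact Rat.mul_den_eq_num (y b)
  calc ((y b).num : ℚ) * ∏ b' ∈ Finset.univ.erase b, ((y b').den : ℚ)
      = ((y b).den * y b) * ∏ b' ∈ Finset.univ.erase b, ((y b').den : ℚ) := by rw [h3]
    _ = _ := by ring

/-- Exponents in the borderline case `∑ δ = rk`. -/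
theorem exists_exponents_zero [Fintype ι] [DecidableEq ι] (l : ι → V) (δ : ι → ℚ)
    (hM : ∀ A : Finset ι, rk F l A < rk F l Finset.univ → ∑ i ∈ A, δ i ≤ rk F l A)
    (hδ : ∀ i, 0 < δ i) (hD : ∑ i, δ i = rk F l Finset.univ) :
    ∃ (m : ℕ) (x : Finset ι → ℕ), 0 < m ∧ (∀ b, x b ≠ 0 → IsBase F l b) ∧
      ∀ i, (∑ b : Finset ι, if i ∈ b then (x b : ℚ) else 0) = m * δ i := by
  have hA : ∀ A : Finset ι, ∑ i ∈ A, δ i ≤ rk F l A := by
    intro A
    rcases (rk_mono (F := F) (l := l) (Finset.subset_univ A)).lt_or_eq with h | h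
    · exact hM A h
    · rw [h, ← hD]
      exact Finset.sum_le_univ_sum_of_nonneg fun i => (hδ i).le
  obtain ⟨y, hy0, hyb, hy⟩ := edmonds (F := F) l δ hA hD
  obtain ⟨M, x, hMpos, hx⟩ := exists_nat_multiple y hy0
  refine ⟨M, x, hMpos, fun b hb => hyb b ?_, fun i => ?_⟩
  · intro h
    apply hb
    have := hx b
    rw [h, mul_zero] at this
    exact_mod_cast this
  · rw [hy i, Finset.mul_sum]
    refine Finset.sum_congr rfl fun b _ => ?_
    rw [hx b]
    split_ifs <;> simp

/-- Exponents in the case `∑ δ > rk`. -/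
theorem exists_exponents_pos [Fintype ι] [DecidableEq ι] (l : ι → V) (δ : ι → ℚ)
    (hl : ∀ i, l i ≠ 0)
    (hM : ∀ A : Finset ι, rk F l A < rk F l Finset.univ → ∑ i ∈ A, δ i ≤ rk F l A)
    (hδ : ∀ i, 0 < δ i) (hD : (rk F l Finset.univ : ℚ) < ∑ i, δ i) (i₀ : ι) :
    ∃ (m r : ℕ) (x : ι → Finset ι → ℕ), 0 < m ∧ 0 < r ∧ (∀ j b, IsBase F l b → 0 < x j b) ∧
      (∀ j b, x j b ≠ 0 → IsBase F l b) ∧
      (∀ j i, (∑ b : Finset ι, if i ∈ b then (x j b : ℚ) else 0) ≤ m * δ i) ∧
      (∀ j, ∑ b, x j b = m) ∧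
      ∀ j i, (∑ b : Finset ι, if i ∈ b then (x j b : ℚ) else 0) + (if i = i₀ then (r : ℚ) else 0) =
        (∑ b : Finset ι, if i ∈ b then (x i₀ b : ℚ) else 0) + (if i = j then (r : ℚ) else 0) := by
  classical
  set n : ℕ := rk F l Finset.univ with hn
  set S : ℚ := ∑ i, δ i with hS
  -- rank of nonempty sets
  have hrk1 : ∀ A : Finset ι, A.Nonempty → 1 ≤ rk F l A := by
    intro A hA
    obtain ⟨i, hi⟩ := hA
    rw [Nat.one_le_iff_ne_zero]
    intro h0
    have : FiniteDimensional F (Submodule.span F (l '' (A : Set ι))) :=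
      FiniteDimensional.span_of_finite F (Set.toFinite _)
    rw [rk, Submodule.finrank_eq_zero] at h0
    have h1 : l i ∈ Submodule.span F (l '' (A : Set ι)) := Submodule.subset_span ⟨i, hi, rfl⟩
    rw [h0] at h1
    exact hl i ((Submodule.mem_bot F).1 h1)
  have hn1 : 1 ≤ n := hrk1 _ ⟨i₀, Finset.mem_univ _⟩
  have hn1' : (1 : ℚ) ≤ n := by exact_mod_cast hn1
  have hSpos : 0 < S := by linarith
  have hcard : ∀ b, IsBase F l b → b.card = n := by
    intro b hb
    rw [hn]
    refine (rk_eq_card hb.1 ?_).symm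
    rw [hb.2]; simp
  set Nb : ℕ := (Finset.univ.filter (fun b : Finset ι => IsBase F l b)).card with hNb
  let T : ι → ℚ := fun i => ∑ b : Finset ι, if i ∈ b then (if IsBase F l b then (1 : ℚ) else 0) else 0
  have hT0 : ∀ i, 0 ≤ T i := fun i => Finset.sum_nonneg fun b _ => by split_ifs <;> norm_num
  -- double counting
  have hdouble : ∀ y : Finset ι → ℚ, (∀ b, y b ≠ 0 → IsBase F l b) →
      ∑ i, (∑ b : Finset ι, if i ∈ b then y b else 0) = n * ∑ b, y b := by
    intro y hy
    rw [Finset.sum_comm, Finset.mul_sum]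
    refine Finset.sum_congr rfl fun b _ => ?_
    rw [Finset.sum_ite_mem, Finset.univ_inter, Finset.sum_const, nsmul_eq_mul]
    by_cases h : y b = 0
    · rw [h]; ring
    · rw [hcard b (hy b h)]
  have hTsum : ∑ i, T i = n * Nb := by
    have h1 := hdouble (fun b => if IsBase F l b then (1 : ℚ) else 0) (fun b hb => by
      by_contra h; simp [h] at hb)
    rw [show ∑ i, T i = _ from h1]
    congr 1
    rw [hNb, Finset.card_filter]
    push_cast
    rfl
  -- the gap
  set g : ℚ := 1 - n / S with hg
  have hgpos : 0 < g := by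
    rw [hg, sub_pos, div_lt_one hSpos]; exact hD
  have hg1 : g < 1 := by
    rw [hg]
    have : 0 < (n : ℚ) / S := div_pos (by linarith) hSpos
    linarith
  -- a small `τ`
  obtain ⟨τ, hτ0, hτ1, hτ2, hτ3⟩ : ∃ τ : ℚ, 0 < τ ∧ τ * (1 + Nb) ≤ g ∧
      (∀ i, τ * (1 + T i) ≤ (n / S) * δ i) ∧ ∀ i, τ ≤ g * δ i := by
    have h1 : ∀ i, 0 < (n / S) * δ i := fun i =>
      mul_pos (div_pos (by linarith) hSpos) (hδ i)
    have h2 : ∀ i, 0 < g * δ i := fun i => mul_pos hgpos (hδ i)
    have hne : (Finset.univ : Finset ι).Nonempty := ⟨i₀, Finset.mem_univ _⟩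
    let τ₁ := g / (1 + Nb)
    let τ₂ := Finset.univ.inf' hne (fun i => (n / S) * δ i / (1 + T i))
    let τ₃ := Finset.univ.inf' hne (fun i => g * δ i)
    have hNb0 : (0 : ℚ) < 1 + Nb := by positivity
    refine ⟨min τ₁ (min τ₂ τ₃), ?_, ?_, ?_, ?_⟩
    · refine lt_min (div_pos hgpos hNb0) (lt_min ?_ ?_)
      · rw [Finset.lt_inf'_iff]
        intro i _
        exact div_pos (h1 i) (by have := hT0 i; linarith)
      · rw [Finset.lt_inf'_iff]
        intro i _
        exact h2 i
    · calc min τ₁ (min τ₂ τ₃) * (1 + Nb) ≤ τ₁ * (1 + Nb) :=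
            mul_le_mul_of_nonneg_right (min_le_left _ _) hNb0.le
        _ = g := by simp only [τ₁]; field_simp
    · intro i
      have hTi : 0 < 1 + T i := by have := hT0 i; linarith
      calc min τ₁ (min τ₂ τ₃) * (1 + T i) ≤ ((n / S) * δ i / (1 + T i)) * (1 + T i) :=
            mul_le_mul_of_nonneg_right (((min_le_right _ _).trans (min_le_left _ _)).trans
              (Finset.inf'_le _ (Finset.mem_univ i))) hTi.le
        _ = (n / S) * δ i := by field_simp
    · intro i
      exact ((min_le_right _ _).trans (min_le_right _ _)).trans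
        (Finset.inf'_le _ (Finset.mem_univ i))
  have hw : 0 < 1 - τ * Nb := by nlinarith
  -- the solutions
  have hsol : ∀ j : ι, ∃ Y : Finset ι → ℚ, (∀ b, 0 ≤ Y b) ∧ (∀ b, IsBase F l b → 0 < Y b) ∧
      (∀ b, Y b ≠ 0 → IsBase F l b) ∧
      ∀ i, (∑ b : Finset ι, if i ∈ b then Y b else 0) =
        (n / S) * δ i + τ * ((if i = j then 1 else 0) - (if i = i₀ then 1 else 0)) := by
    intro j
    let p : ι → ℚ := fun i =>
      (n / S) * δ i + τ * ((if i = j then 1 else 0) - (if i = i₀ then 1 else 0)) - τ * T i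
    have hp0 : ∀ i, 0 ≤ p i := by
      intro i
      have h1 := hτ2 i
      simp only [p]
      have h3 : (0 : ℚ) ≤ if i = j then 1 else 0 := by split_ifs <;> norm_num
      have h4 : (if i = i₀ then (1 : ℚ) else 0) ≤ 1 := by split_ifs <;> norm_num
      nlinarith
    have hpsum : ∑ i, p i = (1 - τ * Nb) * n := by
      simp only [p]
      rw [Finset.sum_sub_distrib, Finset.sum_add_distrib, ← Finset.mul_sum, ← Finset.mul_sum,
        ← Finset.mul_sum, hTsum, Finset.sum_sub_distrib, Finset.sum_ite_eq', Finset.sum_ite_eq',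
        if_pos (Finset.mem_univ _), if_pos (Finset.mem_univ _), ← hS]
      field_simp
      ring
    have hpA : ∀ A : Finset ι, ∑ i ∈ A, p i ≤ (1 - τ * Nb) * rk F l A := by
      intro A
      rcases (rk_mono (F := F) (l := l) (Finset.subset_univ A)).lt_or_eq with h | h
      · rcases A.eq_empty_or_nonempty with rfl | hA
        · simp only [Finset.sum_empty]
          exact mul_nonneg hw.le (Nat.cast_nonneg _)
        · have h1 := hM A h
          have h2 := hrk1 A hA
          have h2' : (1 : ℚ) ≤ rk F l A := by exact_mod_cast h2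
          have h3 : ∑ i ∈ A, p i ≤ (n / S) * ∑ i ∈ A, δ i + τ := by
            have h31 : ∑ i ∈ A, p i ≤
                ∑ i ∈ A, ((n / S) * δ i + τ * (if i = j then 1 else 0)) := by
              refine Finset.sum_le_sum fun i _ => ?_
              simp only [p]
              have h5 : (0 : ℚ) ≤ if i = i₀ then 1 else 0 := by split_ifs <;> norm_num
              have h6 := hT0 i
              nlinarith [mul_nonneg hτ0.le h5, mul_nonneg hτ0.le h6]
            refine h31.trans ?_
            rw [Finset.sum_add_distrib, ← Finset.mul_sum, ← Finset.mul_sum,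
              Finset.sum_ite_eq']
            have : (if j ∈ A then (1 : ℚ) else 0) ≤ 1 := by split_ifs <;> norm_num
            nlinarith
          have h4 : (n / S) * ∑ i ∈ A, δ i ≤ (n / S) * rk F l A :=
            mul_le_mul_of_nonneg_left h1 (div_nonneg (by linarith) hSpos.le)
          have h5 : (n / S) * (rk F l A : ℚ) = rk F l A - g * rk F l A := by rw [hg]; ring
          have h6 : τ * (1 + Nb) * rk F l A ≤ g * rk F l A :=
            mul_le_mul_of_nonneg_right hτ1 (Nat.cast_nonneg _)
          have h7 : τ ≤ τ * rk F l A := le_mul_of_one_le_right hτ0.le h2'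
          nlinarith
      · rw [h, ← hpsum]
        exact Finset.sum_le_univ_sum_of_nonneg hp0
    obtain ⟨y, hy0, hyb, hy⟩ := edmonds (F := F) l (fun i => p i / (1 - τ * Nb))
      (fun A => by
        rw [← Finset.sum_div, div_le_iff₀ hw, mul_comm]
        exact hpA A)
      (by
        rw [← Finset.sum_div, hpsum, mul_div_assoc, mul_comm, div_mul_cancel₀ _ hw.ne'])
    refine ⟨fun b => (1 - τ * Nb) * y b + τ * (if IsBase F l b then 1 else 0), ?_, ?_, ?_, ?_⟩
    · intro b
      have h1 : (0 : ℚ) ≤ if IsBase F l b then 1 else 0 := by split_ifs <;> norm_num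
      exact add_nonneg (mul_nonneg hw.le (hy0 b)) (mul_nonneg hτ0.le h1)
    · intro b hb
      have h1 := mul_nonneg hw.le (hy0 b)
      simp only [hb, if_true]
      linarith
    · intro b hb
      by_contra h
      apply hb
      have : y b = 0 := by
        by_contra h'
        exact h (hyb b h')
      simp [h, this]
    · intro i
      have h1 : (∑ b : Finset ι, if i ∈ b then
          ((1 - τ * Nb) * y b + τ * (if IsBase F l b then 1 else 0)) else 0) =
          (1 - τ * Nb) * (∑ b : Finset ι, if i ∈ b then y b else 0) + τ * T i := by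
        simp only [T]
        rw [Finset.mul_sum, Finset.mul_sum, ← Finset.sum_add_distrib]
        refine Finset.sum_congr rfl fun b _ => ?_
        by_cases h : i ∈ b <;> simp [h]
      rw [h1, ← hy i, mul_div_cancel₀ _ hw.ne']
      simp only [p]
      ring
  choose Y hY0 hYpos hYb hY using hsol
  let z : Option (ι × Finset ι) → ℚ := fun o => o.elim τ fun q => Y q.1 q.2
  obtain ⟨M, w, hMpos, hw'⟩ := exists_nat_multiple z (fun o => by
    rcases o with _ | ⟨j, b⟩
    · exact hτ0.le
    · exact hY0 j b)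
  have hMpos' : (0 : ℚ) < M := by exact_mod_cast hMpos
  have hwY : ∀ j b, (w (some (j, b)) : ℚ) = M * Y j b := fun j b => hw' (some (j, b))
  have hwτ : (w none : ℚ) = M * τ := hw' none
  have husage : ∀ j i, (∑ b : Finset ι, if i ∈ b then (w (some (j, b)) : ℚ) else 0) =
      M * ((n / S) * δ i + τ * ((if i = j then 1 else 0) - (if i = i₀ then 1 else 0))) := by
    intro j i
    rw [← hY j i, Finset.mul_sum]
    refine Finset.sum_congr rfl fun b _ => ?_
    rw [hwY]
    split_ifs <;> simp
  refine ⟨M, w none, fun j b => w (some (j, b)), hMpos, ?_, ?_, ?_, ?_, ?_, ?_⟩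
  · have : (0 : ℚ) < w none := by rw [hwτ]; exact mul_pos hMpos' hτ0
    exact_mod_cast this
  · intro j b hb
    have : (0 : ℚ) < w (some (j, b)) := by
      rw [hwY]; exact mul_pos hMpos' (hYpos j b hb)
    exact_mod_cast this
  · intro j b hb
    apply hYb j b
    intro h
    apply hb
    have := hwY j b
    rw [h, mul_zero] at this
    exact_mod_cast this
  · intro j i
    rw [husage]
    refine mul_le_mul_of_nonneg_left ?_ hMpos'.le
    have h1 := hτ3 i
    have h2 : (n / S) * δ i = δ i - g * δ i := by rw [hg]; ring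
    have h3 : (if i = j then (1 : ℚ) else 0) - (if i = i₀ then 1 else 0) ≤ 1 := by
      split_ifs <;> norm_num
    have h4 := mul_le_mul_of_nonneg_left h3 hτ0.le
    linarith
  · intro j
    have h1 := hdouble (fun b => Y j b) (fun b => hYb j b)
    have h2 : ∑ i, (∑ b : Finset ι, if i ∈ b then Y j b else 0) = n := by
      simp_rw [hY j]
      rw [Finset.sum_add_distrib, ← Finset.mul_sum, ← Finset.mul_sum, Finset.sum_sub_distrib,
        Finset.sum_ite_eq', Finset.sum_ite_eq', if_pos (Finset.mem_univ _),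
        if_pos (Finset.mem_univ _), ← hS]
      field_simp
      ring
    rw [h2] at h1
    have h3 : ∑ b, Y j b = 1 := by
      have hn0 : (n : ℚ) ≠ 0 := by linarith
      have : (n : ℚ) * ∑ b, Y j b = n * 1 := by rw [mul_one]; exact h1.symm
      exact mul_left_cancel₀ hn0 this
    have h4 : ((∑ b, w (some (j, b)) : ℕ) : ℚ) = M := by
      push_cast
      simp_rw [hwY]
      rw [← Finset.mul_sum, h3, mul_one]
    exact_mod_cast h4
  · intro j i
    rw [husage, husage, hwτ]
    split_ifs <;> ring

/-- Exchange in a base. -/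
lemma exchange [DecidableEq ι] {l : ι → V} {b : Finset ι} (hb : IsBase F l b) (i : ι) :
    ∃ c : ι → F, ∑ j ∈ b, c j • l j = l i ∧
      ∀ j ∈ b, c j ≠ 0 → i ∉ b → IsBase F l (insert i (b.erase j)) := by
  have hi : l i ∈ Submodule.span F (l '' (b : Set ι)) := by
    rw [hb.2]; exact Submodule.subset_span ⟨i, rfl⟩
  obtain ⟨c, hc⟩ := (Submodule.mem_span_image_finset_iff_exists_fun' (R := F)).1 hi
  refine ⟨c, hc, fun j hj hcj hib => ?_⟩
  have hindep : LinearIndepOn F l ((b.erase j : Finset ι) : Set ι) :=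
    hb.1.mono (by exact_mod_cast Finset.erase_subset j b)
  have hbj : (b : Set ι) = insert j ((b.erase j : Finset ι) : Set ι) := by
    rw [← Finset.coe_insert, Finset.insert_erase hj]
  have hjspan : l j ∉ Submodule.span F (l '' ((b.erase j : Finset ι) : Set ι)) := by
    have h1 := hb.1
    rw [hbj, linearIndepOn_insert (by simp)] at h1
    exact h1.2
  have hsum : c j • l j + ∑ j' ∈ b.erase j, c j' • l j' = l i := by
    rw [← hc, ← Finset.add_sum_erase _ _ hj]
  have hmem : ∑ j' ∈ b.erase j, c j' • l j' ∈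
      Submodule.span F (l '' ((b.erase j : Finset ι) : Set ι)) :=
    Submodule.sum_mem _ fun j' hj' =>
      Submodule.smul_mem _ _ (Submodule.subset_span ⟨j', hj', rfl⟩)
  have hispan : l i ∉ Submodule.span F (l '' ((b.erase j : Finset ι) : Set ι)) := by
    intro h
    apply hjspan
    have h1 : c j • l j ∈ Submodule.span F (l '' ((b.erase j : Finset ι) : Set ι)) := by
      have : c j • l j = l i - ∑ j' ∈ b.erase j, c j' • l j' := by rw [← hsum]; abel
      rw [this]
      exact Submodule.sub_mem _ h hmem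
    have h2 := Submodule.smul_mem _ (c j)⁻¹ h1
    rwa [smul_smul, inv_mul_cancel₀ hcj, one_smul] at h2
  have hiX : i ∉ ((b.erase j : Finset ι) : Set ι) := by
    intro h
    exact hispan (Submodule.subset_span ⟨i, h, rfl⟩)
  refine ⟨?_, ?_⟩
  · rw [Finset.coe_insert, linearIndepOn_insert hiX]
    exact ⟨hindep, hispan⟩
  · apply le_antisymm
    · apply Submodule.span_mono
      exact Set.image_subset_range _ _
    · rw [← hb.2, Submodule.span_le]
      rintro _ ⟨j', hj', rfl⟩
      by_cases hjj : j' = j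
      · subst hjj
        have h1 : l i ∈ Submodule.span F (l '' ((insert i (b.erase j') : Finset ι) : Set ι)) :=
          Submodule.subset_span ⟨i, by simp, rfl⟩
        have h2 : ∑ j'' ∈ b.erase j', c j'' • l j'' ∈
            Submodule.span F (l '' ((insert i (b.erase j') : Finset ι) : Set ι)) := by
          refine Submodule.span_mono (Set.image_mono ?_) hmem
          exact_mod_cast Finset.subset_insert _ _
        have h3 : c j' • l j' ∈
            Submodule.span F (l '' ((insert i (b.erase j') : Finset ι) : Set ι)) := by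
          have : c j' • l j' = l i - ∑ j'' ∈ b.erase j', c j'' • l j'' := by rw [← hsum]; abel
          rw [this]
          exact Submodule.sub_mem _ h1 h2
        have h4 := Submodule.smul_mem _ (c j')⁻¹ h3
        rwa [smul_smul, inv_mul_cancel₀ hcj, one_smul] at h4
      · exact Submodule.subset_span ⟨j', by
          have : j' ∈ b := by exact_mod_cast hj'
          simp [hjj, this], rfl⟩

lemma rk_filter [Fintype ι] [DecidableEq ι] {l : ι → V} {b : Finset ι} (hb : IsBase F l b)
    (A : Finset ι)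
    (hex : ∀ i j, j ∈ b → i ∉ b → IsBase F l (insert i (b.erase j)) → (i ∈ A ↔ j ∈ A)) :
    rk F l A = (b.filter (· ∈ A)).card := by
  classical
  have hsub : ((b.filter (· ∈ A) : Finset ι) : Set ι) ⊆ (b : Set ι) := by
    exact_mod_cast Finset.filter_subset _ _
  refine rk_eq_card (hb.1.mono hsub) (le_antisymm ?_ ?_)
  · apply Submodule.span_mono
    apply Set.image_mono
    intro i hi
    simp only [Finset.coe_filter, Set.mem_ofPred_eq] at hi
    exact_mod_cast hi.2
  · rw [Submodule.span_le]
    rintro _ ⟨i, hi, rfl⟩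
    have hiA : i ∈ A := by exact_mod_cast hi
    by_cases hib : i ∈ b
    · exact Submodule.subset_span ⟨i, by simp [hib, hiA], rfl⟩
    · obtain ⟨c, hc, hc'⟩ := exchange hb i
      rw [← hc]
      refine Submodule.sum_mem _ fun j hj => ?_
      by_cases hcj : c j = 0
      · rw [hcj, zero_smul]; exact Submodule.zero_mem _
      · have := (hex i j hj hib (hc' j hj hcj hib)).1 hiA
        exact Submodule.smul_mem _ _ (Submodule.subset_span ⟨j, by simp [hj, this], rfl⟩)

/-- The arrangement is connected if `∑ δ > rk`. -/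
theorem connected [Fintype ι] [DecidableEq ι] (l : ι → V) (δ : ι → ℚ)
    (hl : ∀ i, l i ≠ 0)
    (hM : ∀ A : Finset ι, rk F l A < rk F l Finset.univ → ∑ i ∈ A, δ i ≤ rk F l A)
    (hD : (rk F l Finset.univ : ℚ) < ∑ i, δ i) (A : Finset ι) (hA : A.Nonempty)
    (hex : ∀ b i j, IsBase F l b → j ∈ b → i ∉ b → IsBase F l (insert i (b.erase j)) →
      (i ∈ A ↔ j ∈ A)) : A = Finset.univ := by
  classical
  obtain ⟨b, -, hb, hspan, -⟩ := exists_greedy (F := F) l (fun _ => 0) Finset.univ
  have hbase : IsBase F l b := ⟨hb, by rw [hspan]; simp⟩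
  have hn : rk F l Finset.univ = b.card := rk_eq_card hb hspan
  have h1 := rk_filter hbase A (fun i j hj hi h => hex b i j hbase hj hi h)
  have h2 := rk_filter hbase Aᶜ (fun i j hj hi h => by
    rw [Finset.mem_compl, Finset.mem_compl, hex b i j hbase hj hi h])
  have hrk1 : ∀ A : Finset ι, A.Nonempty → 1 ≤ rk F l A := by
    rintro A ⟨i, hi⟩
    rw [Nat.one_le_iff_ne_zero]
    intro h0
    have : FiniteDimensional F (Submodule.span F (l '' (A : Set ι))) :=
      FiniteDimensional.span_of_finite F (Set.toFinite _)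
    rw [rk, Submodule.finrank_eq_zero] at h0
    have h1 : l i ∈ Submodule.span F (l '' (A : Set ι)) := Submodule.subset_span ⟨i, hi, rfl⟩
    rw [h0] at h1
    exact hl i ((Submodule.mem_bot F).1 h1)
  by_contra hne
  have hAc : (Aᶜ : Finset ι).Nonempty := by
    rw [Finset.nonempty_iff_ne_empty]
    intro h
    exact hne (by simpa using h)
  have h3 := hrk1 A hA
  have h4 := hrk1 _ hAc
  have h5 : (b.filter (· ∈ A)).card + (b.filter (· ∈ Aᶜ)).card = b.card := by
    have := Finset.card_filter_add_card_filter_not (s := b) (· ∈ A)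
    simpa [Finset.mem_compl] using this
  have h6 := hM A (by omega)
  have h7 := hM Aᶜ (by omega)
  have h8 : ∑ i ∈ A, δ i + ∑ i ∈ Aᶜ, δ i = ∑ i, δ i := Finset.sum_add_sum_compl A δ
  have h9 : (rk F l A : ℚ) + rk F l Aᶜ = rk F l Finset.univ := by
    rw [h1, h2, hn]; exact_mod_cast h5
  linarith

end Pool.Agent.Helper92.HA
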