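import Pool.Agent.Helper63.PB.Under
import Pool.Agent.Helper63.PB.Approx
import Pool.Agent.Helper47.PQ.R1
import Pool.Agent.Helper60.PB.Cover

set_option autoImplicit false

/-!
# HA-17 CommonA: a common extension of two valuations

As PB-09 Common, but `L'` is any finite extension of `L` which contains `K'`, and `K` is algebraically
closed in `L` (`hK`): `P` over `Q`, `Q'` over `Q`: there is `v` on `L'` over `P` and over `Q'`.

PROOF. Suppose not. By `exists_pole` (for `K' / K`) there is `x ∈ K'` with `Q' x < 0` and `w x ≥ 0` for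
all other `w` over `Q`. Let `v` be over `P` (on `L'`). `v` restricted to `K'` is a positive multiple of a discrete
valuation `w` over `Q` (`v` is nontrivial on `K'` since it is nontrivial on `K`; `exists_base` in
Helper60/PB/Cover), `w ≠ Q'` by assumption, so `v x ≥ 0`. Hence `x` is integral over `P.ring`
(`Helper47.PQ.isIntegral_of_ge` for `L' / L`), the coefficients of `minpoly L x` are in `P.ring`
(`Helper47.PQ.minpoly_coeff_ge` with `q = 0`). They are polynomials in conjugates of `x` over `K`,
hence algebraic over `K`: `minpoly L x` divides `(minpoly K x).map`; a monic factor of a polynomial over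
`K` has coefficients algebraic over `K` (the roots in an algebraic closure of `L` are algebraic over `K`; or:
`IsIntegral`/`Polynomial` lemma: `Polynomial.isAlgebraic_coeff...`, `minpoly` over
`algebraicClosure K L`). By `hK` they are in `K`; with `P c ≥ 0` also `Q c ≥ 0`. So `x` is a root of a monic
polynomial over `Q.ring`, integral over `Q.ring`, so `Q' x ≥ 0`, a contradiction.
The relation `ε e = ε' e'`: evaluate `v` on an element of `K` with `Q`-value `1`.
-/

namespace Pool.Agent.Helper92.HA

open Module Pool.Agent.Helper92.Weak Pool.Agent.Helper63.PB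


theorem exists_commonA {k K L K' L' : Type*} [Field k] [Field K] [Field L] [Field K'] [Field L']
    [Algebra k K] [Algebra k L] [Algebra k K'] [Algebra k L'] [Algebra K L] [Algebra K K']
    [Algebra K L'] [Algebra L L'] [Algebra K' L'] [IsScalarTower k K L] [IsScalarTower k K K']
    [IsScalarTower k K L'] [IsScalarTower k L L'] [IsScalarTower k K' L'] [IsScalarTower K L L']
    [IsScalarTower K K' L'] [FiniteDimensional K K'] [FiniteDimensional L L'] [CharZero k]
    (hK : ∀ x : L, IsAlgebraic K x → x ∈ Set.range (algebraMap K L)) {P : DVal k L}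
    {Q : DVal k K} {e : ℕ} (hP : LiesOver P Q e) {Q' : DVal k K'} {e' : ℕ}
    (hQ' : LiesOver Q' Q e') :
    ∃ (v : DVal k L') (ε ε' : ℕ), LiesOver v P ε ∧ LiesOver v Q' ε' ∧ ε * e = ε' * e' := by
  classical
  by_contra hcon
  obtain ⟨x, hx1, hx2⟩ := exists_pole hQ'
  have hxP : ∀ (v : DVal k L') (ε : ℕ), LiesOver v P ε → 0 ≤ v (algebraMap K' L' x) := by
    intro v ε hv
    have hvK : LiesOver v Q (ε * e) := under_trans hv hP
    have hnt : ∃ a : K', v (algebraMap K' L' a) ≠ 0 := by
      obtain ⟨p, -, hp⟩ := Q.exists_uniformizer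
      refine ⟨algebraMap K K' p, ?_⟩
      rw [← IsScalarTower.algebraMap_apply K K' L', hvK.2, hp, mul_one]
      exact_mod_cast hvK.1.ne'
    obtain ⟨w, ε', hw⟩ := Pool.Agent.Helper60.PB.exists_base (L := K') v hnt
    obtain ⟨e'', hwQ, he''⟩ := under_factor hw hvK
    have hne : w ≠ Q' := by
      rintro rfl
      apply hcon
      refine ⟨v, ε, ε', hv, hw, ?_⟩
      rw [he'']
      obtain ⟨p, -, hp⟩ := Q.exists_uniformizer
      have h1 := hwQ.2 p
      have h2 := hQ'.2 p
      rw [h1, hp, mul_one, mul_one] at h2
      have h3 : e'' = e' := by exact_mod_cast h2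
      rw [h3]
    have h4 := hx2 w e'' hwQ hne
    rw [hw.2]
    exact mul_nonneg (by positivity) h4
  have hcoef : ∀ i, 0 ≤ P ((minpoly L (algebraMap K' L' x)).coeff i) := by
    intro i
    by_cases hi : i ≤ (minpoly L (algebraMap K' L' x)).natDegree
    · have h1 := Pool.Agent.Helper47.PQ.minpoly_coeff_ge P (x := algebraMap K' L' x) (q := 0)
        (fun v ε hv => by
          right
          have := hxP v ε hv
          push_cast
          rw [mul_zero]
          exact_mod_cast this) ((minpoly L (algebraMap K' L' x)).natDegree - i) (by omega)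
      have h2 : (minpoly L (algebraMap K' L' x)).natDegree -
          ((minpoly L (algebraMap K' L' x)).natDegree - i) = i := by omega
      rw [h2] at h1
      rcases h1 with h1 | h1
      · rw [h1, P.map_zero]
      · push_cast at h1
        rw [mul_zero] at h1
        exact_mod_cast h1
    · rw [Polynomial.coeff_eq_zero_of_natDegree_lt (by omega), P.map_zero]
  have hxK : IsIntegral K x := Algebra.IsIntegral.isIntegral x
  have hxL : IsIntegral L (algebraMap K' L' x) := Algebra.IsIntegral.isIntegral _
  have hdvd : minpoly L (algebraMap K' L' x) ∣ (minpoly K x).map (algebraMap K L) := by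
    apply minpoly.dvd
    rw [Polynomial.aeval_map_algebraMap, Polynomial.aeval_algebraMap_apply, minpoly.aeval, map_zero]
  have hlift := integralClosure.mem_lifts_of_monic_of_dvd_map L (minpoly.monic hxK)
    (minpoly.monic hxL) hdvd
  rw [Polynomial.lifts_iff_coeff_lifts] at hlift
  have hlift2 : minpoly L (algebraMap K' L' x) ∈ Polynomial.lifts (algebraMap K L) := by
    rw [Polynomial.lifts_iff_coeff_lifts]
    intro i
    obtain ⟨y, hy⟩ := hlift i
    apply hK
    rw [← hy]
    exact (show IsIntegral K (algebraMap (integralClosure K L) L y) from y.2).isAlgebraic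
  obtain ⟨h, hmap, -, hmon⟩ := Polynomial.lifts_and_natDegree_eq_and_monic hlift2
    (minpoly.monic hxL)
  have hroot : Polynomial.aeval x h = 0 := by
    have h1 : Polynomial.aeval (algebraMap K' L' x) h = 0 := by
      rw [← Polynomial.aeval_map_algebraMap L, hmap, minpoly.aeval]
    rw [Polynomial.aeval_algebraMap_apply] at h1
    exact (map_eq_zero_iff _ (algebraMap K' L').injective).1 h1
  have hQcoef : ∀ i, 0 ≤ Q' (algebraMap K K' (h.coeff i)) := by
    intro i
    have h1 := hcoef i
    rw [← hmap, Polynomial.coeff_map, hP.2] at h1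
    have he : (0 : ℤ) < e := by exact_mod_cast hP.1
    have h2 : 0 ≤ Q (h.coeff i) := by
      by_contra hlt
      have := mul_neg_of_pos_of_neg he (not_le.1 hlt)
      omega
    rw [hQ'.2]
    exact mul_nonneg (by positivity) h2
  have hint : IsIntegral Q'.ring x := by
    have hl : h.map (algebraMap K K') ∈ Polynomial.lifts (algebraMap Q'.ring K') := by
      rw [Polynomial.lifts_iff_coeff_lifts]
      intro i
      rw [Polynomial.coeff_map]
      exact ⟨⟨_, hQcoef i⟩, rfl⟩
    obtain ⟨q, hq, -, hqm⟩ := Polynomial.lifts_and_natDegree_eq_and_monic hl (hmon.map _)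
    refine ⟨q, hqm, ?_⟩
    rw [← Polynomial.eval_map, hq, Polynomial.eval_map]
    exact hroot
  have := Pool.Agent.Helper47.PQ.mem_ring_of_isIntegral Q' hint
  omega

end Pool.Agent.Helper92.HA
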