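import Pool.Agent.Helper92.HA.Defs
import Pool.Agent.Helper92.HA.TraceMono
import Pool.Agent.Helper92.HA.KumUFD

set_option autoImplicit false

/-!
# HA-22 ConstA: the constants of the partial derivatives

`x ∈ L'` with `D i x = 0` for all `i` is in `K'`. `x = ∑_(χ, χ o = 0) c_χ mono χ`, `c_χ ∈ M` (`mono_span`); `D i` maps
`M mono χ` into itself (`D i (mono χ) / mono χ ∈ M`, as in KumMod), so by `mono_indep` `D i (c_χ mono χ) = 0` for all
`χ` and `i`. If `c_χ ≠ 0`: `(c_χ mono χ)^N ∈ M` has zero partial derivatives, so with `c_χ = a(t)/b(t)`: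
`A = a^N ∏ l_i^χ_i` and `B = b^N` satisfy `B ∂_j A = A ∂_j B`, `eq_const_mul`, and `ufd_exponents` (with `χ' = 0`) gives
`χ = 0`. So `x = c_0 = a(t)/b(t) ∈ M` with zero derivatives, and `eq_const_mul` again: `x ∈ K'`.
-/

namespace Pool.Agent.Helper92.HA

open Module Pool.Agent.Helper92.Weak Pool.Agent.Helper63.PB

section Aux

variable {K' M L' : Type*} [Field K'] [Field M] [Field L'] [Algebra K' M] [Algebra K' L']
  [Algebra M L'] [IsScalarTower K' M L'] {d : ℕ} {t : Fin d → M} {ι : Type*} [Fintype ι]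
  [DecidableEq ι]

private lemma ca_deriv (D : Derivation K' L' L') (s : Fin d → L') (i : Fin d)
    (hD : ∀ j, D (s j) = if i = j then 1 else 0) (g : MvPolynomial (Fin d) K') :
    D (MvPolynomial.aeval s g) = MvPolynomial.aeval s (MvPolynomial.pderiv i g) := by
  induction g using MvPolynomial.induction_on with
  | C a => rw [MvPolynomial.aeval_C, MvPolynomial.pderiv_C, map_zero, Derivation.map_algebraMap]
  | add p q hp hq => rw [map_add, map_add, map_add, map_add, hp, hq]
  | mul_X p j hp =>
    rw [map_mul, MvPolynomial.aeval_X, Derivation.leibniz, hp, hD, MvPolynomial.pderiv_mul,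
      MvPolynomial.pderiv_X, map_add, map_mul, map_mul, MvPolynomial.aeval_X, smul_eq_mul,
      smul_eq_mul]
    by_cases hij : i = j
    · subst hij
      rw [if_pos rfl, Pi.single_eq_same, map_one]
      ring
    · rw [if_neg hij, Pi.single_eq_of_ne (Ne.symm hij), map_zero]
      ring

private lemma ca_aeval (t : Fin d → M) (g : MvPolynomial (Fin d) K') :
    MvPolynomial.aeval (tL L' t) g = algebraMap M L' (MvPolynomial.aeval t g) :=
  MvPolynomial.aeval_algebraMap_apply L' t g

private lemma ca_zero (ht : IsTorus K' t) {g : MvPolynomial (Fin d) K'}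
    (hg : MvPolynomial.aeval (tL L' t) g = 0) : g = 0 := by
  rw [ca_aeval, map_eq_zero_iff _ (algebraMap M L').injective] at hg
  exact (injective_iff_map_eq_zero _).1 ht.indep g hg

private lemma ca_frac (L' : Type*) [Field L'] [Algebra K' L'] [Algebra M L']
    [IsScalarTower K' M L'] (ht : IsTorus K' t) (m : M) :
    ∃ a b : MvPolynomial (Fin d) K', b ≠ 0 ∧
      algebraMap M L' m * MvPolynomial.aeval (tL L' t) b = MvPolynomial.aeval (tL L' t) a := by
  have h1 : m ∈ IntermediateField.adjoin K' (Set.range t) := by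
    rw [ht.gen]
    exact IntermediateField.mem_top
  rw [IntermediateField.mem_adjoin_range_iff] at h1
  obtain ⟨a, b, hab⟩ := h1
  by_cases hb : MvPolynomial.aeval t b = 0
  · rw [hb, div_zero] at hab
    refine ⟨0, 1, one_ne_zero, ?_⟩
    rw [hab, map_zero, zero_mul, map_zero]
  · refine ⟨a, b, fun h => hb (by rw [h, map_zero]), ?_⟩
    rw [ca_aeval, ca_aeval, ← map_mul, hab, div_mul_cancel₀ _ hb]

private lemma ca_DM (ht : IsTorus K' t) {D : Derivation K' L' L'} {i : Fin d}
    (hD : ∀ j, D (tL L' t j) = if i = j then 1 else 0) (m : M) :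
    ∃ m' : M, D (algebraMap M L' m) = algebraMap M L' m' := by
  obtain ⟨a, b, hb, hab⟩ := ca_frac L' ht m
  have hb' : MvPolynomial.aeval (tL L' t) b ≠ 0 := fun h => hb (ca_zero ht h)
  have h1 := congrArg D hab
  rw [Derivation.leibniz, ca_deriv D _ i hD, ca_deriv D _ i hD, smul_eq_mul, smul_eq_mul] at h1
  refine ⟨(MvPolynomial.aeval t (MvPolynomial.pderiv i a) -
    m * MvPolynomial.aeval t (MvPolynomial.pderiv i b)) / MvPolynomial.aeval t b, ?_⟩
  rw [map_div₀, map_sub, map_mul, ← ca_aeval, ← ca_aeval, ← ca_aeval, eq_div_iff hb']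
  linear_combination h1

/-- the logarithmic derivative is in `M` -/
private def LS (M : Type*) {L' K' : Type*} [Field K'] [Field M] [Field L'] [Algebra K' L']
    [Algebra M L'] (D : Derivation K' L' L') (y : L') : Prop :=
  ∃ e : M, D y = algebraMap M L' e * y

omit [Algebra K' M] [IsScalarTower K' M L'] in
private lemma ls_one (D : Derivation K' L' L') : LS M D 1 :=
  ⟨0, by rw [Derivation.map_one_eq_zero, map_zero, zero_mul]⟩

omit [Algebra K' M] [IsScalarTower K' M L'] in
private lemma ls_mul (D : Derivation K' L' L') {y z : L'} (hy : LS M D y) (hz : LS M D z) :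
    LS M D (y * z) := by
  obtain ⟨e, he⟩ := hy
  obtain ⟨f, hf⟩ := hz
  refine ⟨e + f, ?_⟩
  rw [Derivation.leibniz, he, hf, map_add, smul_eq_mul, smul_eq_mul]
  ring

omit [Algebra K' M] [IsScalarTower K' M L'] in
private lemma ls_pow (D : Derivation K' L' L') {y : L'} (hy : LS M D y) (n : ℕ) :
    LS M D (y ^ n) := by
  induction n with
  | zero => rw [pow_zero]; exact ls_one D
  | succ n ih => rw [pow_succ]; exact ls_mul D ih hy

private lemma ca_aff (t : Fin d → M) (x : Fin (d + 1) → K') :
    MvPolynomial.aeval t (affP x) = affine t x := by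
  unfold affP affine
  rw [map_add, MvPolynomial.aeval_C, map_sum]
  congr 1
  refine Finset.sum_congr rfl fun j _ => ?_
  rw [map_mul, MvPolynomial.aeval_C, MvPolynomial.aeval_X]

private lemma ca_aff_ne {x : Fin (d + 1) → K'} (hx : x ≠ 0) : affP x ≠ 0 := by
  intro h
  by_cases hj : ∃ j : Fin d, x j.succ ≠ 0
  · exact (irreducible_affP hj).ne_zero h
  · push Not at hj
    apply hx
    unfold affP at h
    have h2 : ∑ j : Fin d, MvPolynomial.C (x j.succ) * MvPolynomial.X j =
        (0 : MvPolynomial (Fin d) K') := by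
      refine Finset.sum_eq_zero fun j _ => ?_
      rw [hj j, map_zero, zero_mul]
    rw [h2, add_zero] at h
    have h3 : x 0 = 0 := by
      rw [← MvPolynomial.C_0] at h
      exact MvPolynomial.C_injective _ _ h
    funext j
    refine Fin.cases h3 (fun i => ?_) j
    exact hj i

private lemma ls_r [CharZero K'] (A : Arr K' L' t ι) {D : Derivation K' L' L'} {i : Fin d}
    (hD : ∀ j, D (tL L' t j) = if i = j then 1 else 0) (l : ι) : LS M D (A.r l) := by
  have h1 := congrArg D (A.r_pow l)
  obtain ⟨m', hm'⟩ := ca_DM A.torus hD (affine t (A.co l))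
  have : CharZero L' := charZero_of_injective_algebraMap (algebraMap K' L').injective
  have : CharZero M := charZero_of_injective_algebraMap (algebraMap K' M).injective
  have hN : (A.N : L') ≠ 0 := by exact_mod_cast A.N_pos.ne'
  have haff : affine t (A.co l) ≠ 0 := by
    rw [← ca_aff]
    intro h
    exact ca_aff_ne (A.co_ne l) ((injective_iff_map_eq_zero _).1 A.torus.indep _ h)
  have haff' : algebraMap M L' (affine t (A.co l)) ≠ 0 := by
    intro h
    exact haff ((map_eq_zero_iff _ (algebraMap M L').injective).1 h)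
  have hr : A.r l ≠ 0 := by
    intro h
    have h2 := A.r_pow l
    rw [h, zero_pow A.N_pos.ne'] at h2
    exact haff' h2.symm
  rw [Derivation.leibniz_pow, hm', smul_eq_mul, nsmul_eq_mul] at h1
  refine ⟨m' / ((A.N : M) * affine t (A.co l)), ?_⟩
  rw [map_div₀, map_mul, map_natCast]
  have h3 : A.r l ^ A.N = A.r l ^ (A.N - 1) * A.r l := by
    rw [← pow_succ, Nat.sub_add_cancel A.N_pos]
  have h4 : A.r l ^ (A.N - 1) ≠ 0 := pow_ne_zero _ hr
  have h5 : algebraMap M L' (affine t (A.co l)) = A.r l ^ (A.N - 1) * A.r l := by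
    rw [← h3]
    exact (A.r_pow l).symm
  rw [h5, ← h1]
  field_simp

private lemma ls_mono [CharZero K'] (A : Arr K' L' t ι) {D : Derivation K' L' L'} {i : Fin d}
    (hD : ∀ j, D (tL L' t j) = if i = j then 1 else 0) (χ : ι → Fin A.N) :
    LS M D (A.mono χ) := by
  unfold Arr.mono
  exact Finset.prod_induction _ (LS M D) (fun _ _ => ls_mul D) (ls_one D)
    fun l _ => ls_pow D (ls_r A hD l) _

private lemma ca_ratio [CharZero K'] (ht : IsTorus K' t) {D : Fin d → Derivation K' L' L'}
    (hD : ∀ i j, D i (tL L' t j) = if i = j then 1 else 0) {w : L'} (hw : ∀ i, D i w = 0)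
    {a b : MvPolynomial (Fin d) K'} (ha : a ≠ 0) (hb : b ≠ 0)
    (h : w * MvPolynomial.aeval (tL L' t) b = MvPolynomial.aeval (tL L' t) a) :
    ∃ c : K', c ≠ 0 ∧ MvPolynomial.C c * b = a := by
  refine eq_const_mul ha hb fun j => ?_
  have h1 := congrArg (D j) h
  rw [Derivation.leibniz, ca_deriv (D j) _ j (hD j), ca_deriv (D j) _ j (hD j), hw j, smul_zero,
    add_zero, smul_eq_mul] at h1
  have h2 : MvPolynomial.aeval (tL L' t) (b * MvPolynomial.pderiv j a -
      a * MvPolynomial.pderiv j b) = 0 := by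
    rw [map_sub, map_mul, map_mul, ← h1, ← h]
    ring
  have h3 := ca_zero ht h2
  exact sub_eq_zero.1 h3

private lemma ca_key [CharZero K'] (A : Arr K' L' t ι) {D : Fin d → Derivation K' L' L'}
    (hD : ∀ i j, D i (tL L' t j) = if i = j then 1 else 0) {χ : ι → Fin A.N}
    (hχ : (χ A.o : ℕ) = 0) {c : M} (hc : c ≠ 0)
    (hw : ∀ i, D i (algebraMap M L' c * A.mono χ) = 0) :
    algebraMap M L' c * A.mono χ ∈ (algebraMap K' L').range := by
  obtain ⟨a, b, hb, hab⟩ := ca_frac L' A.torus c
  have hc' : algebraMap M L' c ≠ 0 := fun h =>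
    hc ((map_eq_zero_iff _ (algebraMap M L').injective).1 h)
  have hb' : MvPolynomial.aeval (tL L' t) b ≠ 0 := fun h => hb (ca_zero A.torus h)
  have ha : a ≠ 0 := by
    intro h
    rw [h, map_zero] at hab
    exact mul_ne_zero hc' hb' hab
  have hmono : A.mono χ ^ A.N =
      MvPolynomial.aeval (tL L' t) (∏ i, affP (A.co i) ^ (χ i : ℕ)) := by
    unfold Arr.mono
    rw [← Finset.prod_pow, map_prod]
    refine Finset.prod_congr rfl fun i _ => ?_
    rw [map_pow, ca_aeval, ca_aff, ← A.r_pow i, ← pow_mul, ← pow_mul, mul_comm]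
  have hprod : ∏ i, affP (A.co i) ^ (χ i : ℕ) ≠ 0 :=
    Finset.prod_ne_zero_iff.2 fun i _ => pow_ne_zero _ (ca_aff_ne (A.co_ne i))
  obtain ⟨c1, hc1, h1⟩ := ca_ratio (a := a ^ A.N * ∏ i, affP (A.co i) ^ (χ i : ℕ))
    (b := b ^ A.N) A.torus hD (w := (algebraMap M L' c * A.mono χ) ^ A.N) (by
      intro i
      rw [Derivation.leibniz_pow, hw i, smul_zero, smul_zero]) (mul_ne_zero (pow_ne_zero _ ha) hprod)
      (pow_ne_zero _ hb) (by
        rw [mul_pow, hmono, map_mul, map_pow, map_pow, ← hab, mul_pow]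
        ring)
  have ho : affP (A.co A.o) = 1 := by
    rw [A.co_o]
    unfold affP
    rw [Finset.sum_eq_zero, add_zero]
    · simp
    · intro j _
      simp [Fin.succ_ne_zero]
  have hirr : ∀ i, i ≠ A.o → Irreducible (affP (A.co i)) := by
    intro i hi
    apply irreducible_affP
    by_contra hcon
    push Not at hcon
    apply A.nprop i A.o hi (A.co i 0)
    rw [A.co_o]
    funext j
    refine Fin.cases ?_ (fun l => ?_) j
    · simp
    · rw [hcon l]
      simp [Fin.succ_ne_zero]
  have h2 := ufd_exponents A.o (fun i => affP (A.co i)) hirr (by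
    intro i j _ _ hij hass
    obtain ⟨e, he⟩ := smul_of_associated_affP hass
    exact A.nprop j i hij.symm e he) ho (N := A.N) hb ha
    (χ := fun _ => ⟨0, A.N_pos⟩) (χ' := χ) rfl hχ hc1 (by
      rw [h1]
      simp)
  have hm1 : A.mono χ = 1 := by
    unfold Arr.mono
    refine Finset.prod_eq_one fun i _ => ?_
    rw [← h2, pow_zero]
  rw [hm1, mul_one]
  rw [hm1, mul_one] at hw
  obtain ⟨c2, hc2, h3⟩ := ca_ratio A.torus hD hw ha hb hab
  refine ⟨c2, ?_⟩
  rw [← h3, map_mul, MvPolynomial.aeval_C] at hab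
  exact (mul_right_cancel₀ hb' hab).symm

end Aux

variable {k K L K' M L' : Type*} [Field k] [Field K] [Field L] [Field K'] [Field M] [Field L']
  [Algebra k K] [Algebra k L] [Algebra k K'] [Algebra k M] [Algebra k L'] [Algebra K L]
  [Algebra K K'] [Algebra K L'] [Algebra L L'] [Algebra K' M] [Algebra K' L'] [Algebra M L']
  [IsScalarTower k K L] [IsScalarTower k K K'] [IsScalarTower k K L'] [IsScalarTower k L L']
  [IsScalarTower k K' M] [IsScalarTower k K' L'] [IsScalarTower k M L'] [IsScalarTower K L L']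
  [IsScalarTower K K' L'] [IsScalarTower K' M L'] [FiniteDimensional K K']
  [FiniteDimensional L L'] [FiniteDimensional M L'] [CharZero k] {d : ℕ}
  {X : ProjVar k L} {Z : ProjVar k K} {t : Fin d → M} {ι : Type*} [Fintype ι] [DecidableEq ι]

theorem constA [CharZero K'] (A : Arr K' L' t ι) (D : Fin d → Derivation K' L' L')
    (hD : ∀ i j, D i (tL L' t j) = if i = j then 1 else 0) {x : L'} (hx : ∀ i, D i x = 0) :
    x ∈ Set.range (algebraMap K' L') := by
  have hspan : x ∈ Submodule.span M (Set.range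
      fun χ : {χ : ι → Fin A.N // (χ A.o : ℕ) = 0} => A.mono χ.1) := by
    rw [mono_span A]
    exact Submodule.mem_top
  rw [Submodule.mem_span_range_iff_exists_fun] at hspan
  obtain ⟨c, hc⟩ := hspan
  have hli := mono_indep A D hD
  rw [Fintype.linearIndependent_iff] at hli
  have hzero : ∀ (i : Fin d) (χ : {χ : ι → Fin A.N // (χ A.o : ℕ) = 0}),
      D i (algebraMap M L' (c χ) * A.mono χ.1) = 0 := by
    intro i
    have hls : ∀ χ : {χ : ι → Fin A.N // (χ A.o : ℕ) = 0}, ∃ e : M,
        D i (algebraMap M L' (c χ) * A.mono χ.1) = algebraMap M L' e * A.mono χ.1 := by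
      intro χ
      obtain ⟨e, he⟩ := ls_mono A (hD i) χ.1
      obtain ⟨m', hm'⟩ := ca_DM A.torus (hD i) (c χ)
      refine ⟨c χ * e + m', ?_⟩
      rw [Derivation.leibniz, he, hm', map_add, map_mul, smul_eq_mul, smul_eq_mul]
      ring
    choose e he using hls
    have h1 : ∑ χ : {χ : ι → Fin A.N // (χ A.o : ℕ) = 0}, e χ • A.mono χ.1 = 0 := by
      have h2 := hx i
      rw [← hc, map_sum] at h2
      rw [← h2]
      refine Finset.sum_congr rfl fun χ _ => ?_
      rw [Algebra.smul_def, Algebra.smul_def, he χ]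
    have h2 := hli e h1
    intro χ
    rw [he χ, h2 χ, map_zero, zero_mul]
  have hmem : x ∈ (algebraMap K' L').range := by
    rw [← hc]
    refine sum_mem fun χ _ => ?_
    rw [Algebra.smul_def]
    by_cases h0 : c χ = 0
    · rw [h0, map_zero, zero_mul]
      exact zero_mem _
    · exact ca_key A hD χ.2 h0 fun i => hzero i χ
  exact hmem

end Pool.Agent.Helper92.HA
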