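import Pool.Agent.Helper92.HA.Defs
import Pool.Agent.Helper92.HA.Stat

set_option autoImplicit false

/-!
# HA Cover: the comparison of the general fibre with `(ℙᵈ, ∑ δ_i H_i)`
-/

namespace Pool.Agent.Helper92.HA

open Module Pool.Agent.Helper92.Weak

section

variable {k K L K' M L' : Type*} [Field k] [Field K] [Field L] [Field K'] [Field M] [Field L']
  [Algebra k K] [Algebra k L] [Algebra k L'] [Algebra K L] [Algebra K L']
  [Algebra L L'] [Algebra K' L'] [Algebra K' M] [Algebra M L'] {d : ℕ}
  {t : Fin d → M} {ι : Type*} [Fintype ι] [DecidableEq ι]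

/-- The log pull-back of `(X, Δ)` to the field `L'`, restricted to the generic fibre over `K`, is the
sum of the log pull-back of `(ℙᵈ, ∑ δ_i H_i)` (over `K'`) and of an effective divisor which is
exceptional over `ℙᵈ`:
`above`: every valuation `v` of `L'` over a prime divisor `D` of `ℙᵈ` lies over a prime divisor `P` of
`X` which maps onto `Z`, and `ε (1 - Δ P)` (`ε` the ramification) is the log discrepancy;
`disc`: for all `v` over such `P` the number `ε (1 - Δ P)` is at most the log discrepancy. -/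
structure IsLogCover (X : ProjVar k L) (Δ : X.Div) (A : Arr K' L' t ι) : Prop where
  above : ∀ D ∈ (projSpace A.torus).primeDivisors, ∀ (v : DVal k L') (e : ℕ), 0 < e →
    (∀ x : M, v (algebraMap M L' x) = e * D x) →
    ∃ P : X.primeDivisors, (∀ x : K, P.1 (algebraMap K L x) = 0) ∧
      ∃ ε, LiesOver v P.1 ε ∧ ∀ ℓ, A.IsLogDisc K v ℓ → ε * (1 - Δ P) = ℓ
  disc : ∀ P : X.primeDivisors, (∀ x : K, P.1 (algebraMap K L x) = 0) →
    ∀ (v : DVal k L') (ε : ℕ), LiesOver v P.1 ε → ∀ ℓ, A.IsLogDisc K v ℓ → ε * (1 - Δ P) ≤ ℓ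

end

end Pool.Agent.Helper92.HA
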