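import Mathlib
import Pool.Agent.Helper92.Weak.Defs

/-!
# Gauss valuations in several variables, through derivations
-/

set_option autoImplicit false

open Module

namespace Pool.Agent.Helper92.HA

open Pool.Agent.Helper92.Weak

variable {k K L : Type*} [Field k] [Field K] [Field L] [Algebra k K] [Algebra k L]
  [Algebra K L] [IsScalarTower k K L] {d : ℕ}

/-- Derivations and substitution. -/
lemma deriv_aeval {σ : Type*} [DecidableEq σ] (t : σ → L) (i : σ) (D : Derivation K L L)
    (hD : ∀ j, D (t j) = if i = j then 1 else 0) (F : MvPolynomial σ K) :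
    D (MvPolynomial.aeval t F) = MvPolynomial.aeval t (MvPolynomial.pderiv i F) := by
  induction F using MvPolynomial.induction_on with
  | C a => simp
  | add p q hp hq => rw [map_add, map_add, map_add, map_add, hp, hq]
  | mul_X p j hp =>
    rw [map_mul, MvPolynomial.aeval_X, Derivation.leibniz, hD, hp, Derivation.leibniz,
      MvPolynomial.pderiv_X, map_add, smul_eq_mul, smul_eq_mul, smul_eq_mul, smul_eq_mul, map_mul,
      map_mul, MvPolynomial.aeval_X, Pi.single_apply]
    by_cases h : i = j
    · subst h; simp
    · simp [h, Ne.symm h]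

lemma ge_of_nat_smul [CharZero k] {v : DVal k L} {n : ℚ} {a : L} {N : ℕ} (hN : N ≠ 0)
    (h : v.Ge n ((N : L) * a)) : v.Ge n a := by
  have h1 := h.smul ((N : k)⁻¹)
  have hN' : (N : k) ≠ 0 := by exact_mod_cast hN
  have h2 : ((N : k)⁻¹) • ((N : L) * a) = a := by
    rw [Algebra.smul_def, ← mul_assoc]
    have : (algebraMap k L) ((N : k)⁻¹) * (N : L) = 1 := by
      rw [← map_natCast (algebraMap k L) N, ← map_mul, inv_mul_cancel₀ hN', map_one]
    rw [this, one_mul]
  rwa [h2] at h1

lemma Ge.prod {v : DVal k L} {ι : Type*} {s : Finset ι} {f : ι → L} {n : ι → ℚ}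
    (h : ∀ i ∈ s, v.Ge (n i) (f i)) : v.Ge (∑ i ∈ s, n i) (∏ i ∈ s, f i) := by
  classical
  induction s using Finset.induction_on with
  | empty =>
    rw [Finset.sum_empty, Finset.prod_empty]
    right
    simp
  | insert a s ha ih =>
    rw [Finset.sum_insert ha, Finset.prod_insert ha]
    exact (h a (Finset.mem_insert_self a s)).mul
      (ih fun i hi => h i (Finset.mem_insert_of_mem hi))

lemma Ge.pow {v : DVal k L} {n : ℚ} {a : L} (h : v.Ge n a) (N : ℕ) : v.Ge (N * n) (a ^ N) := by
  induction N with
  | zero => right; simp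
  | succ N ih =>
    rw [pow_succ]
    have := ih.mul h
    push_cast
    rwa [add_mul, one_mul]

/-- If the partial derivatives lose at most `c` and `v (t j) ≥ -c'`, the coefficients of a
polynomial of degree `n` in `t` lose at most a constant depending on `n`. -/
theorem coeff_bound [CharZero k] (v : DVal k L) (t : Fin d → L) (D : Fin d → Derivation K L L)
    (hD : ∀ i j, D i (t j) = if i = j then 1 else 0) (c c' : ℚ) (hc : 0 ≤ c) (hc' : 0 ≤ c')
    (hv : ∀ i (g : L) (m : ℚ), v.Ge m g → v.Ge (m - c) (D i g)) (ht : ∀ j, v.Ge (-c') (t j)) :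
    ∀ (n : ℕ) (F : MvPolynomial (Fin d) K), F.totalDegree ≤ n →
      ∀ m : ℚ, v.Ge m (MvPolynomial.aeval t F) →
      ∀ α, v.Ge (m - n * (c + n * c')) (algebraMap K L (F.coeff α)) := by
  classical
  intro n
  induction n with
  | zero =>
    intro F hF m hm α
    rw [Nat.le_zero, MvPolynomial.totalDegree_eq_zero_iff_eq_C] at hF
    rw [hF, MvPolynomial.aeval_C] at hm
    rw [hF, MvPolynomial.coeff_C]
    split_ifs with h
    · simpa using hm
    · rw [_root_.map_zero]; exact DVal.Ge.zero
  | succ n ih =>
    intro F hF m hm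
    have key : ∀ α : Fin d →₀ ℕ, α ≠ 0 →
        v.Ge (m - c - n * (c + n * c')) (algebraMap K L (F.coeff α)) := by
      intro α hα
      obtain ⟨j, hj⟩ : ∃ j, α j ≠ 0 := by
        by_contra h
        push Not at h
        exact hα (Finsupp.ext h)
      have h1 : (MvPolynomial.pderiv j F).totalDegree ≤ n := by
        rw [MvPolynomial.totalDegree, Finset.sup_le_iff]
        intro β hβ
        rw [MvPolynomial.mem_support_iff, MvPolynomial.coeff_pderiv] at hβ
        have h5 : F.coeff (β + Finsupp.single j 1) ≠ 0 := fun h => hβ (by rw [h, zero_mul])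
        have h6 := MvPolynomial.le_totalDegree (MvPolynomial.mem_support_iff.2 h5)
        rw [Finsupp.sum_add_index' (by simp) (by simp), Finsupp.sum_single_index rfl] at h6
        omega
      have h2 := hv j _ m hm
      rw [deriv_aeval t j (D j) (hD j)] at h2
      have h3 := ih _ h1 _ h2 (α - Finsupp.single j 1)
      have h4 : (MvPolynomial.pderiv j F).coeff (α - Finsupp.single j 1) =
          F.coeff α * (α j : K) := by
        rw [MvPolynomial.coeff_pderiv]
        have h5 : α - Finsupp.single j 1 + Finsupp.single j 1 = α := by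
          apply tsub_add_cancel_of_le
          rw [Finsupp.single_le_iff]
          omega
        rw [h5]
        congr 1
        have h6 : (α - Finsupp.single j 1 : Fin d →₀ ℕ) j = α j - 1 := by simp
        rw [h6, ← Nat.cast_succ]
        congr 1
        omega
      rw [h4, map_mul, map_natCast, mul_comm (algebraMap K L _)] at h3
      exact ge_of_nat_smul hj h3
    intro α
    by_cases hα : α = 0
    · subst hα
      have h1 : algebraMap K L (F.coeff 0) = MvPolynomial.aeval t F -
          ∑ α ∈ F.support.erase 0, algebraMap K L (F.coeff α) * ∏ j, t j ^ α j := by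
        rw [MvPolynomial.aeval_eq_eval₂Hom, MvPolynomial.coe_eval₂Hom, MvPolynomial.eval₂_eq']
        by_cases h0 : (0 : Fin d →₀ ℕ) ∈ F.support
        · rw [← Finset.add_sum_erase _ _ h0]
          simp
        · rw [Finset.erase_eq_of_notMem h0, sub_self]
          rw [MvPolynomial.notMem_support_iff] at h0
          rw [h0, _root_.map_zero]
      rw [h1]
      have hn : (0 : ℚ) ≤ n := Nat.cast_nonneg n
      refine DVal.Ge.sub (hm.mono ?_) (DVal.Ge.sum fun α hα => ?_)
      · push_cast
        nlinarith [mul_nonneg hn hc', mul_nonneg hn hc]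
      · rw [Finset.mem_erase] at hα
        have h2 := key α hα.1
        have h3 : v.Ge (∑ j, (α j : ℚ) * (-c')) (∏ j, t j ^ α j) :=
          Ge.prod fun j _ => Ge.pow (ht j) (α j)
        refine (h2.mul h3).mono ?_
        rw [← Finset.sum_mul]
        have h4 := MvPolynomial.le_totalDegree hα.2
        rw [Finsupp.sum_fintype _ _ (fun _ => rfl)] at h4
        have h5 : (∑ j, (α j : ℚ)) ≤ n + 1 := by
          have : ∑ j, α j ≤ n + 1 := h4.trans hF
          exact_mod_cast this
        push_cast
        nlinarith [mul_nonneg hn hc', mul_nonneg hn hc, mul_nonneg (mul_nonneg hn hn) hc',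
          mul_le_mul_of_nonneg_right h5 hc']
    · refine (key α hα).mono ?_
      push_cast
      have hn : (0 : ℚ) ≤ n := Nat.cast_nonneg n
      nlinarith [mul_nonneg hn hc', mul_nonneg hn hc]

end Pool.Agent.Helper92.HA
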