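import Pool.Agent.Helper63.PB.Defs
import Pool.Agent.Helper92.HA.Comb
import Pool.Agent.Helper92.HA.Gauss
import Pool.Agent.Helper92.Weak.Torus1
import Pool.Agent.Helper92.HA.ArrDefs

set_option autoImplicit false

/-!
# Project HA (MP_2c56d9_ag): fibres which are Kummer covers of `ℙᵈ` branched along a log canonical
hyperplane arrangement (instance I1 of project PB)

Complete proof: team store, `memo_MP_2c56d9_ag_HA_helper92.md`.
-/

namespace Pool.Agent.Helper92.HA

open Module Pool.Agent.Helper92.Weak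

/-! ### The frame: numerical data of differential forms -/

section Frame

variable {k K L K' L' : Type*} [Field k] [Field K] [Field L] [Field K'] [Field L']
  [Algebra k K] [Algebra k L] [Algebra k K'] [Algebra k L'] [Algebra K L] [Algebra K K']
  [Algebra L L'] [Algebra K' L'] {d : ℕ}

/-- The data of a fibration `X → Z` with `L' / L` finite, `t` a transcendence basis of `L' / K'`:
the partial derivatives `D i = ∂/∂t_i` of `L' / K'`, the orders `a` along the prime divisors of `X`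
of the form `dy ∧ ds` and `c` along the prime divisors of `Z` of the form `dy` (`y` a transcendence
basis of `K / k`, `s` a transcendence basis of `L / K`), `u = det (D i (s j))`, and the facts
about differential forms which are used:
`star`: for `v` over `P` over `Q`: `v (det (D i (g j))) ≥ ∑ v (g j) - (ε (a P + 1 - e (c Q + 1)) - v u)`;
`starh`: for `v` over `P`, `P` trivial on `K`: `v (det (D i (g j))) ≥ ∑ v (g j) - (ε (a P + 1) - v u)`. -/
structure DFrame (X : ProjVar k L) (Z : ProjVar k K) (K' : Type*) {L' : Type*} [Field K'] [Field L']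
    [Algebra k K'] [Algebra k L'] [Algebra K K'] [Algebra L L'] [Algebra K' L']
    (t : Fin d → L') where
  equi : ∀ P ∈ X.primeDivisors, (∃ a : K, P (algebraMap K L a) ≠ 0) →
    ∃ Q ∈ Z.primeDivisors, ∃ e, LiesOver P Q e
  surj : ∀ Q ∈ Z.primeDivisors, ∃ P ∈ X.primeDivisors, ∃ e, LiesOver P Q e
  indep : AlgebraicIndependent K' t
  alg : Algebra.IsAlgebraic (IntermediateField.adjoin K' (Set.range t)) L'
  D : Fin d → Derivation K' L' L'
  D_t : ∀ i j, D i (t j) = if i = j then 1 else 0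
  u : L'
  u_ne : u ≠ 0
  a : X.primeDivisors →₀ ℤ
  c : Z.primeDivisors →₀ ℤ
  star : ∀ (P : X.primeDivisors) (Q : Z.primeDivisors) (e : ℕ), LiesOver P.1 Q.1 e →
    ∀ (v : DVal k L') (ε : ℕ), LiesOver v P.1 ε → ∀ g : Fin d → L', (∀ j, g j ≠ 0) →
      v.Ge ((∑ j, v (g j) - (ε * (a P + 1 - e * (c Q + 1)) - v u) : ℤ) : ℚ)
        (Matrix.of fun i j => D i (g j)).det
  starh : ∀ P : X.primeDivisors, (∀ x : K, P.1 (algebraMap K L x) = 0) →
    ∀ (v : DVal k L') (ε : ℕ), LiesOver v P.1 ε → ∀ g : Fin d → L', (∀ j, g j ≠ 0) →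
      v.Ge ((∑ j, v (g j) - (ε * (a P + 1) - v u) : ℤ) : ℚ) (Matrix.of fun i j => D i (g j)).det

variable {X : ProjVar k L} {Z : ProjVar k K} {t : Fin d → L'} (F : DFrame X Z K' t)

/-- `μ_v = ε (a P + 1 - e (c Q + 1)) - v u`, for `v` over `P` with ramification `ε`. -/
def DFrame.mu (P : X.primeDivisors) (Q : Z.primeDivisors) (e : ℕ) (v : DVal k L') (ε : ℕ) : ℤ :=
  ε * (F.a P + 1 - e * (F.c Q + 1)) - v F.u

/-- The divisor of `dy ∧ ds` on `X`. -/
noncomputable def DFrame.aD : X.Div := F.a.mapRange (fun z : ℤ => (z : ℚ)) (by simp)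

/-- The divisor of `dy` on `Z`. -/
noncomputable def DFrame.cD : Z.Div := F.c.mapRange (fun z : ℤ => (z : ℚ)) (by simp)

@[simp] theorem DFrame.aD_apply (P : X.primeDivisors) : F.aD P = F.a P := by
  unfold DFrame.aD
  rw [Finsupp.mapRange_apply]

@[simp] theorem DFrame.cD_apply (Q : Z.primeDivisors) : F.cD Q = F.c Q := by
  unfold DFrame.cD
  rw [Finsupp.mapRange_apply]

end Frame

/-! ### Arrangements -/

section Arr

variable {K' M L' : Type*} [Field K'] [Field M] [Field L'] [Algebra K' M] [Algebra K' L']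
  [Algebra M L'] {d : ℕ} {t : Fin d → M} {ι : Type*} [Fintype ι] [DecidableEq ι]

/-- The monomial in the roots. -/
def Arr.mono (A : Arr K' L' t ι) (χ : ι → Fin A.N) : L' := ∏ i, A.r i ^ (χ i : ℕ)

open Classical in
/-- The determinant of the coefficients of `d + 1` of the affine functions (for some order of
them). -/
noncomputable def Arr.cdet (A : Arr K' L' t ι) (b : Finset ι) : K' :=
  if h : b.card = d + 1 then
    (Matrix.of fun (i j : Fin (d + 1)) => A.co ((b.equivFinOfCardEq h).symm i) j).det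
  else 0

/-- The function `θ_b` with `dlog (l₁ / l₀) ∧ ... ∧ dlog (l_d / l₀) = ± θ_b dt₁ ∧ ... ∧ dt_d`,
where `b = {0, ..., d}`. -/
noncomputable def Arr.theta (A : Arr K' L' t ι) (b : Finset ι) : L' :=
  algebraMap K' L' (A.cdet b) / ∏ i ∈ b, A.l i

/-- The product of powers of the `θ_b`. -/
noncomputable def Arr.phi (A : Arr K' L' t ι) (x : Finset ι → ℕ) : L' :=
  ∏ b : Finset ι, A.theta b ^ x b

/-- The number of times the index `i` is used. -/
def Arr.use (_A : Arr K' L' t ι) (x : Finset ι → ℕ) (i : ι) : ℕ :=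
  ∑ b : Finset ι, if i ∈ b then x b else 0

end Arr

/-! ### Good prime divisors, horizontal data -/

section Good

variable {k K L K' M L' : Type*} [Field k] [Field K] [Field L] [Field K'] [Field M] [Field L']
  [Algebra k K] [Algebra k L] [Algebra k K'] [Algebra k L'] [Algebra K L] [Algebra K K']
  [Algebra L L'] [Algebra K' L'] [Algebra K' M] [Algebra M L'] {d : ℕ} {X : ProjVar k L}
  {Z : ProjVar k K} {t : Fin d → M} {ι : Type*} [Fintype ι] [DecidableEq ι]

/-- The divisor `P` over `Q` is good: there is no slack in the inequality of the orbifold base, and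
all inequalities `v (θ_b) + μ_v ≥ 0`, `b` a base with `W b`, are equalities. -/
def Good (F : DFrame X Z K' (tL L' t)) (A : Arr K' L' t ι) (W : Finset ι → Prop) (Δ : X.Div)
    (E : Z.Div) (P : X.primeDivisors) (Q : Z.primeDivisors) (e : ℕ) : Prop :=
  LiesOver P.1 Q.1 e ∧ Δ P + (e - 1) = e * E Q ∧
    ∀ (v : DVal k L') (ε : ℕ), LiesOver v P.1 ε → ∀ b : Finset ι, IsBase K' A.co b → W b →
      v (A.theta b) + F.mu P Q e v ε = 0

/-- The horizontal part of the comparison of `(X, Δ)` with `(ℙᵈ, ∑ δ_i H_i)`.  `T` is the set of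
the valuations of `L'` over prime divisors of `ℙᵈ` (over `K'`). -/
structure HorArr (F : DFrame X Z K' (tL L' t)) (A : Arr K' L' t ι) (Δ : X.Div) where
  T : Set (DVal k L')
  /-- products of logarithmic forms are sections -/
  low : ∀ P : X.primeDivisors, (∀ x : K, P.1 (algebraMap K L x) = 0) →
    ∀ (v : DVal k L') (ε : ℕ), LiesOver v P.1 ε → ∀ (m : ℕ) (x : Finset ι → ℕ),
      (∀ b, x b ≠ 0 → IsBase K' A.co b) → ∑ b, x b = m → (∀ i, (A.use x i : ℚ) ≤ m * A.δ i) →
      ((m * v F.u + ∑ i, A.use x i * v (A.l i) : ℤ) : ℚ) ≤ ε * (m * (F.a P + Δ P))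
  /-- the log pull-backs agree -/
  up : ∀ v ∈ T, ∃ P : X.primeDivisors, (∀ x : K, P.1 (algebraMap K L x) = 0) ∧
    ∃ ε, LiesOver v P.1 ε ∧ ∀ m, IsMin A v m →
      ε * (F.a P + Δ P) ≤ v F.u + (d + 1) * m + ∑ i, A.δ i * (v (A.l i) - m)
  /-- the elements without poles are polynomials -/
  sec : ∀ (f : L') (c : ℤ), (∀ v ∈ T, ∀ m, IsMin A v m → v.Ge (c * m) f) →
    ∃ G : (ι → Fin A.N) → MvPolynomial (Fin d) K',
      f = ∑ χ, MvPolynomial.aeval (tL L' t) (G χ) * A.mono χ ∧
      ∀ χ, G χ ≠ 0 → (χ A.o : ℕ) = 0 ∧ A.N * (G χ).totalDegree + ∑ i, (χ i : ℕ) ≤ A.N * c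
  /-- poles can be killed -/
  kill : ∀ v ∈ T, ∃ (g : MvPolynomial (Fin d) K') (n : ℕ), g ≠ 0 ∧ g.totalDegree ≤ n ∧
    ∀ m, IsMin A v m → n * m + 1 ≤ v (MvPolynomial.aeval (tL L' t) g)
  /-- polynomials have no poles -/
  poly : ∀ v ∈ T, ∀ (g : MvPolynomial (Fin d) K') (n : ℕ), g.totalDegree ≤ n → ∀ m, IsMin A v m →
    v.Ge (n * m) (MvPolynomial.aeval (tL L' t) g)

end Good

end Pool.Agent.Helper92.HA
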