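import Pool.Agent.Helper92.HA.Defs

set_option autoImplicit false

/-!
# HA-03 Exps: exponents

`rk_univ`: `rk K' A.co univ = d + 1` (`full`, `finrank_fin_fun`).
`exps_zero`, `exps_pos`: `exists_exponents_zero`, `exists_exponents_pos` of Comb for `l = A.co`, `i₀ = A.o`;
`∑ x b = m` in the case `h = 0`: double counting `∑_i use x i = (d + 1) ∑_b x b`.
-/

namespace Pool.Agent.Helper92.HA

open Module Pool.Agent.Helper92.Weak Pool.Agent.Helper63.PB

variable {k K L K' M L' : Type*} [Field k] [Field K] [Field L] [Field K'] [Field M] [Field L']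
  [Algebra k K] [Algebra k L] [Algebra k K'] [Algebra k M] [Algebra k L'] [Algebra K L]
  [Algebra K K'] [Algebra K L'] [Algebra L L'] [Algebra K' M] [Algebra K' L'] [Algebra M L']
  [IsScalarTower k K L] [IsScalarTower k K K'] [IsScalarTower k K L'] [IsScalarTower k L L']
  [IsScalarTower k K' M] [IsScalarTower k K' L'] [IsScalarTower k M L'] [IsScalarTower K L L']
  [IsScalarTower K K' L'] [IsScalarTower K' M L'] [FiniteDimensional K K']
  [FiniteDimensional L L'] [FiniteDimensional M L'] [CharZero k] {d : ℕ}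
  {X : ProjVar k L} {Z : ProjVar k K} {t : Fin d → M} {ι : Type*} [Fintype ι] [DecidableEq ι]

private theorem use_cast (A : Arr K' L' t ι) (x : Finset ι → ℕ) (i : ι) :
    (A.use x i : ℚ) = ∑ b : Finset ι, if i ∈ b then (x b : ℚ) else 0 := by
  unfold Arr.use
  push_cast
  refine Finset.sum_congr rfl fun b _ => ?_
  split_ifs <;> simp

theorem rk_univ (A : Arr K' L' t ι) : rk K' A.co Finset.univ = d + 1 := by
  rw [rk, Finset.coe_univ, Set.image_univ, A.full, finrank_top, Module.finrank_fin_fun]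

theorem exps_zero (A : Arr K' L' t ι) (hh : A.h = 0) : ∃ (m : ℕ) (x : Finset ι → ℕ), 0 < m ∧
    (∀ b, x b ≠ 0 → IsBase K' A.co b) ∧ ∑ b, x b = m ∧ ∀ i, (A.use x i : ℚ) = m * A.δ i := by
  have hD : ∑ i, A.δ i = (rk K' A.co Finset.univ : ℚ) := by
    rw [rk_univ A]
    have h := hh
    unfold Arr.h at h
    push_cast
    linarith
  obtain ⟨m, x, hm, hb, hx⟩ := exists_exponents_zero (F := K') A.co A.δ
    (fun B hB => A.lc B (by rw [rk_univ A] at hB; exact hB)) A.δ_pos hD
  have hx' : ∀ i, (A.use x i : ℚ) = m * A.δ i := fun i => by rw [use_cast A, hx i]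
  refine ⟨m, x, hm, hb, ?_, hx'⟩
  have hcard : ∀ b, IsBase K' A.co b → b.card = d + 1 := by
    intro b hb
    rw [← rk_univ A]
    refine (rk_eq_card hb.1 ?_).symm
    rw [hb.2]; simp
  have h1 : ∑ i, A.use x i = (d + 1) * ∑ b, x b := by
    unfold Arr.use
    rw [Finset.sum_comm, Finset.mul_sum]
    refine Finset.sum_congr rfl fun b _ => ?_
    rw [Finset.sum_ite_mem, Finset.univ_inter, Finset.sum_const, smul_eq_mul]
    by_cases h : x b = 0
    · rw [h]; ring
    · rw [hcard b (hb b h)]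
  have h2 : ((∑ i, A.use x i : ℕ) : ℚ) = m * (d + 1) := by
    push_cast
    rw [Finset.sum_congr rfl fun i _ => hx' i, ← Finset.mul_sum, hD, rk_univ A]
    push_cast
    ring
  rw [h1] at h2
  push_cast at h2
  have h3 : ((∑ b, x b : ℕ) : ℚ) = m := by
    push_cast
    have hd : ((d : ℚ) + 1) ≠ 0 := by positivity
    have h4 : ((d : ℚ) + 1) * ∑ b, (x b : ℚ) = ((d : ℚ) + 1) * m := by rw [h2]; ring
    exact mul_left_cancel₀ hd h4
  exact_mod_cast h3

theorem exps_pos (A : Arr K' L' t ι) (hh : 0 < A.h) : ∃ (m r : ℕ) (x : ι → Finset ι → ℕ),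
    0 < m ∧ 0 < r ∧ (∀ j b, IsBase K' A.co b → 0 < x j b) ∧
    (∀ j b, x j b ≠ 0 → IsBase K' A.co b) ∧ (∀ j i, (A.use (x j) i : ℚ) ≤ m * A.δ i) ∧
    (∀ j, ∑ b, x j b = m) ∧
    ∀ j i, A.use (x j) i + (if i = A.o then r else 0) =
      A.use (x A.o) i + (if i = j then r else 0) := by
  have hD : (rk K' A.co Finset.univ : ℚ) < ∑ i, A.δ i := by
    rw [rk_univ A]
    have h := hh
    unfold Arr.h at h
    push_cast
    linarith
  obtain ⟨m, r, x, hm, hr, h1, h2, h3, h4, h5⟩ := exists_exponents_pos (F := K') A.co A.δ A.co_ne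
    (fun B hB => A.lc B (by rw [rk_univ A] at hB; exact hB)) A.δ_pos hD A.o
  refine ⟨m, r, x, hm, hr, h1, h2, fun j i => ?_, h4, fun j i => ?_⟩
  · rw [use_cast A]
    exact h3 j i
  · have h := h5 j i
    rw [← use_cast A, ← use_cast A] at h
    have h6 : ((A.use (x j) i + (if i = A.o then r else 0) : ℕ) : ℚ) =
        ((A.use (x A.o) i + (if i = j then r else 0) : ℕ) : ℚ) := by
      push_cast
      exact h
    exact_mod_cast h6

end Pool.Agent.Helper92.HA
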