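import Pool.Agent.Helper92.HA.Defs
import Pool.Agent.Helper92.HA.TraceMono

set_option autoImplicit false

/-!
# HA-19 FamilyB: the family `t^α mono χ` over `K'`

`fam_indep`. The `t^α mono χ` (`α : Fin d →₀ ℕ`, `χ o = 0`) are linearly independent over `K'`:
`mono_indep` over `M`, and the `t^α` are linearly independent over `K'` in `M` (`ht'.indep`), for any
coordinates `t'` of `M` (`LinearIndependent.smul`-like for towers).
`sdim_le_of_coeff`. Let `V` be a `k`-subspace of `L`, `φ : L → L'` an injective `k`-linear map,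
`c : ℕ`, such that every `φ f`, `f ∈ V`, is a sum `∑ G_χ(t') mono χ` with `G_χ ≠ 0 → χ o = 0 ∧ deg G_χ ≤ c`, and
`W` a `k`-subspace of a field `K''` over `K'`, `s χ ∈ K''` nonzero, with `coeff α (G_χ) s χ ∈ W` for all such
representations. Then `sdim V ≤ (N^|ι| (c + 1)^d) sdim W`: the map `V → (χ, α) → W`,
`f ↦ coeff α (G_χ) s χ` is well defined and `k`-linear (uniqueness of the representation, `fam_indep`)
and injective; `sdim_le_card_mul` (Weak). There are at most `(c+1)^d` exponents `α` with `|α| ≤ c`.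
-/

namespace Pool.Agent.Helper92.HA

open Module Pool.Agent.Helper92.Weak Pool.Agent.Helper63.PB

variable {k K L K' M L' : Type*} [Field k] [Field K] [Field L] [Field K'] [Field M] [Field L']
  [Algebra k K] [Algebra k L] [Algebra k K'] [Algebra k M] [Algebra k L'] [Algebra K L]
  [Algebra K K'] [Algebra K L'] [Algebra L L'] [Algebra K' M] [Algebra K' L'] [Algebra M L']
  [IsScalarTower k K L] [IsScalarTower k K K'] [IsScalarTower k K L'] [IsScalarTower k L L']
  [IsScalarTower k K' M] [IsScalarTower k K' L'] [IsScalarTower k M L'] [IsScalarTower K L L']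
  [IsScalarTower K K' L'] [IsScalarTower K' M L'] [FiniteDimensional K K']
  [FiniteDimensional L L'] [FiniteDimensional M L'] [CharZero k] {d : ℕ}
  {X : ProjVar k L} {Z : ProjVar k K} {t : Fin d → M} {ι : Type*} [Fintype ι] [DecidableEq ι]

theorem fam_indep [CharZero K'] (A : Arr K' L' t ι) (D : Fin d → Derivation K' L' L')
    (hD : ∀ i j, D i (tL L' t j) = if i = j then 1 else 0) {t' : Fin d → M}
    (ht' : IsTorus K' t') {G G' : (ι → Fin A.N) → MvPolynomial (Fin d) K'}
    (hG : ∀ χ, G χ ≠ 0 → (χ A.o : ℕ) = 0) (hG' : ∀ χ, G' χ ≠ 0 → (χ A.o : ℕ) = 0)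
    (h : ∑ χ, MvPolynomial.aeval (tL L' t') (G χ) * A.mono χ =
      ∑ χ, MvPolynomial.aeval (tL L' t') (G' χ) * A.mono χ) : G = G' := by
  classical
  have hae : ∀ p : MvPolynomial (Fin d) K', MvPolynomial.aeval (tL L' t') p =
      algebraMap M L' (MvPolynomial.aeval t' p) := by
    intro p
    have h1 : tL L' t' = ⇑(algebraMap M L') ∘ t' := rfl
    rw [h1, MvPolynomial.aeval_algebraMap_apply]
  have hind := mono_indep A D hD
  rw [Fintype.linearIndependent_iff] at hind
  have h0 : ∑ χ : {χ : ι → Fin A.N // (χ A.o : ℕ) = 0},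
      (MvPolynomial.aeval t' (G χ.1 - G' χ.1)) • A.mono χ.1 = 0 := by
    have h1 : ∑ χ, MvPolynomial.aeval (tL L' t') (G χ - G' χ) * A.mono χ = 0 := by
      rw [← sub_eq_zero, ← Finset.sum_sub_distrib] at h
      rw [← h]
      refine Finset.sum_congr rfl fun χ _ => ?_
      rw [map_sub, sub_mul]
    rw [← h1, ← Finset.sum_filter_of_ne (p := fun χ : ι → Fin A.N => (χ A.o : ℕ) = 0),
      Finset.sum_subtype (Finset.univ.filter fun χ : ι → Fin A.N => (χ A.o : ℕ) = 0)
        (p := fun χ : ι → Fin A.N => (χ A.o : ℕ) = 0) (fun χ => by simp)]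
    · refine Finset.sum_congr rfl fun χ _ => ?_
      rw [Algebra.smul_def, hae]
    · intro χ _ hχ
      by_cases h3 : G χ = 0
      · refine hG' χ fun h4 => hχ ?_
        rw [h3, h4, sub_zero, map_zero, zero_mul]
      · exact hG χ h3
  have h2 := hind _ h0
  funext χ
  by_cases hχ : (χ A.o : ℕ) = 0
  · have h3 := h2 ⟨χ, hχ⟩
    have h4 : G χ - G' χ = 0 := by
      apply ht'.indep
      rw [map_zero]
      exact h3
    exact sub_eq_zero.1 h4
  · have h3 : G χ = 0 := by
      by_contra h5
      exact hχ (hG χ h5)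
    have h4 : G' χ = 0 := by
      by_contra h5
      exact hχ (hG' χ h5)
    rw [h3, h4]

theorem sdim_le_of_coeff (A : Arr K' L' t ι) (D : Fin d → Derivation K' L' L')
    (hD : ∀ i j, D i (tL L' t j) = if i = j then 1 else 0) {t' : Fin d → M}
    (ht' : IsTorus K' t') {K'' : Type*} [Field K''] [Algebra k K''] [Algebra K' K'']
    [IsScalarTower k K' K''] (s : (ι → Fin A.N) → K'') (hs : ∀ χ, s χ ≠ 0) {φ : L →ₗ[k] L'}
    (hφ : Function.Injective φ) (V : Submodule k L) (W : Submodule k K'') (c : ℕ)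
    (h : ∀ f ∈ V, ∃ G : (ι → Fin A.N) → MvPolynomial (Fin d) K',
      φ f = ∑ χ, MvPolynomial.aeval (tL L' t') (G χ) * A.mono χ ∧
      (∀ χ, G χ ≠ 0 → (χ A.o : ℕ) = 0 ∧ (G χ).totalDegree ≤ c) ∧
      ∀ χ α, algebraMap K' K'' ((G χ).coeff α) * s χ ∈ W) :
    sdim V ≤ ((A.N ^ Fintype.card ι * (c + 1) ^ d : ℕ) : ℕ∞) * sdim W := by
  classical
  have : CharZero K' := charZero_of_injective_algebraMap (algebraMap k K').injective
  have h' : ∀ f : V, ∃ G : (ι → Fin A.N) → MvPolynomial (Fin d) K',
      φ f = ∑ χ, MvPolynomial.aeval (tL L' t') (G χ) * A.mono χ ∧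
      (∀ χ, G χ ≠ 0 → (χ A.o : ℕ) = 0 ∧ (G χ).totalDegree ≤ c) ∧
      ∀ χ α, algebraMap K' K'' ((G χ).coeff α) * s χ ∈ W := fun f => h f.1 f.2
  choose G hG1 hG2 hG3 using h'
  have hadd : ∀ f g : V, G (f + g) = fun χ => G f χ + G g χ := by
    intro f g
    refine fam_indep A D hD ht' (fun χ hχ => (hG2 _ χ hχ).1) (fun χ hχ => ?_) ?_
    · by_cases h1 : G f χ = 0
      · refine (hG2 g χ fun h2 => hχ ?_).1
        rw [h1, h2, add_zero]
      · exact (hG2 f χ h1).1
    · rw [← hG1, Submodule.coe_add, map_add, hG1, hG1, ← Finset.sum_add_distrib]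
      exact Finset.sum_congr rfl fun χ _ => by rw [map_add, add_mul]
  have hsmul : ∀ (a : k) (f : V), G (a • f) =
      fun χ => MvPolynomial.C (algebraMap k K' a) * G f χ := by
    intro a f
    refine fam_indep A D hD ht' (fun χ hχ => (hG2 _ χ hχ).1) (fun χ hχ => ?_) ?_
    · refine (hG2 f χ fun h2 => hχ ?_).1
      rw [h2, mul_zero]
    · rw [← hG1, Submodule.coe_smul, map_smul, hG1, Algebra.smul_def, Finset.mul_sum]
      refine Finset.sum_congr rfl fun χ _ => ?_
      rw [map_mul, MvPolynomial.aeval_C, ← IsScalarTower.algebraMap_apply k K' L', mul_assoc]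
  let ex : (Fin d → Fin (c + 1)) → (Fin d →₀ ℕ) := fun α =>
    Finsupp.equivFunOnFinite.symm fun i => (α i : ℕ)
  let Fm : V →ₗ[k] (((ι → Fin A.N) × (Fin d → Fin (c + 1))) → W) :=
    { toFun := fun f x => ⟨algebraMap K' K'' ((G f x.1).coeff (ex x.2)) * s x.1, hG3 f x.1 _⟩
      map_add' := fun f g => by
        funext x
        apply Subtype.ext
        change algebraMap K' K'' ((G (f + g) x.1).coeff (ex x.2)) * s x.1 =
          algebraMap K' K'' ((G f x.1).coeff (ex x.2)) * s x.1 +
          algebraMap K' K'' ((G g x.1).coeff (ex x.2)) * s x.1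
        rw [hadd, MvPolynomial.coeff_add, map_add, add_mul]
      map_smul' := fun a f => by
        funext x
        apply Subtype.ext
        change algebraMap K' K'' ((G (a • f) x.1).coeff (ex x.2)) * s x.1 =
          a • (algebraMap K' K'' ((G f x.1).coeff (ex x.2)) * s x.1)
        rw [hsmul, MvPolynomial.coeff_C_mul, map_mul, ← IsScalarTower.algebraMap_apply k K' K'',
          Algebra.smul_def, mul_assoc] }
  have hFm : Function.Injective Fm := by
    intro f g hfg
    have h1 : G f = G g := by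
      funext χ
      ext α
      by_cases hα : ∑ i, α i ≤ c
      · have hα' : ∀ i, α i < c + 1 := fun i =>
          Nat.lt_succ_of_le ((Finset.single_le_sum (fun j _ => Nat.zero_le (α j))
            (Finset.mem_univ i)).trans hα)
        have h2 := congrArg Subtype.val (congrFun hfg (χ, fun i => ⟨α i, hα' i⟩))
        have h3 : ex (fun i => ⟨α i, hα' i⟩) = α := by
          ext i
          simp [ex]
        change algebraMap K' K'' ((G f χ).coeff (ex fun i => ⟨α i, hα' i⟩)) * s χ =
          algebraMap K' K'' ((G g χ).coeff (ex fun i => ⟨α i, hα' i⟩)) * s χ at h2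
        rw [h3] at h2
        exact (algebraMap K' K'').injective (mul_right_cancel₀ (hs χ) h2)
      · have hz : ∀ f : V, (G f χ).coeff α = 0 := by
          intro f
          by_cases h2 : G f χ = 0
          · rw [h2, MvPolynomial.coeff_zero]
          · apply MvPolynomial.coeff_eq_zero_of_totalDegree_lt
            refine lt_of_le_of_lt (hG2 f χ h2).2 ?_
            rw [Finset.sum_subset (Finset.subset_univ α.support)]
            · exact not_le.1 hα
            · intro i _ hi
              exact Finsupp.notMem_support_iff.1 hi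
        rw [hz, hz]
    have h2 := hG1 f
    rw [h1, ← hG1 g] at h2
    exact Subtype.ext (hφ h2)
  have h6 := sdim_le_card_mul
    ((Finsupp.linearEquivFunOnFinite k W
      ((ι → Fin A.N) × (Fin d → Fin (c + 1)))).symm.toLinearMap ∘ₗ Fm)
    ((Finsupp.linearEquivFunOnFinite k W
      ((ι → Fin A.N) × (Fin d → Fin (c + 1)))).symm.injective.comp hFm)
  have h7 : Fintype.card ((ι → Fin A.N) × (Fin d → Fin (c + 1))) =
      A.N ^ Fintype.card ι * (c + 1) ^ d := by
    rw [Fintype.card_prod, Fintype.card_fun, Fintype.card_fun, Fintype.card_fin,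
      Fintype.card_fin, Fintype.card_fin]
  rw [h7] at h6
  exact h6

end Pool.Agent.Helper92.HA
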