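import Pool.Agent.Helper92.HA.Defs
import Pool.Agent.Helper92.HA.Theta
import Pool.Agent.Helper92.HA.Exps

set_option autoImplicit false

/-!
# HA-09 Gamma: the values of the `l i` at good prime divisors

Let `S` be the set of the `i` for which there is a nonzero `γ ∈ K'` with `v (l i) = v γ` for all `v` over good
`P` (`W = True`). `o ∈ S` (`γ = 1`, `l o = 1`). If `b` and `b' = insert i (b.erase j)` are bases, `j ∈ b`, `i ∉ b`,
then `v (θ_b) = -μ_v = v (θ_b')` and `theta_val` give `v (l i) - v (l j) = v (cdet b') - v (cdet b)`, so `i ∈ S` iff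
`j ∈ S` (`γ_i = γ_j cdet b' / cdet b`). `connected` (Comb) with `l = A.co`, `δ = A.δ` (`rk_univ`, `A.lc`, `A.co_ne`,
`A.h > 0`): `S` is everything.
-/

namespace Pool.Agent.Helper92.HA

open Module Pool.Agent.Helper92.Weak Pool.Agent.Helper63.PB

variable {k K L K' M L' : Type*} [Field k] [Field K] [Field L] [Field K'] [Field M] [Field L']
  [Algebra k K] [Algebra k L] [Algebra k K'] [Algebra k M] [Algebra k L'] [Algebra K L]
  [Algebra K K'] [Algebra K L'] [Algebra L L'] [Algebra K' M] [Algebra K' L'] [Algebra M L']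
  [IsScalarTower k K L] [IsScalarTower k K K'] [IsScalarTower k K L'] [IsScalarTower k L L']
  [IsScalarTower k K' M] [IsScalarTower k K' L'] [IsScalarTower k M L'] [IsScalarTower K L L']
  [IsScalarTower K K' L'] [IsScalarTower K' M L'] [FiniteDimensional K K']
  [FiniteDimensional L L'] [FiniteDimensional M L'] [CharZero k] {d : ℕ}
  {X : ProjVar k L} {Z : ProjVar k K} {t : Fin d → M} {ι : Type*} [Fintype ι] [DecidableEq ι]

/-- The condition on one index. -/
private def HasGamma (F : DFrame X Z K' (tL L' t)) (A : Arr K' L' t ι) (Δ : X.Div) (E : Z.Div)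
    (i : ι) : Prop :=
  ∃ γ : K', γ ≠ 0 ∧ ∀ (P : X.primeDivisors) (Q : Z.primeDivisors) (e : ℕ),
    Good F A (fun _ => True) Δ E P Q e → ∀ (v : DVal k L') (ε : ℕ), LiesOver v P.1 ε →
      v (A.l i) = v (algebraMap K' L' γ)

private theorem val_diff (F : DFrame X Z K' (tL L' t)) (A : Arr K' L' t ι) (Δ : X.Div)
    (E : Z.Div) {b : Finset ι} {i j : ι} (hb : IsBase K' A.co b) (hj : j ∈ b) (hi : i ∉ b)
    (hb' : IsBase K' A.co (insert i (b.erase j))) {P : X.primeDivisors} {Q : Z.primeDivisors}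
    {e : ℕ} (hG : Good F A (fun _ => True) Δ E P Q e) {v : DVal k L'} {ε : ℕ}
    (hv : LiesOver v P.1 ε) :
    v (A.l i) + v (algebraMap K' L' (A.cdet b)) =
      v (A.l j) + v (algebraMap K' L' (A.cdet (insert i (b.erase j)))) := by
  have h1 := hG.2.2 v ε hv b hb trivial
  have h2 := hG.2.2 v ε hv _ hb' trivial
  rw [theta_val A v hb] at h1
  rw [theta_val A v hb'] at h2
  have hi' : i ∉ b.erase j := fun h => hi (Finset.mem_of_mem_erase h)
  rw [Finset.sum_insert hi'] at h2
  rw [← Finset.add_sum_erase b (fun i => v (A.l i)) hj] at h1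
  omega

private theorem hasGamma_iff (F : DFrame X Z K' (tL L' t)) (A : Arr K' L' t ι) (Δ : X.Div)
    (E : Z.Div) {b : Finset ι} {i j : ι} (hb : IsBase K' A.co b) (hj : j ∈ b) (hi : i ∉ b)
    (hb' : IsBase K' A.co (insert i (b.erase j))) : HasGamma F A Δ E i ↔ HasGamma F A Δ E j := by
  have hc : A.cdet b ≠ 0 := cdet_ne A hb
  have hc' : A.cdet (insert i (b.erase j)) ≠ 0 := cdet_ne A hb'
  have hinj : ∀ x : K', x ≠ 0 → algebraMap K' L' x ≠ 0 := fun x hx =>
    (map_ne_zero (algebraMap K' L')).2 hx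
  constructor
  · rintro ⟨γ, hγ, h⟩
    refine ⟨γ * A.cdet b * (A.cdet (insert i (b.erase j)))⁻¹,
      mul_ne_zero (mul_ne_zero hγ hc) (inv_ne_zero hc'), ?_⟩
    intro P Q e hG v ε hv
    have h1 := val_diff F A Δ E hb hj hi hb' hG hv
    have h2 := h P Q e hG v ε hv
    have h3 : v (algebraMap K' L' (γ * A.cdet b * (A.cdet (insert i (b.erase j)))⁻¹)) +
        v (algebraMap K' L' (A.cdet (insert i (b.erase j)))) =
        v (algebraMap K' L' γ) + v (algebraMap K' L' (A.cdet b)) := by
      rw [← v.map_mul (hinj _ (mul_ne_zero (mul_ne_zero hγ hc) (inv_ne_zero hc'))) (hinj _ hc'),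
        ← v.map_mul (hinj _ hγ) (hinj _ hc), ← map_mul, ← map_mul, mul_assoc,
        inv_mul_cancel₀ hc', mul_one]
    omega
  · rintro ⟨γ, hγ, h⟩
    refine ⟨γ * A.cdet (insert i (b.erase j)) * (A.cdet b)⁻¹,
      mul_ne_zero (mul_ne_zero hγ hc') (inv_ne_zero hc), ?_⟩
    intro P Q e hG v ε hv
    have h1 := val_diff F A Δ E hb hj hi hb' hG hv
    have h2 := h P Q e hG v ε hv
    have h3 : v (algebraMap K' L' (γ * A.cdet (insert i (b.erase j)) * (A.cdet b)⁻¹)) +
        v (algebraMap K' L' (A.cdet b)) =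
        v (algebraMap K' L' γ) + v (algebraMap K' L' (A.cdet (insert i (b.erase j)))) := by
      rw [← v.map_mul (hinj _ (mul_ne_zero (mul_ne_zero hγ hc') (inv_ne_zero hc))) (hinj _ hc),
        ← v.map_mul (hinj _ hγ) (hinj _ hc'), ← map_mul, ← map_mul, mul_assoc,
        inv_mul_cancel₀ hc, mul_one]
    omega

private theorem l_o (A : Arr K' L' t ι) : A.l A.o = 1 := by
  unfold Arr.l affine
  rw [A.co_o]
  simp

theorem exists_gamma (F : DFrame X Z K' (tL L' t)) (A : Arr K' L' t ι) (hh : 0 < A.h)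
    (Δ : X.Div) (E : Z.Div) : ∃ γ : ι → K', (∀ i, γ i ≠ 0) ∧ γ A.o = 1 ∧
      ∀ (P : X.primeDivisors) (Q : Z.primeDivisors) (e : ℕ),
        Good F A (fun _ => True) Δ E P Q e → ∀ (v : DVal k L') (ε : ℕ), LiesOver v P.1 ε →
          ∀ i, v (A.l i) = v (algebraMap K' L' (γ i)) := by
  classical
  have ho : HasGamma F A Δ E A.o := by
    refine ⟨1, one_ne_zero, fun P Q e _ v ε _ => ?_⟩
    rw [l_o, map_one]
  have hall : (Finset.univ.filter fun i => HasGamma F A Δ E i) = Finset.univ := by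
    refine connected (F := K') A.co A.δ A.co_ne ?_ ?_ _ ⟨A.o, by simp [ho]⟩ ?_
    · intro B hB
      refine A.lc B ?_
      rwa [rk_univ A] at hB
    · rw [rk_univ A]
      unfold Arr.h at hh
      push_cast
      linarith
    · intro b i j hb hj hi hb'
      simp only [Finset.mem_filter, Finset.mem_univ, true_and]
      exact hasGamma_iff F A Δ E hb hj hi hb'
  have hall' : ∀ i, HasGamma F A Δ E i := by
    intro i
    have : i ∈ (Finset.univ.filter fun i => HasGamma F A Δ E i) := by
      rw [hall]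
      exact Finset.mem_univ i
    exact (Finset.mem_filter.1 this).2
  choose γ hγ h using hall'
  refine ⟨fun i => if i = A.o then 1 else γ i, ?_, ?_, ?_⟩
  · intro i
    dsimp only
    split_ifs
    · exact one_ne_zero
    · exact hγ i
  · simp
  · intro P Q e hG v ε hv i
    dsimp only
    by_cases hi : i = A.o
    · rw [if_pos hi, hi, l_o, map_one]
    · rw [if_neg hi]
      exact h i P Q e hG v ε hv

end Pool.Agent.Helper92.HA
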