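import Pool.Agent.Helper92.HA.Defs
import Pool.Agent.Helper92.HA.Theta
import Pool.Agent.Helper63.PB.Finite

set_option autoImplicit false

/-!
# HA-08 GoodFinA: almost all prime divisors of `Z` have a good prime divisor over them

As PB-21 GoodFin. Each `Q` has some `P` over it (`F.surj`). For all `P` outside a finite set: `F.a P = 0`,
`Δ P = 0`, all `v` over `P` have `v u = 0`, `v (t j) = 0`, `v (θ_b) = 0` for all bases `b` (`finite_ne`), and
`F.c Q = 0`, `E Q = 0` for the `Q` under `P` (outside a finite set of `Q`). Then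
`μ = ε (1 - e)` (`F.mu`), and `F.star` for `g = tL L' t` (the matrix is the identity, determinant `1`):
`0 = v 1 ≥ ∑ v (t j) - μ = -μ`, so `μ ≥ 0` and `e ≤ 1`, `e = 1`, `μ = 0`: `P` is good. The finitely many
remaining `P` lie over finitely many `Q` (`finite_image`).
-/

namespace Pool.Agent.Helper92.HA

open Module Pool.Agent.Helper92.Weak Pool.Agent.Helper63.PB

variable {k K L K' M L' : Type*} [Field k] [Field K] [Field L] [Field K'] [Field M] [Field L']
  [Algebra k K] [Algebra k L] [Algebra k K'] [Algebra k M] [Algebra k L'] [Algebra K L]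
  [Algebra K K'] [Algebra K L'] [Algebra L L'] [Algebra K' M] [Algebra K' L'] [Algebra M L']
  [IsScalarTower k K L] [IsScalarTower k K K'] [IsScalarTower k K L'] [IsScalarTower k L L']
  [IsScalarTower k K' M] [IsScalarTower k K' L'] [IsScalarTower k M L'] [IsScalarTower K L L']
  [IsScalarTower K K' L'] [IsScalarTower K' M L'] [FiniteDimensional K K']
  [FiniteDimensional L L'] [FiniteDimensional M L'] [CharZero k] {d : ℕ}
  {X : ProjVar k L} {Z : ProjVar k K} {t : Fin d → M} {ι : Type*} [Fintype ι] [DecidableEq ι]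

theorem finite_not_goodA (F : DFrame X Z K' (tL L' t)) (A : Arr K' L' t ι)
    (W : Finset ι → Prop) (Δ : X.Div) (E : Z.Div) :
    {Q : Z.primeDivisors | ¬ ∃ (P : X.primeDivisors) (e : ℕ), Good F A W Δ E P Q e}.Finite := by
  classical
  set T₁ : Set X.primeDivisors := {P | Δ P ≠ 0} with hT₁
  set T₂ : Set X.primeDivisors := {P | F.a P ≠ 0} with hT₂
  set T₃ : Set X.primeDivisors :=
    {P | ∃ (v : DVal k L') (ε : ℕ), LiesOver v P.1 ε ∧ v F.u ≠ 0} with hT₃
  set T₄ : Set X.primeDivisors := ⋃ b : Finset ι,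
    {P | IsBase K' A.co b ∧ ∃ (v : DVal k L') (ε : ℕ), LiesOver v P.1 ε ∧ v (A.theta b) ≠ 0} with hT₄
  set T₅ : Set X.primeDivisors := ⋃ j : Fin d,
    {P | ∃ (v : DVal k L') (ε : ℕ), LiesOver v P.1 ε ∧ v (tL L' t j) ≠ 0} with hT₅
  have h1 : T₁.Finite := Δ.finite_support
  have h2 : T₂.Finite := F.a.finite_support
  have h3 : T₃.Finite := finite_ne X F.u_ne
  have h4 : T₄.Finite := by
    refine Set.finite_iUnion fun b => ?_
    by_cases hb : IsBase K' A.co b
    · exact (finite_ne X (theta_ne A hb)).subset fun P hP => hP.2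
    · exact Set.finite_empty.subset fun P hP => absurd hP.1 hb
  have h5 : T₅.Finite := Set.finite_iUnion fun j => finite_ne X (F.indep.ne_zero j)
  have h6 := finite_image Z ((((h1.union h2).union h3).union h4).union h5)
  refine ((h6.union E.finite_support).union F.c.finite_support).subset fun Q hQ => ?_
  by_contra hcon
  rw [Set.mem_union, Set.mem_union, not_or, not_or] at hcon
  obtain ⟨⟨hc1, hc2⟩, hc3⟩ := hcon
  apply hQ
  obtain ⟨P₀, hP₀, e, hPQ⟩ := F.surj Q.1 Q.2
  obtain ⟨P, hP⟩ : ∃ P : X.primeDivisors, P.1 = P₀ := ⟨⟨P₀, hP₀⟩, rfl⟩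
  rw [← hP] at hPQ
  have hPT : P ∉ (((T₁ ∪ T₂) ∪ T₃) ∪ T₄) ∪ T₅ := fun h => hc1 ⟨P, h, e, hPQ⟩
  simp only [Set.mem_union, not_or] at hPT
  obtain ⟨⟨⟨⟨hn1, hn2⟩, hn3⟩, hn4⟩, hn5⟩ := hPT
  have hΔ : Δ P = 0 := by
    by_contra h
    exact hn1 h
  have ha : F.a P = 0 := by
    by_contra h
    exact hn2 h
  have hE : E Q = 0 := by
    by_contra h
    exact hc2 h
  have hc : F.c Q = 0 := by
    by_contra h
    exact hc3 h
  have hu : ∀ (v : DVal k L') (ε : ℕ), LiesOver v P.1 ε → v F.u = 0 := by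
    intro v ε hv
    by_contra h
    exact hn3 ⟨v, ε, hv, h⟩
  have hth : ∀ (v : DVal k L') (ε : ℕ), LiesOver v P.1 ε → ∀ b, IsBase K' A.co b →
      v (A.theta b) = 0 := by
    intro v ε hv b hb
    by_contra h
    exact hn4 (Set.mem_iUnion.2 ⟨b, hb, v, ε, hv, h⟩)
  have ht : ∀ (v : DVal k L') (ε : ℕ), LiesOver v P.1 ε → ∀ j, v (tL L' t j) = 0 := by
    intro v ε hv j
    by_contra h
    exact hn5 (Set.mem_iUnion.2 ⟨j, v, ε, hv, h⟩)
  have he : e = 1 := by
    obtain ⟨v, ε, hv⟩ := Helper47.PQ.exists_over L' P.1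
    have hstar := F.star P Q e hPQ v ε hv (tL L' t) fun j => F.indep.ne_zero j
    have hmat : (Matrix.of fun i j => F.D i (tL L' t j)) = 1 := by
      ext i j
      rw [Matrix.of_apply, F.D_t, Matrix.one_apply]
    rw [hmat, Matrix.det_one, ha, hc, hu v ε hv, DVal.ge_iff one_ne_zero, DVal.map_one] at hstar
    have hsum : ∑ j, v (tL L' t j) = 0 := Finset.sum_eq_zero fun j _ => ht v ε hv j
    rw [hsum] at hstar
    have h7 : (0 - ((ε : ℤ) * (0 + 1 - e * (0 + 1)) - 0) : ℤ) ≤ 0 := by exact_mod_cast hstar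
    have h8 : (0 : ℤ) < ε := by exact_mod_cast hv.1
    have h9 : 0 < e := hPQ.1
    by_contra hne
    have h10 : (2 : ℤ) ≤ e := by
      have : 2 ≤ e := by omega
      exact_mod_cast this
    nlinarith
  refine ⟨P, e, hPQ, ?_, ?_⟩
  · rw [hΔ, hE, he]
    norm_num
  · intro v ε hv b hb _
    rw [hth v ε hv b hb]
    unfold DFrame.mu
    rw [ha, hc, hu v ε hv, he]
    ring

end Pool.Agent.Helper92.HA
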