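import Pool.Agent.Helper92.HA.Defs
import Pool.Agent.Helper92.HA.Kill

set_option autoImplicit false

/-!
# HA-24 NegA: `h < 0`

`M₀` a common denominator of the `δ i`, `w_i = M₀ δ_i`, `J = M₀ h < 0`, `κ₀ = 1`: `exists_poly_of_secA`. For `q` with
`q J + c_A < 0` all `G_χ = 0`, so `f (u^M₀ Ψ)^q g(t) = 0` and `f = 0`.
-/

namespace Pool.Agent.Helper92.HA

open Module Pool.Agent.Helper92.Weak Pool.Agent.Helper63.PB

variable {k K L K' M L' : Type*} [Field k] [Field K] [Field L] [Field K'] [Field M] [Field L']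
  [Algebra k K] [Algebra k L] [Algebra k K'] [Algebra k M] [Algebra k L'] [Algebra K L]
  [Algebra K K'] [Algebra K L'] [Algebra L L'] [Algebra K' M] [Algebra K' L'] [Algebra M L']
  [IsScalarTower k K L] [IsScalarTower k K K'] [IsScalarTower k K L'] [IsScalarTower k L L']
  [IsScalarTower k K' M] [IsScalarTower k K' L'] [IsScalarTower k M L'] [IsScalarTower K L L']
  [IsScalarTower K K' L'] [IsScalarTower K' M L'] [FiniteDimensional K K']
  [FiniteDimensional L L'] [FiniteDimensional M L'] [CharZero k] {d : ℕ}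
  {X : ProjVar k L} {Z : ProjVar k K} {t : Fin d → M} {ι : Type*} [Fintype ι] [DecidableEq ι]

private theorem exists_denA {ι : Type*} [Fintype ι] (δ : ι → ℚ) (hδ : ∀ i, 0 < δ i) :
    ∃ (M₀ : ℕ) (w : ι → ℕ), 0 < M₀ ∧ ∀ i, (w i : ℚ) = M₀ * δ i := by
  classical
  refine ⟨∏ i, (δ i).den, fun i => (δ i).num.toNat * ∏ j ∈ Finset.univ.erase i, (δ j).den,
    Finset.prod_pos fun i _ => (δ i).den_pos, fun i => ?_⟩
  have h1 : ∏ j, (δ j).den = (δ i).den * ∏ j ∈ Finset.univ.erase i, (δ j).den :=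
    (Finset.mul_prod_erase _ _ (Finset.mem_univ i)).symm
  have h2 : ((δ i).num.toNat : ℚ) = (δ i).num := by
    have h3 : (0 : ℤ) ≤ (δ i).num := (Rat.num_pos.2 (hδ i)).le
    have h4 : ((δ i).num.toNat : ℤ) = (δ i).num := Int.toNat_of_nonneg h3
    exact_mod_cast congrArg (fun z : ℤ => (z : ℚ)) h4
  rw [h1]
  push_cast
  rw [h2]
  have h5 : ((δ i).den : ℚ) * δ i = (δ i).num := by
    rw [mul_comm]
    exact Rat.mul_den_eq_num (δ i)
  calc ((δ i).num : ℚ) * ∏ j ∈ Finset.univ.erase i, ((δ j).den : ℚ)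
      = (((δ i).den : ℚ) * δ i) * ∏ j ∈ Finset.univ.erase i, ((δ j).den : ℚ) := by rw [h5]
    _ = _ := by ring

theorem negA {F : DFrame X Z K' (tL L' t)} {A : Arr K' L' t ι} {Δ : X.Div}
    (H : HorArr F A Δ) (hh : A.h < 0) : ∃ M₀ : ℕ, 0 < M₀ ∧ ∀ AX : X.Div, ∃ q₀ : ℕ, ∀ q ≥ q₀,
      X.H0 (((q * M₀ : ℕ) : ℚ) • (F.aD + Δ) + AX) = ⊥ := by
  obtain ⟨M₀, w, hM, hw⟩ := exists_denA A.δ A.δ_pos
  refine ⟨M₀, hM, fun AX => ?_⟩
  set J : ℤ := ∑ i, (w i : ℤ) - M₀ * (d + 1) with hJd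
  have hJ : (J : ℚ) = M₀ * A.h := by
    rw [hJd, Arr.h]
    push_cast
    rw [Finset.sum_congr rfl fun i _ => hw i, ← Finset.mul_sum]
    ring
  have hJneg : J < 0 := by
    have h1 : (J : ℚ) < 0 := by
      rw [hJ]
      exact mul_neg_of_pos_of_neg (by exact_mod_cast hM) hh
    exact_mod_cast h1
  obtain ⟨g, cA, hg0, -, hg⟩ := exists_poly_of_secA H hw hJ (one_ne_zero (α := K')) AX
  refine ⟨cA + 1, fun q hq => ?_⟩
  rw [Submodule.eq_bot_iff]
  intro f hf
  obtain ⟨G, hG1, hG2⟩ := hg q f hf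
  have hG0 : ∀ χ, G χ = 0 := by
    intro χ
    by_contra hne
    have h1 := (hG2 χ hne).2
    have h2 : (0 : ℤ) ≤ A.N * (G χ).totalDegree + ∑ i, (χ i : ℕ) := by positivity
    have h3 : (q : ℤ) * J + cA < 0 := by
      have h4 : (q : ℤ) * J ≤ q * (-1) := mul_le_mul_of_nonneg_left (by omega) (by positivity)
      have h5 : ((cA + 1 : ℕ) : ℤ) ≤ q := by exact_mod_cast hq
      push_cast at h5
      linarith
    have h6 : (A.N : ℤ) * (q * J + cA) < 0 :=
      mul_neg_of_pos_of_neg (by exact_mod_cast A.N_pos) h3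
    linarith
  simp only [hG0, map_zero, zero_mul, Finset.sum_const_zero] at hG1
  have hgne : MvPolynomial.aeval (tL L' t) g ≠ 0 := by
    intro h
    apply hg0
    apply F.indep
    rw [h, map_zero]
  have hΨ : F.u ^ M₀ * (algebraMap K' L' 1 * ∏ i, A.l i ^ w i) ≠ 0 := by
    refine mul_ne_zero (pow_ne_zero _ F.u_ne) (mul_ne_zero ?_ ?_)
    · rw [map_one]
      exact one_ne_zero
    · exact Finset.prod_ne_zero_iff.2 fun i _ => pow_ne_zero _ (l_ne A i)
  rcases mul_eq_zero.1 hG1 with h | h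
  · rcases mul_eq_zero.1 h with h' | h'
    · exact (map_eq_zero _).1 h'
    · exact absurd h' (pow_ne_zero _ hΨ)
  · exact absurd h hgne

end Pool.Agent.Helper92.HA
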