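import Pool.Agent.Helper92.HA.Gauss
import Pool.Agent.Helper92.HA.KumUFD
import Pool.Agent.Helper60.PB.Kummer

/-!
# HA-12 KumRed: reduction of polynomials modulo a valuation

`Q'.ring` is a local ring with residue field `κ` (instance and `residue_eq_zero_iff'` in
Helper60/PB/Kummer). Hypotheses: `v` over `Q'`, `v (t j) = 0`, the derivations `D j` do not lower `v`, so
`coeff_bound` with `c = c' = 0` says: `v.Ge m (F(t)) → v.Ge m (coefficients)`.

`ge_one_iff`. For `F` with coefficients in `Q'.ring`: `v (F(t)) ≥ 1` iff all coefficients have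
`v ≥ 1` (`coeff_bound`; the converse by `Ge.sum`, `Ge.prod`), iff all coefficients have `Q' ≥ 1`
(`v = e Q'` on `K'`; `v` of a coefficient is a multiple of `e`), iff the reduction is `0`.

`red_ratio`. `A(t), B(t)` are `v`-units (their reductions are nonzero, `ge_one_iff`), and
`D j (A(t) / B(t)) = (B(t) D j A(t) - A(t) D j B(t)) / B(t)^2` has value `≥ 1`, so
`(B ∂_j A - A ∂_j B)(t)` has value `≥ 1` (`deriv_aeval`) and its reduction is zero: `eq_const_mul`.
-/

set_option autoImplicit false

namespace Pool.Agent.Helper92.HA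

open Module Pool.Agent.Helper92.Weak Pool.Agent.Helper60.PB


variable {k K' E : Type*} [Field k] [Field K'] [Field E] [Algebra k K'] [Algebra k E]
  [Algebra K' E] [IsScalarTower k K' E] [CharZero k] {d : ℕ}

/-- A polynomial over the valuation ring, as a polynomial over the field. -/
noncomputable def liftP (Q' : DVal k K') (F : MvPolynomial (Fin d) Q'.ring) :
    MvPolynomial (Fin d) K' :=
  F.map (algebraMap Q'.ring K')

/-- Its reduction. -/
noncomputable def redP (Q' : DVal k K') (F : MvPolynomial (Fin d) Q'.ring) :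
    MvPolynomial (Fin d) (IsLocalRing.ResidueField Q'.ring) :=
  F.map (IsLocalRing.residue Q'.ring)

omit [CharZero k] in
private theorem redP_eq_zero_iff (Q' : DVal k K') (F : MvPolynomial (Fin d) Q'.ring) :
    redP Q' F = 0 ↔ ∀ α, Q'.Ge 1 ((liftP Q' F).coeff α) := by
  constructor
  · intro h α
    have h1 : (redP Q' F).coeff α = 0 := by rw [h, MvPolynomial.coeff_zero]
    unfold redP at h1
    rw [MvPolynomial.coeff_map, residue_eq_zero_iff'] at h1
    unfold liftP
    rw [MvPolynomial.coeff_map]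
    exact h1
  · intro h
    ext α
    unfold redP
    rw [MvPolynomial.coeff_map, MvPolynomial.coeff_zero, residue_eq_zero_iff']
    have h1 := h α
    unfold liftP at h1
    rw [MvPolynomial.coeff_map] at h1
    exact h1

omit [Algebra k K'] [IsScalarTower k K' E] [CharZero k] in
private theorem ge_aeval (v : DVal k E) (t : Fin d → E) (ht : ∀ j, v (t j) = 0) (q : ℚ)
    (G : MvPolynomial (Fin d) K') (h : ∀ α, v.Ge q (algebraMap K' E (G.coeff α))) :
    v.Ge q (MvPolynomial.aeval t G) := by
  rw [MvPolynomial.aeval_eq_eval₂Hom, MvPolynomial.coe_eval₂Hom, MvPolynomial.eval₂_eq']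
  refine DVal.Ge.sum fun α _ => ?_
  have h1 : v.Ge (∑ j, (α j : ℚ) * 0) (∏ j, t j ^ α j) :=
    Ge.prod fun j _ => Ge.pow (Or.inr (by rw [ht j]; simp)) (α j)
  have h2 := (h α).mul h1
  rwa [Finset.sum_eq_zero fun j _ => mul_zero _, add_zero] at h2

theorem ge_one_iff (v : DVal k E) {Q' : DVal k K'} {e : ℕ} (hv : LiesOver v Q' e)
    (t : Fin d → E) (D : Fin d → Derivation K' E E)
    (hD : ∀ i j, D i (t j) = if i = j then 1 else 0) (ht : ∀ j, v (t j) = 0)
    (hDv : ∀ (i : Fin d) (m : ℚ) (g : E), v.Ge m g → v.Ge m (D i g))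
    (F : MvPolynomial (Fin d) Q'.ring) :
    v.Ge 1 (MvPolynomial.aeval t (liftP Q' F)) ↔ redP Q' F = 0 := by
  rw [redP_eq_zero_iff]
  constructor
  · intro h α
    have h1 := coeff_bound v t D hD 0 0 le_rfl le_rfl
      (fun i g m hg => by rw [sub_zero]; exact hDv i m g hg)
      (fun j => Or.inr (by rw [ht j]; simp)) _ (liftP Q' F) le_rfl 1 h α
    simp only [mul_zero, add_zero, sub_zero] at h1
    exact ge_one_of_ge_one hv h1
  · intro h
    refine ge_aeval v t ht 1 _ fun α => ?_
    rcases h α with h1 | h1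
    · left
      rw [h1, map_zero]
    · right
      rw [hv.2]
      have h3 : (1 : ℤ) ≤ Q' ((liftP Q' F).coeff α) := by exact_mod_cast h1
      have h4 : (1 : ℤ) ≤ e := by exact_mod_cast hv.1
      have h5 : (1 : ℤ) ≤ e * Q' ((liftP Q' F).coeff α) := by nlinarith
      exact_mod_cast h5

omit [CharZero k] in
private theorem ge_zero_aeval (v : DVal k E) {Q' : DVal k K'} {e : ℕ} (hv : LiesOver v Q' e)
    (t : Fin d → E) (ht : ∀ j, v (t j) = 0) (F : MvPolynomial (Fin d) Q'.ring) :
    v.Ge 0 (MvPolynomial.aeval t (liftP Q' F)) := by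
  refine ge_aeval v t ht 0 _ fun α => ?_
  right
  rw [hv.2]
  unfold liftP
  rw [MvPolynomial.coeff_map]
  have h1 : 0 ≤ Q' ((algebraMap Q'.ring K') (F.coeff α)) := (F.coeff α).2
  have h2 : 0 ≤ (e : ℤ) * Q' ((algebraMap Q'.ring K') (F.coeff α)) :=
    mul_nonneg (Int.natCast_nonneg e) h1
  exact_mod_cast h2

private theorem charZero_residue {k K' : Type*} [Field k] [Field K'] [Algebra k K'] [CharZero k]
    (Q' : DVal k K') : CharZero (IsLocalRing.ResidueField Q'.ring) := by
  have h : Function.Injective (algebraMap k (IsLocalRing.ResidueField Q'.ring)) :=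
    (algebraMap k (IsLocalRing.ResidueField Q'.ring)).injective
  exact charZero_of_injective_algebraMap h

theorem red_ratio (v : DVal k E) {Q' : DVal k K'} {e : ℕ} (hv : LiesOver v Q' e)
    (t : Fin d → E) (D : Fin d → Derivation K' E E)
    (hD : ∀ i j, D i (t j) = if i = j then 1 else 0) (ht : ∀ j, v (t j) = 0)
    (hDv : ∀ (i : Fin d) (m : ℚ) (g : E), v.Ge m g → v.Ge m (D i g))
    {A B : MvPolynomial (Fin d) Q'.ring} (hA : redP Q' A ≠ 0) (hB : redP Q' B ≠ 0)
    (h : ∀ j, v.Ge 1 (D j (MvPolynomial.aeval t (liftP Q' A) /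
      MvPolynomial.aeval t (liftP Q' B)))) :
    ∃ c : IsLocalRing.ResidueField Q'.ring, c ≠ 0 ∧ MvPolynomial.C c * redP Q' B = redP Q' A := by
  have hcz := charZero_residue Q'
  refine eq_const_mul hA hB fun j => ?_
  have hBn : ¬ v.Ge 1 (MvPolynomial.aeval t (liftP Q' B)) := by
    rw [ge_one_iff v hv t D hD ht hDv]
    exact hB
  have hb0 : MvPolynomial.aeval t (liftP Q' B) ≠ 0 := fun h0 => hBn (Or.inl h0)
  have h1 := h j
  rw [Derivation.leibniz_div, smul_eq_mul, smul_eq_mul, smul_eq_mul] at h1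
  have h2 : v.Ge 0 (MvPolynomial.aeval t (liftP Q' B) ^ 2) := by
    have := Ge.pow (ge_zero_aeval v hv t ht B) 2
    rwa [mul_zero] at this
  have h3 := h2.mul h1
  rw [zero_add, ← mul_assoc, ← mul_pow, mul_inv_cancel₀ hb0, one_pow, one_mul,
    deriv_aeval t j (D j) (hD j), deriv_aeval t j (D j) (hD j), ← map_mul, ← map_mul,
    ← map_sub] at h3
  have h4 : liftP Q' B * MvPolynomial.pderiv j (liftP Q' A) -
      liftP Q' A * MvPolynomial.pderiv j (liftP Q' B) =
      liftP Q' (B * MvPolynomial.pderiv j A - A * MvPolynomial.pderiv j B) := by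
    unfold liftP
    rw [map_sub, map_mul, map_mul, MvPolynomial.pderiv_map, MvPolynomial.pderiv_map]
  rw [h4, ge_one_iff v hv t D hD ht hDv] at h3
  unfold redP at h3 ⊢
  rw [map_sub, map_mul, map_mul, sub_eq_zero] at h3
  rw [MvPolynomial.pderiv_map, MvPolynomial.pderiv_map]
  exact h3

/-- Every nonzero polynomial is a constant times a polynomial over the valuation ring with nonzero
reduction. -/
theorem exists_primitive (Q' : DVal k K') {F : MvPolynomial (Fin d) K'} (hF : F ≠ 0) :
    ∃ (c : K') (F' : MvPolynomial (Fin d) Q'.ring), c ≠ 0 ∧ F = MvPolynomial.C c * liftP Q' F' ∧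
      redP Q' F' ≠ 0 := by
  classical
  have hne : F.support.Nonempty := by
    rw [Finset.nonempty_iff_ne_empty, Ne, MvPolynomial.support_eq_empty]
    exact hF
  obtain ⟨α₀, hα₀, hmin⟩ := Finset.exists_min_image F.support (fun α => Q' (F.coeff α)) hne
  rw [MvPolynomial.mem_support_iff] at hα₀
  set c := F.coeff α₀ with hc
  have hmem : ∀ α, c⁻¹ * F.coeff α ∈ Q'.ring := by
    intro α
    rw [DVal.mem_ring]
    by_cases hα : F.coeff α = 0
    · rw [hα, mul_zero, DVal.map_zero]
    · rw [Q'.map_mul (inv_ne_zero hα₀) hα, Q'.map_inv]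
      have := hmin α (MvPolynomial.mem_support_iff.2 hα)
      omega
  have hrange : MvPolynomial.C c⁻¹ * F ∈ Set.range (MvPolynomial.map (algebraMap Q'.ring K') :
      MvPolynomial (Fin d) Q'.ring → MvPolynomial (Fin d) K') := by
    rw [MvPolynomial.mem_range_map_iff_coeffs_subset]
    intro x hx
    rw [Finset.mem_coe, MvPolynomial.mem_coeffs_iff] at hx
    obtain ⟨α, -, rfl⟩ := hx
    rw [MvPolynomial.coeff_C_mul]
    exact ⟨⟨_, hmem α⟩, rfl⟩
  obtain ⟨F', hF'⟩ := hrange
  refine ⟨c, F', hα₀, ?_, ?_⟩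
  · unfold liftP
    rw [hF', ← mul_assoc, ← map_mul, mul_inv_cancel₀ hα₀, map_one, one_mul]
  · intro h0
    rw [redP_eq_zero_iff] at h0
    have h1 := h0 α₀
    unfold liftP at h1
    rw [hF', MvPolynomial.coeff_C_mul, ← hc, inv_mul_cancel₀ hα₀] at h1
    rcases h1 with h1 | h1
    · exact one_ne_zero h1
    · rw [DVal.map_one] at h1
      norm_num at h1

end Pool.Agent.Helper92.HA
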