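import Mathlib
import Pool.Agent.Helper92.Weak.Defs

/-!
# Independence modulo a valuation, through derivations
-/

set_option autoImplicit false

open Module

namespace Pool.Agent.Helper92.HA

open Pool.Agent.Helper92.Weak

variable {k L : Type*} [Field k] [Field L] [Algebra k L]

/-- Let `D j` be derivations of `L` which do not lower the valuation `v`, and let `M` be a subfield
stable under them.  Let `y i` be elements of `L` whose logarithmic derivatives are in `M`, and such
that no `w = c y i / y i'` (`c ∈ M`, `i ≠ i'`) is a `v`-unit all of whose derivatives are positive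
at `v`.  Then the `y i` are independent over `M` modulo `v`. -/
theorem indep_mod {J κ : Type*} (v : DVal k L) (D : J → Derivation k L L)
    (hD : ∀ j (g : L) (m : ℚ), v.Ge m g → v.Ge m (D j g)) (M : Subfield L)
    (hM : ∀ j, ∀ c ∈ M, D j c ∈ M) (y : κ → L) (hy : ∀ i, y i ≠ 0)
    (hyM : ∀ j i, D j (y i) / y i ∈ M)
    (hne : ∀ i i', i ≠ i' → ∀ c ∈ M, c ≠ 0 → v (c * y i / y i') = 0 →
      ¬ ∀ j, v.Ge 1 (D j (c * y i / y i'))) :
    ∀ (s : Finset κ) (c : κ → L), (∀ i ∈ s, c i ∈ M) → ∀ m : ℚ,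
      v.Ge m (∑ i ∈ s, c i * y i) → ∀ i ∈ s, v.Ge m (c i * y i) := by
  classical
  intro s
  induction s using Finset.strongInduction with
  | H s ih =>
    intro c hc m hm i hi
    -- reduce to the case of nonzero coefficients
    by_cases hz : ∃ i₀ ∈ s, c i₀ = 0
    · obtain ⟨i₀, hi₀, hci₀⟩ := hz
      by_cases hii : i = i₀
      · subst hii
        rw [hci₀, zero_mul]; exact DVal.Ge.zero
      · refine ih (s.erase i₀) (Finset.erase_ssubset hi₀) c
          (fun i hi => hc i (Finset.mem_of_mem_erase hi)) m ?_ i (Finset.mem_erase.2 ⟨hii, hi⟩)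
        rwa [← Finset.add_sum_erase _ _ hi₀, hci₀, zero_mul, zero_add] at hm
    push Not at hz
    by_contra hcon
    -- an index with the smallest value
    obtain ⟨i₀, hi₀, hmin⟩ := Finset.exists_min_image s (fun i => v (c i * y i)) ⟨i, hi⟩
    have hne0 : ∀ i ∈ s, c i * y i ≠ 0 := fun i hi => mul_ne_zero (hz i hi) (hy i)
    have hlt : (v (c i₀ * y i₀) : ℚ) < m := by
      have h1 : ¬ (m ≤ (v (c i * y i) : ℚ)) := fun h => hcon (Or.inr h)
      have h2 : (v (c i₀ * y i₀) : ℚ) ≤ v (c i * y i) := by exact_mod_cast hmin i hi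
      linarith
    -- another index with the same value
    obtain ⟨i₁, hi₁, hi₁₀, hval⟩ : ∃ i₁ ∈ s, i₁ ≠ i₀ ∧ v (c i₁ * y i₁) = v (c i₀ * y i₀) := by
      by_contra h
      push Not at h
      have h1 : ∀ i ∈ s.erase i₀, v.Ge ((v (c i₀ * y i₀) : ℚ) + 1) (c i * y i) := by
        intro i hi
        rw [Finset.mem_erase] at hi
        have h2 := hmin i hi.2
        have h3 := h i hi.2 hi.1
        right
        have : v (c i₀ * y i₀) + 1 ≤ v (c i * y i) := by omega
        exact_mod_cast this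
      have h2 := DVal.Ge.sum h1
      have h3 : c i₀ * y i₀ = ∑ i ∈ s, c i * y i - ∑ i ∈ s.erase i₀, c i * y i := by
        rw [← Finset.add_sum_erase _ _ hi₀]; ring
      have h4 : ((v (c i₀ * y i₀) : ℚ)) + 1 ≤ m ∨ m < (v (c i₀ * y i₀) : ℚ) + 1 := le_or_gt _ _
      have h5 : v.Ge (min m ((v (c i₀ * y i₀) : ℚ) + 1)) (c i₀ * y i₀) := by
        conv_rhs => rw [h3]
        exact (hm.mono (min_le_left _ _)).sub (h2.mono (min_le_right _ _))
      rw [DVal.ge_iff (hne0 i₀ hi₀)] at h5
      rcases min_choice m ((v (c i₀ * y i₀) : ℚ) + 1) with h6 | h6 <;> rw [h6] at h5 <;> linarith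
    -- the logarithmic derivatives
    have hlog : ∀ j, ∀ i ∈ s, D j (c i * y i) / (c i * y i) ∈ M := by
      intro j i hi
      have h1 : D j (c i * y i) / (c i * y i) = D j (c i) / c i + D j (y i) / y i := by
        rw [Derivation.leibniz, smul_eq_mul, smul_eq_mul]
        have := hz i hi
        have := hy i
        field_simp
        ring
      rw [h1]
      exact M.add_mem (M.div_mem (hM j _ (hc i hi)) (hc i hi)) (hyM j i)
    have key : ∀ j, v.Ge m ((D j (c i₁ * y i₁) / (c i₁ * y i₁) -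
        D j (c i₀ * y i₀) / (c i₀ * y i₀)) * (c i₁ * y i₁)) := by
      intro j
      let c' : κ → L := fun i => (D j (c i * y i) / (c i * y i) -
        D j (c i₀ * y i₀) / (c i₀ * y i₀)) * c i
      have h1 : v.Ge m (∑ i ∈ s.erase i₀, c' i * y i) := by
        have h2 : ∑ i ∈ s.erase i₀, c' i * y i = D j (∑ i ∈ s, c i * y i) -
            D j (c i₀ * y i₀) / (c i₀ * y i₀) * ∑ i ∈ s, c i * y i := by
          have h3 : ∑ i ∈ s.erase i₀, c' i * y i = ∑ i ∈ s, c' i * y i := by
            rw [← Finset.add_sum_erase _ _ hi₀]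
            simp [c']
          rw [h3, map_sum, Finset.mul_sum, ← Finset.sum_sub_distrib]
          refine Finset.sum_congr rfl fun i hi => ?_
          simp only [c']
          rw [sub_mul, sub_mul, mul_assoc, mul_assoc, div_mul_cancel₀ _ (hne0 i hi)]
        rw [h2]
        refine (hD j _ m hm).sub ?_
        have h4 : v.Ge 0 (D j (c i₀ * y i₀) / (c i₀ * y i₀)) := by
          have h5 := hD j (c i₀ * y i₀) _ (DVal.ge_self _)
          have h6 : v.Ge (-(v (c i₀ * y i₀) : ℚ)) (c i₀ * y i₀)⁻¹ := by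
            right
            rw [v.map_inv]; push_cast; exact le_rfl
          have h7 := h5.mul h6
          rwa [add_neg_cancel, ← div_eq_mul_inv] at h7
        have h5 := h4.mul hm
        rwa [zero_add] at h5
      have h2 := ih (s.erase i₀) (Finset.erase_ssubset hi₀) c' (fun i hi => by
        rw [Finset.mem_erase] at hi
        exact M.mul_mem (M.sub_mem (hlog j i hi.2) (hlog j i₀ hi₀)) (hc i hi.2)) m h1 i₁
        (Finset.mem_erase.2 ⟨hi₁₀, hi₁⟩)
      simp only [c'] at h2
      rwa [mul_assoc] at h2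
    -- the ratio
    have hcc : c i₁ / c i₀ * y i₁ / y i₀ = (c i₁ * y i₁) / (c i₀ * y i₀) := by
      have := hz i₀ hi₀
      have := hy i₀
      field_simp
    refine hne i₁ i₀ hi₁₀ (c i₁ / c i₀) (M.div_mem (hc _ hi₁) (hc _ hi₀))
      (div_ne_zero (hz _ hi₁) (hz _ hi₀)) ?_ fun j => ?_
    · rw [hcc, v.map_div (hne0 _ hi₁) (hne0 _ hi₀), hval, sub_self]
    · rw [hcc]
      have h1 : D j ((c i₁ * y i₁) / (c i₀ * y i₀)) = (D j (c i₁ * y i₁) / (c i₁ * y i₁) -
          D j (c i₀ * y i₀) / (c i₀ * y i₀)) * (c i₁ * y i₁) * (c i₀ * y i₀)⁻¹ := by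
        have aux : ∀ (A B DA DB : L), A ≠ 0 → B ≠ 0 →
            B⁻¹ ^ 2 * (B * DA - A * DB) = (DA / A - DB / B) * A * B⁻¹ := by
          intro A B DA DB hA hB
          field_simp
        rw [Derivation.leibniz_div]
        simp only [smul_eq_mul]
        exact aux _ _ _ _ (hne0 _ hi₁) (hne0 _ hi₀)
      rw [h1]
      have h2 : v.Ge (-(v (c i₀ * y i₀) : ℚ)) (c i₀ * y i₀)⁻¹ := by
        right
        rw [v.map_inv]; push_cast; exact le_rfl
      have h3 := (key j).mul h2
      rcases h3 with h3 | h3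
      · exact Or.inl h3
      · right
        have h4 : (0 : ℚ) < v ((D j (c i₁ * y i₁) / (c i₁ * y i₁) -
          D j (c i₀ * y i₀) / (c i₀ * y i₀)) * (c i₁ * y i₁) * (c i₀ * y i₀)⁻¹) := by linarith
        have h5 : 0 < v ((D j (c i₁ * y i₁) / (c i₁ * y i₁) -
          D j (c i₀ * y i₀) / (c i₀ * y i₀)) * (c i₁ * y i₁) * (c i₀ * y i₀)⁻¹) := by
          exact_mod_cast h4
        exact_mod_cast Int.add_one_le_iff.2 h5

end Pool.Agent.Helper92.HA
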