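import Pool.Agent.Helper92.HA.Defs
import Pool.Agent.Helper92.HA.Theta
import Pool.Agent.Helper92.HA.Wind
import Pool.Agent.Helper92.HA.KumRed

set_option autoImplicit false
set_option linter.unusedSectionVars false

/-!
# HA-13 KumMod: coefficients of an element of `L'` at a good valuation

`indep_mod` (Wind) for the derivations `D' j` (as `k`-derivations, `Derivation.restrictScalars`), the
subfield `M ⊆ L'` (range of `algebraMap M L'`; stable under `D' j`: it is generated over `K'` by the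
`tL L' t' j`, quotient rule) and `y χ = A.mono χ`, `χ` with `χ o = 0`. `D' j (mono χ) / mono χ = ∑_i χ_i D' j (r i) / r i`
and `N D' j (r i) / r i = D' j (l i) / l i ∈ M` (from `r i ^ N = l i`, `l i ∈ M`).
`hne`: `χ ≠ χ'`, `c ∈ M` nonzero, `w = c mono χ / mono χ'`, `v w = 0`, `v.Ge 1 (D' j w)` for all `j`: contradiction.
Write `c = a(t') / b(t')` with polynomials `a, b`; `l i = γ i p_i(t')`, `p_i` the affine polynomial with
coefficients `c' i / γ i`. So `w^N = const · A₁(t') / B₁(t')`, `A₁ = a^N ∏ p_i^χ_i`, `B₁ = b^N ∏ p_i^χ'_i`. By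
`exists_primitive`, `a = const · liftP a'`, `b = const · liftP b'` with nonzero reductions; `p_i = liftP p'_i`
(coefficients of value `≥ 0`: `coeff_bound`, since `v (p_i(t')) = v (l i) - v (γ i) = 0`). So
`w^N = c₁ A₂(t') / B₂(t')`, `A₂ = a'^N ∏ p'_i^χ_i`, `B₂` similarly, over `Q'.ring`, both with nonzero
reduction (`redP` is multiplicative, `κ[t]` is a domain, `redP p'_i ≠ 0`), so both values are `0` and
`v c₁ = 0`. `D' j (w^N) = N w^(N-1) D' j w` has value `≥ 1`. `red_ratio`: the reductions satisfy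
`redP A₂ = c̄ redP B₂`. `ufd_exponents` for `redP p'_i`: irreducible and pairwise not associated for `i ≠ o` because of
`hind` for the pairs `(i, o)` and `(i, j)`: a proportionality (or vanishing of the linear part) modulo
the maximal ideal lifts to `a, b ∈ Q'.ring` not both of positive value with
`v.Ge 1 (a l_i / γ_i + b l_j / γ_j)`. `redP p'_o = 1`. Hence `χ = χ'`, a contradiction.
So `v.Ge m (G χ (t') mono χ)` for all `χ`, hence `v.Ge (m - v (mono χ)) (G χ (t'))`, and `coeff_bound` (`c = c' = 0`).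
-/

namespace Pool.Agent.Helper92.HA

open Module Pool.Agent.Helper92.Weak Pool.Agent.Helper63.PB

section Aux

open MvPolynomial

private theorem kmo_coeff_zero {R : Type*} [CommSemiring R] {d : ℕ} (x : Fin (d + 1) → R) :
    coeff 0 (C (x 0) + ∑ j : Fin d, C (x j.succ) * X j : MvPolynomial (Fin d) R) = x 0 := by
  rw [coeff_add, coeff_C, if_pos rfl, coeff_sum]
  have h : ∀ j ∈ (Finset.univ : Finset (Fin d)), coeff 0 (C (x j.succ) * X j : MvPolynomial (Fin d) R)
      = 0 := by
    intro j _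
    rw [coeff_C_mul, coeff_zero_X, mul_zero]
  rw [Finset.sum_eq_zero h, add_zero]

private theorem kmo_coeff_single {R : Type*} [CommSemiring R] {d : ℕ} (x : Fin (d + 1) → R)
    (j : Fin d) :
    coeff (Finsupp.single j 1) (C (x 0) + ∑ j : Fin d, C (x j.succ) * X j :
      MvPolynomial (Fin d) R) = x j.succ := by
  classical
  have h0 : (0 : Fin d →₀ ℕ) ≠ Finsupp.single j 1 := by
    intro h
    have h1 := congrArg (fun f => f j) h
    simp at h1
  rw [coeff_add, coeff_C, if_neg h0, zero_add, coeff_sum, Finset.sum_eq_single j]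
  · rw [coeff_C_mul, coeff_X, if_pos rfl, mul_one]
  · intro i _ hij
    rw [coeff_C_mul, coeff_X, if_neg, mul_zero]
    intro h
    exact hij ((Finsupp.single_left_inj one_ne_zero).1 h)
  · intro h
    exact absurd (Finset.mem_univ j) h

variable {k K' E : Type*} [Field k] [Field K'] [Field E] [Algebra k K'] [Algebra k E]
  [Algebra K' E] [IsScalarTower k K' E] [CharZero k] {d : ℕ}

omit [Algebra k K'] [Algebra k E] [IsScalarTower k K' E] [CharZero k] [Field k] in
private theorem kmo_aeval_affP (T : Fin d → E) (x : Fin (d + 1) → K') :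
    aeval T (affP x) = affine T x := by
  unfold affP affine
  rw [map_add, aeval_C, map_sum]
  congr 1
  refine Finset.sum_congr rfl fun j _ => ?_
  rw [map_mul, aeval_C, aeval_X]

omit [IsScalarTower k K' E] [CharZero k] in
private theorem kmo_mem {v : DVal k E} {Q' : DVal k K'} {e : ℕ} (hv : LiesOver v Q' e)
    {T : Fin d → E} (hT : ∀ j, v (T j) = 0) (F : MvPolynomial (Fin d) Q'.ring) :
    aeval T (liftP Q' F) ∈ v.ring := by
  induction F using MvPolynomial.induction_on with
  | C a =>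
    unfold liftP
    rw [map_C, aeval_C, DVal.mem_ring, hv.2]
    exact mul_nonneg (Int.natCast_nonneg e) a.2
  | add p q hp hq =>
    unfold liftP at *
    rw [map_add, map_add]
    exact v.ring.add_mem hp hq
  | mul_X p j hp =>
    unfold liftP at *
    rw [map_mul, map_mul, map_X, aeval_X]
    exact v.ring.mul_mem hp (by rw [DVal.mem_ring, hT])

private theorem kmo_unit (v : DVal k E) {Q' : DVal k K'} {e : ℕ} (hv : LiesOver v Q' e)
    (T : Fin d → E) (D : Fin d → Derivation K' E E)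
    (hD : ∀ i j, D i (T j) = if i = j then 1 else 0) (hT : ∀ j, v (T j) = 0)
    (hDv : ∀ (i : Fin d) (m : ℚ) (g : E), v.Ge m g → v.Ge m (D i g))
    {F : MvPolynomial (Fin d) Q'.ring} (hF : redP Q' F ≠ 0) :
    aeval T (liftP Q' F) ≠ 0 ∧ v (aeval T (liftP Q' F)) = 0 := by
  have h1 : ¬ v.Ge 1 (aeval T (liftP Q' F)) := fun h =>
    hF ((ge_one_iff v hv T D hD hT hDv F).1 h)
  have h2 := kmo_mem hv hT F
  rw [DVal.mem_ring] at h2
  unfold DVal.Ge at h1
  push Not at h1
  refine ⟨h1.1, ?_⟩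
  have h3 : v (aeval T (liftP Q' F)) < 1 := by exact_mod_cast h1.2
  omega

private theorem kmo_core {ι : Type*} [Fintype ι] [DecidableEq ι] (o : ι)
    (v : DVal k E) {Q' : DVal k K'} {e : ℕ} (hv : LiesOver v Q' e)
    (T : Fin d → E) (D : Fin d → Derivation K' E E)
    (hD : ∀ i j, D i (T j) = if i = j then 1 else 0) (hT : ∀ j, v (T j) = 0)
    (hDv : ∀ (i : Fin d) (m : ℚ) (g : E), v.Ge m g → v.Ge m (D i g))
    (p' : ι → MvPolynomial (Fin d) Q'.ring)
    (hirr : ∀ i, i ≠ o → Irreducible (redP Q' (p' i)))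
    (hass : ∀ i j, i ≠ o → j ≠ o → i ≠ j → ¬ Associated (redP Q' (p' i)) (redP Q' (p' j)))
    (ho : redP Q' (p' o) = 1) {N : ℕ} {χ χ' : ι → Fin N} (hχ : (χ o : ℕ) = 0)
    (hχ' : (χ' o : ℕ) = 0) {γ : ι → K'} (hγ : ∀ i, γ i ≠ 0)
    {a b : MvPolynomial (Fin d) K'} (ha : a ≠ 0) (hb : b ≠ 0) {w : E}
    (hw : w ^ N = (aeval T a / aeval T b) ^ N *
      (∏ i, (algebraMap K' E (γ i) * aeval T (liftP Q' (p' i))) ^ (χ i : ℕ)) /
      ∏ i, (algebraMap K' E (γ i) * aeval T (liftP Q' (p' i))) ^ (χ' i : ℕ))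
    (hvw : v w = 0) (hDw : ∀ j, v.Ge 1 (D j w)) : χ = χ' := by
  classical
  obtain ⟨α₀, a', hα₀, rfl, hra⟩ := exists_primitive Q' ha
  obtain ⟨β₀, b', hβ₀, rfl, hrb⟩ := exists_primitive Q' hb
  have hp0 : ∀ i, redP Q' (p' i) ≠ 0 := by
    intro i
    by_cases hi : i = o
    · rw [hi, ho]
      exact one_ne_zero
    · exact (hirr i hi).ne_zero
  have hred : ∀ (f : MvPolynomial (Fin d) Q'.ring) (χ : ι → Fin N),
      redP Q' (f ^ N * ∏ i, p' i ^ (χ i : ℕ)) =
        redP Q' f ^ N * ∏ i, redP Q' (p' i) ^ (χ i : ℕ) := by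
    intro f χ
    unfold redP
    rw [map_mul, map_pow, map_prod]
    congr 1
    exact Finset.prod_congr rfl fun i _ => map_pow _ _ _
  have hlift : ∀ (f : MvPolynomial (Fin d) Q'.ring) (χ : ι → Fin N),
      aeval T (liftP Q' (f ^ N * ∏ i, p' i ^ (χ i : ℕ))) =
        aeval T (liftP Q' f) ^ N * ∏ i, aeval T (liftP Q' (p' i)) ^ (χ i : ℕ) := by
    intro f χ
    unfold liftP
    rw [map_mul, map_mul, map_pow, map_pow, map_prod, map_prod]
    congr 1
    exact Finset.prod_congr rfl fun i _ => by rw [map_pow, map_pow]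
  have hredne : ∀ (f : MvPolynomial (Fin d) Q'.ring) (χ : ι → Fin N), redP Q' f ≠ 0 →
      redP Q' (f ^ N * ∏ i, p' i ^ (χ i : ℕ)) ≠ 0 := by
    intro f χ hf
    rw [hred]
    exact mul_ne_zero (pow_ne_zero _ hf) (Finset.prod_ne_zero_iff.2 fun i _ =>
      pow_ne_zero _ (hp0 i))
  have hA := hredne a' χ hra
  have hB := hredne b' χ' hrb
  obtain ⟨hA0, hvA⟩ := kmo_unit v hv T D hD hT hDv hA
  obtain ⟨hB0, hvB⟩ := kmo_unit v hv T D hD hT hDv hB
  set A₂ := aeval T (liftP Q' (a' ^ N * ∏ i, p' i ^ (χ i : ℕ))) with hA₂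
  set B₂ := aeval T (liftP Q' (b' ^ N * ∏ i, p' i ^ (χ' i : ℕ))) with hB₂
  set c₁ : K' := (α₀ ^ N * ∏ i, γ i ^ (χ i : ℕ)) / (β₀ ^ N * ∏ i, γ i ^ (χ' i : ℕ)) with hc₁
  have hprod : ∀ χ : ι → Fin N, ∏ i, (algebraMap K' E (γ i) * aeval T (liftP Q' (p' i))) ^ (χ i : ℕ)
      = algebraMap K' E (∏ i, γ i ^ (χ i : ℕ)) * ∏ i, aeval T (liftP Q' (p' i)) ^ (χ i : ℕ) := by
    intro χ
    rw [map_prod, ← Finset.prod_mul_distrib]
    exact Finset.prod_congr rfl fun i _ => by rw [map_pow, mul_pow]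
  have hγp : ∀ χ : ι → Fin N, (∏ i, γ i ^ (χ i : ℕ)) ≠ 0 := fun χ =>
    Finset.prod_ne_zero_iff.2 fun i _ => pow_ne_zero _ (hγ i)
  have hc₁0 : c₁ ≠ 0 := div_ne_zero (mul_ne_zero (pow_ne_zero _ hα₀) (hγp χ))
    (mul_ne_zero (pow_ne_zero _ hβ₀) (hγp χ'))
  have hc₁E : algebraMap K' E c₁ ≠ 0 := by rwa [Ne, map_eq_zero]
  have hw' : w ^ N = algebraMap K' E c₁ * (A₂ / B₂) := by
    rw [hw, hprod, hprod, hA₂, hB₂, hlift, hlift, hc₁]
    simp only [map_div₀, map_mul, map_pow, aeval_C, div_pow, mul_pow]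
    simp only [div_eq_mul_inv, mul_inv]
    ring
  have hvc : v (algebraMap K' E c₁) = 0 := by
    have h1 : v (w ^ N) = v (algebraMap K' E c₁ * (A₂ / B₂)) := congrArg (fun z => v z) hw'
    rw [v.map_pow, hvw, v.map_mul hc₁E (div_ne_zero hA0 hB0), v.map_div hA0 hB0, hvA, hvB] at h1
    simpa using h1.symm
  have hquot : ∀ j, v.Ge 1 (D j (A₂ / B₂)) := by
    intro j
    have h1 : v.Ge 1 (D j (w ^ N)) := by
      rw [Derivation.leibniz_pow, smul_eq_mul, nsmul_eq_mul]
      have h2 : v.Ge 0 ((N : E) * w ^ (N - 1)) := by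
        rw [← DVal.mem_ring_iff_ge]
        refine v.ring.mul_mem (natCast_mem v.ring N) (v.ring.pow_mem ?_ _)
        rw [DVal.mem_ring, hvw]
      have h3 := h2.mul (hDw j)
      rw [zero_add, mul_assoc] at h3
      exact h3
    rw [hw', ← Algebra.smul_def, Derivation.map_smul, Algebra.smul_def] at h1
    have h4 : v.Ge 0 (algebraMap K' E c₁)⁻¹ := by
      right
      rw [v.map_inv, hvc]
      simp
    have h5 := h4.mul h1
    rw [← mul_assoc, inv_mul_cancel₀ hc₁E, one_mul, zero_add] at h5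
    exact h5
  obtain ⟨c, hc, hcc⟩ := red_ratio v hv T D hD hT hDv hA hB hquot
  rw [hred, hred] at hcc
  refine (ufd_exponents o (fun i => redP Q' (p' i)) hirr hass ho hrb hra hχ' hχ hc ?_).symm
  rw [mul_assoc]
  exact hcc

end Aux

variable {k K L K' M L' : Type*} [Field k] [Field K] [Field L] [Field K'] [Field M] [Field L']
  [Algebra k K] [Algebra k L] [Algebra k K'] [Algebra k M] [Algebra k L'] [Algebra K L]
  [Algebra K K'] [Algebra K L'] [Algebra L L'] [Algebra K' M] [Algebra K' L'] [Algebra M L']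
  [IsScalarTower k K L] [IsScalarTower k K K'] [IsScalarTower k K L'] [IsScalarTower k L L']
  [IsScalarTower k K' M] [IsScalarTower k K' L'] [IsScalarTower k M L'] [IsScalarTower K L L']
  [IsScalarTower K K' L'] [IsScalarTower K' M L'] [FiniteDimensional K K']
  [FiniteDimensional L L'] [FiniteDimensional M L'] [CharZero k] {d : ℕ}
  {X : ProjVar k L} {Z : ProjVar k K} {t : Fin d → M} {ι : Type*} [Fintype ι] [DecidableEq ι]

theorem good_coeff (A : Arr K' L' t ι) {t' : Fin d → M} (ht' : IsTorus K' t')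
    {c' : ι → Fin (d + 1) → K'} (hc' : ∀ i, affine t' (c' i) = affine t (A.co i))
    {D' : Fin d → Derivation K' L' L'}
    (hD' : ∀ i j, D' i (tL L' t' j) = if i = j then 1 else 0) {γ : ι → K'} (hγ : ∀ i, γ i ≠ 0)
    (hγo : γ A.o = 1) (v : DVal k L') {Q' : DVal k K'} {e' : ℕ} (hv : LiesOver v Q' e')
    (hl : ∀ i, v (A.l i) = v (algebraMap K' L' (γ i))) (htv : ∀ j, v (tL L' t' j) = 0)
    (hDv : ∀ (i : Fin d) (m : ℚ) (g : L'), v.Ge m g → v.Ge m (D' i g))
    (hind : ∀ i j, i ≠ j → ∀ (a b : K') (m : ℚ), v.Ge m (algebraMap K' L' a *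
      (A.l i / algebraMap K' L' (γ i)) + algebraMap K' L' b *
      (A.l j / algebraMap K' L' (γ j))) → v.Ge m (algebraMap K' L' a) ∧
      v.Ge m (algebraMap K' L' b))
    (G : (ι → Fin A.N) → MvPolynomial (Fin d) K') (hG : ∀ χ, G χ ≠ 0 → (χ A.o : ℕ) = 0) (m : ℚ)
    (hm : v.Ge m (∑ χ, MvPolynomial.aeval (tL L' t') (G χ) * A.mono χ))
    (χ : ι → Fin A.N) (α : Fin d →₀ ℕ) :
    v.Ge (m - v (A.mono χ)) (algebraMap K' L' ((G χ).coeff α)) := by
  classical
  set T : Fin d → L' := tL L' t' with hT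
  -- evaluation
  have hev : ∀ F : MvPolynomial (Fin d) K',
      MvPolynomial.aeval T F = algebraMap M L' (MvPolynomial.aeval t' F) := fun F =>
    MvPolynomial.aeval_algebraMap_apply L' t' F
  have hinj : ∀ F : MvPolynomial (Fin d) K', MvPolynomial.aeval T F = 0 → F = 0 := by
    intro F hF
    rw [hev, map_eq_zero] at hF
    have h1 : Function.Injective (MvPolynomial.aeval (R := K') t') := ht'.indep
    exact h1 (by rw [hF, map_zero])
  have hlT : ∀ i, A.l i = affine T (c' i) := by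
    intro i
    unfold Arr.l
    rw [← hc' i]
    unfold affine
    rw [map_add, map_sum, ← IsScalarTower.algebraMap_apply]
    congr 1
    refine Finset.sum_congr rfl fun j _ => ?_
    rw [map_mul, ← IsScalarTower.algebraMap_apply]
    rfl
  -- normalised coefficients
  obtain ⟨x, hx⟩ : ∃ x : ι → Fin (d + 1) → K', ∀ i j, x i j = (γ i)⁻¹ * c' i j :=
    ⟨_, fun _ _ => rfl⟩
  have hγL : ∀ i, algebraMap K' L' (γ i) ≠ 0 := fun i => by rw [Ne, map_eq_zero]; exact hγ i
  have hxl : ∀ i, affine T (x i) = A.l i / algebraMap K' L' (γ i) := by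
    intro i
    rw [hlT i]
    unfold affine
    rw [add_div, Finset.sum_div]
    congr 1
    · rw [hx, map_mul, map_inv₀, div_eq_mul_inv, mul_comm]
    · refine Finset.sum_congr rfl fun j _ => ?_
      rw [hx, map_mul, map_inv₀, div_eq_mul_inv]
      ring
  have hl0 : ∀ i, A.l i ≠ 0 := fun i => l_ne A i
  have hxv : ∀ i, v (A.l i / algebraMap K' L' (γ i)) = 0 := by
    intro i
    rw [v.map_div (hl0 i) (hγL i), hl i, sub_self]
  have hDv' : ∀ (i : Fin d) (g : L') (m : ℚ), v.Ge m g → v.Ge (m - 0) (D' i g) := by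
    intro i g m h
    rw [sub_zero]
    exact hDv i m g h
  have hTge : ∀ j, v.Ge (-0 : ℚ) (T j) := fun j => by
    right
    rw [htv j]
    simp
  have hQe : (0 : ℤ) < e' := by exact_mod_cast hv.1
  have hQge : ∀ y : K', v.Ge 0 (algebraMap K' L' y) → 0 ≤ Q' y := by
    intro y hy
    rcases hy with hy | hy
    · rw [map_eq_zero] at hy
      rw [hy, DVal.map_zero]
    · rw [hv.2] at hy
      have h1 : (0 : ℤ) ≤ e' * Q' y := by exact_mod_cast hy
      by_contra hcon
      push Not at hcon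
      nlinarith
  have hxQ : ∀ i j, 0 ≤ Q' (x i j) := by
    intro i
    have h1 : v.Ge 0 (MvPolynomial.aeval T (affP (x i))) := by
      rw [kmo_aeval_affP, hxl]
      right
      rw [hxv]
      simp
    have h2 := coeff_bound v T D' hD' 0 0 le_rfl le_rfl hDv' hTge _ (affP (x i)) le_rfl 0 h1
    have h3 : ∀ α, v.Ge 0 (algebraMap K' L' ((affP (x i)).coeff α)) := by
      intro α
      have h4 := h2 α
      simpa using h4
    intro j
    refine Fin.cases ?_ (fun j => ?_) j
    · have h5 := h3 0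
      unfold affP at h5
      rw [kmo_coeff_zero] at h5
      exact hQge _ h5
    · have h5 := h3 (Finsupp.single j 1)
      unfold affP at h5
      rw [kmo_coeff_single] at h5
      exact hQge _ h5
  let X' : ι → Fin (d + 1) → Q'.ring := fun i j => ⟨x i j, hxQ i j⟩
  let p' : ι → MvPolynomial (Fin d) Q'.ring := fun i =>
    MvPolynomial.C (X' i 0) + ∑ j : Fin d, MvPolynomial.C (X' i j.succ) * MvPolynomial.X j
  have hlift : ∀ i, liftP Q' (p' i) = affP (x i) := by
    intro i
    unfold liftP affP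
    rw [map_add, map_sum, MvPolynomial.map_C]
    congr 1
    refine Finset.sum_congr rfl fun j _ => ?_
    rw [map_mul, MvPolynomial.map_C, MvPolynomial.map_X]
    rfl
  have hred : ∀ i, redP Q' (p' i) = affP (fun j => IsLocalRing.residue Q'.ring (X' i j)) := by
    intro i
    unfold redP affP
    rw [map_add, map_sum, MvPolynomial.map_C]
    congr 1
    refine Finset.sum_congr rfl fun j _ => ?_
    rw [map_mul, MvPolynomial.map_C, MvPolynomial.map_X]
  have hpl : ∀ i, algebraMap K' L' (γ i) * MvPolynomial.aeval T (liftP Q' (p' i)) = A.l i := by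
    intro i
    rw [hlift, kmo_aeval_affP, hxl]
    have := hγL i
    field_simp
  -- the index at infinity
  have hlo : A.l A.o = 1 := by
    have h1 := A.r_pow A.o
    rw [A.r_o, one_pow] at h1
    exact h1.symm
  have hpo : p' A.o = 1 := by
    have h1 : MvPolynomial.aeval T (liftP Q' (p' A.o)) = 1 := by
      have h2 := hpl A.o
      rwa [hγo, map_one, one_mul, hlo] at h2
    have h3 : liftP Q' (p' A.o) = 1 := by
      have h4 := hinj (liftP Q' (p' A.o) - 1) (by rw [map_sub, h1, map_one, sub_self])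
      exact sub_eq_zero.1 h4
    have h5 : Function.Injective (algebraMap Q'.ring K') := Subtype.val_injective
    apply MvPolynomial.map_injective _ h5
    unfold liftP at h3
    rw [h3, map_one]
  have hro : redP Q' (p' A.o) = 1 := by
    rw [hpo]
    unfold redP
    rw [map_one]
  have hnot1 : ∀ y : K', y = 1 → ¬ v.Ge 1 (algebraMap K' L' y) := by
    rintro y rfl h
    rw [map_one] at h
    rcases h with h | h
    · exact one_ne_zero h
    · rw [DVal.map_one] at h
      norm_num at h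
  -- elements of the maximal ideal have positive value
  have hQone : ∀ y : Q'.ring, IsLocalRing.residue Q'.ring y = 0 →
      v.Ge 1 (algebraMap K' L' (y : K')) := by
    intro y hy
    rw [Pool.Agent.Helper60.PB.residue_eq_zero_iff'] at hy
    rcases hy with hy | hy
    · left
      rw [hy, map_zero]
    · right
      rw [hv.2]
      have h1 : (1 : ℤ) ≤ Q' (y : K') := by exact_mod_cast hy
      have h2 : (1 : ℤ) ≤ e' * Q' (y : K') := by nlinarith
      exact_mod_cast h2
  have hirr : ∀ i, i ≠ A.o → Irreducible (redP Q' (p' i)) := by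
    intro i hi
    rw [hred]
    apply irreducible_affP
    by_contra hcon
    push Not at hcon
    have h1 : v.Ge 1 (algebraMap K' L' 1 * (A.l i / algebraMap K' L' (γ i)) +
        algebraMap K' L' (-(x i 0)) * (A.l A.o / algebraMap K' L' (γ A.o))) := by
      rw [hγo, hlo, map_one, div_one, mul_one, one_mul, ← hxl]
      unfold affine
      have h2 : algebraMap K' L' (x i 0) + ∑ j : Fin d, algebraMap K' L' (x i j.succ) * T j +
          algebraMap K' L' (-(x i 0)) = ∑ j : Fin d, algebraMap K' L' (x i j.succ) * T j := by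
        rw [map_neg]
        ring
      rw [h2]
      refine DVal.Ge.sum fun j _ => ?_
      have h3 := hQone (X' i j.succ) (hcon j)
      have h4 : v.Ge 0 (T j) := by
        right
        rw [htv j]
        simp
      have h5 := h3.mul h4
      rwa [add_zero] at h5
    exact hnot1 1 rfl (hind i A.o hi 1 (-(x i 0)) 1 h1).1
  have hass : ∀ i j, i ≠ A.o → j ≠ A.o → i ≠ j →
      ¬ Associated (redP Q' (p' i)) (redP Q' (p' j)) := by
    intro i j hi hj hij hasc
    rw [hred, hred] at hasc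
    obtain ⟨c, hc⟩ := smul_of_associated_affP hasc
    obtain ⟨c₀, rfl⟩ := IsLocalRing.residue_surjective c
    have h0 : ∀ l, v.Ge 1 (algebraMap K' L' (-(c₀ : K') * x i l + x j l)) := by
      intro l
      have h1 := hQone (-c₀ * X' i l + X' j l) (by
        rw [map_add, map_mul, map_neg]
        have h2 := congrFun hc l
        simp only [Pi.smul_apply, smul_eq_mul] at h2
        rw [h2]
        ring)
      exact h1
    have h1 : v.Ge 1 (algebraMap K' L' (-(c₀ : K')) * (A.l i / algebraMap K' L' (γ i)) +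
        algebraMap K' L' 1 * (A.l j / algebraMap K' L' (γ j))) := by
      rw [map_one, one_mul, ← hxl, ← hxl]
      unfold affine
      have h2 : algebraMap K' L' (-(c₀ : K')) * (algebraMap K' L' (x i 0) +
          ∑ l : Fin d, algebraMap K' L' (x i l.succ) * T l) + (algebraMap K' L' (x j 0) +
          ∑ l : Fin d, algebraMap K' L' (x j l.succ) * T l) =
          algebraMap K' L' (-(c₀ : K') * x i 0 + x j 0) +
          ∑ l : Fin d, algebraMap K' L' (-(c₀ : K') * x i l.succ + x j l.succ) * T l := by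
        rw [map_add (algebraMap K' L') (-(c₀ : K') * x i 0), map_mul]
        have h3 : ∀ l : Fin d, algebraMap K' L' (-(c₀ : K') * x i l.succ + x j l.succ) * T l =
            algebraMap K' L' (-(c₀ : K')) * (algebraMap K' L' (x i l.succ) * T l) +
            algebraMap K' L' (x j l.succ) * T l := by
          intro l
          rw [map_add, map_mul]
          ring
        rw [Finset.sum_congr rfl fun l _ => h3 l, Finset.sum_add_distrib, ← Finset.mul_sum]
        ring
      rw [h2]
      refine (h0 0).add (DVal.Ge.sum fun l _ => ?_)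
      have h4 : v.Ge 0 (T l) := by
        right
        rw [htv l]
        simp
      have h5 := (h0 l.succ).mul h4
      rwa [add_zero] at h5
    exact hnot1 1 rfl (hind i j hij (-(c₀ : K')) 1 1 h1).2
  -- the monomials
  have hr0 : ∀ i, A.r i ≠ 0 := by
    intro i h
    apply hl0 i
    have h1 := A.r_pow i
    rw [h, zero_pow A.N_pos.ne'] at h1
    exact h1.symm
  have hmono0 : ∀ χ : ι → Fin A.N, A.mono χ ≠ 0 := fun χ =>
    Finset.prod_ne_zero_iff.2 fun i _ => pow_ne_zero _ (hr0 i)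
  have hmonoN : ∀ χ : ι → Fin A.N, A.mono χ ^ A.N = ∏ i, A.l i ^ (χ i : ℕ) := by
    intro χ
    unfold Arr.mono
    rw [← Finset.prod_pow]
    refine Finset.prod_congr rfl fun i _ => ?_
    rw [← pow_mul, mul_comm, pow_mul, A.r_pow i]
    rfl
  -- the subfield
  let M₀ : Subfield L' := (algebraMap M L').fieldRange
  have hevM : ∀ F : MvPolynomial (Fin d) K', MvPolynomial.aeval T F ∈ M₀ := fun F =>
    ⟨MvPolynomial.aeval t' F, (hev F).symm⟩
  have hfracM : ∀ c ∈ M₀, ∃ a b : MvPolynomial (Fin d) K', b ≠ 0 ∧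
      c = MvPolynomial.aeval T a / MvPolynomial.aeval T b := by
    rintro c ⟨z, rfl⟩
    obtain ⟨a, b, hb, hz⟩ := Pool.Agent.Helper92.Weak.exists_aeval_div ht' z
    refine ⟨a, b, hb, ?_⟩
    rw [hev, hev, hz, map_div₀]
  have hM : ∀ (j : Fin d), ∀ c ∈ M₀, D' j c ∈ M₀ := by
    intro j c hc
    obtain ⟨a, b, hb, rfl⟩ := hfracM c hc
    rw [Derivation.leibniz_div, deriv_aeval T j (D' j) (hD' j), deriv_aeval T j (D' j) (hD' j)]
    simp only [smul_eq_mul]
    exact M₀.mul_mem (M₀.pow_mem (M₀.inv_mem (hevM b)) 2)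
      (M₀.sub_mem (M₀.mul_mem (hevM b) (hevM _)) (M₀.mul_mem (hevM a) (hevM _)))
  have hlM : ∀ i, A.l i ∈ M₀ := fun i => ⟨_, rfl⟩
  have hNL : (A.N : L') ≠ 0 := by
    have hck : (A.N : k) ≠ 0 := by
      have := A.N_pos.ne'
      exact_mod_cast this
    intro h
    apply hck
    have h1 : algebraMap k L' (A.N : k) = 0 := by rw [map_natCast]; exact h
    exact (map_eq_zero _).1 h1
  let κ := {χ : ι → Fin A.N // (χ A.o : ℕ) = 0}
  let y : κ → L' := fun χ => A.mono χ.1
  have hyM : ∀ (j : Fin d) (χ : κ), (D' j) (y χ) / y χ ∈ M₀ := by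
    intro j χ
    have h1 : y χ ^ A.N ∈ M₀ := by
      change A.mono χ.1 ^ A.N ∈ M₀
      rw [hmonoN]
      exact M₀.prod_mem fun i _ => M₀.pow_mem (hlM i) _
    have h2 := hM j _ h1
    have hy0 : y χ ≠ 0 := hmono0 χ.1
    have h3 : (D' j) (y χ) / y χ = D' j (y χ ^ A.N) / ((A.N : L') * y χ ^ A.N) := by
      rw [Derivation.leibniz_pow, smul_eq_mul, nsmul_eq_mul]
      obtain ⟨n, hn⟩ : ∃ n, A.N = n + 1 := ⟨A.N - 1, by have := A.N_pos; omega⟩
      have h4 : y χ ^ A.N = y χ ^ (A.N - 1) * y χ := by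
        rw [← pow_succ]
        congr 1
        omega
      rw [h4]
      field_simp
    rw [h3]
    exact M₀.div_mem h2 (M₀.mul_mem (natCast_mem M₀ A.N) h1)
  have hne : ∀ χ χ' : κ, χ ≠ χ' → ∀ c ∈ M₀, c ≠ 0 → v (c * y χ / y χ') = 0 →
      ¬ ∀ j : Fin d, v.Ge 1 ((D' j).restrictScalars k (c * y χ / y χ')) := by
    intro χ χ' hχχ c hc hc0 hvw hDw
    apply hχχ
    apply Subtype.ext
    obtain ⟨a, b, hb, hab⟩ := hfracM c hc
    have ha : a ≠ 0 := by
      rintro rfl
      rw [map_zero, zero_div] at hab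
      exact hc0 hab
    refine kmo_core A.o v hv T D' hD' htv hDv p' hirr hass hro χ.2 χ'.2 hγ ha hb
      (w := c * y χ / y χ') ?_ hvw hDw
    rw [← hab, div_pow, mul_pow]
    change c ^ A.N * A.mono χ.1 ^ A.N / A.mono χ'.1 ^ A.N = _
    rw [hmonoN, hmonoN]
    simp only [hpl]
  have hind' := indep_mod v (fun j : Fin d => (D' j).restrictScalars k)
    (fun j g m h => hDv j m g h) M₀ hM y (fun χ => hmono0 χ.1) hyM hne Finset.univ
    (fun χ => MvPolynomial.aeval T (G χ.1)) (fun χ _ => hevM _) m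
  have hsum : ∑ χ : κ, MvPolynomial.aeval T (G χ.1) * y χ =
      ∑ χ, MvPolynomial.aeval T (G χ) * A.mono χ := by
    rw [← Fintype.sum_subtype_add_sum_subtype (fun χ : ι → Fin A.N => (χ A.o : ℕ) = 0)
      (fun χ => MvPolynomial.aeval T (G χ) * A.mono χ)]
    have h1 : ∑ χ : {χ : ι → Fin A.N // ¬ (χ A.o : ℕ) = 0},
        MvPolynomial.aeval T (G χ.1) * A.mono χ.1 = 0 := by
      apply Finset.sum_eq_zero
      intro χ _
      have h2 : G χ.1 = 0 := by
        by_contra h
        exact χ.2 (hG χ.1 h)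
      rw [h2, map_zero, zero_mul]
    rw [h1, add_zero]
  by_cases hG0 : G χ = 0
  · left
    rw [hG0, MvPolynomial.coeff_zero, map_zero]
  have hχo := hG χ hG0
  have h1 := hind' (by rw [hsum]; exact hm) ⟨χ, hχo⟩ (Finset.mem_univ _)
  change v.Ge m (MvPolynomial.aeval T (G χ) * A.mono χ) at h1
  have h2 : v.Ge (m - v (A.mono χ)) (MvPolynomial.aeval T (G χ)) := by
    by_cases h0 : MvPolynomial.aeval T (G χ) = 0
    · exact Or.inl h0
    right
    rw [DVal.ge_iff (mul_ne_zero h0 (hmono0 χ)), v.map_mul h0 (hmono0 χ)] at h1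
    push_cast at h1
    linarith
  have h3 := coeff_bound v T D' hD' 0 0 le_rfl le_rfl hDv' hTge _ (G χ) le_rfl _ h2 α
  simpa using h3

end Pool.Agent.Helper92.HA
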