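import Pool.Agent.Helper63.PB.Finite
import Pool.Agent.Helper92.Weak.Values

set_option autoImplicit false

/-!
# HA-14 HZeroGe: sections have bounded poles along every discrete valuation

`X` projective, `D` a divisor, `w` any discrete valuation of `L`: there is `C` such that for every divisor
`A` there is `C_A` with `w f ≥ -(C q + C_A)` for all `f ∈ H⁰(X, q D + A)`.

PROOF. Choose `i` with `w (x i)` minimal; then `w (x j / x i) ≥ 0` for all `j`, so the chart ring
`R = chart k X.x i` is contained in `w.ring`. For every prime divisor `P` of `X` with `R ≤ P.ring` there is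
a nonzero `h ∈ R` with `P h ≥ 1` (if `R ≤ P.ring` and all nonzero elements of `R` had `P`-value `0`, then
all elements of the fraction field `L` of `R` had value `0`). Let `h` be the product of powers of such
elements over the finitely many `P` with `D P > 0`, `R ≤ P.ring`, with `P h ≥ D P`, and `h'` the same for
`A`. For `f ∈ H⁰(X, q D + A)` the element `f h^q h'` has `P ≥ 0` for all prime divisors `P` of `X` with
`R ≤ P.ring`, so it is in `R` (`R` is normal and noetherian: algebraic Hartogs,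
`exists_dval_of_notMem` in Weak/Loc, or `Helper47/PQ/HartogsT`; every localisation of `R` at a prime
which is a discrete valuation ring is a prime divisor of `X`).
So `w (f h^q h') ≥ 0`, `w f ≥ -q w h - w h'`.
-/

namespace Pool.Agent.Helper92.HA

open Module Pool.Agent.Helper92.Weak Pool.Agent.Helper63.PB

private theorem hzg_aux {k L : Type*} [Field k] [Field L] [Algebra k L] {X : ProjVar k L}
    {R : Subalgebra k L} (hR : R ∈ X.localRings) (D : X.Div) :
    ∃ h ∈ R, h ≠ 0 ∧ ∀ P : X.primeDivisors, R ≤ P.1.ring → D P ≤ (P.1 h : ℚ) := by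
  classical
  have hfrac : IsFrac R := by
    obtain ⟨i, p, hp, rfl⟩ := X.mem_localRings.1 hR
    exact (X.chart_isFrac i).mono (le_locAt p)
  have h1 : ∀ P : X.primeDivisors, ∃ h ∈ R, h ≠ 0 ∧ (R ≤ P.1.ring → 1 ≤ P.1 h) := by
    intro P
    by_cases hRP : R ≤ P.1.ring
    · by_contra hcon
      push Not at hcon
      have h2 : ∀ h ∈ R, h ≠ 0 → P.1 h = 0 := by
        intro h hh hh0
        have h3 := (hcon h hh hh0).2
        have h4 := hRP hh
        rw [DVal.mem_ring] at h4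
        omega
      obtain ⟨π, hπ0, hπ⟩ := P.1.exists_uniformizer
      obtain ⟨a, ha, b, hb, hb0, hab⟩ := hfrac π
      have ha0 : a ≠ 0 := by
        rintro rfl
        rw [zero_div] at hab
        exact hπ0 hab
      rw [hab, P.1.map_div ha0 hb0, h2 a ha ha0, h2 b hb hb0] at hπ
      norm_num at hπ
    · exact ⟨1, R.one_mem, one_ne_zero, fun h => absurd h hRP⟩
  choose g hgR hg0 hg using h1
  refine ⟨∏ P ∈ D.support, g P ^ ⌈D P⌉₊, R.prod_mem fun P _ => R.pow_mem (hgR P) _,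
    Finset.prod_ne_zero_iff.2 fun P _ => pow_ne_zero _ (hg0 P), fun P hRP => ?_⟩
  have hnn : ∀ P' ∈ D.support, 0 ≤ P.1 (g P' ^ ⌈D P'⌉₊) := by
    intro P' _
    rw [P.1.map_pow]
    have h4 := hRP (hgR P')
    rw [DVal.mem_ring] at h4
    positivity
  rw [P.1.map_prod _ _ fun P' _ => pow_ne_zero _ (hg0 P')]
  by_cases hP : P ∈ D.support
  · have h5 := Finset.single_le_sum hnn hP
    have h6 : (⌈D P⌉₊ : ℤ) ≤ P.1 (g P ^ ⌈D P⌉₊) := by
      rw [P.1.map_pow]
      have h7 := hg P hRP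
      nlinarith [Int.natCast_nonneg ⌈D P⌉₊]
    have h8 : (⌈D P⌉₊ : ℤ) ≤ ∑ P' ∈ D.support, P.1 (g P' ^ ⌈D P'⌉₊) := h6.trans h5
    have h9 : ((⌈D P⌉₊ : ℤ) : ℚ) ≤ ((∑ P' ∈ D.support, P.1 (g P' ^ ⌈D P'⌉₊) : ℤ) : ℚ) := by
      exact_mod_cast h8
    refine le_trans ?_ h9
    rw [Int.cast_natCast]
    exact Nat.le_ceil _
  · rw [Finsupp.notMem_support_iff.1 hP]
    have h8 : 0 ≤ ∑ P' ∈ D.support, P.1 (g P' ^ ⌈D P'⌉₊) := Finset.sum_nonneg hnn
    exact_mod_cast h8

theorem exists_H0_ge {k L : Type*} [Field k] [Field L] [Algebra k L] [CharZero k]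
    (X : ProjVar k L) (D : X.Div) (w : DVal k L) :
    ∃ C : ℕ, ∀ A : X.Div, ∃ CA : ℕ, ∀ (q : ℕ) (f : L), f ∈ X.H0 ((q : ℚ) • D + A) →
      w.Ge (-((C : ℚ) * q + CA)) f := by
  classical
  obtain ⟨R, hR, hRw⟩ := X.exists_center w
  obtain ⟨h, hhR, hh0, hh⟩ := hzg_aux hR D
  have hwh : 0 ≤ w h := hRw.1 hhR
  refine ⟨(w h).toNat, fun A => ?_⟩
  obtain ⟨h', hhR', hh0', hh'⟩ := hzg_aux hR A
  have hwh' : 0 ≤ w h' := hRw.1 hhR'
  refine ⟨(w h').toNat, fun q f hf => ?_⟩
  by_cases hf0 : f = 0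
  · exact Or.inl hf0
  right
  have hmem : f * h ^ q * h' ∈ R := by
    apply X.hartogs hR
    intro P hP hRP
    have h1 : (P : DVal k L).Ge (-(((q : ℚ) • D + A) ⟨P, hP⟩)) f := by
      have h2 := hf
      unfold ProjVar.H0 sec at h2
      rw [Submodule.mem_iInf] at h2
      exact h2 ⟨P, hP⟩
    rw [DVal.ge_iff hf0, Finsupp.add_apply, Finsupp.smul_apply, smul_eq_mul] at h1
    have h3 := hh ⟨P, hP⟩ hRP
    have h4 := hh' ⟨P, hP⟩ hRP
    change D ⟨P, hP⟩ ≤ (P h : ℚ) at h3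
    change A ⟨P, hP⟩ ≤ (P h' : ℚ) at h4
    rw [DVal.mem_ring, P.map_mul (mul_ne_zero hf0 (pow_ne_zero _ hh0)) hh0',
      P.map_mul hf0 (pow_ne_zero _ hh0), P.map_pow]
    have h5 : (q : ℚ) * D ⟨P, hP⟩ ≤ q * (P h : ℚ) :=
      mul_le_mul_of_nonneg_left h3 (Nat.cast_nonneg q)
    have h6 : (0 : ℚ) ≤ ((P f + q * P h + P h' : ℤ) : ℚ) := by
      push_cast
      linarith
    exact_mod_cast h6
  have h7 := hRw.1 hmem
  rw [DVal.mem_ring, w.map_mul (mul_ne_zero hf0 (pow_ne_zero _ hh0)) hh0',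
    w.map_mul hf0 (pow_ne_zero _ hh0), w.map_pow] at h7
  have h8 : (((w h).toNat : ℕ) : ℚ) = (w h : ℚ) := by
    have : (((w h).toNat : ℕ) : ℤ) = w h := by omega
    exact_mod_cast this
  have h9 : (((w h').toNat : ℕ) : ℚ) = (w h' : ℚ) := by
    have : (((w h').toNat : ℕ) : ℤ) = w h' := by omega
    exact_mod_cast this
  rw [h8, h9]
  have h10 : (0 : ℚ) ≤ ((w f + q * w h + w h' : ℤ) : ℚ) := by exact_mod_cast h7
  push_cast at h10
  linarith

end Pool.Agent.Helper92.HA
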