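import Pool.Agent.Helper92.HA.Defs
import Pool.Agent.Helper92.HA.HZeroGe
import Pool.Agent.Helper92.HA.TraceMono
import Pool.Agent.Helper92.Ga.Gauss
import Pool.Agent.Helper63.PB.Under
import Pool.Agent.Helper63.PB.Approx

set_option autoImplicit false
set_option linter.unusedSectionVars false

/-!
# HA-16 UpperBad: linear loss of the coefficients at an arbitrary valuation of `K'`

Let `Q₁ = gaussVal ht' Q'` (on `M`, over `Q'` with multiplicity one, `gaussVal_algebraMap`). There are finitely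
many `w` on `L'` over `Q₁` (`finite_above`), with some ramification `ε_w ≥ 1`. Each lies over some
discrete valuation of `L` (`exists_under`), with some multiplicity, so `exists_H0_ge` gives `C₁` (depending
on `D`) and `C_A` with `w f ≥ -(C₁ q + C_A)` for all `f ∈ H⁰(X, q D + A_X)` and all these `w`. With `C₂ ≥ |w g|`,
`C₃ ≥ |w h|, |w (mono χ)|` for all `w, χ`:
`w (f g^q h / mono χ₀) ≥ -((C₁ + C₂) q + C_A + 2 C₃) ≥ ε_w (-((C₁ + C₂) q + C_A + 2 C₃))`. `trace_ge` (PQ) and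
`trace_mono`: `Q₁ (G χ₀ (t')) ≥ -((C₁ + C₂) q + C_A + 2 C₃)` (the integer `N^(|ι|-1)` has value `0`), and
`gaussVal_ev_le`/`exists_gaussVal_ev`: the coefficients of a polynomial in `t'` have `Q'`-value at least the
Gauss value (a `MvPolynomial` as an `ev` of a finitely supported function on `Fin d → ℤ`).
Here `t'` is any torus coordinate system of `M` and the derivations are only used for `trace_mono`
(which is stated for `A`, in the coordinates `t`; `G χ (t') ∈ M`).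
-/

namespace Pool.Agent.Helper92.HA

open Module Pool.Agent.Helper92.Weak Pool.Agent.Helper63.PB

variable {k K L K' M L' : Type*} [Field k] [Field K] [Field L] [Field K'] [Field M] [Field L']
  [Algebra k K] [Algebra k L] [Algebra k K'] [Algebra k M] [Algebra k L'] [Algebra K L]
  [Algebra K K'] [Algebra K L'] [Algebra L L'] [Algebra K' M] [Algebra K' L'] [Algebra M L']
  [IsScalarTower k K L] [IsScalarTower k K K'] [IsScalarTower k K L'] [IsScalarTower k L L']
  [IsScalarTower k K' M] [IsScalarTower k K' L'] [IsScalarTower k M L'] [IsScalarTower K L L']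
  [IsScalarTower K K' L'] [IsScalarTower K' M L'] [FiniteDimensional K K']
  [FiniteDimensional L L'] [FiniteDimensional M L'] [CharZero k] {d : ℕ}
  {X : ProjVar k L} {Z : ProjVar k K} {t : Fin d → M} {ι : Type*} [Fintype ι] [DecidableEq ι]

private theorem coeff_ge {Q' : DVal k K'} {t' : Fin d → M} (ht' : IsTorus K' t') {n : ℤ}
    (p : MvPolynomial (Fin d) K')
    (h : (Pool.Agent.Helper92.Ga.gaussVal ht' Q').Ge (n : ℚ) (MvPolynomial.aeval t' p))
    (α : Fin d →₀ ℕ) : Q'.Ge (n : ℚ) (p.coeff α) := by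
  classical
  by_cases hα : p.coeff α = 0
  · rw [hα]; exact DVal.Ge.zero
  obtain ⟨f, hf⟩ : ∃ f : (Fin d → ℤ) →₀ K', f = ∑ m ∈ p.support,
    Finsupp.single (fun l => ((m l : ℕ) : ℤ)) (p.coeff m) := ⟨_, rfl⟩
  have h1 : ev K' t' f = MvPolynomial.aeval t' p := by
    rw [hf, map_sum]
    conv_rhs => rw [p.as_sum]
    rw [map_sum]
    refine Finset.sum_congr rfl fun m _ => ?_
    rw [ev_single, MvPolynomial.aeval_monomial, Finsupp.prod_fintype _ _ (fun i => by simp),
      Algebra.smul_def]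
    congr 1
    unfold mono
    exact Finset.prod_congr rfl fun l _ => zpow_natCast _ _
  have h2 : f (fun l => ((α l : ℕ) : ℤ)) = p.coeff α := by
    rw [hf, Finsupp.finsetSum_apply, Finset.sum_eq_single α]
    · rw [Finsupp.single_eq_same]
    · intro m _ hm
      rw [Finsupp.single_apply, if_neg]
      intro heq
      apply hm
      ext l
      have h3 := congrFun heq l
      exact_mod_cast h3
    · intro hm
      rw [MvPolynomial.notMem_support_iff] at hm
      exact absurd hm hα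
  have h3 : f (fun l => ((α l : ℕ) : ℤ)) ≠ 0 := by rwa [h2]
  have h4 := Pool.Agent.Helper92.Ga.gaussVal_ev_le ht' Q' h3
  rw [h1, h2] at h4
  have hp : MvPolynomial.aeval t' p ≠ 0 := by
    rw [← h1]
    intro h5
    have h6 : f = 0 := ev_injective ht' (by rw [h5, map_zero])
    rw [h6] at h3
    exact h3 rfl
  rw [DVal.ge_iff hp] at h
  rw [DVal.ge_iff hα]
  have h5 : n ≤ (Pool.Agent.Helper92.Ga.gaussVal ht' Q') (MvPolynomial.aeval t' p) := by
    exact_mod_cast h
  exact_mod_cast h5.trans h4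

private theorem one_val (D : X.Div) {g : L'} (hg : g ≠ 0) (A : Arr K' L' t ι) (w : DVal k L') :
    ∃ C : ℕ, ∀ (AX : X.Div) (h : L'), h ≠ 0 → ∃ CA : ℕ, ∀ (q : ℕ) (f : L),
      f ∈ X.H0 ((q : ℚ) • D + AX) → ∀ χ : ι → Fin A.N,
        w.Ge (-((C : ℚ) * q + CA)) (algebraMap L L' f * g ^ q * h / A.mono χ) := by
  classical
  obtain ⟨v, ε, hε, hv⟩ := exists_under (E := L) w
  obtain ⟨C₁, hC₁⟩ := exists_H0_ge X D v
  refine ⟨ε * C₁ + (w g).natAbs, fun AX h hh => ?_⟩
  obtain ⟨CA, hCA⟩ := hC₁ AX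
  refine ⟨ε * CA + (w h).natAbs + ∑ χ : ι → Fin A.N, (w (A.mono χ)).natAbs,
    fun q f hf χ => ?_⟩
  have h1 := hCA q f hf
  by_cases hf0 : f = 0
  · left
    rw [hf0, map_zero, zero_mul, zero_mul, zero_div]
  by_cases hm : A.mono χ = 0
  · left
    rw [hm, div_zero]
  have hfL : algebraMap L L' f ≠ 0 := by
    rwa [Ne, FaithfulSMul.algebraMap_eq_zero_iff]
  right
  rw [w.map_div (mul_ne_zero (mul_ne_zero hfL (pow_ne_zero _ hg)) hh) hm,
    w.map_mul (mul_ne_zero hfL (pow_ne_zero _ hg)) hh, w.map_mul hfL (pow_ne_zero _ hg),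
    w.map_pow, hv]
  rw [DVal.ge_iff hf0] at h1
  have h2 : (w (A.mono χ)).natAbs ≤ ∑ χ : ι → Fin A.N, (w (A.mono χ)).natAbs :=
    Finset.single_le_sum (f := fun χ : ι → Fin A.N => (w (A.mono χ)).natAbs)
      (fun _ _ => Nat.zero_le _) (Finset.mem_univ χ)
  have h1' : -((C₁ : ℤ) * q + CA) ≤ v f := by exact_mod_cast h1
  have hε' : (0 : ℤ) ≤ ε := Int.natCast_nonneg ε
  have h3 := mul_le_mul_of_nonneg_left h1' hε'
  have h4 : -(((w g).natAbs : ℤ) * q) ≤ q * w g := by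
    have h5 : -((w g).natAbs : ℤ) ≤ w g := by omega
    have h6 : (0 : ℤ) ≤ q := Int.natCast_nonneg q
    have h7 := mul_le_mul_of_nonneg_left h5 h6
    linarith
  have h5 : -((w h).natAbs : ℤ) ≤ w h := by omega
  have h6 : w (A.mono χ) ≤ ((w (A.mono χ)).natAbs : ℤ) := by omega
  have h7 : ((w (A.mono χ)).natAbs : ℤ) ≤
      ((∑ χ : ι → Fin A.N, (w (A.mono χ)).natAbs : ℕ) : ℤ) := by exact_mod_cast h2
  have h8 : -(((ε * C₁ + (w g).natAbs : ℕ) : ℤ) * q +
      ((ε * CA + (w h).natAbs + ∑ χ : ι → Fin A.N, (w (A.mono χ)).natAbs : ℕ) : ℤ)) ≤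
      (ε : ℤ) * v f + q * w g + w h - w (A.mono χ) := by
    simp only [Nat.cast_add, Nat.cast_mul]
    linarith
  exact_mod_cast h8

theorem upper_bad (A : Arr K' L' t ι) (D₀ : Fin d → Derivation K' L' L')
    (hD₀ : ∀ i j, D₀ i (tL L' t j) = if i = j then 1 else 0) {t' : Fin d → M}
    (ht' : IsTorus K' t') (D : X.Div) {g : L'} (hg : g ≠ 0) (Q' : DVal k K') :
    ∃ C : ℕ, ∀ (AX : X.Div) (h : L'), h ≠ 0 → ∃ CA : ℕ, ∀ (q : ℕ) (f : L),
      f ∈ X.H0 ((q : ℚ) • D + AX) →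
      ∀ G : (ι → Fin A.N) → MvPolynomial (Fin d) K', (∀ χ, G χ ≠ 0 → (χ A.o : ℕ) = 0) →
        algebraMap L L' f * g ^ q * h = ∑ χ, MvPolynomial.aeval (tL L' t') (G χ) * A.mono χ →
        ∀ χ α, Q'.Ge (-((C : ℚ) * q + CA)) ((G χ).coeff α) := by
  classical
  have : CharZero K' := charZero_of_injective_algebraMap (algebraMap k K').injective
  obtain ⟨Q₁, hQ₁⟩ : ∃ Q₁ : DVal k M, Q₁ = Pool.Agent.Helper92.Ga.gaussVal ht' Q' := ⟨_, rfl⟩
  have hfin := finite_above (E' := L') Q₁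
  have hval : ∀ w : DVal k L', ∃ C : ℕ, ∀ (AX : X.Div) (h : L'), h ≠ 0 → ∃ CA : ℕ,
      ∀ (q : ℕ) (f : L), f ∈ X.H0 ((q : ℚ) • D + AX) → ∀ χ : ι → Fin A.N,
        w.Ge (-((C : ℚ) * q + CA)) (algebraMap L L' f * g ^ q * h / A.mono χ) := fun w =>
    one_val D hg A w
  choose C hC using hval
  refine ⟨∑ w ∈ hfin.toFinset, C w, fun AX h hh => ?_⟩
  have hval' := fun w => hC w AX h hh
  choose CA hCA using hval'
  refine ⟨∑ w ∈ hfin.toFinset, CA w, fun q f hf G hG hsum χ α => ?_⟩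
  by_cases hGχ : G χ = 0
  · rw [hGχ, MvPolynomial.coeff_zero]
    exact DVal.Ge.zero
  have hχ := hG χ hGχ
  obtain ⟨n, hn⟩ : ∃ n : ℤ, n = -(((∑ w ∈ hfin.toFinset, C w : ℕ) : ℤ) * q +
    ((∑ w ∈ hfin.toFinset, CA w : ℕ) : ℤ)) := ⟨_, rfl⟩
  have hn' : -(((∑ w ∈ hfin.toFinset, C w : ℕ) : ℚ) * q +
      ((∑ w ∈ hfin.toFinset, CA w : ℕ) : ℚ)) = (n : ℚ) := by
    rw [hn]
    push_cast
    ring
  rw [hn']
  apply coeff_ge ht'
  rw [← hQ₁]
  have haeval : ∀ χ, algebraMap M L' (MvPolynomial.aeval t' (G χ)) =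
      MvPolynomial.aeval (tL L' t') (G χ) := by
    intro χ
    have h1 := MvPolynomial.map_aeval t' (algebraMap M L') (G χ)
    rw [h1, MvPolynomial.aeval_eq_eval₂Hom, MvPolynomial.coe_eval₂Hom]
    rw [← IsScalarTower.algebraMap_eq]
    rfl
  have h1 := trace_mono A D₀ hD₀ (fun χ => MvPolynomial.aeval t' (G χ)) (fun χ' h2 => by
    apply hG
    intro h3
    apply h2
    rw [h3, map_zero]) χ hχ
  simp only [haeval] at h1
  rw [← hsum] at h1
  have h2 : Q₁.Ge (n : ℚ) (Algebra.trace M L' (algebraMap L L' f * g ^ q * h / A.mono χ)) := by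
    apply Pool.Agent.Helper47.PQ.trace_ge
    intro w e hw
    have hwS : w ∈ hfin.toFinset := by
      rw [Set.Finite.mem_toFinset]
      exact ⟨e, hw⟩
    refine (hCA w q f hf χ).mono ?_
    have h3 : C w ≤ ∑ w ∈ hfin.toFinset, C w :=
      Finset.single_le_sum (f := C) (fun _ _ => Nat.zero_le _) hwS
    have h4 : CA w ≤ ∑ w ∈ hfin.toFinset, CA w :=
      Finset.single_le_sum (f := CA) (fun _ _ => Nat.zero_le _) hwS
    have h5 : C w * q + CA w ≤ (∑ w ∈ hfin.toFinset, C w) * q + ∑ w ∈ hfin.toFinset, CA w :=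
      Nat.add_le_add (Nat.mul_le_mul_right _ h3) h4
    have h6 : ((C w : ℚ) * q + CA w) ≤ -(n : ℚ) := by
      rw [← hn', neg_neg]
      exact_mod_cast h5
    have h7 : (0 : ℚ) ≤ (C w : ℚ) * q + CA w := by positivity
    have h8 : (1 : ℚ) ≤ e := by
      have := hw.1
      exact_mod_cast this
    nlinarith
  rw [h1] at h2
  refine ge_of_nat_smul (N := A.N ^ (Fintype.card ι - 1)) (pow_ne_zero _ A.N_pos.ne') ?_
  exact h2

end Pool.Agent.Helper92.HA
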