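import Pool.Agent.Helper92.HA.Defs
import Pool.Agent.Helper92.HA.Theta
import Pool.Agent.Helper63.PB.PsiBounds
import Pool.Agent.Helper47.PQ.R1

set_option autoImplicit false

/-!
# HA-06 PsiA: the products of logarithmic forms are sections

`x` is supported on bases, `m = ∑ x`. `phi_val`: `v (phi x) = ∑_b x_b v (θ_b)`.
`psiA_hor`. `P` trivial on `K`: `v` is trivial on `K` and so on `K'` (elements of `K'` are algebraic over
`K`), so `v (phi x) = -∑_i use_i v (l_i)` (`theta_val`, `∑_b x_b ∑_{i ∈ b} = ∑_i use_i`), and `H.low` says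
`m v u + ∑ use_i v (l_i) ≤ ε m (a P + Δ P)`.
`psiA_vert`. `v (phi x) - m v u ≥ -m μ - m v u = -ε m λ`, `λ = a P + 1 - e (c Q + 1)` (`theta_vert`), and
`e T(Q) - D(P) = e (c Q + E Q) - a P - Δ P ≤ -λ` by `hE`.
`psiA_strict`. `P` over `Q` is not good for `W`: either `Δ P + (e - 1) ≠ e E Q`: then
`e T(Q) - D(P) < -λ` and any `v` over `P` works (`Helper47.PQ.exists_over`); or `v (θ_b) + μ ≠ 0`, so
`≥ 1`, for some `v` over `P` and some base `b` with `W b`; `x b ≥ 1` gives the strict inequality. The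
same `v` works for all `x`.
-/

namespace Pool.Agent.Helper92.HA

open Module Pool.Agent.Helper92.Weak Pool.Agent.Helper63.PB

variable {k K L K' M L' : Type*} [Field k] [Field K] [Field L] [Field K'] [Field M] [Field L']
  [Algebra k K] [Algebra k L] [Algebra k K'] [Algebra k M] [Algebra k L'] [Algebra K L]
  [Algebra K K'] [Algebra K L'] [Algebra L L'] [Algebra K' M] [Algebra K' L'] [Algebra M L']
  [IsScalarTower k K L] [IsScalarTower k K K'] [IsScalarTower k K L'] [IsScalarTower k L L']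
  [IsScalarTower k K' M] [IsScalarTower k K' L'] [IsScalarTower k M L'] [IsScalarTower K L L']
  [IsScalarTower K K' L'] [IsScalarTower K' M L'] [FiniteDimensional K K']
  [FiniteDimensional L L'] [FiniteDimensional M L'] [CharZero k] {d : ℕ}
  {X : ProjVar k L} {Z : ProjVar k K} {t : Fin d → M} {ι : Type*} [Fintype ι] [DecidableEq ι]

theorem phi_ne (A : Arr K' L' t ι) {x : Finset ι → ℕ} (hb : ∀ b, x b ≠ 0 → IsBase K' A.co b) :
    A.phi x ≠ 0 := by
  unfold Arr.phi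
  refine Finset.prod_ne_zero_iff.2 fun b _ => ?_
  by_cases h : x b = 0
  · rw [h, pow_zero]
    exact one_ne_zero
  · exact pow_ne_zero _ (theta_ne A (hb b h))

/-- The value of the product. -/
theorem phi_val (A : Arr K' L' t ι) (v : DVal k L') {x : Finset ι → ℕ}
    (hb : ∀ b, x b ≠ 0 → IsBase K' A.co b) :
    v (A.phi x) = ∑ b : Finset ι, (x b : ℤ) * v (A.theta b) := by
  unfold Arr.phi
  rw [DVal.map_prod]
  · exact Finset.sum_congr rfl fun b _ => v.map_pow _ _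
  · intro b _
    by_cases h : x b = 0
    · rw [h, pow_zero]
      exact one_ne_zero
    · exact pow_ne_zero _ (theta_ne A (hb b h))

/-- Exchange of sums. -/
theorem sum_use (A : Arr K' L' t ι) (x : Finset ι → ℕ) (f : ι → ℤ) :
    ∑ i, (A.use x i : ℤ) * f i = ∑ b : Finset ι, (x b : ℤ) * ∑ i ∈ b, f i := by
  unfold Arr.use
  have h1 : ∀ i, (((∑ b : Finset ι, if i ∈ b then x b else 0 : ℕ) : ℕ) : ℤ) * f i =
      ∑ b : Finset ι, if i ∈ b then (x b : ℤ) * f i else 0 := by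
    intro i
    push_cast
    rw [Finset.sum_mul]
    refine Finset.sum_congr rfl fun b _ => ?_
    split_ifs <;> simp
  rw [Finset.sum_congr rfl fun i _ => h1 i, Finset.sum_comm]
  refine Finset.sum_congr rfl fun b _ => ?_
  rw [Finset.mul_sum, ← Finset.sum_filter]
  refine Finset.sum_congr ?_ fun _ _ => rfl
  ext i
  simp

theorem psiA_hor {F : DFrame X Z K' (tL L' t)} {A : Arr K' L' t ι} {Δ : X.Div}
    (H : HorArr F A Δ) {x : Finset ι → ℕ} {m : ℕ} (hb : ∀ b, x b ≠ 0 → IsBase K' A.co b)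
    (hm : ∑ b, x b = m) (hu : ∀ i, (A.use x i : ℚ) ≤ m * A.δ i) {P : X.primeDivisors}
    (hP : ∀ x : K, P.1 (algebraMap K L x) = 0) {v : DVal k L'} {ε : ℕ} (hv : LiesOver v P.1 ε) :
    -((ε : ℚ) * (m * (F.aD + Δ) P)) ≤ v (A.phi x / F.u ^ m) := by
  have h0 := phi_ne A hb
  have h1 := H.low P hP v ε hv m x hb hm hu
  have h2 : v (A.phi x) = -∑ i, (A.use x i : ℤ) * v (A.l i) := by
    rw [phi_val A v hb, sum_use, ← Finset.sum_neg_distrib]
    refine Finset.sum_congr rfl fun b _ => ?_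
    by_cases h : x b = 0
    · rw [h]
      simp
    · rw [theta_val A v (hb b h), triv_of_hor (k := k) (K := K) (L := L) hP hv]
      ring
  rw [v.map_div h0 (pow_ne_zero _ F.u_ne), v.map_pow, h2]
  rw [Finsupp.add_apply, F.aD_apply]
  push_cast at h1 ⊢
  linarith

/-- The lower bound of the value of the product. -/
theorem phi_vert (F : DFrame X Z K' (tL L' t)) (A : Arr K' L' t ι) {x : Finset ι → ℕ} {m : ℕ}
    (hb : ∀ b, x b ≠ 0 → IsBase K' A.co b) (hm : ∑ b, x b = m) {P : X.primeDivisors}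
    {Q : Z.primeDivisors} {e : ℕ} {v : DVal k L'} {ε : ℕ} :
    v (A.phi x / F.u ^ m) = ∑ b : Finset ι, (x b : ℤ) * (v (A.theta b) + F.mu P Q e v ε) -
      m * (ε * (F.a P + 1 - e * (F.c Q + 1))) := by
  have h0 := phi_ne A hb
  rw [v.map_div h0 (pow_ne_zero _ F.u_ne), v.map_pow, phi_val A v hb]
  simp only [mul_add]
  rw [Finset.sum_add_distrib, ← Finset.sum_mul, ← Nat.cast_sum, hm]
  unfold DFrame.mu
  ring

theorem psiA_vert {F : DFrame X Z K' (tL L' t)} {A : Arr K' L' t ι} {Δ : X.Div} {E : Z.Div}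
    (hE : ∀ (P : X.primeDivisors) (Q : Z.primeDivisors) (e : ℕ), LiesOver P.1 Q.1 e →
      e * E Q ≤ Δ P + (e - 1)) {x : Finset ι → ℕ} {m : ℕ}
    (hb : ∀ b, x b ≠ 0 → IsBase K' A.co b) (hm : ∑ b, x b = m) {P : X.primeDivisors}
    {Q : Z.primeDivisors} {e : ℕ} (hP : LiesOver P.1 Q.1 e) {v : DVal k L'} {ε : ℕ}
    (hv : LiesOver v P.1 ε) :
    (ε : ℚ) * (m * (e * (F.cD + E) Q - (F.aD + Δ) P)) ≤ v (A.phi x / F.u ^ m) := by
  rw [phi_vert F A hb hm (P := P) (Q := Q) (e := e) (ε := ε)]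
  have h1 : (0 : ℤ) ≤ ∑ b : Finset ι, (x b : ℤ) * (v (A.theta b) + F.mu P Q e v ε) := by
    refine Finset.sum_nonneg fun b _ => ?_
    by_cases h : x b = 0
    · rw [h]
      simp
    · exact mul_nonneg (Int.natCast_nonneg _) (theta_vert F A hP hv (hb b h))
  have h2 : (0 : ℚ) ≤ ((∑ b : Finset ι, (x b : ℤ) * (v (A.theta b) + F.mu P Q e v ε) : ℤ) : ℚ) := by
    exact_mod_cast h1
  have h3 := hE P Q e hP
  have h4 : (0 : ℚ) ≤ (ε : ℚ) * m := by positivity
  have h5 := mul_le_mul_of_nonneg_left h3 h4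
  rw [Finsupp.add_apply, Finsupp.add_apply, F.aD_apply, F.cD_apply, Int.cast_sub]
  push_cast at h2 ⊢
  linarith

theorem psiA_strict {F : DFrame X Z K' (tL L' t)} {A : Arr K' L' t ι} {Δ : X.Div} {E : Z.Div}
    (hE : ∀ (P : X.primeDivisors) (Q : Z.primeDivisors) (e : ℕ), LiesOver P.1 Q.1 e →
      e * E Q ≤ Δ P + (e - 1)) {W : Finset ι → Prop} {P : X.primeDivisors}
    {Q : Z.primeDivisors} {e : ℕ} (hP : LiesOver P.1 Q.1 e) (hng : ¬ Good F A W Δ E P Q e) :
    ∃ (v : DVal k L') (ε : ℕ), LiesOver v P.1 ε ∧ ∀ (x : Finset ι → ℕ) (m : ℕ), 0 < m →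
      (∀ b, x b ≠ 0 → IsBase K' A.co b) → ∑ b, x b = m →
      (∀ b, IsBase K' A.co b → W b → 0 < x b) →
      (ε : ℚ) * (m * (e * (F.cD + E) Q - (F.aD + Δ) P)) < v (A.phi x / F.u ^ m) := by
  have h3 := hE P Q e hP
  by_cases hs : Δ P + (e - 1) = e * E Q
  · have hex : ∃ (v : DVal k L') (ε : ℕ), LiesOver v P.1 ε ∧ ∃ b : Finset ι, IsBase K' A.co b ∧
        W b ∧ v (A.theta b) + F.mu P Q e v ε ≠ 0 := by
      by_contra hcon
      refine hng ⟨hP, hs, fun v ε hv b hb hW => ?_⟩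
      by_contra hne
      exact hcon ⟨v, ε, hv, b, hb, hW, hne⟩
    obtain ⟨v, ε, hv, b₀, hb₀, hW₀, hne⟩ := hex
    refine ⟨v, ε, hv, fun x m hm0 hb hm hW => ?_⟩
    rw [phi_vert F A hb hm (P := P) (Q := Q) (e := e) (ε := ε)]
    have h1 : (0 : ℤ) < ∑ b : Finset ι, (x b : ℤ) * (v (A.theta b) + F.mu P Q e v ε) := by
      refine Finset.sum_pos' (fun b _ => ?_) ⟨b₀, Finset.mem_univ _, ?_⟩
      · by_cases h : x b = 0
        · rw [h]
          simp
        · exact mul_nonneg (Int.natCast_nonneg _) (theta_vert F A hP hv (hb b h))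
      · have h6 := theta_vert F A hP hv hb₀
        have h7 : 0 < v (A.theta b₀) + F.mu P Q e v ε := lt_of_le_of_ne h6 (Ne.symm hne)
        have h8 : (0 : ℤ) < x b₀ := by exact_mod_cast hW b₀ hb₀ hW₀
        exact mul_pos h8 h7
    have h2 : (0 : ℚ) < ((∑ b : Finset ι, (x b : ℤ) * (v (A.theta b) + F.mu P Q e v ε) : ℤ) : ℚ) := by
      exact_mod_cast h1
    have h4 : (0 : ℚ) ≤ (ε : ℚ) * m := by positivity
    have h5 := mul_le_mul_of_nonneg_left h3 h4
    rw [Finsupp.add_apply, Finsupp.add_apply, F.aD_apply, F.cD_apply, Int.cast_sub]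
    push_cast at h2 ⊢
    linarith
  · obtain ⟨v, ε, hv⟩ := Helper47.PQ.exists_over L' P.1
    refine ⟨v, ε, hv, fun x m hm0 hb hm hW => ?_⟩
    rw [phi_vert F A hb hm (P := P) (Q := Q) (e := e) (ε := ε)]
    have h1 : (0 : ℤ) ≤ ∑ b : Finset ι, (x b : ℤ) * (v (A.theta b) + F.mu P Q e v ε) := by
      refine Finset.sum_nonneg fun b _ => ?_
      by_cases h : x b = 0
      · rw [h]
        simp
      · exact mul_nonneg (Int.natCast_nonneg _) (theta_vert F A hP hv (hb b h))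
    have h2 : (0 : ℚ) ≤ ((∑ b : Finset ι, (x b : ℤ) * (v (A.theta b) + F.mu P Q e v ε) : ℤ) : ℚ) := by
      exact_mod_cast h1
    have h3' : (e : ℚ) * E Q < Δ P + (e - 1) := lt_of_le_of_ne h3 (Ne.symm hs)
    have h4 : (0 : ℚ) < (ε : ℚ) * m := by
      have := hv.1
      have h5 : (0 : ℚ) < ε := by exact_mod_cast this
      have h6 : (0 : ℚ) < m := by exact_mod_cast hm0
      positivity
    have h5 := mul_lt_mul_of_pos_left h3' h4
    rw [Finsupp.add_apply, Finsupp.add_apply, F.aD_apply, F.cD_apply, Int.cast_sub]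
    push_cast at h2 ⊢
    linarith

end Pool.Agent.Helper92.HA
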