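import Pool.Agent.Helper92.HA.Defs
import Pool.Agent.Helper92.HA.Kill
import Pool.Agent.Helper92.HA.FamilyB
import Pool.Agent.Helper92.HA.Wronsk
import Pool.Agent.Helper92.HA.ConstA
import Pool.Agent.Helper92.HA.CommonA
import Pool.Agent.Helper92.HA.PsiA

set_option autoImplicit false

/-!
# HA-23 UpperZero: the data for the upper bound, `h = 0`

`M₀ = m`, `w_i = use x i = m δ_i`, `J = 0`, `κ₀ = (∏_b cdet b ^ x b)⁻¹`, so that
`Ψ = κ₀ ∏ l_i^(w_i) = (phi x)⁻¹` (`theta`). For `v` over a good `P` (for `W b := x b ≠ 0`):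
`v (phi x) = ∑ x_b v (θ_b) = -m μ_v`, `v Ψ = m μ_v`.
For `A_X`: `g, c_A` from `exists_poly_of_secA`; the elements `φ f = f (u^m Ψ)^q g(t)` are in the `K'`-span of the
finitely many `y_j = t^α mono χ` with `χ o = 0`, `N |α| + |χ| ≤ N c_A`, linearly independent over `K'`
(`fam_indep`). `exists_wronskian` (constants: `constA`) gives words; if `A_X = 0` then `c_A = 0`, the only `y` is `1`
and the word is empty (derivatives of `1` vanish).
The coefficients `a_j(f) ∈ K'` of `φ f` depend linearly on `f` and determine `f`, so it is enough to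
show `a_j(f) ∈ famH0 K' Z (q m (T + C B) + A')`; `sdim_le_card_mul` gives the inequality with
`C' =` the number of the `y_j` and `s = 0`.
Let `Q'` be over `Q` (`e'`). `P` over `Q`: good if `Q ∉ B`, arbitrary if `Q ∈ B` (`F.surj`). `v` over `P` (`ε`) and over `Q'`
(`ε'`), `ε e = ε' e'` (`exists_commonA`). As in UpperPos, for `Q ∉ B`:
`v (φ f) ≥ -ε e q m T(Q) - ε A_X P + v (g(t))`; for `Q ∈ B` a similar bound with another linear term,
absorbed in `C`. `wronsk_coeff` with `C₀ = max μ' 0`, where `D i` loses at most `μ'`: `F.star` for `t` with the `i`-th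
member replaced by `g` gives `v (D i g) ≥ v g + ∑_(j ≠ i) v (t_j) - μ_v`; `C₁`, `v (det)` constants; for all but
finitely many `P` all of `μ_v`, `v (t_j)`, `v (det)`, the negative parts of the `v (word D (w i) (y_j))`, `v (g(t))`
are `0` (`finite_ne`; `μ_v = 0` for almost all good `P`: `v (θ_b) = 0` for some `b` with `x b ≠ 0`). So the loss is
`0` for almost all `Q`, and `0` for all `Q ∉ B` if `A_X = 0` (`y = 1`, empty word, `g = 1`): it goes into `A'`.
-/

namespace Pool.Agent.Helper92.HA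

open Module Pool.Agent.Helper92.Weak Pool.Agent.Helper63.PB

variable {k K L K' M L' : Type*} [Field k] [Field K] [Field L] [Field K'] [Field M] [Field L']
  [Algebra k K] [Algebra k L] [Algebra k K'] [Algebra k M] [Algebra k L'] [Algebra K L]
  [Algebra K K'] [Algebra K L'] [Algebra L L'] [Algebra K' M] [Algebra K' L'] [Algebra M L']
  [IsScalarTower k K L] [IsScalarTower k K K'] [IsScalarTower k K L'] [IsScalarTower k L L']
  [IsScalarTower k K' M] [IsScalarTower k K' L'] [IsScalarTower k M L'] [IsScalarTower K L L']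
  [IsScalarTower K K' L'] [IsScalarTower K' M L'] [FiniteDimensional K K']
  [FiniteDimensional L L'] [FiniteDimensional M L'] [CharZero k] {d : ℕ}
  {X : ProjVar k L} {Z : ProjVar k K} {t : Fin d → M} {ι : Type*} [Fintype ι] [DecidableEq ι]

/-- the family of the monomials, with a bound for the degree -/
private theorem uz_family (F : DFrame X Z K' (tL L' t)) (A : Arr K' L' t ι) (c : ℕ) :
    ∃ (n : ℕ) (y : Fin n → L'), LinearIndependent K' y ∧
      ∀ G : (ι → Fin A.N) → MvPolynomial (Fin d) K',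
        (∀ χ, G χ ≠ 0 → (χ A.o : ℕ) = 0 ∧ (G χ).totalDegree ≤ c) →
        ∃ a : Fin n → K', ∑ χ, MvPolynomial.aeval (tL L' t) (G χ) * A.mono χ =
          ∑ j, algebraMap K' L' (a j) * y j := by
  classical
  have hfin : {p : (ι → Fin A.N) × (Fin d →₀ ℕ) | (p.1 A.o : ℕ) = 0 ∧ p.2.degree ≤ c}.Finite := by
    refine ((Set.finite_univ (α := ι → Fin A.N)).prod (Finsupp.finite_of_degree_le c)).subset ?_
    rintro p ⟨_, h⟩
    exact ⟨Set.mem_univ _, h⟩
  set J : Finset ((ι → Fin A.N) × (Fin d →₀ ℕ)) := hfin.toFinset with hJ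
  have hmem : ∀ p, p ∈ J ↔ ((p.1 A.o : ℕ) = 0 ∧ p.2.degree ≤ c) := fun p => by
    rw [hJ, Set.Finite.mem_toFinset]
    rfl
  -- the polynomials with given coefficients
  let GG : (J → K') → (ι → Fin A.N) → MvPolynomial (Fin d) K' := fun a χ =>
    ∑ p : J, if p.1.1 = χ then MvPolynomial.monomial p.1.2 (a p) else 0
  have hcoef : ∀ (a : J → K') (p : J), MvPolynomial.coeff p.1.2 (GG a p.1.1) = a p := by
    intro a p
    simp only [GG]
    rw [MvPolynomial.coeff_sum, Finset.sum_eq_single p]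
    · rw [if_pos rfl, MvPolynomial.coeff_monomial, if_pos rfl]
    · intro p' _ hp'
      by_cases h : p'.1.1 = p.1.1
      · rw [if_pos h, MvPolynomial.coeff_monomial, if_neg]
        intro h2
        exact hp' (Subtype.ext (Prod.ext h h2))
      · rw [if_neg h, MvPolynomial.coeff_zero]
    · intro h
      exact absurd (Finset.mem_univ _) h
  have hGGo : ∀ (a : J → K') χ, GG a χ ≠ 0 → (χ A.o : ℕ) = 0 := by
    intro a χ h
    by_contra hχ
    apply h
    refine Finset.sum_eq_zero fun p _ => if_neg fun hp => hχ ?_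
    rw [← hp]
    exact ((hmem p.1).1 p.2).1
  let yy : J → L' := fun p =>
    MvPolynomial.aeval (tL L' t) (MvPolynomial.monomial p.1.2 (1 : K')) * A.mono p.1.1
  have hsum : ∀ a : J → K', ∑ χ, MvPolynomial.aeval (tL L' t) (GG a χ) * A.mono χ =
      ∑ p : J, algebraMap K' L' (a p) * yy p := by
    intro a
    have h1 : ∀ χ, MvPolynomial.aeval (tL L' t) (GG a χ) * A.mono χ =
        ∑ p : J, if p.1.1 = χ then algebraMap K' L' (a p) * yy p else 0 := by
      intro χ
      simp only [GG]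
      rw [map_sum, Finset.sum_mul]
      refine Finset.sum_congr rfl fun p _ => ?_
      by_cases h : p.1.1 = χ
      · rw [if_pos h, if_pos h, ← h]
        simp only [yy]
        rw [MvPolynomial.aeval_monomial, MvPolynomial.aeval_monomial, map_one]
        ring
      · rw [if_neg h, if_neg h, map_zero, zero_mul]
    rw [Finset.sum_congr rfl fun χ _ => h1 χ, Finset.sum_comm]
    refine Finset.sum_congr rfl fun p _ => ?_
    rw [Finset.sum_ite_eq, if_pos (Finset.mem_univ _)]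
  have hli : LinearIndependent K' yy := by
    rw [Fintype.linearIndependent_iff]
    intro a ha p
    have h1 : ∑ χ, MvPolynomial.aeval (tL L' t) (GG a χ) * A.mono χ =
        ∑ χ, MvPolynomial.aeval (tL L' t) ((0 : (ι → Fin A.N) → MvPolynomial (Fin d) K') χ) *
          A.mono χ := by
      rw [hsum]
      simp only [Pi.zero_apply, map_zero, zero_mul, Finset.sum_const_zero]
      rw [← ha]
      exact Finset.sum_congr rfl fun p _ => (Algebra.smul_def _ _).symm
    have : CharZero K' := charZero_of_injective_algebraMap (algebraMap k K').injective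
    have h2 := fam_indep A F.D F.D_t A.torus (hGGo a) (fun χ h => absurd rfl h) h1
    rw [← hcoef a p, h2]
    simp
  refine ⟨Fintype.card J, yy ∘ (Fintype.equivFin J).symm,
    hli.comp _ (Fintype.equivFin J).symm.injective, fun G hG => ?_⟩
  refine ⟨fun j => MvPolynomial.coeff ((Fintype.equivFin J).symm j).1.2
    (G ((Fintype.equivFin J).symm j).1.1), ?_⟩
  have h1 : G = GG (fun p => MvPolynomial.coeff p.1.2 (G p.1.1)) := by
    funext χ
    apply MvPolynomial.ext
    intro α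
    by_cases h : (χ A.o : ℕ) = 0 ∧ α.degree ≤ c
    · exact (hcoef (fun p => MvPolynomial.coeff p.1.2 (G p.1.1))
        ⟨(χ, α), (hmem (χ, α)).2 h⟩).symm
    · have h3 : MvPolynomial.coeff α (GG (fun p => MvPolynomial.coeff p.1.2 (G p.1.1)) χ) = 0 := by
        simp only [GG]
        rw [MvPolynomial.coeff_sum]
        refine Finset.sum_eq_zero fun p _ => ?_
        by_cases h4 : p.1.1 = χ
        · rw [if_pos h4, MvPolynomial.coeff_monomial, if_neg]
          intro h5
          apply h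
          have h6 := (hmem p.1).1 p.2
          rw [h4, h5] at h6
          exact h6
        · rw [if_neg h4, MvPolynomial.coeff_zero]
      rw [h3]
      by_contra h4
      have h5 : G χ ≠ 0 := fun h6 => h4 (by rw [h6, MvPolynomial.coeff_zero])
      have h6 := hG χ h5
      refine h ⟨h6.1, le_trans ?_ h6.2⟩
      have h7 := MvPolynomial.le_totalDegree (MvPolynomial.mem_support_iff.2 h4)
      exact h7
  conv_lhs => rw [h1]
  rw [hsum]
  exact (Equiv.sum_comp (Fintype.equivFin J).symm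
    (fun p : J => algebraMap K' L' (MvPolynomial.coeff p.1.2 (G p.1.1)) * yy p)).symm

/-- the family and the words -/
private theorem uz_words (F : DFrame X Z K' (tL L' t)) (A : Arr K' L' t ι) (cA : ℕ) :
    ∃ (n : ℕ) (y : Fin n → L') (w : Fin n → List (Fin d)) (ℓ : ℕ),
      LinearIndependent K' y ∧ (Matrix.of fun i j => word F.D (w i) (y j)).det ≠ 0 ∧
      (∀ i, (w i).length ≤ ℓ) ∧
      (cA = 0 → ℓ = 0 ∧ (∀ i j, word F.D (w i) (y j) = 1) ∧
        (Matrix.of fun i j => word F.D (w i) (y j)).det = 1) ∧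
      ∀ G : (ι → Fin A.N) → MvPolynomial (Fin d) K',
        (∀ χ, G χ ≠ 0 → (χ A.o : ℕ) = 0 ∧
          A.N * (G χ).totalDegree + ∑ i, (χ i : ℕ) ≤ A.N * cA) →
        ∃ a : Fin n → K', ∑ χ, MvPolynomial.aeval (tL L' t) (G χ) * A.mono χ =
          ∑ j, algebraMap K' L' (a j) * y j := by
  classical
  by_cases hcA : cA = 0
  · have hdet : (Matrix.of fun (i j : Fin 1) =>
        word F.D ((fun _ : Fin 1 => ([] : List (Fin d))) i) ((fun _ : Fin 1 => (1 : L')) j)).det
          = 1 := by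
      rw [Matrix.det_fin_one]
      rfl
    refine ⟨1, fun _ => 1, fun _ => [], 0, ?_, ?_, fun _ => le_rfl,
      fun _ => ⟨rfl, fun _ _ => rfl, hdet⟩, fun G hG => ?_⟩
    · rw [Fintype.linearIndependent_iff]
      intro g hg i
      rw [Fin.sum_univ_one, Algebra.smul_def, mul_one] at hg
      have h1 := (map_eq_zero_iff _ (algebraMap K' L').injective).1 hg
      rwa [Subsingleton.elim i 0]
    · rw [hdet]
      exact one_ne_zero
    · set χ0 : ι → Fin A.N := fun _ => ⟨0, A.N_pos⟩ with hχ0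
      refine ⟨fun _ => MvPolynomial.coeff 0 (G χ0), ?_⟩
      have h1 : ∀ χ, G χ ≠ 0 → χ = χ0 := by
        intro χ h
        have h2 := (hG χ h).2
        rw [hcA, mul_zero] at h2
        have h3 : ∑ i, (χ i : ℕ) = 0 := by omega
        rw [Finset.sum_eq_zero_iff] at h3
        funext i
        exact Fin.ext (h3 i (Finset.mem_univ i))
      rw [Finset.sum_eq_single χ0, Fin.sum_univ_one, mul_one]
      · have h2 : A.mono χ0 = 1 := by
          unfold Arr.mono
          refine Finset.prod_eq_one fun i _ => ?_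
          simp only [hχ0, pow_zero]
        rw [h2, mul_one]
        by_cases h3 : G χ0 = 0
        · rw [h3, map_zero, MvPolynomial.coeff_zero, map_zero]
        · have h4 := (hG χ0 h3).2
          rw [hcA, mul_zero] at h4
          have h5 : A.N * (G χ0).totalDegree = 0 := by omega
          have h6 : (G χ0).totalDegree = 0 := by
            rcases Nat.mul_eq_zero.1 h5 with h | h
            · exact absurd h A.N_pos.ne'
            · exact h
          conv_lhs => rw [MvPolynomial.totalDegree_eq_zero_iff_eq_C.1 h6]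
          rw [MvPolynomial.aeval_C]
      · intro χ _ hχ
        have h2 : G χ = 0 := by
          by_contra h
          exact hχ (h1 χ h)
        rw [h2, map_zero, zero_mul]
      · intro h
        exact absurd (Finset.mem_univ _) h
  · have : CharZero K' := charZero_of_injective_algebraMap (algebraMap k K').injective
    obtain ⟨n, y, hy, hG⟩ := uz_family F A cA
    obtain ⟨w, hw⟩ := exists_wronskian F.D (fun z hz => constA A F.D F.D_t hz) y hy
    refine ⟨n, y, w, ∑ i, (w i).length, hy, hw, fun i => ?_, fun h => absurd h hcA,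
      fun G h => hG G fun χ hχ => ?_⟩
    · exact Finset.single_le_sum (f := fun i => (w i).length) (fun _ _ => Nat.zero_le _)
        (Finset.mem_univ i)
    · obtain ⟨h1, h2⟩ := h χ hχ
      refine ⟨h1, ?_⟩
      have h3 : A.N * (G χ).totalDegree ≤ A.N * cA := by omega
      exact Nat.le_of_mul_le_mul_left h3 A.N_pos

/-- the loss of a derivation -/
private theorem uz_deriv (F : DFrame X Z K' (tL L' t)) {P : X.primeDivisors}
    {Q : Z.primeDivisors} {e : ℕ} (hPQ : LiesOver P.1 Q.1 e) {v : DVal k L'} {ε : ℕ}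
    (hv : LiesOver v P.1 ε) (i : Fin d) (s : ℚ) (g : L') (hg : v.Ge s g) :
    v.Ge (s - (((|F.mu P Q e v ε| : ℤ) : ℚ) + ∑ j, ((|v (tL L' t j)| : ℤ) : ℚ))) (F.D i g) := by
  classical
  by_cases hg0 : g = 0
  · rw [hg0, map_zero]
    exact DVal.Ge.zero
  have ht0 : ∀ j, tL L' t j ≠ 0 := fun j => F.indep.ne_zero j
  have h1 := F.star P Q e hPQ v ε hv (Function.update (tL L' t) i g) (fun j => by
    by_cases h : j = i
    · subst h
      rwa [Function.update_self]
    · rw [Function.update_of_ne h]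
      exact ht0 j)
  have hdet : (Matrix.of fun a b => F.D a (Function.update (tL L' t) i g b)).det = F.D i g := by
    have h2 : (Matrix.of fun a b => F.D a (Function.update (tL L' t) i g b)) =
        (1 : Matrix (Fin d) (Fin d) L').updateCol i (fun a => F.D a g) := by
      ext a b
      rw [Matrix.updateCol_apply]
      by_cases h : b = i
      · subst h
        rw [if_pos rfl, Matrix.of_apply, Function.update_self]
      · rw [if_neg h, Matrix.of_apply, Function.update_of_ne h, F.D_t, Matrix.one_apply]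
    rw [h2, ← Matrix.cramer_apply, Matrix.cramer_one]
    rfl
  rw [hdet] at h1
  refine h1.mono ?_
  rw [DVal.ge_iff hg0] at hg
  have h3 : ∑ j, v (Function.update (tL L' t) i g j) =
      v g + ∑ j ∈ Finset.univ.erase i, v (tL L' t j) := by
    rw [← Finset.add_sum_erase _ _ (Finset.mem_univ i), Function.update_self]
    congr 1
    refine Finset.sum_congr rfl fun j hj => ?_
    rw [Function.update_of_ne (Finset.ne_of_mem_erase hj)]
  have h4 : -∑ j, |v (tL L' t j)| ≤ ∑ j ∈ Finset.univ.erase i, v (tL L' t j) := by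
    have h5 : ∑ j ∈ Finset.univ.erase i, |v (tL L' t j)| ≤ ∑ j, |v (tL L' t j)| :=
      Finset.sum_le_sum_of_subset_of_nonneg (Finset.erase_subset _ _)
        (fun j _ _ => abs_nonneg _)
    have h6 : -∑ j ∈ Finset.univ.erase i, |v (tL L' t j)| ≤
        ∑ j ∈ Finset.univ.erase i, v (tL L' t j) := by
      rw [← Finset.sum_neg_distrib]
      exact Finset.sum_le_sum fun j _ => neg_abs_le _
    linarith
  have h7 : F.mu P Q e v ε = ε * (F.a P + 1 - e * (F.c Q + 1)) - v F.u := rfl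
  rw [h3, ← h7]
  have h8 : F.mu P Q e v ε ≤ |F.mu P Q e v ε| := le_abs_self _
  have h9 : (v g : ℤ) - (|F.mu P Q e v ε| + ∑ j, |v (tL L' t j)|) ≤
      v g + ∑ j ∈ Finset.univ.erase i, v (tL L' t j) - F.mu P Q e v ε := by linarith
  have h10 : ((v g - (|F.mu P Q e v ε| + ∑ j, |v (tL L' t j)|) : ℤ) : ℚ) ≤
      ((v g + ∑ j ∈ Finset.univ.erase i, v (tL L' t j) - F.mu P Q e v ε : ℤ) : ℚ) := by
    exact_mod_cast h9
  refine le_trans ?_ h10
  push_cast
  linarith

/-- the constant `κ₀⁻¹` -/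
private theorem uz_kappa_ne (A : Arr K' L' t ι) {x : Finset ι → ℕ}
    (hb : ∀ b, x b ≠ 0 → IsBase K' A.co b) : (∏ b, A.cdet b ^ x b) ≠ 0 := by
  refine Finset.prod_ne_zero_iff.2 fun b _ => ?_
  by_cases h : x b = 0
  · rw [h, pow_zero]
    exact one_ne_zero
  · exact pow_ne_zero _ (cdet_ne A (hb b h))

/-- the values of `Ψ` -/
private theorem uz_psi_val (A : Arr K' L' t ι) (v : DVal k L') {x : Finset ι → ℕ}
    (hb : ∀ b, x b ≠ 0 → IsBase K' A.co b) :
    v (algebraMap K' L' (∏ b, A.cdet b ^ x b)⁻¹ * ∏ i, A.l i ^ A.use x i) =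
      -∑ b, (x b : ℤ) * v (A.theta b) := by
  classical
  have hl : ∀ i, A.l i ≠ 0 := fun i => l_ne A i
  have hk : algebraMap K' L' (∏ b, A.cdet b ^ x b)⁻¹ ≠ 0 := by
    rw [Ne, map_eq_zero_iff _ (algebraMap K' L').injective]
    exact inv_ne_zero (uz_kappa_ne A hb)
  have hp : (∏ i, A.l i ^ A.use x i) ≠ 0 :=
    Finset.prod_ne_zero_iff.2 fun i _ => pow_ne_zero _ (hl i)
  have h1 : v (algebraMap K' L' (∏ b, A.cdet b ^ x b)⁻¹) =
      -∑ b, (x b : ℤ) * v (algebraMap K' L' (A.cdet b)) := by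
    rw [map_inv₀, v.map_inv, map_prod, v.map_prod]
    · congr 1
      refine Finset.sum_congr rfl fun b _ => ?_
      rw [map_pow, v.map_pow]
    · intro b _
      rw [map_pow]
      by_cases h : x b = 0
      · rw [h, pow_zero]
        exact one_ne_zero
      · refine pow_ne_zero _ ?_
        rw [Ne, map_eq_zero_iff _ (algebraMap K' L').injective]
        exact cdet_ne A (hb b h)
  have h2 : v (∏ i, A.l i ^ A.use x i) = ∑ b, (x b : ℤ) * ∑ i ∈ b, v (A.l i) := by
    rw [v.map_prod _ _ fun i _ => pow_ne_zero _ (hl i)]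
    have h3 : ∀ i, v (A.l i ^ A.use x i) =
        ∑ b : Finset ι, (if i ∈ b then (x b : ℤ) * v (A.l i) else 0) := by
      intro i
      rw [v.map_pow]
      unfold Arr.use
      rw [Nat.cast_sum, Finset.sum_mul]
      refine Finset.sum_congr rfl fun b _ => ?_
      by_cases h : i ∈ b
      · rw [if_pos h, if_pos h]
      · rw [if_neg h, if_neg h, Nat.cast_zero, zero_mul]
    rw [Finset.sum_congr rfl fun i _ => h3 i, Finset.sum_comm]
    refine Finset.sum_congr rfl fun b _ => ?_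
    rw [Finset.mul_sum, Finset.sum_ite_mem, Finset.univ_inter]
  rw [v.map_mul hk hp, h1, h2, ← Finset.sum_neg_distrib, ← Finset.sum_add_distrib,
    ← Finset.sum_neg_distrib]
  refine Finset.sum_congr rfl fun b _ => ?_
  by_cases h : x b = 0
  · rw [h]
    simp
  · rw [theta_val A v (hb b h)]
    ring

/-- the value of a section -/
private theorem uz_core (F : DFrame X Z K' (tL L' t)) {P : X.primeDivisors} {v : DVal k L'}
    {ε : ℕ} (hv : LiesOver v P.1 ε) {Ψ G : L'} (hΨ : Ψ ≠ 0) (hG : G ≠ 0) {m q : ℕ} {f : L}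
    (hf : f ≠ 0) {α B : ℚ} (hPf : -(((q * m : ℕ) : ℚ) * (F.a P + α) + B) ≤ P.1 f) :
    -((q : ℚ) * (m * (ε * (F.a P + α)))) - ε * B + q * (m * v F.u) + q * v Ψ + v G ≤
      v (algebraMap L L' f * (F.u ^ m * Ψ) ^ q * G) := by
  have hfL : algebraMap L L' f ≠ 0 := by
    rwa [Ne, map_eq_zero_iff _ (algebraMap L L').injective]
  have hum : F.u ^ m ≠ 0 := pow_ne_zero _ F.u_ne
  have hval : v (algebraMap L L' f * (F.u ^ m * Ψ) ^ q * G) =
      ε * P.1 f + q * (m * v F.u + v Ψ) + v G := by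
    rw [v.map_mul (mul_ne_zero hfL (pow_ne_zero _ (mul_ne_zero hum hΨ))) hG,
      v.map_mul hfL (pow_ne_zero _ (mul_ne_zero hum hΨ)), hv.2, v.map_pow,
      v.map_mul hum hΨ, v.map_pow]
  rw [hval]
  have h1 : (ε : ℚ) * (-(((q * m : ℕ) : ℚ) * (F.a P + α) + B)) ≤ ε * P.1 f :=
    mul_le_mul_of_nonneg_left hPf (Nat.cast_nonneg _)
  push_cast at h1 ⊢
  have h2 : (ε : ℚ) * (-((q : ℚ) * m * (F.a P + α) + B)) =
      -((q : ℚ) * (m * (ε * (F.a P + α)))) - ε * B := by ring
  linarith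

private theorem uz_good {q m ε e : ℕ} {a c u μ w : ℤ} {α E : ℚ}
    (hμ : μ = ε * (a + 1 - e * (c + 1)) - u) (hα : α + (e - 1) = e * E) (hw : w = m * μ) :
    -((q : ℚ) * (m * (ε * (a + α)))) + q * (m * (u : ℚ)) + q * (w : ℚ) =
      -(((q * m : ℕ) : ℚ) * (ε * (e * (c + E)))) := by
  have h1 : α = e * E - (e - 1) := by linarith
  rw [hw, h1, hμ]
  push_cast
  ring

private theorem uz_bad {q m ε e : ℕ} {a c u w : ℤ} {α E C : ℚ} (hm : 0 < m) (hε : 0 < ε)
    (he : 0 < e)
    (hC : |(a : ℚ) + α| + |(u : ℚ)| + |(w : ℚ)| + |(c : ℚ) + E| ≤ C) :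
    -(((q * m : ℕ) : ℚ) * (ε * (e * (c + E + C)))) ≤
    -((q : ℚ) * (m * (ε * (a + α)))) + q * (m * (u : ℚ)) + q * (w : ℚ) := by
  have hq0 : (0 : ℚ) ≤ q := Nat.cast_nonneg _
  have hm1 : (1 : ℚ) ≤ m := by exact_mod_cast hm
  have hε1 : (1 : ℚ) ≤ ε := by exact_mod_cast hε
  have he1 : (1 : ℚ) ≤ e := by exact_mod_cast he
  have n1 := abs_nonneg ((a : ℚ) + α)
  have n2 := abs_nonneg (u : ℚ)
  have n3 := abs_nonneg (w : ℚ)
  have n4 := abs_nonneg ((c : ℚ) + E)
  have hme : (0 : ℚ) ≤ m * ε := by positivity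
  have hee : (1 : ℚ) ≤ ε * e := by nlinarith
  have k1 : (m : ℚ) * (ε * (a + α)) ≤ m * (ε * (e * |(a : ℚ) + α|)) := by
    have h1 : (a : ℚ) + α ≤ |(a : ℚ) + α| := le_abs_self _
    have h2 : |(a : ℚ) + α| ≤ e * |(a : ℚ) + α| := by nlinarith
    have h3 : (a : ℚ) + α ≤ e * |(a : ℚ) + α| := h1.trans h2
    have h4 := mul_le_mul_of_nonneg_left h3 hme
    linarith
  have k2 : -((m : ℚ) * u) ≤ m * (ε * (e * |(u : ℚ)|)) := by
    have h1 : -(u : ℚ) ≤ |(u : ℚ)| := neg_le_abs _
    have h2 : |(u : ℚ)| ≤ (ε * e) * |(u : ℚ)| := by nlinarith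
    have h4 := mul_le_mul_of_nonneg_left (h1.trans h2) (by linarith : (0 : ℚ) ≤ m)
    linarith
  have k3 : -(w : ℚ) ≤ m * (ε * (e * |(w : ℚ)|)) := by
    have h1 : -(w : ℚ) ≤ |(w : ℚ)| := neg_le_abs _
    have h2 : |(w : ℚ)| ≤ (m * (ε * e)) * |(w : ℚ)| := by
      have h3 : (1 : ℚ) ≤ m * (ε * e) := by nlinarith
      nlinarith
    have := h1.trans h2
    linarith
  have k4 : -((m : ℚ) * (ε * (e * (c + E)))) ≤ m * (ε * (e * |(c : ℚ) + E|)) := by
    have h1 : -((c : ℚ) + E) ≤ |(c : ℚ) + E| := neg_le_abs _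
    have h2 : (0 : ℚ) ≤ m * ε * e := by positivity
    have h3 := mul_le_mul_of_nonneg_left h1 h2
    linarith
  have k5 : (m : ℚ) * (ε * (e * (|(a : ℚ) + α| + |(u : ℚ)| + |(w : ℚ)| + |(c : ℚ) + E|))) ≤
      m * (ε * (e * C)) := by
    have h2 : (0 : ℚ) ≤ m * ε * e := by positivity
    have h3 := mul_le_mul_of_nonneg_left hC h2
    linarith
  have k6 : -((m : ℚ) * (ε * (e * (c + E + C)))) ≤
      -((m : ℚ) * (ε * (a + α))) + m * (u : ℚ) + (w : ℚ) := by
    have h1 : (m : ℚ) * (ε * (e * (c + E + C))) =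
        m * (ε * (e * (c + E))) + m * (ε * (e * C)) := by ring
    have h2 : (m : ℚ) * (ε * (e * (|(a : ℚ) + α| + |(u : ℚ)| + |(w : ℚ)| + |(c : ℚ) + E|))) =
      m * (ε * (e * |(a : ℚ) + α|)) + m * (ε * (e * |(u : ℚ)|)) + m * (ε * (e * |(w : ℚ)|)) +
        m * (ε * (e * |(c : ℚ) + E|)) := by ring
    linarith
  have k7 := mul_le_mul_of_nonneg_left k6 hq0
  push_cast
  linarith

/-- finitely many functions have nonzero values at finitely many prime divisors only -/
private theorem uz_fin (X : ProjVar k L) (S : Finset L') :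
    {P : X.primeDivisors | ∃ z ∈ S, ∃ (v : DVal k L') (ε : ℕ),
      LiesOver v P.1 ε ∧ v z ≠ 0}.Finite := by
  have h1 : {P : X.primeDivisors | ∃ z ∈ S, ∃ (v : DVal k L') (ε : ℕ),
      LiesOver v P.1 ε ∧ v z ≠ 0} = ⋃ z ∈ S, {P : X.primeDivisors |
        ∃ (v : DVal k L') (ε : ℕ), LiesOver v P.1 ε ∧ v z ≠ 0} := by
    ext P
    simp only [Set.mem_ofPred_eq, Set.mem_iUnion, exists_prop]
  rw [h1]
  refine S.finite_toSet.biUnion fun z _ => ?_
  by_cases hz : z = 0
  · have h2 : {P : X.primeDivisors |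
        ∃ (v : DVal k L') (ε : ℕ), LiesOver v P.1 ε ∧ v z ≠ 0} = ∅ := by
      ext P
      rw [Set.mem_ofPred_eq, Set.mem_empty_iff_false, iff_false]
      rintro ⟨v, ε, _, h⟩
      rw [hz, v.map_zero] at h
      exact h rfl
    rw [h2]
    exact Set.finite_empty
  · exact finite_ne X hz

theorem upperA_zero {F : DFrame X Z K' (tL L' t)} {A : Arr K' L' t ι} {Δ : X.Div} {E : Z.Div}
    (H : HorArr F A Δ) (hh : A.h = 0)
    (hK : ∀ x : L, IsAlgebraic K x → x ∈ Set.range (algebraMap K L))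
    {x : Finset ι → ℕ} {m : ℕ} (hm0 : 0 < m) (hb : ∀ b, x b ≠ 0 → IsBase K' A.co b)
    (hm : ∑ b, x b = m) (hu : ∀ i, (A.use x i : ℚ) = m * A.δ i) {B : Finset Z.primeDivisors}
    (hB : ∀ Q, Q ∉ B → ∃ (P : X.primeDivisors) (e : ℕ),
      Good F A (fun b => x b ≠ 0) Δ E P Q e) :
    UpperData X Z K' (F.aD + Δ) (F.cD + E) B 0 := by
  classical
  obtain ⟨κ, hκ⟩ : ∃ κ : K', κ = (∏ b, A.cdet b ^ x b)⁻¹ := ⟨_, rfl⟩
  have hκ0 : κ ≠ 0 := by
    rw [hκ]
    exact inv_ne_zero (uz_kappa_ne A hb)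
  obtain ⟨Ψ, hΨ⟩ : ∃ Ψ : L', Ψ = algebraMap K' L' κ * ∏ i, A.l i ^ A.use x i := ⟨_, rfl⟩
  have hΨ0 : Ψ ≠ 0 := by
    rw [hΨ]
    refine mul_ne_zero ?_ (Finset.prod_ne_zero_iff.2 fun i _ => pow_ne_zero _ (l_ne A i))
    rwa [Ne, map_eq_zero_iff _ (algebraMap K' L').injective]
  have hΨv : ∀ v : DVal k L', v Ψ = -∑ b, (x b : ℤ) * v (A.theta b) := by
    intro v
    rw [hΨ, hκ]
    exact uz_psi_val A v hb
  obtain ⟨b₀, hb₀⟩ : ∃ b, x b ≠ 0 := by
    by_contra h
    push Not at h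
    rw [Finset.sum_eq_zero fun b _ => h b] at hm
    omega
  -- a prime divisor over every prime divisor of the base
  have hch : ∀ Q : Z.primeDivisors, ∃ (P : X.primeDivisors) (e : ℕ), LiesOver P.1 Q.1 e ∧
      (Q ∉ B → Good F A (fun b => x b ≠ 0) Δ E P Q e) := by
    intro Q
    by_cases hQ : Q ∈ B
    · obtain ⟨P₀, hP₀, e, he⟩ := F.surj Q.1 Q.2
      exact ⟨⟨P₀, hP₀⟩, e, he, fun h => absurd hQ h⟩
    · obtain ⟨P, e, h⟩ := hB Q hQ
      exact ⟨P, e, h.1, fun _ => h⟩
  choose Pc ec hPe hgood using hch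
  have hV : ∀ Q : Z.primeDivisors,
      {v : DVal k L' | ∃ ε, LiesOver v (Pc Q).1 ε}.Finite := fun Q => finite_above (Pc Q).1
  choose π hπ using fun Q : Z.primeDivisors => (Pc Q).1.surj'
  have hπ' : ∀ Q, (Pc Q).1 (π Q) = 1 := hπ
  -- the ramification index as a function of the valuation
  obtain ⟨r, hr⟩ : ∃ r : Z.primeDivisors → DVal k L' → ℤ,
      ∀ Q v, r Q v = v (algebraMap L L' (π Q)) := ⟨_, fun _ _ => rfl⟩
  have hrε : ∀ Q v ε, LiesOver v (Pc Q).1 ε → (ε : ℤ) = r Q v := by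
    intro Q v ε h
    rw [hr, h.2, hπ', mul_one]
  obtain ⟨μ, hμ⟩ : ∃ μ : Z.primeDivisors → DVal k L' → ℤ,
      ∀ Q v, μ Q v = r Q v * (F.a (Pc Q) + 1 - ec Q * (F.c Q + 1)) - v F.u :=
    ⟨_, fun _ _ => rfl⟩
  have hμε : ∀ Q v ε, LiesOver v (Pc Q).1 ε → F.mu (Pc Q) Q (ec Q) v ε = μ Q v := by
    intro Q v ε h
    rw [hμ, ← hrε Q v ε h]
    rfl
  -- the constant
  obtain ⟨c₁, hc₁⟩ : ∃ c₁ : Z.primeDivisors → DVal k L' → ℚ, ∀ Q v, c₁ Q v =
      |(F.a (Pc Q) : ℚ) + Δ (Pc Q)| + |(v F.u : ℚ)| + |(v Ψ : ℚ)| + |(F.c Q : ℚ) + E Q| :=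
    ⟨_, fun _ _ => rfl⟩
  have hc₁0 : ∀ Q v, 0 ≤ c₁ Q v := by
    intro Q v
    rw [hc₁]
    positivity
  obtain ⟨C, hC⟩ : ∃ C : ℕ, ∀ Q ∈ B, ∀ v ∈ (hV Q).toFinset, c₁ Q v ≤ C := by
    obtain ⟨C, hC⟩ := exists_nat_ge (∑ Q ∈ B, ∑ v ∈ (hV Q).toFinset, c₁ Q v)
    refine ⟨C, fun Q hQ v hv => le_trans ?_ hC⟩
    have h1 : c₁ Q v ≤ ∑ v ∈ (hV Q).toFinset, c₁ Q v :=
      Finset.single_le_sum (f := fun v => c₁ Q v) (fun w _ => hc₁0 Q w) hv
    refine h1.trans (Finset.single_le_sum (f := fun Q => ∑ v ∈ (hV Q).toFinset, c₁ Q v)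
      (fun Q' _ => Finset.sum_nonneg fun w _ => hc₁0 Q' w) hQ)
  refine ⟨m, C, hm0, fun AX => ?_⟩
  obtain ⟨g, cA, hg0, hA0, hpoly⟩ := exists_poly_of_secA H (M₀ := m) (w := A.use x) hu (J := 0)
    (by rw [hh]; simp) hκ0 AX
  obtain ⟨n, y, w, ℓ, hy, hdet, hℓ, hA0', hfam⟩ := uz_words F A cA
  obtain ⟨G, hG⟩ : ∃ G : L', G = MvPolynomial.aeval (tL L' t) g := ⟨_, rfl⟩
  have hG0 : G ≠ 0 := by
    rw [hG]
    intro h
    apply hg0
    exact F.indep (by rw [h, map_zero])
  obtain ⟨C₀, hC₀⟩ : ∃ C₀ : Z.primeDivisors → DVal k L' → ℚ, ∀ Q v, C₀ Q v =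
      ((|μ Q v| : ℤ) : ℚ) + ∑ j, ((|v (tL L' t j)| : ℤ) : ℚ) := ⟨_, fun _ _ => rfl⟩
  obtain ⟨C₁, hC₁⟩ : ∃ C₁ : DVal k L' → ℚ, ∀ v, C₁ v =
      ∑ i, ∑ j, ((|v (word F.D (w i) (y j))| : ℤ) : ℚ) := ⟨_, fun _ => rfl⟩
  have hC₀0 : ∀ Q v, 0 ≤ C₀ Q v := by
    intro Q v
    rw [hC₀]
    refine add_nonneg (by exact_mod_cast abs_nonneg (μ Q v)) (Finset.sum_nonneg fun j _ => ?_)
    exact_mod_cast abs_nonneg (v (tL L' t j))
  have hC₁0 : ∀ v, 0 ≤ C₁ v := by
    intro v
    rw [hC₁]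
    refine Finset.sum_nonneg fun i _ => Finset.sum_nonneg fun j _ => ?_
    exact_mod_cast abs_nonneg (v (word F.D (w i) (y j)))
  obtain ⟨D, hD⟩ : ∃ D : L', D = (Matrix.of fun i j => word F.D (w i) (y j)).det := ⟨_, rfl⟩
  -- the divisor on the base
  obtain ⟨dd, hdd⟩ : ∃ dd : Z.primeDivisors → DVal k L' → ℚ, ∀ Q v, dd Q v =
      |(r Q v : ℚ) * AX (Pc Q)| + |(v G : ℚ)| + ℓ * C₀ Q v + n * C₁ v + |(v D : ℚ)| :=
    ⟨_, fun _ _ => rfl⟩
  have hdd0 : ∀ Q v, 0 ≤ dd Q v := by
    intro Q v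
    rw [hdd]
    have h1 := hC₀0 Q v
    have h2 := hC₁0 v
    positivity
  have hfin : (Function.support fun Q : Z.primeDivisors =>
      ∑ v ∈ (hV Q).toFinset, dd Q v).Finite := by
    obtain ⟨S, hS⟩ : ∃ S : Finset L', S = ({G, A.theta b₀, D} : Finset L') ∪
        Finset.univ.image (tL L' t) ∪
        Finset.univ.image (fun p : Fin n × Fin n => word F.D (w p.1) (y p.2)) := ⟨_, rfl⟩
    have hT : ({P : X.primeDivisors | AX P ≠ 0} ∪ {P : X.primeDivisors | ∃ z ∈ S,
        ∃ (v : DVal k L') (ε : ℕ), LiesOver v P.1 ε ∧ v z ≠ 0}).Finite :=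
      Set.Finite.union AX.hasFiniteSupport (uz_fin X S)
    refine (B.finite_toSet.union (finite_image Z hT)).subset fun Q hQ => ?_
    by_contra hcon
    apply hQ
    rw [Set.mem_union, not_or] at hcon
    obtain ⟨hQB, hcon⟩ := hcon
    have hQB' : Q ∉ B := fun h => hQB h
    have hPT : Pc Q ∉ ({P : X.primeDivisors | AX P ≠ 0} ∪ {P : X.primeDivisors | ∃ z ∈ S,
        ∃ (v : DVal k L') (ε : ℕ), LiesOver v P.1 ε ∧ v z ≠ 0}) :=
      fun h => hcon ⟨Pc Q, h, ec Q, hPe Q⟩
    rw [Set.mem_union, not_or] at hPT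
    obtain ⟨n1, n2⟩ := hPT
    refine Finset.sum_eq_zero fun v hv => ?_
    rw [Set.Finite.mem_toFinset] at hv
    obtain ⟨ε, hε⟩ := hv
    have m1 : AX (Pc Q) = 0 := by
      by_contra h
      exact n1 h
    have m2 : ∀ z ∈ S, v z = 0 := by
      intro z hz
      by_contra h
      exact n2 ⟨z, hz, v, ε, hε, h⟩
    have m3 : v G = 0 := m2 G (by rw [hS]; simp)
    have m4 : v (A.theta b₀) = 0 := m2 _ (by rw [hS]; simp)
    have m5 : v D = 0 := m2 D (by rw [hS]; simp)
    have m6 : ∀ j, v (tL L' t j) = 0 := fun j => m2 _ (by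
      rw [hS, Finset.mem_union, Finset.mem_union]
      exact Or.inl (Or.inr (Finset.mem_image_of_mem _ (Finset.mem_univ j))))
    have m7 : ∀ i j, v (word F.D (w i) (y j)) = 0 := fun i j => m2 _ (by
      rw [hS, Finset.mem_union]
      exact Or.inr (Finset.mem_image_of_mem (fun p : Fin n × Fin n => word F.D (w p.1) (y p.2))
        (Finset.mem_univ (i, j))))
    have m8 : μ Q v = 0 := by
      obtain ⟨_, _, h3⟩ := hgood Q hQB'
      have h4 := h3 v ε hε b₀ (hb b₀ hb₀) hb₀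
      rw [m4, zero_add, hμε Q v ε hε] at h4
      exact h4
    have m9 : C₀ Q v = 0 := by
      rw [hC₀, m8]
      simp [m6]
    have m10 : C₁ v = 0 := by
      rw [hC₁]
      simp [m7]
    rw [hdd, m1, m3, m5, m9, m10]
    simp
  obtain ⟨A', hA'⟩ : ∃ A' : Z.Div, ∀ Q, A' Q = ∑ v ∈ (hV Q).toFinset, dd Q v :=
    ⟨Finsupp.ofSupportFinite _ hfin, fun Q => rfl⟩
  refine ⟨A', n, ?_, fun q hq => ?_⟩
  · intro hAX
    obtain ⟨hg1, hcA0⟩ := hA0 hAX
    obtain ⟨hℓ0, hw1, hD1⟩ := hA0' hcA0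
    have hG1 : G = 1 := by rw [hG, hg1, map_one]
    ext Q
    rw [hA', Finsupp.zero_apply]
    refine Finset.sum_eq_zero fun v _ => ?_
    have m10 : C₁ v = 0 := by
      rw [hC₁]
      refine Finset.sum_eq_zero fun i _ => Finset.sum_eq_zero fun j _ => ?_
      rw [hw1, v.map_one]
      simp
    rw [hdd, hG1, hℓ0, hAX, m10, hD, hD1, v.map_one, Finsupp.zero_apply]
    simp
  -- the map
  obtain ⟨W, hW⟩ : ∃ W, W = X.H0 (((q * m : ℕ) : ℚ) • (F.aD + Δ) + AX) := ⟨_, rfl⟩
  obtain ⟨W', hW'⟩ : ∃ W', W' =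
      famH0 K' Z (((q * m : ℕ) : ℚ) • (F.cD + E + (C : ℚ) • redDiv B) + A') := ⟨_, rfl⟩
  rw [← hW, ← hW']
  have hex : ∀ f : W, ∃ a : Fin n → K',
      algebraMap L L' f.1 * (F.u ^ m * Ψ) ^ q * G = ∑ j, algebraMap K' L' (a j) * y j ∧
      ∀ j, a j ∈ W' := by
    intro f
    by_cases hf0 : f.1 = 0
    · refine ⟨fun _ => 0, ?_, fun _ => Submodule.zero_mem _⟩
      rw [hf0]
      simp
    have hfW : f.1 ∈ X.H0 (((q * m : ℕ) : ℚ) • (F.aD + Δ) + AX) := hW ▸ f.2
    obtain ⟨GG, hGG1, hGG2⟩ := hpoly q f.1 hfW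
    obtain ⟨a, ha⟩ := hfam GG (fun χ hχ => by
      obtain ⟨h1, h2⟩ := hGG2 χ hχ
      refine ⟨h1, ?_⟩
      rw [mul_zero, zero_add] at h2
      exact_mod_cast h2)
    rw [← hΨ, ← hG, ha] at hGG1
    refine ⟨a, hGG1, fun j => ?_⟩
    rw [hW', mem_famH0]
    intro Q Q' e' hQ'
    obtain ⟨v, ε, ε', hv, hvQ', hεε⟩ := exists_commonA (L' := L') hK (hPe Q) hQ'
    have hvm : v ∈ (hV Q).toFinset := by
      rw [Set.Finite.mem_toFinset]
      exact ⟨ε, hv⟩
    have hPf : -((((q * m : ℕ) : ℚ)) * (F.a (Pc Q) + Δ (Pc Q)) + AX (Pc Q)) ≤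
        (Pc Q).1 f.1 := by
      have h1 : (Pc Q).1.Ge (-((((q * m : ℕ) : ℚ) • (F.aD + Δ) + AX) (Pc Q))) f.1 := by
        have h2 := hfW
        unfold ProjVar.H0 sec at h2
        rw [Submodule.mem_iInf] at h2
        exact h2 (Pc Q)
      rw [DVal.ge_iff hf0, Finsupp.add_apply, Finsupp.smul_apply, Finsupp.add_apply,
        DFrame.aD_apply, smul_eq_mul] at h1
      exact h1
    have hcore := uz_core F hv hΨ0 hG0 hf0 hPf
    have hre : ((r Q v : ℤ) : ℚ) = (ε : ℚ) := by
      rw [← hrε Q v ε hv]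
      push_cast
      rfl
    have hμv := hμε Q v ε hv
    have hwr := wronsk_coeff (k := k) F.D v hdet (hC₀0 Q v) (hC₁0 v) hℓ
      (fun i s g' hg' => by
        have h1 := uz_deriv F (hPe Q) hv i s g' hg'
        rw [hμv] at h1
        rw [hC₀]
        exact h1)
      (fun i j => by
        right
        have h1 : ((|v (word F.D (w i) (y j))| : ℤ) : ℚ) ≤ C₁ v := by
          rw [hC₁]
          refine le_trans (Finset.single_le_sum
            (f := fun j => ((|v (word F.D (w i) (y j))| : ℤ) : ℚ))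
            (fun j' _ => by exact_mod_cast abs_nonneg (v (word F.D (w i) (y j'))))
            (Finset.mem_univ j)) ?_
          exact Finset.single_le_sum
            (f := fun i => ∑ j, ((|v (word F.D (w i) (y j))| : ℤ) : ℚ))
            (fun i' _ => Finset.sum_nonneg fun j' _ => by
              exact_mod_cast abs_nonneg (v (word F.D (w i') (y j'))))
            (Finset.mem_univ i)
        have h2 : -((|v (word F.D (w i) (y j))| : ℤ) : ℚ) ≤
            ((v (word F.D (w i) (y j)) : ℤ) : ℚ) := by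
          exact_mod_cast neg_abs_le (v (word F.D (w i) (y j)))
        linarith)
      a ((v (algebraMap L L' f.1 * (F.u ^ m * Ψ) ^ q * G) : ℤ) : ℚ) (by
        rw [← hGG1]
        exact DVal.ge_self _) j
    rw [← hD] at hwr
    have hdd' : |(ε : ℚ) * AX (Pc Q)| + |(v G : ℚ)| + ℓ * C₀ Q v + n * C₁ v + |(v D : ℚ)| ≤
        A' Q := by
      have h1 : dd Q v ≤ A' Q := by
        rw [hA']
        exact Finset.single_le_sum (f := fun v => dd Q v) (fun w _ => hdd0 Q w) hvm
      rwa [hdd, hre] at h1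
    have hεA : -|(ε : ℚ) * AX (Pc Q)| ≤ -(ε * AX (Pc Q)) := by
      have := le_abs_self ((ε : ℚ) * AX (Pc Q))
      linarith
    have hvG : -|(v G : ℚ)| ≤ v G := neg_abs_le _
    have hvD : -|(v D : ℚ)| ≤ -(v D : ℚ) := by
      have := le_abs_self (v D : ℚ)
      linarith
    -- the bound for `v`
    have hmain : -(((q * m : ℕ) : ℚ) * (ε * (ec Q * (F.c Q + E Q + C * redDiv B Q)))) ≤
        -((q : ℚ) * (m * (ε * (F.a (Pc Q) + Δ (Pc Q))))) + q * (m * (v F.u : ℚ)) +
          q * (v Ψ : ℚ) := by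
      by_cases hQB : Q ∈ B
      · have h1 : redDiv B Q = 1 := by rw [redDiv_apply, if_pos hQB]
        rw [h1, mul_one]
        have h2 := hC Q hQB v hvm
        rw [hc₁] at h2
        exact uz_bad hm0 hv.1 (hPe Q).1 h2
      · have h1 : redDiv B Q = 0 := by rw [redDiv_apply, if_neg hQB]
        rw [h1, mul_zero, add_zero]
        obtain ⟨_, h4, h5⟩ := hgood Q hQB
        have h6 : v Ψ = m * F.mu (Pc Q) Q (ec Q) v ε := by
          rw [hΨv, ← hm]
          push_cast
          rw [Finset.sum_mul, ← Finset.sum_neg_distrib]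
          refine Finset.sum_congr rfl fun b _ => ?_
          by_cases hxb : x b = 0
          · rw [hxb]
            simp
          · have h7 := h5 v ε hv b (hb b hxb) hxb
            have h8 : v (A.theta b) = -F.mu (Pc Q) Q (ec Q) v ε := by linarith
            rw [h8]
            ring
        exact (uz_good (q := q) (m := m) (ε := ε) (e := ec Q) (a := F.a (Pc Q)) (c := F.c Q)
          (u := v F.u) (μ := F.mu (Pc Q) Q (ec Q) v ε) (w := v Ψ) (α := Δ (Pc Q)) (E := E Q)
          rfl h4 h6).ge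
    have hkey : v.Ge (-(((q * m : ℕ) : ℚ) * (ε * (ec Q * (F.c Q + E Q + C * redDiv B Q)))) -
        A' Q) (algebraMap K' L' (a j)) := by
      refine hwr.mono ?_
      linarith
    by_cases hb' : a j = 0
    · exact Or.inl hb'
    have hb'' : algebraMap K' L' (a j) ≠ 0 := by
      rwa [Ne, map_eq_zero_iff _ (algebraMap K' L').injective]
    rw [DVal.ge_iff hb'', hvQ'.2] at hkey
    rw [DVal.ge_iff hb', Finsupp.add_apply, Finsupp.smul_apply, Finsupp.add_apply,
      Finsupp.add_apply, DFrame.cD_apply, Finsupp.smul_apply, smul_eq_mul, smul_eq_mul]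
    have hε'1 : (1 : ℚ) ≤ ε' := by exact_mod_cast hvQ'.1
    have he'1 : (1 : ℚ) ≤ e' := by exact_mod_cast hQ'.1
    have hA'0 : 0 ≤ A' Q := by
      rw [hA']
      exact Finset.sum_nonneg fun w _ => hdd0 Q w
    have h8 : (ε : ℚ) * ec Q = ε' * e' := by exact_mod_cast hεε
    have h9 : ((q * m : ℕ) : ℚ) * (ε * (ec Q * (F.c Q + E Q + C * redDiv B Q))) =
        ε' * (e' * (((q * m : ℕ) : ℚ) * (F.c Q + E Q + C * redDiv B Q))) := by
      have : ((q * m : ℕ) : ℚ) * (ε * (ec Q * (F.c Q + E Q + C * redDiv B Q))) =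
        ((ε : ℚ) * ec Q) * (((q * m : ℕ) : ℚ) * (F.c Q + E Q + C * redDiv B Q)) := by ring
      rw [this, h8]
      ring
    rw [h9] at hkey
    push_cast at hkey ⊢
    have h10 : A' Q ≤ ε' * (e' * A' Q) := by
      have h11 : A' Q ≤ e' * A' Q := by nlinarith
      have h12 : 0 ≤ (e' : ℚ) * A' Q := by positivity
      nlinarith
    have h13 : (ε' : ℚ) * -(e' * ((q : ℚ) * m * (F.c Q + E Q + C * redDiv B Q) + A' Q)) ≤
        ε' * Q' (a j) := by
      have h14 : (ε' : ℚ) * -(e' * ((q : ℚ) * m * (F.c Q + E Q + C * redDiv B Q) + A' Q)) =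
        -(ε' * (e' * ((q : ℚ) * m * (F.c Q + E Q + C * redDiv B Q)))) -
          ε' * (e' * A' Q) := by ring
      linarith
    exact le_of_mul_le_mul_left h13 (by linarith)
  choose a ha1 ha2 using hex
  have hinj : ∀ a b : Fin n → K', ∑ j, algebraMap K' L' (a j) * y j =
      ∑ j, algebraMap K' L' (b j) * y j → a = b := by
    intro a b h
    have h1 : ∑ j, (a j - b j) • y j = 0 := by
      simp only [Algebra.smul_def, map_sub, sub_mul, Finset.sum_sub_distrib]
      rw [h, sub_self]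
    funext j
    exact sub_eq_zero.1 (Fintype.linearIndependent_iff.1 hy _ h1 j)
  have hadd : ∀ f g : W, a (f + g) = a f + a g := by
    intro f g
    apply hinj
    rw [← ha1]
    simp only [Pi.add_apply, map_add, add_mul, Finset.sum_add_distrib]
    rw [← ha1, ← ha1, Submodule.coe_add, map_add]
    ring
  have hsmul : ∀ (c : k) (f : W), a (c • f) = fun j => algebraMap k K' c * a f j := by
    intro c f
    apply hinj
    rw [← ha1]
    simp only [map_mul, mul_assoc]
    rw [← Finset.mul_sum, ← ha1, Submodule.coe_smul, Algebra.smul_def, map_mul,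
      ← IsScalarTower.algebraMap_apply k K' L', ← IsScalarTower.algebraMap_apply k L L']
    ring
  let Fm : W →ₗ[k] (Fin n → W') :=
    { toFun := fun f j => ⟨a f j, ha2 f j⟩
      map_add' := fun f g => by
        funext j
        apply Subtype.ext
        change a (f + g) j = a f j + a g j
        rw [hadd, Pi.add_apply]
      map_smul' := fun c f => by
        funext j
        apply Subtype.ext
        change a (c • f) j = c • a f j
        rw [hsmul, Algebra.smul_def] }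
  have hFm : Function.Injective Fm := by
    intro f g hfg
    have h1 : a f = a g := by
      funext j
      exact congrArg Subtype.val (congrFun hfg j)
    have h2 := ha1 f
    rw [h1, ← ha1 g] at h2
    have h3 := mul_right_cancel₀ hG0 h2
    have h4 := mul_right_cancel₀
      (pow_ne_zero q (mul_ne_zero (pow_ne_zero m F.u_ne) hΨ0)) h3
    exact Subtype.ext ((algebraMap L L').injective h4)
  have h6 := sdim_le_card_mul
    ((Finsupp.linearEquivFunOnFinite k W' (Fin n)).symm.toLinearMap ∘ₗ Fm)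
    ((Finsupp.linearEquivFunOnFinite k W' (Fin n)).symm.injective.comp hFm)
  rw [Fintype.card_fin] at h6
  rw [pow_zero, mul_one]
  exact h6

end Pool.Agent.Helper92.HA
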