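import Pool.Agent.Helper92.HA.LowerA
import Pool.Agent.Helper92.HA.GoodFinA
import Pool.Agent.Helper92.HA.Exps
import Pool.Agent.Helper92.HA.Gamma
import Pool.Agent.Helper92.HA.UpperPos
import Pool.Agent.Helper92.HA.UpperZero
import Pool.Agent.Helper92.HA.NegA
import Pool.Agent.Helper63.PB.AbsMain
import Pool.Agent.Helper60.MA.Defs
import Mathlib.FieldTheory.SplittingField.Construction

set_option autoImplicit false

/-!
# HA FrameA: the comparison theorem for a frame
-/

universe u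

namespace Pool.Agent.Helper92.HA

open Module Pool.Agent.Helper92.Weak Pool.Agent.Helper63.PB Polynomial

/-- If the spaces of sections of large multiples vanish, both dimensions are `-∞`. -/
theorem neg_bot {k L : Type*} [Field k] [Field L] [Algebra k L] [IsAlgClosed k] [CharZero k]
    {X : ProjVar k L} {D : X.Div} {M₀ : ℕ} (hM : 0 < M₀)
    (h : ∀ AX : X.Div, ∃ q₀ : ℕ, ∀ q ≥ q₀, X.H0 (((q * M₀ : ℕ) : ℚ) • D + AX) = ⊥) :
    X.kod D = ⊥ ∧ X.nu D = ⊥ := by
  have h1 : X.nu D = ⊥ := by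
    unfold ProjVar.nu
    rw [iSup_eq_bot]
    intro A
    apply logGrowth_eq_bot
    obtain ⟨q₀, hq₀⟩ := h ((M₀ : ℚ) • A)
    filter_upwards [Filter.eventually_ge_atTop q₀] with m hm
    have h2 : X.H0 ((m : ℚ) • D + A) = ⊥ := by
      rw [eq_bot_iff]
      intro f hf
      rw [Submodule.mem_bot]
      have h3 : f ^ M₀ ∈ X.H0 (((m * M₀ : ℕ) : ℚ) • D + (M₀ : ℚ) • A) := by
        rw [Pool.Agent.Helper60.MA.mem_H0] at hf ⊢
        intro P
        refine (Ge.pow (hf P) M₀).mono (le_of_eq ?_)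
        simp only [Finsupp.add_apply, Finsupp.smul_apply, smul_eq_mul]
        push_cast
        ring
      rw [hq₀ m hm, Submodule.mem_bot] at h3
      exact pow_eq_zero_iff hM.ne' |>.1 h3
    have h4 : X.h0 ((m : ℚ) • D + A) ≤ sdim (X.H0 ((m : ℚ) • D + A)) := by
      unfold ProjVar.h0
      split_ifs
      · exact le_rfl
      · exact zero_le
    rw [h2, sdim_eq_zero.2 rfl] at h4
    exact le_antisymm h4 zero_le
  refine ⟨?_, h1⟩
  have h2 := Pool.Agent.Helper47.PQ.kod_le_nu (X := X) D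
  rw [h1] at h2
  exact le_bot_iff.1 h2

/-- A finite extension in which a polynomial splits. -/
theorem exists_splitField {k K : Type*} {K' : Type u} [Field k] [Field K] [Field K'] [Algebra k K]
    [Algebra k K'] [Algebra K K'] [IsScalarTower k K K'] (f : K'[X]) :
    ∃ (K'' : Type u) (_ : Field K'') (_ : Algebra k K'') (_ : Algebra K K'') (_ : Algebra K' K'')
      (_ : IsScalarTower k K' K'') (_ : IsScalarTower k K K'') (_ : IsScalarTower K K' K'')
      (_ : FiniteDimensional K' K''), (f.map (algebraMap K' K'')).Splits := by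
  have t1 : IsScalarTower k K' f.SplittingField := inferInstance
  have t2 : IsScalarTower K K' f.SplittingField := inferInstance
  have t3 : IsScalarTower k K f.SplittingField := by
    apply IsScalarTower.of_algebraMap_eq
    intro x
    rw [IsScalarTower.algebraMap_apply k K' f.SplittingField,
      IsScalarTower.algebraMap_apply K K' f.SplittingField, ← IsScalarTower.algebraMap_apply k K K']
  exact ⟨f.SplittingField, inferInstance, inferInstance, inferInstance, inferInstance, t1, t3, t2,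
    inferInstance, SplittingField.splits f⟩

variable {k K L M L' : Type*} {K' : Type u} [Field k] [Field K] [Field L] [Field K'] [Field M] [Field L']
  [Algebra k K] [Algebra k L] [Algebra k K'] [Algebra k M] [Algebra k L'] [Algebra K L]
  [Algebra K K'] [Algebra K L'] [Algebra L L'] [Algebra K' M] [Algebra K' L'] [Algebra M L']
  [IsScalarTower k K L] [IsScalarTower k K K'] [IsScalarTower k K L'] [IsScalarTower k L L']
  [IsScalarTower k K' M] [IsScalarTower k K' L'] [IsScalarTower k M L'] [IsScalarTower K L L']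
  [IsScalarTower K K' L'] [IsScalarTower K' M L'] [FiniteDimensional K K']
  [FiniteDimensional L L'] [FiniteDimensional M L'] [CharZero k] [IsAlgClosed k] {d : ℕ}
  {X : ProjVar k L} {Z : ProjVar k K} {t : Fin d → M} {ι : Type*} [Fintype ι] [DecidableEq ι]

theorem frameA_main {F : DFrame X Z K' (tL L' t)} {A : Arr K' L' t ι} {Δ : X.Div} {E : Z.Div}
    (H : HorArr F A Δ) (hK : ∀ x : L, IsAlgebraic K x → x ∈ Set.range (algebraMap K L))
    (hbase : ∀ (P : X.primeDivisors) (Q : Z.primeDivisors) (e : ℕ), LiesOver P.1 Q.1 e →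
      e * E Q ≤ Δ P + (e - 1))
    {N₃ : ℕ} (hN₃ : 0 < N₃) {η : K} (hη : η ≠ 0)
    (hT : ∀ Q : Z.primeDivisors, 0 ≤ (Q.1 η : ℚ) + N₃ * (F.cD + E) Q) :
    (A.h < 0 → X.kod (F.aD + Δ) = ⊥ ∧ X.nu (F.aD + Δ) = ⊥) ∧
    (A.h = 0 → ∃ B : Finset Z.primeDivisors, ∀ ε : ℚ, 0 < ε →
      X.kod (F.aD + Δ) = (0 : ℕ) + Z.kod (F.cD + E + ε • redDiv B) ∧
      X.nu (F.aD + Δ) = (0 : ℕ) + Z.nu (F.cD + E + ε • redDiv B)) ∧
    (0 < A.h → ∃ B : Finset Z.primeDivisors, ∀ ε : ℚ, 0 < ε →
      X.kod (F.aD + Δ) = d + Z.kod (F.cD + E + ε • redDiv B) ∧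
      X.nu (F.aD + Δ) = d + Z.nu (F.cD + E + ε • redDiv B)) := by
  classical
  refine ⟨fun hh => ?_, fun hh => ?_, fun hh => ?_⟩
  · obtain ⟨M₀, hM₀, h⟩ := negA H hh
    exact neg_bot hM₀ h
  · obtain ⟨m, x, hm0, hb, hm, hu⟩ := exps_zero A hh
    have hfin := finite_not_goodA F A (fun b => x b ≠ 0) Δ E
    have hB1 : ∀ Q ∈ hfin.toFinset, ¬ ∃ (P : X.primeDivisors) (e : ℕ),
        Good F A (fun b => x b ≠ 0) Δ E P Q e := by
      intro Q hQ
      rw [Set.Finite.mem_toFinset] at hQ
      exact hQ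
    have hB2 : ∀ Q, Q ∉ hfin.toFinset → ∃ (P : X.primeDivisors) (e : ℕ),
        Good F A (fun b => x b ≠ 0) Δ E P Q e := by
      intro Q hQ
      rw [Set.Finite.mem_toFinset, Set.mem_ofPred_eq, not_not] at hQ
      exact hQ
    have hlow := lowerA_zero H hbase hm0 hb hm hu hB1
    have hup := upperA_zero H hh hK hm0 hb hm hu hB2
    exact ⟨hfin.toFinset, fun ε hε => abs_main F.equi hlow hup hN₃ hη hT hε⟩
  · have hfin := finite_not_goodA F A (fun _ => True) Δ E
    have hB1 : ∀ Q ∈ hfin.toFinset, ¬ ∃ (P : X.primeDivisors) (e : ℕ),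
        Good F A (fun _ => True) Δ E P Q e := by
      intro Q hQ
      rw [Set.Finite.mem_toFinset] at hQ
      exact hQ
    have hB2 : ∀ Q, Q ∉ hfin.toFinset → ∃ (P : X.primeDivisors) (e : ℕ),
        Good F A (fun _ => True) Δ E P Q e := by
      intro Q hQ
      rw [Set.Finite.mem_toFinset, Set.mem_ofPred_eq, not_not] at hQ
      exact hQ
    have hlow := lowerA_pos H hh hbase hB1
    obtain ⟨γ, hγ0, hγo, hγ⟩ := exists_gamma F A hh Δ E
    -- the field with the roots of the `γ i`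
    obtain ⟨K'', iF, iA1, iA2, iA3, t1, t2, t3, ifd, hsp⟩ :=
      exists_splitField (k := k) (K := K) (∏ i, (Polynomial.X ^ A.N - C (γ i)) : K'[X])
    have hf0 : (∏ i, (Polynomial.X ^ A.N - C (γ i)) : K'[X]) ≠ 0 :=
      Finset.prod_ne_zero_iff.2 fun i _ => X_pow_sub_C_ne_zero A.N_pos _
    have hroot : ∀ i, ∃ ρ : K'', ρ ^ A.N = algebraMap K' K'' (γ i) := by
      intro i
      have hdvd : (Polynomial.X ^ A.N - C (γ i)) ∣ (∏ i, (Polynomial.X ^ A.N - C (γ i)) : K'[X]) :=
        Finset.dvd_prod_of_mem _ (Finset.mem_univ i)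
      have h1 : ((Polynomial.X ^ A.N - C (γ i)).map (algebraMap K' K'')).Splits :=
        hsp.of_dvd (Polynomial.map_ne_zero hf0) (Polynomial.map_dvd _ hdvd)
      obtain ⟨ρ, hρ⟩ := h1.exists_eval_eq_zero (by
        rw [degree_map, degree_X_pow_sub_C A.N_pos]
        exact_mod_cast A.N_pos.ne')
      refine ⟨ρ, ?_⟩
      rw [eval_map_algebraMap] at hρ
      simp only [_root_.map_sub, _root_.map_pow, aeval_X, aeval_C] at hρ
      exact sub_eq_zero.1 hρ
    choose ρ hρ using hroot
    have i14 : FiniteDimensional K K'' := FiniteDimensional.trans K K' K''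
    have hup := upperA_pos H hh hK hB2 hγ0 hγo hγ (K'' := K'') hρ
    exact ⟨hfin.toFinset, fun ε hε => abs_main F.equi hlow hup hN₃ hη hT hε⟩

end Pool.Agent.Helper92.HA
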