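import Pool.Agent.Helper63.PB.Transc

set_option autoImplicit false

/-!
# HA-05 NormIndep: norms which are algebraically independent

`L' / L` finite, `K ⊆ L`, `ρ : Fin s → L'` algebraically independent over `K`. There are `j : Fin s → Fin s`
(repetitions allowed) and `z : Fin s → k` such that the `norm_{L'/L} (ρ (j i) - z i)` are algebraically
independent over `K`, and so are their `R`-th powers, `R ≥ 1`.

PROOF. By induction on `i ≤ s` choose the first `i` of them. Let `F_i = K(` the first `i` norms `) ⊆ L`, of
transcendence degree `i < s` over `K`. Some `ρ_j` is transcendental over `F_i` (otherwise `K(ρ)` would be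
algebraic over `F_i`, of transcendence degree `i < s`). `exists_norm_transcendental` with `F_i` instead
of `K` (an `IntermediateField K L`) gives `z`. A family whose members are successively transcendental
over the field generated by the previous ones is algebraically independent
(`AlgebraicIndependent` and `Fin.snoc`: `algebraicIndependent_of_...`, `AlgebraicIndependent.option_iff`
/ `AlgebraicIndependent.sumElim_iff`). Powers: `ρ` is algebraic over `K(ρ^R)`; or use
`Transcendental.pow` in the induction (prove the statement with the powers directly: the `R`-th power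
of the norm is transcendental over `F_i`, where `F_i` is generated by the `R`-th powers).
-/

namespace Pool.Agent.Helper92.HA

open Module Pool.Agent.Helper63.PB


/-- One of the functions is transcendental over the field generated by few functions. -/
private theorem ni_aug {K L L' : Type*} [Field K] [Field L] [Field L']
    [Algebra K L] [Algebra K L'] [Algebra L L'] [IsScalarTower K L L']
    {s : ℕ} {ρ : Fin s → L'} (hρ : AlgebraicIndependent K ρ) {i : ℕ} (hi : i < s) {x : Fin i → L}
    (hx : AlgebraicIndependent K x) :
    ∃ j : Fin s, Transcendental (IntermediateField.adjoin K (Set.range x)) (ρ j) := by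
  have hinj : Function.Injective (algebraMap L L') := (algebraMap L L').injective
  have hy : AlgebraicIndependent K (algebraMap L L' ∘ x) :=
    hx.map' (f := IsScalarTower.toAlgHom K L L') hinj
  let M := AlgebraicIndependent.matroid K L'
  have hI : M.Indep (Set.range (algebraMap L L' ∘ x)) := hy.coe_range
  have hJ : M.Indep (Set.range ρ) := hρ.coe_range
  have hlt : (Set.range (algebraMap L L' ∘ x)).encard < (Set.range ρ).encard := by
    rw [← Set.image_univ, ← Set.image_univ, hy.injective.encard_image, hρ.injective.encard_image,
      Set.encard_univ, Set.encard_univ, ENat.card_eq_coe_fintype_card,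
      ENat.card_eq_coe_fintype_card, Fintype.card_fin, Fintype.card_fin]
    exact_mod_cast hi
  obtain ⟨e, ⟨⟨j, rfl⟩, heI⟩, hins⟩ := hI.augment hJ hlt
  refine ⟨j, ?_⟩
  have h1 := ((AlgebraicIndepOn.insert_iff (x := (id : L' → L')) heI).1 hins).2
  rw [Set.image_id, id] at h1
  rw [IntermediateField.transcendental_adjoin_iff]
  -- compare the two subalgebras
  let f : Algebra.adjoin K (Set.range x) →+*
      Algebra.adjoin K (Set.range (algebraMap L L' ∘ x)) :=
    ((algebraMap L L').comp (Algebra.adjoin K (Set.range x)).val.toRingHom).codRestrict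
      (Algebra.adjoin K (Set.range (algebraMap L L' ∘ x))) (by
        rintro ⟨a, ha⟩
        have h2 : Set.range (algebraMap L L' ∘ x) =
            (IsScalarTower.toAlgHom K L L') '' (Set.range x) := by
          rw [Set.range_comp]
          rfl
        rw [h2, ← AlgHom.map_adjoin]
        exact ⟨a, ha, rfl⟩)
  have hf : Function.Injective f := by
    intro a b hab
    have h3 := congrArg Subtype.val hab
    exact Subtype.ext (hinj h3)
  exact Transcendental.of_ringHom_of_comp_eq f (RingHom.id L') h1 hf (by
    ext a
    rfl)

private theorem ni_step {k K L L' : Type*} [Field k] [Field K] [Field L] [Field L']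
    [Algebra k K] [Algebra k L] [Algebra k L'] [Algebra K L] [Algebra K L'] [Algebra L L']
    [IsScalarTower k K L] [IsScalarTower k L L'] [IsScalarTower K L L'] [FiniteDimensional L L']
    [CharZero k] {s : ℕ} {ρ : Fin s → L'} (hρ : AlgebraicIndependent K ρ) {R : ℕ} (hR : 0 < R)
    {i : ℕ} (hi : i < s) {x : Fin i → L} (hx : AlgebraicIndependent K x) :
    ∃ (j : Fin s) (z : k), AlgebraicIndependent K
      (Fin.cons (Algebra.norm L (ρ j - algebraMap k L' z) ^ R) x : Fin (i + 1) → L) := by
  obtain ⟨j, hj⟩ := ni_aug hρ hi hx
  have hst : IsScalarTower k (IntermediateField.adjoin K (Set.range x)) L :=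
    IsScalarTower.of_algebraMap_eq fun a => rfl
  obtain ⟨z, hz⟩ := exists_norm_transcendental (k := k)
    (K := IntermediateField.adjoin K (Set.range x)) (L := L) hj
  refine ⟨j, z, ?_⟩
  have h1 := IntermediateField.transcendental_adjoin_iff.1 (hz.pow hR)
  have h2 := (hx.option_iff_transcendental _).2 h1
  have h3 := h2.comp (finSuccEquiv i) (finSuccEquiv i).injective
  have h4 : (Fin.cons (Algebra.norm L (ρ j - algebraMap k L' z) ^ R) x : Fin (i + 1) → L) =
      (fun o : Option (Fin i) =>
        o.elim (Algebra.norm L (ρ j - algebraMap k L' z) ^ R) x) ∘ finSuccEquiv i := by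
    funext a
    refine Fin.cases ?_ (fun a => ?_) a
    · rw [Function.comp_apply, finSuccEquiv_zero, Fin.cons_zero]
      rfl
    · rw [Function.comp_apply, finSuccEquiv_succ, Fin.cons_succ]
      rfl
  rw [h4]
  exact h3

theorem exists_norm_indep {k K L L' : Type*} [Field k] [Field K] [Field L] [Field L']
    [Algebra k K] [Algebra k L] [Algebra k L'] [Algebra K L] [Algebra K L'] [Algebra L L']
    [IsScalarTower k K L] [IsScalarTower k L L'] [IsScalarTower K L L'] [FiniteDimensional L L']
    [CharZero k] {s : ℕ} {ρ : Fin s → L'} (hρ : AlgebraicIndependent K ρ) {R : ℕ} (hR : 0 < R) :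
    ∃ (j : Fin s → Fin s) (z : Fin s → k),
      AlgebraicIndependent K fun i => Algebra.norm L (ρ (j i) - algebraMap k L' (z i)) ^ R := by
  suffices h : ∀ i : ℕ, i ≤ s → ∃ (j : Fin i → Fin s) (z : Fin i → k),
      AlgebraicIndependent K fun i => Algebra.norm L (ρ (j i) - algebraMap k L' (z i)) ^ R from
    h s le_rfl
  intro i
  induction i with
  | zero =>
    intro _
    exact ⟨Fin.elim0, Fin.elim0, algebraicIndependent_empty_type⟩
  | succ i ih =>
    intro hi
    obtain ⟨j, z, h⟩ := ih (by omega)
    obtain ⟨j0, z0, h0⟩ := ni_step (k := k) hρ hR (by omega : i < s) h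
    refine ⟨Fin.cons j0 j, Fin.cons z0 z, ?_⟩
    have h4 : (fun a : Fin (i + 1) => Algebra.norm L (ρ ((Fin.cons j0 j : Fin (i + 1) → Fin s) a) -
        algebraMap k L' ((Fin.cons z0 z : Fin (i + 1) → k) a)) ^ R) =
        Fin.cons (Algebra.norm L (ρ j0 - algebraMap k L' z0) ^ R)
          (fun a => Algebra.norm L (ρ (j a) - algebraMap k L' (z a)) ^ R) := by
      funext a
      refine Fin.cases ?_ (fun a => ?_) a
      · simp only [Fin.cons_zero]
      · simp only [Fin.cons_succ]
    rw [h4]
    exact h0

end Pool.Agent.Helper92.HA
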