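import Pool.Agent.Helper92.HA.Defs
import Pool.Agent.Helper92.HA.PsiA
import Pool.Agent.Helper92.HA.Rho
import Pool.Agent.Helper92.HA.Exps
import Pool.Agent.Helper92.HA.NormIndep
import Pool.Agent.Helper63.PB.LowNorm

set_option autoImplicit false

/-!
# HA-07 LowerA: the data for the lower bound

As PB-25 Lower. `D = aD + Δ`, `T = cD + E`.

`lowerA_zero`. `ψ = phi x / u ^ m` satisfies the hypotheses of `low_norm`: `psiA_hor`, `psiA_vert`, and for
`Q ∈ B` and `P` over `Q`: `P` is not good for `W b := x b ≠ 0` (`hB`), so `psiA_strict` (`W b → 0 < x b`).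
`LowerData` with `s = 0`: `b = norm(ψ)^R`, `N = R n m`.

`lowerA_pos`. `exps_pos` gives `m, r, x`; `rho_indep` gives `e : Fin d → ι` with the
`ρ_j = phi (x (e j)) / phi (x o)` algebraically independent over `K'`, hence over `K`. `R` from
`low_norm`; `exists_norm_indep` (for this `R`) gives `j : Fin d → Fin d`, `z : Fin d → k`. `ψ₀ = phi (x o) / u ^ m`,
`ψ_i = ψ₀ (ρ_(j i) - z i) = phi (x (e (j i))) / u^m - z_i phi (x o) / u^m`. `ψ₀` and all `ψ_i` satisfy the hypotheses
of `low_norm`: horizontally and vertically by `psiA_hor`, `psiA_vert` (`Ge.sub`, `Ge.smul`),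
strictness: `psiA_strict` for `W := fun _ => True` gives one `v` which works for all `x (e (j i))` and
`x o` (all `x j b ≥ 1` for bases `b`), so for the differences. (`ψ_i ≠ 0`: its norm is nonzero, since the
norms are algebraically independent; or `ρ` is transcendental.) `LowerData` with `s = d`:
`b = norm(ψ₀)^R`, `ρ i = norm(ρ_(j i) - z i)^R`, `b ρ_i = norm(ψ_i)^R`.
-/

namespace Pool.Agent.Helper92.HA

open Module Pool.Agent.Helper92.Weak Pool.Agent.Helper63.PB

section Aux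

/-- Values of `a - z b`. -/
private theorem lowA_sub_le {k L' : Type*} [Field k] [Field L'] [Algebra k L'] (v : DVal k L')
    {a b : L'} (z : k) (hab : a - algebraMap k L' z * b ≠ 0) {r : ℚ}
    (h1 : r ≤ v a) (h2 : r ≤ v b) : r ≤ v (a - algebraMap k L' z * b) := by
  have h3 : v.Ge r a := Or.inr h1
  have h4 : v.Ge r (algebraMap k L' z * b) := by
    rw [← Algebra.smul_def]
    exact DVal.Ge.smul (Or.inr h2) z
  exact (DVal.ge_iff hab).1 (h3.sub h4)

private theorem lowA_sub_lt {k L' : Type*} [Field k] [Field L'] [Algebra k L'] (v : DVal k L')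
    {a b : L'} (z : k) (hab : a - algebraMap k L' z * b ≠ 0) {r : ℚ}
    (h1 : r < v a) (h2 : r < v b) : r < v (a - algebraMap k L' z * b) := by
  have h3 : r < min (v a : ℚ) (v b) := lt_min h1 h2
  exact h3.trans_le (lowA_sub_le v z hab (min_le_left _ _) (min_le_right _ _))

end Aux

variable {k K L K' M L' : Type*} [Field k] [Field K] [Field L] [Field K'] [Field M] [Field L']
  [Algebra k K] [Algebra k L] [Algebra k K'] [Algebra k M] [Algebra k L'] [Algebra K L]
  [Algebra K K'] [Algebra K L'] [Algebra L L'] [Algebra K' M] [Algebra K' L'] [Algebra M L']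
  [IsScalarTower k K L] [IsScalarTower k K K'] [IsScalarTower k K L'] [IsScalarTower k L L']
  [IsScalarTower k K' M] [IsScalarTower k K' L'] [IsScalarTower k M L'] [IsScalarTower K L L']
  [IsScalarTower K K' L'] [IsScalarTower K' M L'] [FiniteDimensional K K']
  [FiniteDimensional L L'] [FiniteDimensional M L'] [CharZero k] {d : ℕ}
  {X : ProjVar k L} {Z : ProjVar k K} {t : Fin d → M} {ι : Type*} [Fintype ι] [DecidableEq ι]

theorem lowerA_zero {F : DFrame X Z K' (tL L' t)} {A : Arr K' L' t ι} {Δ : X.Div} {E : Z.Div}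
    (H : HorArr F A Δ)
    (hE : ∀ (P : X.primeDivisors) (Q : Z.primeDivisors) (e : ℕ), LiesOver P.1 Q.1 e →
      e * E Q ≤ Δ P + (e - 1)) {B : Finset Z.primeDivisors} {x : Finset ι → ℕ} {m : ℕ}
    (hm0 : 0 < m) (hb : ∀ b, x b ≠ 0 → IsBase K' A.co b) (hm : ∑ b, x b = m)
    (hu : ∀ i, (A.use x i : ℚ) = m * A.δ i)
    (hB : ∀ Q ∈ B, ¬ ∃ (P : X.primeDivisors) (e : ℕ), Good F A (fun b => x b ≠ 0) Δ E P Q e) :
    Nonempty (LowerData X Z (F.aD + Δ) (F.cD + E) B 0) := by
  obtain ⟨R, hR, hlow⟩ := low_norm (L' := L') (F.aD + Δ) (F.cD + E) B hm0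
  have hψ : A.phi x / F.u ^ m ≠ 0 := div_ne_zero (phi_ne A hb) (pow_ne_zero _ F.u_ne)
  obtain ⟨h1, h2⟩ := hlow (A.phi x / F.u ^ m) hψ
    (fun P hP v ε hv => psiA_hor H hb hm (fun i => (hu i).le) hP hv)
    (fun P Q e hPQ v ε hv => psiA_vert hE hb hm hPQ hv)
    (fun P Q e hPQ hQ => by
      obtain ⟨v, ε, hv, h⟩ := psiA_strict (F := F) (A := A) hE (W := fun b => x b ≠ 0) hPQ
        (fun hg => hB Q hQ ⟨P, e, hg⟩)
      exact ⟨v, ε, hv, h x m hm0 hb hm fun b _ hW => Nat.pos_of_ne_zero hW⟩)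
  refine ⟨{ N := R * (Module.finrank L L' * m)
            N_pos := Nat.mul_pos hR (Nat.mul_pos Module.finrank_pos hm0)
            b := Algebra.norm L (A.phi x / F.u ^ m) ^ R
            b_ne := pow_ne_zero _ (Algebra.norm_ne_zero_iff.2 hψ)
            ρ := Fin.elim0
            indep := ?_
            hor := fun P hP => ⟨h1 P hP, fun i => i.elim0⟩
            vert := fun P Q e hPQ => ⟨h2 P Q e hPQ, fun i => i.elim0⟩ }⟩
  exact (algebraicIndependent_empty_type_iff).2 (algebraMap K L).injective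

theorem lowerA_pos {F : DFrame X Z K' (tL L' t)} {A : Arr K' L' t ι} {Δ : X.Div} {E : Z.Div}
    (H : HorArr F A Δ) (hh : 0 < A.h)
    (hE : ∀ (P : X.primeDivisors) (Q : Z.primeDivisors) (e : ℕ), LiesOver P.1 Q.1 e →
      e * E Q ≤ Δ P + (e - 1)) {B : Finset Z.primeDivisors}
    (hB : ∀ Q ∈ B, ¬ ∃ (P : X.primeDivisors) (e : ℕ), Good F A (fun _ => True) Δ E P Q e) :
    Nonempty (LowerData X Z (F.aD + Δ) (F.cD + E) B d) := by
  obtain ⟨m, r, x, hm0, hr, hge, hb, hu, hm, hx⟩ := exps_pos A hh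
  obtain ⟨e, he⟩ := rho_indep A hr x hb hx
  obtain ⟨R, hR, hlow⟩ := low_norm (L' := L') (F.aD + Δ) (F.cD + E) B hm0
  have heK : AlgebraicIndependent K fun j => A.phi (x (e j)) / A.phi (x A.o) :=
    he.restrictScalars (algebraMap K K').injective
  obtain ⟨j, z, hz⟩ := exists_norm_indep (k := k) (K := K) (L := L) heK hR
  have hun : F.u ^ m ≠ 0 := pow_ne_zero _ F.u_ne
  have hφ : ∀ i, A.phi (x i) ≠ 0 := fun i => phi_ne A (hb i)
  have hψ0 : A.phi (x A.o) / F.u ^ m ≠ 0 := div_ne_zero (hφ _) hun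
  have hρz : ∀ i, A.phi (x (e (j i))) / A.phi (x A.o) - algebraMap k L' (z i) ≠ 0 := by
    intro i h
    have h1 := hz.transcendental i
    simp only [h, Algebra.norm_zero, zero_pow hR.ne'] at h1
    exact h1 isAlgebraic_zero
  have heq : ∀ i, A.phi (x A.o) / F.u ^ m *
      (A.phi (x (e (j i))) / A.phi (x A.o) - algebraMap k L' (z i)) =
      A.phi (x (e (j i))) / F.u ^ m - algebraMap k L' (z i) * (A.phi (x A.o) / F.u ^ m) := by
    intro i
    have h0 := hφ A.o
    field_simp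
  have hψ1 : ∀ i, A.phi (x (e (j i))) / F.u ^ m -
      algebraMap k L' (z i) * (A.phi (x A.o) / F.u ^ m) ≠ 0 := by
    intro i
    rw [← heq]
    exact mul_ne_zero hψ0 (hρz i)
  have hstr : ∀ (P : X.primeDivisors) (Q : Z.primeDivisors) (e : ℕ), LiesOver P.1 Q.1 e → Q ∈ B →
      ∃ (v : DVal k L') (ε : ℕ), LiesOver v P.1 ε ∧ ∀ i,
        (ε : ℚ) * (m * (e * (F.cD + E) Q - (F.aD + Δ) P)) < v (A.phi (x i) / F.u ^ m) := by
    intro P Q e hPQ hQ
    obtain ⟨v, ε, hv, h⟩ := psiA_strict (F := F) (A := A) hE (W := fun _ => True) hPQ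
      (fun hg => hB Q hQ ⟨P, e, hg⟩)
    exact ⟨v, ε, hv, fun i => h (x i) m hm0 (hb i) (hm i) fun b hb' _ => hge i b hb'⟩
  obtain ⟨a1, a2⟩ := hlow (A.phi (x A.o) / F.u ^ m) hψ0
    (fun P hP v ε hv => psiA_hor H (hb _) (hm _) (hu _) hP hv)
    (fun P Q e hPQ v ε hv => psiA_vert hE (hb _) (hm _) hPQ hv)
    (fun P Q e hPQ hQ => by
      obtain ⟨v, ε, hv, h⟩ := hstr P Q e hPQ hQ
      exact ⟨v, ε, hv, h _⟩)
  have hbb := fun i => hlow (A.phi (x (e (j i))) / F.u ^ m -
      algebraMap k L' (z i) * (A.phi (x A.o) / F.u ^ m)) (hψ1 i)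
    (fun P hP v ε hv => lowA_sub_le v (z i) (hψ1 i) (psiA_hor H (hb _) (hm _) (hu _) hP hv)
      (psiA_hor H (hb _) (hm _) (hu _) hP hv))
    (fun P Q e hPQ v ε hv => lowA_sub_le v (z i) (hψ1 i) (psiA_vert hE (hb _) (hm _) hPQ hv)
      (psiA_vert hE (hb _) (hm _) hPQ hv))
    (fun P Q e hPQ hQ => by
      obtain ⟨v, ε, hv, h⟩ := hstr P Q e hPQ hQ
      exact ⟨v, ε, hv, lowA_sub_lt v (z i) (hψ1 i) (h _) (h _)⟩)
  have hbρ : ∀ i, Algebra.norm L (A.phi (x A.o) / F.u ^ m) ^ R *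
      Algebra.norm L (A.phi (x (e (j i))) / A.phi (x A.o) - algebraMap k L' (z i)) ^ R =
      Algebra.norm L (A.phi (x (e (j i))) / F.u ^ m -
        algebraMap k L' (z i) * (A.phi (x A.o) / F.u ^ m)) ^ R := by
    intro i
    rw [← mul_pow, ← map_mul, heq]
  refine ⟨{ N := R * (Module.finrank L L' * m)
            N_pos := Nat.mul_pos hR (Nat.mul_pos Module.finrank_pos hm0)
            b := Algebra.norm L (A.phi (x A.o) / F.u ^ m) ^ R
            b_ne := pow_ne_zero _ (Algebra.norm_ne_zero_iff.2 hψ0)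
            ρ := fun i => Algebra.norm L
              (A.phi (x (e (j i))) / A.phi (x A.o) - algebraMap k L' (z i)) ^ R
            indep := hz
            hor := fun P hP => ⟨a1 P hP, fun i => ?_⟩
            vert := fun P Q e hPQ => ⟨a2 P Q e hPQ, fun i => ?_⟩ }⟩
  · rw [hbρ]
    exact (hbb i).1 P hP
  · rw [hbρ]
    exact (hbb i).2 P Q e hPQ

end Pool.Agent.Helper92.HA
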