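import Pool.Agent.Helper92.HA.FrameA
import Pool.Agent.Helper92.HA.MkDFrame
import Pool.Agent.Helper92.HA.MkHorA
import Pool.Agent.Helper92.Ga.Final
import Pool.Agent.Helper63.PB.Split

set_option autoImplicit false

/-!
# HA MainA: the comparison theorem for fibrations whose general fibre is dominated by a Kummer
cover of `ℙᵈ` branched along a log canonical hyperplane arrangement
-/

universe u

namespace Pool.Agent.Helper92.HA

open Module Pool.Agent.Helper92.Weak Pool.Agent.Helper63.PB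

section

variable {k K L K' M L' : Type*} [Field k] [Field K] [Field L] [Field K'] [Field M] [Field L']
  [Algebra k K] [Algebra k L] [Algebra k L'] [Algebra K L] [Algebra K K'] [Algebra K L']
  [Algebra L L'] [Algebra K' L'] [Algebra K' M] [Algebra M L'] {d : ℕ}
  {t : Fin d → M} {ι : Type*} [Fintype ι] [DecidableEq ι]

/-- `X → Z` is a morphism with connected general fibre (the function field `K` of `Z` is
algebraically closed in the function field `L` of `X`) which maps every prime divisor of `X` onto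
`Z` or onto a prime divisor of `Z`, and the general fibre and `(ℙᵈ, ∑ δ_i H_i)` have the same log
pull-back to `L'` (up to an effective divisor which is exceptional over `ℙᵈ`). -/
structure IsArrFibration (X : ProjVar k L) (Δ : X.Div) (Z : ProjVar k K) (A : Arr K' L' t ι) :
    Prop where
  mor : IsMorphism X Z
  equi : ∀ P ∈ X.primeDivisors, (∃ a : K, P (algebraMap K L a) ≠ 0) →
    ∃ Q ∈ Z.primeDivisors, ∃ e, LiesOver P Q e
  conn : ∀ x : L, IsAlgebraic K x → x ∈ Set.range (algebraMap K L)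
  finK : FiniteDimensional K K'
  finL : FiniteDimensional L L'
  cover : IsLogCover (K := K) X Δ A

end

variable {k K L M L' : Type*} {K' : Type u} [Field k] [Field K] [Field L] [Field K'] [Field M]
  [Field L'] [Algebra k K] [Algebra k L] [Algebra k K'] [Algebra k M] [Algebra k L'] [Algebra K L]
  [Algebra K K'] [Algebra K L'] [Algebra L L'] [Algebra K' M] [Algebra K' L'] [Algebra M L']
  [IsScalarTower k K L] [IsScalarTower k K K'] [IsScalarTower k K L'] [IsScalarTower k L L']
  [IsScalarTower k K' M] [IsScalarTower k K' L'] [IsScalarTower k M L'] [IsScalarTower K L L']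
  [IsScalarTower K K' L'] [IsScalarTower K' M L'] {d : ℕ}
  {X : ProjVar k L} {Z : ProjVar k K} {t : Fin d → M} {ι : Type*} [Fintype ι] [DecidableEq ι]

omit [Algebra k K'] [Algebra k M] [IsScalarTower K' M L'] in
/-- `L' / M` is finite. -/
theorem finite_of_arr (A : Arr K' L' t ι) : FiniteDimensional M L' := by
  have h1 : ∀ i, IsIntegral M (A.r i) := by
    intro i
    have h2 : IsIntegral M (A.r i ^ A.N) := by
      rw [A.r_pow]
      exact isIntegral_algebraMap
    exact h2.of_pow A.N_pos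
  have h3 : (Algebra.adjoin M (Set.range A.r)).toSubmodule.FG :=
    fg_adjoin_of_finite (Set.finite_range _) (by
      rintro _ ⟨i, rfl⟩
      exact h1 i)
  rw [A.gen] at h3
  exact ⟨by simpa using h3⟩

/-- The coordinates are a transcendence basis. -/
theorem tL_basis (A : Arr K' L' t ι) : IsTranscendenceBasis K' (tL L' t) := by
  have hfin := finite_of_arr A
  have h1 : IsTranscendenceBasis K' t := by
    rw [A.torus.indep.isTranscendenceBasis_iff_isAlgebraic]
    constructor
    intro a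
    have ha : a ∈ IntermediateField.adjoin K' (Set.range t) := by
      rw [A.torus.gen]
      trivial
    rw [IntermediateField.mem_adjoin_iff_div] at ha
    obtain ⟨r, hr, s, hs, rfl⟩ := ha
    have h1 : IsAlgebraic (Algebra.adjoin K' (Set.range t)) r :=
      isAlgebraic_algebraMap (⟨r, hr⟩ : Algebra.adjoin K' (Set.range t))
    have h2 : IsAlgebraic (Algebra.adjoin K' (Set.range t)) s :=
      isAlgebraic_algebraMap (⟨s, hs⟩ : Algebra.adjoin K' (Set.range t))
    rw [div_eq_mul_inv]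
    exact h1.mul h2.inv
  exact h1.algebraMap_comp (A := L')

/-- The comparison theorem. -/
theorem mainA [IsAlgClosed k] [CharZero k] {n : ℕ} (hn : Algebra.trdeg k K = n) (hd : 0 < d)
    (A : Arr K' L' t ι) (p : X.Pair (n + d)) (q : Z.Pair n) (h : IsArrFibration X p.Δ Z A)
    (hq : IsOrbifoldBase p q) (hκ : Z.kod q.logDiv ≠ ⊥) :
    (A.h < 0 → X.kod p.logDiv = ⊥ ∧ X.nu p.logDiv = ⊥) ∧
    (0 ≤ A.h → ∃ (s : ℕ) (B : Z.Div), s = (if A.h = 0 then 0 else d) ∧ (∀ Q, 0 ≤ B Q) ∧
      (∀ ε : ℚ, 0 < ε → X.kod p.logDiv = s + Z.kod (q.logDiv + ε • B) ∧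
        X.nu p.logDiv = s + Z.nu (q.logDiv + ε • B)) ∧
      (Z.IsSmooth n → Z.IsQFactorial → Z.IsKlt q.ω q.can q.Δ →
        ∃ ε₀ : ℚ, 0 < ε₀ ∧ ∀ ε, 0 < ε → ε ≤ ε₀ → Z.IsKlt q.ω q.can (q.Δ + ε • B))) := by
  classical
  have j1 := h.finK
  have j2 := h.finL
  have j3 := finite_of_arr A
  obtain ⟨y, F, g, h', hy, hg, hh, hp, hq', hord⟩ :=
    exists_dframe hn h.mor h.equi (tL_basis A) p q
  obtain ⟨H⟩ := exists_horArr hd hy hord h.cover
  have e1 : p.logDiv = (F.aD + p.Δ) + X.prin g := by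
    unfold ProjVar.Pair.logDiv
    ext P
    rw [Finsupp.add_apply, Finsupp.add_apply, Finsupp.add_apply, hp, DFrame.aD_apply,
      ProjVar.prin_apply]
    ring
  have e2 : q.logDiv = (F.cD + q.Δ) + Z.prin h' := by
    unfold ProjVar.Pair.logDiv
    ext Q
    rw [Finsupp.add_apply, Finsupp.add_apply, Finsupp.add_apply, hq', DFrame.cD_apply,
      ProjVar.prin_apply]
    ring
  have hκ' : Z.kod (F.cD + q.Δ) ≠ ⊥ := by
    rwa [e2, Z.kod_add_prin _ hh] at hκ
  obtain ⟨N₃, hN₃, η, hη, hT⟩ := exists_pluri hκ'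
  obtain ⟨k1, k2, k3⟩ := frameA_main H h.conn hq hN₃ hη hT
  have key : ∀ (s : ℕ) (B : Finset Z.primeDivisors), (∀ ε : ℚ, 0 < ε →
      X.kod (F.aD + p.Δ) = s + Z.kod (F.cD + q.Δ + ε • redDiv B) ∧
      X.nu (F.aD + p.Δ) = s + Z.nu (F.cD + q.Δ + ε • redDiv B)) →
      (∀ Q, 0 ≤ redDiv B Q) ∧
      (∀ ε : ℚ, 0 < ε → X.kod p.logDiv = s + Z.kod (q.logDiv + ε • redDiv B) ∧
        X.nu p.logDiv = s + Z.nu (q.logDiv + ε • redDiv B)) ∧
      (Z.IsSmooth n → Z.IsQFactorial → Z.IsKlt q.ω q.can q.Δ →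
        ∃ ε₀ : ℚ, 0 < ε₀ ∧ ∀ ε, 0 < ε → ε ≤ ε₀ →
          Z.IsKlt q.ω q.can (q.Δ + ε • redDiv B)) := by
    intro s B hB
    refine ⟨fun Q => ?_, fun ε hε => ?_, fun hsm hqf hklt =>
      Pool.Agent.Helper92.Ga.klt_add_smul hn Z hsm hqf q hklt (redDiv B)⟩
    · rw [redDiv_apply]
      split_ifs
      · exact zero_le_one
      · exact le_rfl
    · have e3 : q.logDiv + ε • redDiv B = (F.cD + q.Δ + ε • redDiv B) + Z.prin h' := by
        rw [e2]
        abel
      rw [e3, e1, Z.kod_add_prin _ hh, Z.nu_add_prin _ hh, X.kod_add_prin _ hg,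
        X.nu_add_prin _ hg]
      exact hB ε hε
  refine ⟨fun hA => ?_, fun hA => ?_⟩
  · rw [e1, X.kod_add_prin _ hg, X.nu_add_prin _ hg]
    exact k1 hA
  · by_cases hA0 : A.h = 0
    · obtain ⟨B, hB⟩ := k2 hA0
      exact ⟨0, redDiv B, by rw [if_pos hA0], key 0 B hB⟩
    · obtain ⟨B, hB⟩ := k3 (lt_of_le_of_ne hA (Ne.symm hA0))
      exact ⟨d, redDiv B, by rw [if_neg hA0], key d B hB⟩

end Pool.Agent.Helper92.HA
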