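import Pool.Agent.Helper92.HA.PSpaceThm

set_option autoImplicit false

/-!
# Projective space
-/

namespace Pool.Agent.Helper92.HA

open Pool.Agent.Helper92.Weak

variable {K' M : Type*} [Field K'] [Field M] [Algebra K' M] {d : ℕ} {t : Fin d → M}

/-- The projective space `ℙᵈ` over `K'`, with function field `M = K'(t₁, ..., t_d)`: the closure of
the point `(1 : t₁ : ... : t_d)`. -/
def projSpace (ht : IsTorus K' t) : ProjVar K' M where
  n := d
  x := hom1 t
  x_ne := hom1_ne ht
  gen := proj_gen ht
  normal := proj_normal ht

end Pool.Agent.Helper92.HA
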