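import Pool.Agent.Helper92.HA.PSpace

set_option autoImplicit false

/-!
# HA-29 PSpaceCl: the prime divisors of projective space

`M = K'(t₁, ..., t_d)` (`IsTorus K' t`); `D` a prime divisor of `ℙᵈ`: `D.ring` is a localisation of the chart `i` at a
prime ideal `p` (`z ∈ D.ring ↔ z b = a` with `a, b` in the chart, `b ∉ p`). The chart is a polynomial ring, so a UFD
(see `proj_normal` in PSpace: `Algebra.adjoin` of algebraically independent elements, `AlgebraicIndependent.aevalEquiv`).
FACT A. An element `c ≠ 0` of the chart has `D c > 0` iff `c ∈ p` (`c ∉ p → c⁻¹ ∈ D.ring`; if `c ∈ p` and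
`D c = 0` then `c⁻¹ ∈ D.ring`, `c⁻¹ b = a`, `b = a c ∈ p`).
FACT B. If `π ∈ p` is a prime element of the chart then `p = (π)`, `D π = 1` and `D c` is the multiplicity of `π` in `c`:
if `z ∈ p` is not divisible by `π` let `A = D z > 0`, `B = D π > 0`; `z^B / π^A` has value `0`, so
`z^B / π^A = x / y` with `y ∉ p`, `z^B y = x π^A`, `π ∣ z^B y` (`A > 0`), `π ∣ y`, a contradiction. So the
elements not divisible by `π` have value `0`, every value is a multiple of `D π`, and `D` is onto `ℤ`.
(`p ≠ 0` since `D` is not trivial on `M = Frac (chart)`; `p` contains an irreducible factor of each of its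
nonzero elements.)
`proj_fin`. If all `D (t j) ≥ 0`: we may take `i = 0`, the chart `K'[t]`. Namely: `D` is nonnegative on `K'[t]`; the ideal
`p' = {g | g = 0 or D (g(t)) > 0}` of `MvPolynomial` is prime; it is not zero (else `D` is trivial on `M`) and contains an
irreducible `g₀`. `D.ring` is the localisation of `K'[t]` at `p'`: if `i ≠ 0` then `D (x 0 / x i) = 0`, where
`x 0 / x i = t_i⁻¹`: it is in the chart so `D ≥ 0`, and `D (t_i) ≥ 0`. So an element `c` of the chart `i` is
`g(t) / t_i^n` with `D t_i = 0`, and an element `z` of `D.ring` is a quotient `g₁(t) / g₂(t)` with `D (g₂(t)) = 0`. Now Fact B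
for `K'[t]`, `p'`, `g₀`.
`proj_inf`. If some `D (t j) < 0` then `D (g(t)) = -deg g` for `g ≠ 0`. PROOF. `i ≠ 0` (on the chart `0` all `D (t j) ≥ 0`).
If `x 0 / x i ∉ p` then `D (t_i) = 0` (`t_i` the coordinate with index `i`) and all `t_l = (t_l / t_i) t_i` have value `≥ 0`.
So `π = 1 / t_i ∈ p` is a prime element of the chart `K'[1/t_i, t_l/t_i]` and Fact B holds. `g(t) = t_i^n G`, `n = deg g`,
`G = ∑_m π^(n - m) g_m(t/t_i)` with `g_m` the homogeneous components; `g_n(t/t_i) ≠ 0` is not divisible by `π` (it is a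
nonzero polynomial in the `t_l / t_i`, `l ≠ i`, because setting `t_i = 1` is injective on homogeneous polynomials of
degree `n`), so neither is `G`, and `D (g(t)) = n D (t_i) + 0 = -n`.
-/

namespace Pool.Agent.Helper92.HA

open Pool.Agent.Helper92.Weak

variable {K' M : Type*} [Field K'] [Field M] [Algebra K' M] {d : ℕ} {t : Fin d → M}

/-! Fact B: the ring of `D` is a localisation of the polynomial ring `K'[u]`. -/

private theorem factB {u : Fin d → M} (hu : AlgebraicIndependent K' u) {D : DVal K' M}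
    (H0 : ∀ g : MvPolynomial (Fin d) K', 0 ≤ D (MvPolynomial.aeval u g))
    (H1 : ∀ z : M, 0 ≤ D z → ∃ a b : MvPolynomial (Fin d) K', b ≠ 0 ∧
      D (MvPolynomial.aeval u b) = 0 ∧ z * MvPolynomial.aeval u b = MvPolynomial.aeval u a)
    {π : MvPolynomial (Fin d) K'} (hπ : Irreducible π) (hpos : 0 < D (MvPolynomial.aeval u π)) :
    D (MvPolynomial.aeval u π) = 1 ∧ ∀ g, ¬ π ∣ g → D (MvPolynomial.aeval u g) = 0 := by
  have hne : ∀ g : MvPolynomial (Fin d) K', g ≠ 0 → MvPolynomial.aeval u g ≠ 0 := by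
    intro g hg h
    exact hg (hu (by rw [h, map_zero]))
  have hpr : Prime π := hπ.prime
  have hD : ∀ g, ¬ π ∣ g → D (MvPolynomial.aeval u g) = 0 := by
    intro g hg
    by_contra hcon
    have hg0 : g ≠ 0 := by
      rintro rfl
      exact hg (dvd_zero _)
    have hA : 0 < D (MvPolynomial.aeval u g) := lt_of_le_of_ne (H0 g) (Ne.symm hcon)
    obtain ⟨A, hA'⟩ : ∃ A : ℕ, D (MvPolynomial.aeval u g) = A :=
      ⟨_, (Int.toNat_of_nonneg hA.le).symm⟩
    obtain ⟨B, hB'⟩ : ∃ B : ℕ, D (MvPolynomial.aeval u π) = B :=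
      ⟨_, (Int.toNat_of_nonneg hpos.le).symm⟩
    have hA0 : 0 < A := by
      rw [hA'] at hA
      exact_mod_cast hA
    have hz : D (MvPolynomial.aeval u g ^ B / MvPolynomial.aeval u π ^ A) = 0 := by
      rw [D.map_div (pow_ne_zero _ (hne g hg0)) (pow_ne_zero _ (hne π hπ.ne_zero)), D.map_pow,
        D.map_pow, hA', hB']
      ring
    obtain ⟨a, b, hb0, hb, hab⟩ := H1 _ hz.ge
    have h1 : MvPolynomial.aeval u (g ^ B * b) = MvPolynomial.aeval u (a * π ^ A) := by
      rw [map_mul, map_mul, ← hab, map_pow, map_pow]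
      field_simp [pow_ne_zero A (hne π hπ.ne_zero)]
    have h2 : g ^ B * b = a * π ^ A := hu h1
    have h3 : π ∣ g ^ B * b := by
      rw [h2]
      exact dvd_mul_of_dvd_right (dvd_pow_self _ hA0.ne') _
    rcases hpr.dvd_or_dvd h3 with h4 | h4
    · exact hg (hpr.dvd_of_dvd_pow h4)
    · obtain ⟨c, rfl⟩ := h4
      have hc : c ≠ 0 := right_ne_zero_of_mul hb0
      rw [map_mul, D.map_mul (hne _ hπ.ne_zero) (hne _ hc)] at hb
      have h5 := H0 c
      omega
  refine ⟨?_, hD⟩
  obtain ⟨z, hz⟩ := D.surj'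
  have hz' : D z = 1 := hz
  have hz0 : z ≠ 0 := by
    rintro rfl
    rw [D.map_zero] at hz'
    omega
  obtain ⟨a, b, hb0, hb, hab⟩ := H1 z (by rw [hz']; norm_num)
  have ha : D (MvPolynomial.aeval u a) = 1 := by
    rw [← hab, D.map_mul hz0 (hne b hb0), hz', hb]
    norm_num
  have ha0 : a ≠ 0 := by
    rintro rfl
    rw [map_zero, D.map_zero] at ha
    omega
  obtain ⟨n, c, hc, hac⟩ := WfDvdMonoid.max_power_factor ha0 hπ
  have hc0 : c ≠ 0 := by
    rintro rfl
    exact hc (dvd_zero _)
  rw [hac, map_mul, map_pow, D.map_mul (pow_ne_zero _ (hne _ hπ.ne_zero)) (hne _ hc0), D.map_pow,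
    hD c hc, add_zero] at ha
  have h6 : IsUnit (D (MvPolynomial.aeval u π)) := IsUnit.of_mul_eq_one_right _ ha
  rcases Int.isUnit_iff.1 h6 with h7 | h7
  · exact h7
  · omega

/-- the affine coordinates on the chart `i` -/
private def co (t : Fin d → M) (i : Fin (d + 1)) (l : Fin d) : M :=
  hom1 t (i.succAbove l) / hom1 t i

private theorem co_cases (ht : IsTorus K' t) (i j : Fin (d + 1)) :
    hom1 t j / hom1 t i = 1 ∨ ∃ l, hom1 t j / hom1 t i = co t i l := by
  by_cases hj : j = i
  · left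
    rw [hj, div_self (hom1_ne ht i)]
  · obtain ⟨l, hl⟩ := Fin.exists_succAbove_eq hj
    right
    exact ⟨l, by rw [← hl]; rfl⟩

private theorem chart_co (ht : IsTorus K' t) (i : Fin (d + 1)) :
    chart K' (hom1 t) i = Algebra.adjoin K' (Set.range (co t i)) := by
  unfold chart
  apply le_antisymm
  · apply Algebra.adjoin_le
    rintro _ ⟨j, rfl⟩
    rcases co_cases ht i j with h | ⟨l, h⟩
    · change hom1 t j / hom1 t i ∈ Algebra.adjoin K' (Set.range (co t i))
      rw [h]
      exact one_mem _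
    · change hom1 t j / hom1 t i ∈ Algebra.adjoin K' (Set.range (co t i))
      rw [h]
      exact Algebra.subset_adjoin ⟨l, rfl⟩
  · apply Algebra.adjoin_mono
    rintro _ ⟨l, rfl⟩
    exact ⟨i.succAbove l, rfl⟩

private theorem co_indep (ht : IsTorus K' t) (i : Fin (d + 1)) :
    AlgebraicIndependent K' (co t i) := by
  have hgen : IntermediateField.adjoin K' (Set.range (co t i)) = ⊤ := by
    rw [eq_top_iff, ← proj_gen ht i, IntermediateField.adjoin_le_iff]
    rintro _ ⟨j, rfl⟩
    rcases co_cases ht i j with h | ⟨l, h⟩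
    · change hom1 t j / hom1 t i ∈ IntermediateField.adjoin K' (Set.range (co t i))
      rw [h]
      exact one_mem _
    · change hom1 t j / hom1 t i ∈ IntermediateField.adjoin K' (Set.range (co t i))
      rw [h]
      exact IntermediateField.subset_adjoin K' _ ⟨l, rfl⟩
  have halg : Algebra.IsAlgebraic (Algebra.adjoin K' (Set.range (co t i))) M := by
    refine ⟨fun z => ?_⟩
    have hz : z ∈ IntermediateField.adjoin K' (Set.range (co t i)) := by rw [hgen]; trivial
    rw [IntermediateField.mem_adjoin_iff_div] at hz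
    obtain ⟨a, ha, b, hb, h⟩ := hz
    rw [h, div_eq_mul_inv]
    have h1 : IsAlgebraic (Algebra.adjoin K' (Set.range (co t i))) a :=
      isAlgebraic_algebraMap (⟨a, ha⟩ : Algebra.adjoin K' (Set.range (co t i)))
    have h2 : IsAlgebraic (Algebra.adjoin K' (Set.range (co t i))) b :=
      isAlgebraic_algebraMap (⟨b, hb⟩ : Algebra.adjoin K' (Set.range (co t i)))
    exact h1.mul h2.inv
  exact (Algebra.IsAlgebraic.isTranscendenceBasis_of_lift_le_trdeg_of_finite K' (co t i)
      ht.indep.lift_cardinalMk_le_trdeg).1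

/-- the ring of a prime divisor is a localisation of the polynomial ring of a chart -/
private theorem exists_chart (ht : IsTorus K' t) {D : DVal K' M}
    (hD : D ∈ (projSpace ht).primeDivisors) : ∃ i : Fin (d + 1),
      (∀ j, 0 ≤ D (hom1 t j / hom1 t i)) ∧
      (∀ g : MvPolynomial (Fin d) K', 0 ≤ D (MvPolynomial.aeval (co t i) g)) ∧
      (∀ z : M, 0 ≤ D z → ∃ a b : MvPolynomial (Fin d) K', b ≠ 0 ∧
      D (MvPolynomial.aeval (co t i) b) = 0 ∧
        z * MvPolynomial.aeval (co t i) b = MvPolynomial.aeval (co t i) a) := by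
  obtain ⟨i, p, hp, h⟩ := hD
  have h0 : ∀ c : chart K' (hom1 t) i, (c : M) ∈ D.ring := fun c =>
    (h c).2 ⟨c, 1, fun h1 => hp.ne_top ((Ideal.eq_top_iff_one p).2 h1), by simp⟩
  have hpoly : ∀ c : chart K' (hom1 t) i, ∃ g : MvPolynomial (Fin d) K',
      MvPolynomial.aeval (co t i) g = (c : M) := by
    intro c
    have hc : (c : M) ∈ Algebra.adjoin K' (Set.range (co t i)) := by
      rw [← chart_co ht i]
      exact c.2
    rw [Algebra.adjoin_range_eq_range_aeval] at hc
    obtain ⟨g, hg⟩ := hc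
    exact ⟨g, hg⟩
  refine ⟨i, ?_, ?_, ?_⟩
  · intro j
    have h1 : hom1 t j / hom1 t i ∈ chart K' (hom1 t) i :=
      Algebra.subset_adjoin ⟨j, rfl⟩
    exact h0 ⟨_, h1⟩
  · intro g
    have h1 : MvPolynomial.aeval (co t i) g ∈ chart K' (hom1 t) i := by
      rw [chart_co ht i, Algebra.adjoin_range_eq_range_aeval]
      exact ⟨g, rfl⟩
    exact h0 ⟨_, h1⟩
  · intro z hz
    obtain ⟨a, b, hb, hab⟩ := (h z).1 hz
    obtain ⟨g, hg⟩ := hpoly a
    obtain ⟨g', hg'⟩ := hpoly b
    have hb0 : (b : M) ≠ 0 := by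
      intro h1
      apply hb
      have h2 : b = 0 := Subtype.ext h1
      rw [h2]
      exact p.zero_mem
    refine ⟨g, g', ?_, ?_, ?_⟩
    · rintro rfl
      rw [map_zero] at hg'
      exact hb0 hg'.symm
    · rw [hg']
      have h1 : 0 ≤ D (b : M) := h0 b
      have h2 : (b : M)⁻¹ ∈ D.ring := (h _).2 ⟨1, b, hb, by
        rw [inv_mul_cancel₀ hb0]
        simp⟩
      have h3 : 0 ≤ D (b : M)⁻¹ := h2
      rw [D.map_inv] at h3
      omega
    · rw [hg, hg']
      exact hab

theorem proj_fin (ht : IsTorus K' t) {D : DVal K' M} (hD : D ∈ (projSpace ht).primeDivisors)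
    (h : ∀ j, 0 ≤ D (t j)) : ∃ g₀ : MvPolynomial (Fin d) K', Irreducible g₀ ∧
      D (MvPolynomial.aeval t g₀) = 1 ∧
      ∀ g, ¬ g₀ ∣ g → D (MvPolynomial.aeval t g) = 0 := by
  obtain ⟨i, hi, h0, h1⟩ := exists_chart ht hD
  have hne : ∀ g : MvPolynomial (Fin d) K', g ≠ 0 → MvPolynomial.aeval t g ≠ 0 := by
    intro g hg h
    exact hg (ht.indep (by rw [h, map_zero]))
  have hhi : 0 ≤ D (hom1 t i) := by
    refine Fin.cases ?_ (fun j => ?_) i
    · change 0 ≤ D (1 : M)
      rw [D.map_one]
    · exact h j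
  have hDi : D (hom1 t i) = 0 := by
    have h2 := hi 0
    rw [D.map_div (hom1_ne ht 0) (hom1_ne ht i)] at h2
    have h3 : D (hom1 t 0) = 0 := D.map_one
    omega
  have H0 : ∀ g : MvPolynomial (Fin d) K', 0 ≤ D (MvPolynomial.aeval t g) := by
    intro g
    have h2 : MvPolynomial.aeval t g ∈ D.ring := by
      have h3 : MvPolynomial.aeval t g ∈ Algebra.adjoin K' (Set.range t) := by
        rw [Algebra.adjoin_range_eq_range_aeval]
        exact ⟨g, rfl⟩
      have h4 : Algebra.adjoin K' (Set.range t) ≤ D.ring := by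
        apply Algebra.adjoin_le
        rintro _ ⟨j, rfl⟩
        exact h j
      exact h4 h3
    exact h2
  -- elements of the chart times a power of the coordinate are polynomials
  have hpow : ∀ g : MvPolynomial (Fin d) K', ∃ (n : ℕ) (g' : MvPolynomial (Fin d) K'),
      MvPolynomial.aeval (co t i) g * hom1 t i ^ n = MvPolynomial.aeval t g' := by
    intro g
    have hX : ∃ q : MvPolynomial (Fin d) K', hom1 t i = MvPolynomial.aeval t q := by
      refine Fin.cases ?_ (fun j => ?_) i
      · exact ⟨1, by rw [map_one]; rfl⟩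
      · exact ⟨MvPolynomial.X j, by rw [MvPolynomial.aeval_X]; rfl⟩
    have hY : ∀ j, ∃ q : MvPolynomial (Fin d) K', hom1 t j = MvPolynomial.aeval t q := by
      intro j
      refine Fin.cases ?_ (fun j => ?_) j
      · exact ⟨1, by rw [map_one]; rfl⟩
      · exact ⟨MvPolynomial.X j, by rw [MvPolynomial.aeval_X]; rfl⟩
    obtain ⟨q, hq⟩ := hX
    induction g using MvPolynomial.induction_on with
    | C a =>
      refine ⟨0, MvPolynomial.C a, ?_⟩
      rw [pow_zero, mul_one]
      simp
    | add g₁ g₂ ih₁ ih₂ =>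
      obtain ⟨n₁, q₁, e₁⟩ := ih₁
      obtain ⟨n₂, q₂, e₂⟩ := ih₂
      refine ⟨n₁ + n₂, q₁ * q ^ n₂ + q₂ * q ^ n₁, ?_⟩
      rw [map_add, map_add, map_mul, map_mul, map_pow, map_pow, ← hq, ← e₁, ← e₂]
      ring
    | mul_X g₁ l ih₁ =>
      obtain ⟨n₁, q₁, e₁⟩ := ih₁
      obtain ⟨q₂, e₂⟩ := hY (i.succAbove l)
      refine ⟨n₁ + 1, q₁ * q₂, ?_⟩
      rw [map_mul, map_mul, MvPolynomial.aeval_X, ← e₁, ← e₂, pow_succ]
      unfold co
      have h2 := hom1_ne ht i
      field_simp
  have H1 : ∀ z : M, 0 ≤ D z → ∃ a b : MvPolynomial (Fin d) K', b ≠ 0 ∧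
      D (MvPolynomial.aeval t b) = 0 ∧ z * MvPolynomial.aeval t b = MvPolynomial.aeval t a := by
    intro z hz
    obtain ⟨a, b, hb0, hb, hab⟩ := h1 z hz
    obtain ⟨n₁, q₁, e₁⟩ := hpow a
    obtain ⟨n₂, q₂, e₂⟩ := hpow b
    obtain ⟨q, hq⟩ : ∃ q : MvPolynomial (Fin d) K', hom1 t i = MvPolynomial.aeval t q := by
      refine Fin.cases ?_ (fun j => ?_) i
      · exact ⟨1, by rw [map_one]; rfl⟩
      · exact ⟨MvPolynomial.X j, by rw [MvPolynomial.aeval_X]; rfl⟩
    have hbne : MvPolynomial.aeval (co t i) b ≠ 0 := by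
      intro h2
      exact hb0 (co_indep ht i (by rw [h2, map_zero]))
    have h3 : MvPolynomial.aeval t (q₂ * q ^ n₁) =
        MvPolynomial.aeval (co t i) b * hom1 t i ^ (n₂ + n₁) := by
      rw [map_mul, map_pow, ← hq, ← e₂, pow_add]
      ring
    have h4 : MvPolynomial.aeval t (q₂ * q ^ n₁) ≠ 0 := by
      rw [h3]
      exact mul_ne_zero hbne (pow_ne_zero _ (hom1_ne ht i))
    refine ⟨q₁ * q ^ n₂, q₂ * q ^ n₁, ?_, ?_, ?_⟩
    · intro h5
      rw [h5, map_zero] at h4
      exact h4 rfl
    · rw [h3, D.map_mul hbne (pow_ne_zero _ (hom1_ne ht i)), D.map_pow, hb, hDi]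
      ring
    · rw [h3, map_mul, map_pow, ← hq, ← e₁, ← hab, pow_add]
      ring
  -- an irreducible polynomial of positive value
  have hirr : ∃ g₀ : MvPolynomial (Fin d) K', Irreducible g₀ ∧
      0 < D (MvPolynomial.aeval t g₀) := by
    by_contra hcon
    push Not at hcon
    have hall : ∀ a : MvPolynomial (Fin d) K', a ≠ 0 → D (MvPolynomial.aeval t a) = 0 := by
      intro a
      induction a using WfDvdMonoid.induction_on_irreducible with
      | zero => intro h2; exact absurd rfl h2
      | unit w hw =>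
        intro _
        obtain ⟨w', hw'⟩ := hw.exists_right_inv
        have hw0 : w ≠ 0 := hw.ne_zero
        have hw0' : w' ≠ 0 := by
          rintro rfl
          rw [mul_zero] at hw'
          exact zero_ne_one hw'
        have h2 : D (MvPolynomial.aeval t (w * w')) = 0 := by
          rw [hw', map_one, D.map_one]
        rw [map_mul, D.map_mul (hne _ hw0) (hne _ hw0')] at h2
        have h3 := H0 w
        have h4 := H0 w'
        omega
      | mul a q ha hq ih =>
        intro _
        rw [map_mul, D.map_mul (hne _ hq.ne_zero) (hne _ ha), ih ha]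
        have h2 := H0 q
        have h3 := hcon q hq
        omega
    obtain ⟨z, hz⟩ := D.surj'
    have hz' : D z = 1 := hz
    have hz0 : z ≠ 0 := by
      rintro rfl
      rw [D.map_zero] at hz'
      omega
    obtain ⟨a, b, hb0, hb, hab⟩ := H1 z (by rw [hz']; norm_num)
    have ha : D (MvPolynomial.aeval t a) = 1 := by
      rw [← hab, D.map_mul hz0 (hne b hb0), hz', hb]
      norm_num
    have ha0 : a ≠ 0 := by
      rintro rfl
      rw [map_zero, D.map_zero] at ha
      omega
    rw [hall a ha0] at ha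
    omega
  obtain ⟨g₀, hg₀, hpos⟩ := hirr
  obtain ⟨h2, h3⟩ := factB ht.indep H0 H1 hg₀ hpos
  exact ⟨g₀, hg₀, h2, h3⟩

theorem proj_inf (ht : IsTorus K' t) {D : DVal K' M} (hD : D ∈ (projSpace ht).primeDivisors)
    (h : ¬ ∀ j, 0 ≤ D (t j)) (g : MvPolynomial (Fin d) K') (hg : g ≠ 0) :
    D (MvPolynomial.aeval t g) = -(g.totalDegree : ℤ) := by
  classical
  obtain ⟨i, hi, h0, h1⟩ := exists_chart ht hD
  obtain ⟨m, rfl⟩ : ∃ m : Fin d, i = m.succ := by
    rcases Fin.eq_zero_or_eq_succ i with h2 | h2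
    · exfalso
      apply h
      intro j
      have h3 := hi j.succ
      rw [h2] at h3
      have h4 : hom1 t j.succ / hom1 t 0 = t j := by
        change t j / 1 = t j
        rw [div_one]
      rwa [h4] at h3
    · exact h2
  have hm0 : t m ≠ 0 := ht.ne_zero m
  have him : hom1 t m.succ = t m := rfl
  -- the reindexing
  have hex : ∀ j : Fin d, ∃ l : Fin d,
      m.succ.succAbove l = if j = m then 0 else j.succ := by
    intro j
    apply Fin.exists_succAbove_eq
    split_ifs with hj
    · exact (Fin.succ_ne_zero m).symm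
    · intro h2
      exact hj (Fin.succ_injective _ h2)
  choose f hf using hex
  have hinj : Function.Injective f := by
    intro j j' hjj
    have h2 := hf j
    rw [hjj, hf j'] at h2
    split_ifs at h2 with h3 h4 h4
    · rw [h3, h4]
    · exact absurd h2.symm (Fin.succ_ne_zero _)
    · exact absurd h2 (Fin.succ_ne_zero _)
    · exact (Fin.succ_injective _ h2).symm
  let e : Fin d ≃ Fin d := Equiv.ofBijective f (Finite.injective_iff_bijective.1 hinj)
  have hem : co t m.succ (e m) = (t m)⁻¹ := by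
    have h2 : m.succ.succAbove (e m) = 0 := by
      have h3 := hf m
      rw [if_pos rfl] at h3
      exact h3
    unfold co
    rw [h2, him]
    change 1 / t m = _
    rw [one_div]
  have hej : ∀ j, j ≠ m → co t m.succ (e j) * t m = t j := by
    intro j hj
    have h2 : m.succ.succAbove (e j) = j.succ := by
      have h3 := hf j
      rw [if_neg hj] at h3
      exact h3
    unfold co
    rw [h2, him]
    change t j / t m * t m = t j
    rw [div_mul_cancel₀ _ hm0]
  -- the value of the coordinate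
  have hpos : 0 < D (MvPolynomial.aeval (co t m.succ) (MvPolynomial.X (e m) :
      MvPolynomial (Fin d) K')) := by
    rw [MvPolynomial.aeval_X, hem]
    have h2 := hi 0
    have h3 : hom1 t 0 / hom1 t m.succ = (t m)⁻¹ := by
      change 1 / t m = _
      rw [one_div]
    rw [h3] at h2
    refine lt_of_le_of_ne h2 ?_
    intro h4
    apply h
    intro j
    have h5 := hi j.succ
    have h6 : hom1 t j.succ / hom1 t m.succ = t j / t m := rfl
    rw [h6, D.map_div (ht.ne_zero j) hm0] at h5
    rw [D.map_inv] at h4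
    omega
  obtain ⟨hDX, hDg⟩ := factB (co_indep ht m.succ) h0 h1
    (MvPolynomial.X_prime (R := K') (i := e m)).irreducible hpos
  rw [MvPolynomial.aeval_X, hem, D.map_inv] at hDX
  -- homogenisation
  set n := g.totalDegree with hn
  let β : (Fin d →₀ ℕ) → (Fin d →₀ ℕ) := fun α =>
    Finsupp.equivFunOnFinite.symm fun l =>
      if l = e m then n - ∑ j, α j else α (e.symm l)
  have hβm : ∀ α, β α (e m) = n - ∑ j, α j := by
    intro α
    simp [β]
  have hβj : ∀ α j, j ≠ m → β α (e j) = α j := by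
    intro α j hj
    have h2 : e j ≠ e m := fun h3 => hj (e.injective h3)
    simp [β, hj]
  have hle : ∀ α ∈ g.support, ∑ j, α j ≤ n := by
    intro α hα
    have h2 := MvPolynomial.le_totalDegree hα
    rw [Finsupp.sum_fintype _ _ (fun _ => rfl)] at h2
    exact h2
  let q : MvPolynomial (Fin d) K' :=
    ∑ α ∈ g.support, MvPolynomial.monomial (β α) (MvPolynomial.coeff α g)
  have hterm : ∀ α ∈ g.support,
      MvPolynomial.aeval (co t m.succ)
        (MvPolynomial.monomial (β α) (MvPolynomial.coeff α g)) * t m ^ n =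
      MvPolynomial.aeval t (MvPolynomial.monomial α (MvPolynomial.coeff α g)) := by
    intro α hα
    rw [MvPolynomial.aeval_monomial, MvPolynomial.aeval_monomial,
      Finsupp.prod_fintype _ _ (fun _ => pow_zero _),
      Finsupp.prod_fintype _ _ (fun _ => pow_zero _), mul_assoc]
    congr 1
    rw [← Equiv.prod_comp e, ← Finset.mul_prod_erase Finset.univ _ (Finset.mem_univ m),
      ← Finset.mul_prod_erase Finset.univ (fun j => t j ^ α j) (Finset.mem_univ m)]
    have hsum : n = (n - ∑ j, α j) + (α m + ∑ j ∈ Finset.univ.erase m, α j) := by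
      rw [Finset.add_sum_erase Finset.univ (fun j => α j) (Finset.mem_univ m)]
      have h2 := hle α hα
      omega
    have hpw : t m ^ n = t m ^ (n - ∑ j, α j) *
        (t m ^ α m * ∏ j ∈ Finset.univ.erase m, t m ^ α j) := by
      rw [Finset.prod_pow_eq_pow_sum, ← pow_add, ← pow_add, ← hsum]
    have hprod : (∏ j ∈ Finset.univ.erase m, co t m.succ (e j) ^ β α (e j)) *
        ∏ j ∈ Finset.univ.erase m, t m ^ α j = ∏ j ∈ Finset.univ.erase m, t j ^ α j := by
      rw [← Finset.prod_mul_distrib]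
      refine Finset.prod_congr rfl fun j hj => ?_
      have hj' : j ≠ m := Finset.ne_of_mem_erase hj
      rw [hβj α j hj', ← mul_pow, hej j hj']
    rw [← hprod, hpw, hβm, hem]
    have h3 : (t m)⁻¹ ^ (n - ∑ j, α j) * t m ^ (n - ∑ j, α j) = 1 := by
      rw [← mul_pow, inv_mul_cancel₀ hm0, one_pow]
    linear_combination (t m ^ α m * (∏ j ∈ Finset.univ.erase m, co t m.succ (e j) ^ β α (e j)) *
        ∏ j ∈ Finset.univ.erase m, t m ^ α j) * h3
  have hq : MvPolynomial.aeval (co t m.succ) q * t m ^ n = MvPolynomial.aeval t g := by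
    conv_rhs => rw [g.as_sum]
    rw [map_sum, map_sum, Finset.sum_mul]
    exact Finset.sum_congr rfl hterm
  -- `q` is not divisible by the coordinate
  obtain ⟨α₀, hα₀, hdeg⟩ : ∃ α₀ ∈ g.support, ∑ j, α₀ j = n := by
    have h2 : g.support.Nonempty := MvPolynomial.support_nonempty.2 hg
    obtain ⟨α₀, h3, h4⟩ := Finset.exists_mem_eq_sup g.support h2 fun s => s.sum fun _ e => e
    refine ⟨α₀, h3, ?_⟩
    rw [hn, MvPolynomial.totalDegree, h4, Finsupp.sum_fintype _ _ (fun _ => rfl)]
  have hcoeff : MvPolynomial.coeff (β α₀) q = MvPolynomial.coeff α₀ g := by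
    change MvPolynomial.coeff (β α₀)
      (∑ α ∈ g.support, MvPolynomial.monomial (β α) (MvPolynomial.coeff α g)) = _
    rw [MvPolynomial.coeff_sum, Finset.sum_eq_single α₀]
    · rw [MvPolynomial.coeff_monomial, if_pos rfl]
    · intro α hα hne
      rw [MvPolynomial.coeff_monomial, if_neg]
      intro h2
      apply hne
      have h3 : ∀ j, j ≠ m → α j = α₀ j := by
        intro j hj
        have h4 := DFunLike.congr_fun h2 (e j)
        rwa [hβj α j hj, hβj α₀ j hj] at h4
      have h5 : n - ∑ j, α j = n - ∑ j, α₀ j := by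
        have h4 := DFunLike.congr_fun h2 (e m)
        rwa [hβm, hβm] at h4
      have h6 := hle α hα
      have h7 : ∑ j, α j = ∑ j, α₀ j := by omega
      rw [← Finset.add_sum_erase Finset.univ (fun j => α j) (Finset.mem_univ m),
        ← Finset.add_sum_erase Finset.univ (fun j => α₀ j) (Finset.mem_univ m)] at h7
      have h8 : ∑ j ∈ Finset.univ.erase m, α j = ∑ j ∈ Finset.univ.erase m, α₀ j :=
        Finset.sum_congr rfl fun j hj => h3 j (Finset.ne_of_mem_erase hj)
      ext j
      by_cases hj : j = m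
      · rw [hj]
        omega
      · exact h3 j hj
    · intro h2
      exact absurd hα₀ h2
  have hndvd : ¬ (MvPolynomial.X (e m) : MvPolynomial (Fin d) K') ∣ q := by
    rintro ⟨c, hc⟩
    rw [hc, MvPolynomial.coeff_X_mul', if_neg] at hcoeff
    · exact MvPolynomial.mem_support_iff.1 hα₀ hcoeff.symm
    · rw [Finsupp.notMem_support_iff, hβm, hdeg, Nat.sub_self]
  have hq0 : q ≠ 0 := by
    intro h2
    apply hndvd
    rw [h2]
    exact dvd_zero _
  have hqne : MvPolynomial.aeval (co t m.succ) q ≠ 0 := by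
    intro h2
    exact hq0 (co_indep ht m.succ (by rw [h2, map_zero]))
  rw [← hq, D.map_mul hqne (pow_ne_zero _ hm0), hDg q hndvd, D.map_pow]
  have h2 : D (t m) = -1 := by omega
  rw [h2]
  ring

end Pool.Agent.Helper92.HA
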