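import Pool.Agent.Helper92.HA.ArrDefs
import Pool.Agent.Helper92.Weak.VarLem
import Mathlib.RingTheory.Polynomial.UniqueFactorization
import Mathlib.RingTheory.MvPolynomial.Homogeneous

set_option autoImplicit false

/-!
# HA-28 PSpaceThm: projective space

`M = K'(t₁, ..., t_d)` (`IsTorus K' t`). `projSpace` is `ℙᵈ`: the closure of the point `(1 : t₁ : ... : t_d)`.

`proj_gen`. The field generated over `K'` by the `x j / x i` contains `t_j = (x (j+1) / x i) / (x 0 / x i)`; `gen`.
`proj_normal`. The chart `i` is generated over `K'` by the `d` elements `x j / x i`, `j ≠ i`, which generate `M` over `K'`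
and so are algebraically independent (`trdeg M = d`: `d` elements over which `M` is algebraic,
`IsTranscendenceBasis` of the right cardinality), so the chart is isomorphic to `MvPolynomial (Fin d) K'`, a UFD,
so integrally closed (`AlgEquiv` of `Algebra.adjoin K' (Set.range _)` with the polynomial ring:
`AlgebraicIndependent.aevalEquiv`; `IsIntegrallyClosed.of_equiv`).
-/

namespace Pool.Agent.Helper92.HA

open Pool.Agent.Helper92.Weak

variable {K' M : Type*} [Field K'] [Field M] [Algebra K' M] {d : ℕ} {t : Fin d → M}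

theorem hom1_ne (ht : IsTorus K' t) (i : Fin (d + 1)) : hom1 t i ≠ 0 := by
  refine Fin.cases ?_ (fun j => ?_) i
  · exact one_ne_zero
  · exact ht.ne_zero j

theorem proj_gen (ht : IsTorus K' t) (i : Fin (d + 1)) :
    IntermediateField.adjoin K' (Set.range fun j => hom1 t j / hom1 t i) = ⊤ := by
  rw [eq_top_iff, ← ht.gen, IntermediateField.adjoin_le_iff]
  rintro _ ⟨l, rfl⟩
  have h1 : ∀ j, hom1 t j / hom1 t i ∈
      IntermediateField.adjoin K' (Set.range fun j => hom1 t j / hom1 t i) :=
    fun j => IntermediateField.subset_adjoin K' _ ⟨j, rfl⟩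
  have h2 : t l = (hom1 t l.succ / hom1 t i) / (hom1 t 0 / hom1 t i) := by
    have h3 := hom1_ne ht i
    have h4 : hom1 t l.succ = t l := rfl
    have h5 : hom1 t 0 = 1 := rfl
    rw [h4, h5]
    field_simp
  change t l ∈ IntermediateField.adjoin K' (Set.range fun j => hom1 t j / hom1 t i)
  rw [h2]
  exact div_mem (h1 _) (h1 _)

theorem proj_normal (ht : IsTorus K' t) (i : Fin (d + 1)) :
    IsIntegrallyClosed (chart K' (hom1 t) i) := by
  set u : Fin d → M := fun l => hom1 t (i.succAbove l) / hom1 t i with hu
  have hi := hom1_ne ht i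
  have hcases : ∀ j, hom1 t j / hom1 t i = 1 ∨ ∃ l, hom1 t j / hom1 t i = u l := by
    intro j
    by_cases hj : j = i
    · left
      rw [hj, div_self hi]
    · obtain ⟨l, hl⟩ := Fin.exists_succAbove_eq hj
      right
      exact ⟨l, by rw [← hl]⟩
  -- `u` generates the chart
  have hchart : chart K' (hom1 t) i = Algebra.adjoin K' (Set.range u) := by
    unfold chart
    apply le_antisymm
    · apply Algebra.adjoin_le
      rintro _ ⟨j, rfl⟩
      rcases hcases j with h | ⟨l, h⟩
      · change hom1 t j / hom1 t i ∈ Algebra.adjoin K' (Set.range u)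
        rw [h]
        exact one_mem _
      · change hom1 t j / hom1 t i ∈ Algebra.adjoin K' (Set.range u)
        rw [h]
        exact Algebra.subset_adjoin ⟨l, rfl⟩
    · apply Algebra.adjoin_mono
      rintro _ ⟨l, rfl⟩
      exact ⟨i.succAbove l, rfl⟩
  have hgen : IntermediateField.adjoin K' (Set.range u) = ⊤ := by
    rw [eq_top_iff, ← proj_gen ht i, IntermediateField.adjoin_le_iff]
    rintro _ ⟨j, rfl⟩
    rcases hcases j with h | ⟨l, h⟩
    · change hom1 t j / hom1 t i ∈ IntermediateField.adjoin K' (Set.range u)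
      rw [h]
      exact one_mem _
    · change hom1 t j / hom1 t i ∈ IntermediateField.adjoin K' (Set.range u)
      rw [h]
      exact IntermediateField.subset_adjoin K' _ ⟨l, rfl⟩
  have halg : Algebra.IsAlgebraic (Algebra.adjoin K' (Set.range u)) M := by
    refine ⟨fun z => ?_⟩
    have hz : z ∈ IntermediateField.adjoin K' (Set.range u) := by rw [hgen]; trivial
    rw [IntermediateField.mem_adjoin_iff_div] at hz
    obtain ⟨a, ha, b, hb, h⟩ := hz
    rw [h, div_eq_mul_inv]
    have h1 : IsAlgebraic (Algebra.adjoin K' (Set.range u)) a :=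
      isAlgebraic_algebraMap (⟨a, ha⟩ : Algebra.adjoin K' (Set.range u))
    have h2 : IsAlgebraic (Algebra.adjoin K' (Set.range u)) b :=
      isAlgebraic_algebraMap (⟨b, hb⟩ : Algebra.adjoin K' (Set.range u))
    exact h1.mul h2.inv
  have hind : AlgebraicIndependent K' u :=
    (Algebra.IsAlgebraic.isTranscendenceBasis_of_lift_le_trdeg_of_finite K' u
      ht.indep.lift_cardinalMk_le_trdeg).1
  rw [hchart]
  exact IsIntegrallyClosed.of_equiv hind.aevalEquiv.toRingEquiv

end Pool.Agent.Helper92.HA
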